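import Pool.Agent.Lib.H24P.P0
import Pool.Agent.Lib.H24P.P1
import Pool.Agent.Lib.H24P.P2
import Pool.Agent.Lib.H59P.M3B
import Pool.Agent.Lib.H59P.M3C
import Pool.Agent.Lib.H59P.M3F
import Pool.Agent.Lib.H59P.M4

/-!
# Project H24Q, chunk A1 (M): mean values of the bounded part (ports of H59P/M3E, M3F, M4)
-/

open Finset

namespace Pool.Agent.Lib.H24Q

open Pool.Agent.Lib.H68T Pool.Agent.Lib.H18Q Pool.Agent.Lib.H59P Pool.Agent.Lib.H24P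

theorem a1_per {m : ℕ} (φ : Fin m → ℤ → ℤ) (hφ : Cp φ) (l P : ℕ) (hlP : l ∣ P) (n : ℤ) :
    Wf l (at' φ (n + P)) = Wf l (at' φ n) := by
  unfold Wf
  congr 1
  refine Finset.prod_congr rfl fun i _ => ?_
  congr 1
  exact P2_gl φ hφ l P hlP i n

theorem a1_per_prod {m : ℕ} (φ : Fin m → ℤ → ℤ) (hφ : Cp φ) (S : Finset ℕ) (P : ℕ) (hP : ∀ l ∈ S, l ∣ P) (n : ℤ) :
    ∏ l ∈ S, Wf l (at' φ (n + P)) = ∏ l ∈ S, Wf l (at' φ n) :=
  Finset.prod_congr rfl fun l hl => a1_per φ hφ l P (hP l hl) n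

theorem a1_prime {m : ℕ} (l : ℕ) (hl : l.Prime) (φ : Fin m → ℤ → ℤ) :
    ∑ n ∈ range l, Wf l (at' φ (n : ℤ)) = l * tpf l φ := by
  have hl0 : (l : ℝ) ≠ 0 := by exact_mod_cast hl.pos.ne'
  unfold tpf Wf at'
  rw [Finset.sum_sub_distrib, Finset.sum_const, Finset.card_range, nsmul_eq_mul, mul_one]
  field_simp

theorem a1_set {m : ℕ} (φ : Fin m → ℤ → ℤ) (hφ : Cp φ) (S : Finset ℕ) : (∀ l ∈ S, l.Prime) →
    ∑ n ∈ range (∏ l ∈ S, l), ∏ l ∈ S, Wf l (at' φ (n : ℤ)) = ((∏ l ∈ S, l : ℕ) : ℝ) * ∏ l ∈ S, tpf l φ := by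
  induction S using Finset.induction_on with
  | empty => intro _; simp
  | insert a s ha ih =>
    intro hS
    have hap : a.Prime := hS a (Finset.mem_insert_self _ _)
    have hs : ∀ l ∈ s, l.Prime := fun l hl => hS l (Finset.mem_insert_of_mem hl)
    have hcop : Nat.Coprime a (∏ l ∈ s, l) := by
      apply Nat.Coprime.prod_right
      intro l hl
      rw [Nat.coprime_primes hap (hs l hl)]
      rintro rfl
      exact ha hl
    have hpos : 0 < ∏ l ∈ s, l := Finset.prod_pos fun l hl => (hs l hl).pos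
    have key := M3d (fun n => ((Wf a (at' φ n) : ℝ) : ℂ)) (fun n => ((∏ l ∈ s, Wf l (at' φ n) : ℝ) : ℂ)) a
      (∏ l ∈ s, l) hap.pos hpos hcop
      (fun m => by
        show ((Wf a (at' φ (m + a)) : ℝ) : ℂ) = ((Wf a (at' φ m) : ℝ) : ℂ)
        rw [a1_per φ hφ a a dvd_rfl m])
      (fun m => by
        show ((∏ l ∈ s, Wf l (at' φ (m + ((∏ l ∈ s, l : ℕ) : ℤ))) : ℝ) : ℂ) = ((∏ l ∈ s, Wf l (at' φ m) : ℝ) : ℂ)
        rw [a1_per_prod φ hφ s _ (fun l hl => Finset.dvd_prod_of_mem _ hl) m])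
    have key' : ∑ n ∈ range (a * ∏ l ∈ s, l), Wf a (at' φ (n : ℤ)) * ∏ l ∈ s, Wf l (at' φ (n : ℤ)) =
        (∑ n ∈ range a, Wf a (at' φ (n : ℤ))) * ∑ n ∈ range (∏ l ∈ s, l), ∏ l ∈ s, Wf l (at' φ (n : ℤ)) := by
      have : ((∑ n ∈ range (a * ∏ l ∈ s, l), Wf a (at' φ (n : ℤ)) * ∏ l ∈ s, Wf l (at' φ (n : ℤ)) : ℝ) : ℂ) =
          (((∑ n ∈ range a, Wf a (at' φ (n : ℤ))) * ∑ n ∈ range (∏ l ∈ s, l), ∏ l ∈ s, Wf l (at' φ (n : ℤ)) : ℝ) : ℂ) := by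
        rw [Complex.ofReal_sum, Complex.ofReal_mul, Complex.ofReal_sum, Complex.ofReal_sum]
        rw [← key]
        apply Finset.sum_congr rfl
        intro n _
        rw [Complex.ofReal_mul]
      exact_mod_cast this
    rw [Finset.prod_insert ha, Finset.prod_insert ha]
    have e1 : ∑ n ∈ range (a * ∏ l ∈ s, l), ∏ l ∈ insert a s, Wf l (at' φ (n : ℤ)) =
        ∑ n ∈ range (a * ∏ l ∈ s, l), Wf a (at' φ (n : ℤ)) * ∏ l ∈ s, Wf l (at' φ (n : ℤ)) := by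
      apply Finset.sum_congr rfl
      intro n _
      rw [Finset.prod_insert ha]
    rw [e1, key', ih hs, a1_prime a hap φ, Nat.cast_mul]
    ring

/-- Proof. As `M3e` (`H59P/M3E.lean`) with `n + h i` replaced by `φ i n`: induction over the prime factors with `M3d`,
`P2_Wd` for the periods. -/
theorem A1_mean {m : ℕ} (φ : Fin m → ℤ → ℤ) (hφ : Cp φ) (d : ℕ) (hd : Squarefree d) :
    ∑ n ∈ range d, Wdf d (at' φ (n : ℤ)) = d * tdf d φ := by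
  have h1 := a1_set φ hφ d.primeFactors (fun l hl => Nat.prime_of_mem_primeFactors hl)
  rw [Nat.prod_primeFactors_of_squarefree hd] at h1
  exact h1

/-- Proof. As `M3f` (`H59P/M3F.lean`): period `R d` (`P2_Ph`, `P2_Wd`), bounds `P0_PhR`, `P0_W`, mean
`MRf p R φ * tdf d φ` (`M3d`, `A1_mean`), `M3c`. -/
theorem A1_one {m : ℕ} (φ : Fin m → ℤ → ℤ) (hφ : Cp φ) (p : Fin m → Ch) (R d : ℕ) (hR : 0 < R)
    (hd : ∀ i, (p i).1 ∣ R) (hsq : Squarefree d) (hc : Nat.Coprime d R) (a H : ℕ) :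
    ‖∑ n ∈ Ico a (a + H), Phf p R.primeFactors (at' φ (n : ℤ)) * ((Wdf d (at' φ (n : ℤ)) : ℝ) : ℂ) -
      H * (MRf p R φ * ((tdf d φ : ℝ) : ℂ))‖ ≤
      2 * (R * d) * (((R : ℝ) / (Nat.totient R : ℝ)) * ((d : ℝ) / (Nat.totient d : ℝ))) ^ m := by
  have hd0 : 0 < d := Nat.pos_of_ne_zero hsq.ne_zero
  obtain ⟨f, hf⟩ : ∃ f : ℤ → ℂ, f = fun n => Phf p R.primeFactors (at' φ n) := ⟨_, rfl⟩
  obtain ⟨g, hg⟩ : ∃ g : ℤ → ℂ, g = fun n => ((Wdf d (at' φ n) : ℝ) : ℂ) := ⟨_, rfl⟩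
  have hfper : ∀ x, f (x + R) = f x := fun x => by
    rw [hf]
    exact P2_Ph φ hφ p R R dvd_rfl hd x
  have hgper : ∀ x, g (x + d) = g x := by
    intro x
    rw [hg]
    show ((Wdf d (at' φ (x + d)) : ℝ) : ℂ) = ((Wdf d (at' φ x) : ℝ) : ℂ)
    rw [P2_Wd φ hφ d d dvd_rfl x]
  have hfgper : ∀ x : ℤ, f (x + ((R * d : ℕ) : ℤ)) * g (x + ((R * d : ℕ) : ℤ)) = f x * g x := by
    intro x
    have e1 : f (x + ((R * d : ℕ) : ℤ)) = f x := by
      have := m3c_per f R hfper d x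
      rw [← this]
      congr 1
      push_cast
      ring
    have e2 : g (x + ((R * d : ℕ) : ℤ)) = g x := by
      have := m3c_per g d hgper R x
      rw [← this]
      congr 1
    rw [e1, e2]
  have hbd : ∀ x : ℤ, ‖f x * g x‖ ≤
      (((R : ℝ) / (Nat.totient R : ℝ)) * ((d : ℝ) / (Nat.totient d : ℝ))) ^ m := by
    intro x
    rw [norm_mul, mul_pow]
    apply mul_le_mul
    · rw [hf]
      exact P0_PhR p R hR _
    · rw [hg]
      show ‖((Wdf d (at' φ x) : ℝ) : ℂ)‖ ≤ _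
      rw [Complex.norm_real, Real.norm_eq_abs]
      exact P0_W d hsq _
    · exact norm_nonneg _
    · positivity
  have key := M3c (fun x => f x * g x) (R * d) (Nat.mul_pos hR hd0) hfgper _ hbd a H
  have hprod : ∑ n ∈ range (R * d), f n * g n = (∑ n ∈ range R, f n) * ∑ n ∈ range d, g n :=
    M3d f g R d hR hd0 hc.symm hfper hgper
  have hgsum : ∑ n ∈ range d, g n = d * ((tdf d φ : ℝ) : ℂ) := by
    have := A1_mean φ hφ d hsq
    have h2 : ((∑ n ∈ range d, Wdf d (at' φ (n : ℤ)) : ℝ) : ℂ) = ((d * tdf d φ : ℝ) : ℂ) := by rw [this]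
    rw [Complex.ofReal_sum] at h2
    rw [hg]
    rw [show ∑ n ∈ range d, (fun n : ℤ => ((Wdf d (at' φ n) : ℝ) : ℂ)) n = ∑ n ∈ range d, ((Wdf d (at' φ (n : ℤ)) : ℝ) : ℂ) from rfl, h2]
    push_cast
    rfl
  have hRc : (R : ℂ) ≠ 0 := by exact_mod_cast hR.ne'
  have hdc : (d : ℂ) ≠ 0 := by exact_mod_cast hd0.ne'
  have hmean : (∑ n ∈ range (R * d), f n * g n) / ((R * d : ℕ) : ℂ) =
      MRf p R φ * ((tdf d φ : ℝ) : ℂ) := by
    rw [hprod, hgsum]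
    have e3 : ∑ n ∈ range R, f n = ∑ n ∈ range R, Phf p R.primeFactors (at' φ (n : ℤ)) := by rw [hf]
    rw [e3]
    unfold MRf
    push_cast
    field_simp
  have key2 : ‖∑ n ∈ Ico a (a + H), f n * g n - H * (MRf p R φ * ((tdf d φ : ℝ) : ℂ))‖ ≤
      2 * ((R * d : ℕ) : ℝ) * (((R : ℝ) / (Nat.totient R : ℝ)) * ((d : ℝ) / (Nat.totient d : ℝ))) ^ m := by
    rw [← hmean]
    exact key
  rw [Nat.cast_mul, hf, hg] at key2
  exact key2

/-- Proof. As `M4` (`H59P/M4.lean`): `P1_M2` for each `n`, `A1_one` for each `d ∈ SF (D/R) R`, `M3b`. -/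
theorem A1_M4 {m : ℕ} (φ : Fin m → ℤ → ℤ) (hφ : Cp φ) (Q D R : ℕ) (hDQ : D ≤ Q) (hR : 0 < R)
    (p : Fin m → Ch) (hp : ∀ i, p i ∈ PC Q) (hd : ∀ i, (p i).1 ∣ R) (a H : ℕ) :
    ‖∑ n ∈ Ico a (a + H),
      ∑ κ ∈ (Fintype.piFinset fun i => KS Q (p i).1).filter (fun κ => R.lcm (univ.lcm κ) ≤ D),
        ∏ i, gk (p i) (κ i) (φ i (n : ℤ)) -
      H * (MRf p R φ * ((∑ d ∈ SF (D / R) R, tdf d φ : ℝ) : ℂ))‖ ≤
      2 * (D : ℝ) ^ 2 * (2 * (1 + Real.log Q)) ^ (2 * m) := by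
  have e1 : ∑ n ∈ Ico a (a + H),
      ∑ κ ∈ (Fintype.piFinset fun i => KS Q (p i).1).filter (fun κ => R.lcm (univ.lcm κ) ≤ D),
        ∏ i, gk (p i) (κ i) (φ i (n : ℤ)) =
      ∑ d ∈ SF (D / R) R, ∑ n ∈ Ico a (a + H), Phf p R.primeFactors (at' φ (n : ℤ)) * ((Wdf d (at' φ (n : ℤ)) : ℝ) : ℂ) := by
    symm
    rw [sum_comm]
    refine sum_congr rfl fun n _ => ?_
    have h := P1_M2 Q D R hDQ hR p hp hd (at' φ (n : ℤ))
    rw [mul_sum] at h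
    exact h.symm
  have e2 : (H : ℂ) * (MRf p R φ * ((∑ d ∈ SF (D / R) R, tdf d φ : ℝ) : ℂ)) =
      ∑ d ∈ SF (D / R) R, (H : ℂ) * (MRf p R φ * ((tdf d φ : ℝ) : ℂ)) := by
    push_cast
    rw [mul_sum, mul_sum]
  rw [e1, e2, ← sum_sub_distrib]
  have key : ∀ d ∈ SF (D / R) R, ‖∑ n ∈ Ico a (a + H), Phf p R.primeFactors (at' φ (n : ℤ)) * ((Wdf d (at' φ (n : ℤ)) : ℝ) : ℂ) -
      (H : ℂ) * (MRf p R φ * ((tdf d φ : ℝ) : ℂ))‖ ≤
      2 * (D : ℝ) * (2 * (1 + Real.log Q)) ^ (2 * m) := by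
    intro d hdm
    have hdm' : (1 ≤ d ∧ d ≤ D / R) ∧ Squarefree d ∧ Nat.Coprime d R := by
      simpa [SF] using hdm
    obtain ⟨⟨h1, h2⟩, h3, h4⟩ := hdm'
    have h5 := A1_one φ hφ p R d hR hd h3 h4 a H
    have h6 : R * d ≤ D := by
      have := (Nat.le_div_iff_mul_le hR).1 h2
      rwa [mul_comm] at this
    have hRD : R ≤ D := le_trans (Nat.le_mul_of_pos_right R h1) h6
    have hdD : d ≤ D := le_trans (Nat.le_mul_of_pos_left d hR) h6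
    have hlog : ∀ m : ℕ, 1 ≤ m → m ≤ D → (m : ℝ) / (Nat.totient m : ℝ) ≤ 2 * (1 + Real.log Q) := by
      intro m hm hmD
      refine (M3b m hm).trans ?_
      have hm0 : (0 : ℝ) < m := by exact_mod_cast hm
      have : Real.log m ≤ Real.log Q :=
        Real.log_le_log hm0 (by exact_mod_cast hmD.trans hDQ)
      linarith
    have b1 := hlog R hR hRD
    have b2 := hlog d h1 hdD
    have b0 : (0 : ℝ) ≤ (R : ℝ) / (Nat.totient R : ℝ) := by positivity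
    have b0' : (0 : ℝ) ≤ (d : ℝ) / (Nat.totient d : ℝ) := by positivity
    refine h5.trans ?_
    have b3 : (((R : ℝ) / (Nat.totient R : ℝ)) * ((d : ℝ) / (Nat.totient d : ℝ))) ^ m ≤
        (2 * (1 + Real.log Q)) ^ (2 * m) := by
      rw [pow_mul]
      apply pow_le_pow_left₀ (mul_nonneg b0 b0')
      rw [sq]
      exact mul_le_mul b1 b2 b0' (b0.trans b1)
    have b4 : (R : ℝ) * d ≤ D := by exact_mod_cast h6
    have b5 : (0 : ℝ) ≤ (((R : ℝ) / (Nat.totient R : ℝ)) * ((d : ℝ) / (Nat.totient d : ℝ))) ^ m := by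
      positivity
    calc 2 * ((R : ℝ) * d) * (((R : ℝ) / (Nat.totient R : ℝ)) * ((d : ℝ) / (Nat.totient d : ℝ))) ^ m
        ≤ 2 * (D : ℝ) * (((R : ℝ) / (Nat.totient R : ℝ)) * ((d : ℝ) / (Nat.totient d : ℝ))) ^ m := by
          gcongr
      _ ≤ 2 * (D : ℝ) * (2 * (1 + Real.log Q)) ^ (2 * m) := by gcongr
  have hcard : ((SF (D / R) R).card : ℝ) ≤ D := by
    have h1 : (SF (D / R) R).card ≤ (Icc 1 (D / R)).card := by
      unfold SF
      exact card_filter_le _ _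
    rw [Nat.card_Icc] at h1
    have h2 : D / R ≤ D := Nat.div_le_self _ _
    exact_mod_cast (by omega : (SF (D / R) R).card ≤ D)
  calc ‖∑ d ∈ SF (D / R) R, (∑ n ∈ Ico a (a + H), Phf p R.primeFactors (at' φ (n : ℤ)) * ((Wdf d (at' φ (n : ℤ)) : ℝ) : ℂ) -
      (H : ℂ) * (MRf p R φ * ((tdf d φ : ℝ) : ℂ)))‖
      ≤ ∑ d ∈ SF (D / R) R, ‖∑ n ∈ Ico a (a + H), Phf p R.primeFactors (at' φ (n : ℤ)) * ((Wdf d (at' φ (n : ℤ)) : ℝ) : ℂ) -
      (H : ℂ) * (MRf p R φ * ((tdf d φ : ℝ) : ℂ))‖ := norm_sum_le _ _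
    _ ≤ ∑ d ∈ SF (D / R) R, 2 * (D : ℝ) * (2 * (1 + Real.log Q)) ^ (2 * m) := sum_le_sum key
    _ = ((SF (D / R) R).card : ℝ) * (2 * (D : ℝ) * (2 * (1 + Real.log Q)) ^ (2 * m)) := by
        rw [sum_const, nsmul_eq_mul]
    _ ≤ (D : ℝ) * (2 * (D : ℝ) * (2 * (1 + Real.log Q)) ^ (2 * m)) := by
        apply mul_le_mul_of_nonneg_right hcard
        have : (0 : ℝ) ≤ (2 * (1 + Real.log Q)) ^ (2 * m) := by
          rw [pow_mul]; positivity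
        positivity
    _ = 2 * (D : ℝ) ^ 2 * (2 * (1 + Real.log Q)) ^ (2 * m) := by ring

end Pool.Agent.Lib.H24Q
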