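import Pool.Agent.Lib.H24Q.Defs
import Pool.Agent.Lib.H24Q.A1
import Pool.Agent.Lib.H24P.G1
import Pool.Agent.Lib.H24P.T5
import Pool.Agent.Lib.H24P.P1

/-!
# Project H24Q, chunk A2 (M): truncation of the singular series from FG (compare H24P/T2, T3, T5)
-/

open Finset

namespace Pool.Agent.Lib.H24Q

open Pool.Agent.Lib.H68T Pool.Agent.Lib.H18Q Pool.Agent.Lib.H59P Pool.Agent.Lib.H24P

/-- Proof. `P1_Wd` for each `d ∈ Δ` (compare `T2_iden` in `H24P/T2.lean`), so the inner sum is `∑_{d ∈ Δ} Wdf d (at' φ n)`;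
`d ∣ N`, so the sum over `n < N` is `(N/d)` periods (`P2_Wd`), each with sum `d tdf d φ` (`A1_mean`). -/
theorem A2_iden {m : ℕ} (φ : Fin m → ℤ → ℤ) (hφ : Cp φ) (Z N : ℕ) (Δ : Finset ℕ)
    (hΔ : ∀ d ∈ Δ, Squarefree d ∧ d ≤ Z ∧ d ∣ N) :
    ∑ n ∈ Ico 0 (0 + N), ∑ κ ∈ (Fintype.piFinset fun _ : Fin m => KS Z 1).filter
        (fun κ => univ.lcm κ ∈ Δ), ∏ i, gk p0 (κ i) (φ i (n : ℤ)) =
      (N : ℂ) * ((∑ d ∈ Δ, tdf d φ : ℝ) : ℂ) := by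
  have h1 : ∀ n ∈ Ico 0 (0 + N), ∑ κ ∈ (Fintype.piFinset fun _ : Fin m => KS Z 1).filter
        (fun κ => univ.lcm κ ∈ Δ), ∏ i, gk p0 (κ i) (φ i ((n : ℕ) : ℤ)) =
      ∑ d ∈ Δ, ((Wdf d (at' φ ((n : ℕ) : ℤ)) : ℝ) : ℂ) := by
    intro n _
    have h2 := t2_comp Z Δ (fun d hd => ⟨(hΔ d hd).1, (hΔ d hd).2.1⟩) (at' φ ((n : ℕ) : ℤ))
    rw [Complex.ofReal_sum] at h2
    exact h2
  rw [Finset.sum_congr rfl h1, Finset.sum_comm, Complex.ofReal_sum, Finset.mul_sum]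
  refine Finset.sum_congr rfl fun d hd => ?_
  obtain ⟨hsq, -, j, hj⟩ := hΔ d hd
  have hper : ∀ n : ℤ, (fun n : ℤ => ((Wdf d (at' φ n) : ℝ) : ℂ)) (n + d) = (fun n : ℤ => ((Wdf d (at' φ n) : ℝ) : ℂ)) n := by
    intro n
    show ((Wdf d (at' φ (n + d)) : ℝ) : ℂ) = ((Wdf d (at' φ n) : ℝ) : ℂ)
    rw [P2_Wd φ hφ d d dvd_rfl n]
  have h3 := t2_per (fun n : ℤ => ((Wdf d (at' φ n) : ℝ) : ℂ)) d hper j
  rw [← hj] at h3
  have h4 : ∑ n ∈ range d, ((Wdf d (at' φ (n : ℤ)) : ℝ) : ℂ) = d * ((tdf d φ : ℝ) : ℂ) := by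
    rw [← Complex.ofReal_sum, A1_mean φ hφ d hsq]
    push_cast
    rfl
  refine h3.trans ?_
  have h5 : ∑ n ∈ range d, (fun n : ℤ => ((Wdf d (at' φ n) : ℝ) : ℂ)) n = d * ((tdf d φ : ℝ) : ℂ) := h4
  rw [h5, hj]
  push_cast
  ring

/-- Proof. `N = (Q^2)! (H0 + 1)`, `Z = Q^2`: `A2_iden`, and `FG` at the level `Q^2` with `p = p0`, `D = E`, `a = 0`,
`H = N ≥ H0` (`univ.lcm (fun i => 1 * κ i) ∈ Δ`, so it is `> E`); divide by `N²`. `1 + log Q² ≤ 2 (1 + log Q)`,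
`(2 x)^C = 2^C x^C`. -/
theorem A2_ms {C c : ℝ} (hC : 1 ≤ C) {Q H0 : ℕ} (hQ : 1 ≤ Q) {m : ℕ} {Ω : Type} {S : Finset Ω}
    {φ : Ω → Fin m → ℤ → ℤ} (hF : Fam C c Q H0 S φ) (Δ : Finset ℕ) (E : ℕ) (hE : 1 ≤ E)
    (hΔ : ∀ d ∈ Δ, Squarefree d ∧ E < d ∧ d ≤ Q ^ 2) :
    ∑ ω ∈ S, (∑ d ∈ Δ, tdf d (φ ω)) ^ 2 ≤
      C * 2 ^ C * (1 + Real.log Q) ^ C * S.card * (E : ℝ) ^ (-c) := by
  classical
  have hQr : (1 : ℝ) ≤ Q := by exact_mod_cast hQ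
  have hlQ : 0 ≤ Real.log Q := Real.log_nonneg hQr
  have hQ2 : 1 ≤ Q ^ 2 := Nat.one_le_pow _ _ (by omega)
  obtain ⟨N, hN⟩ : ∃ N : ℕ, N = (Q ^ 2).factorial * (H0 + 1) := ⟨_, rfl⟩
  have hN0 : 0 < N := by
    rw [hN]
    exact Nat.mul_pos (Nat.factorial_pos _) (Nat.succ_pos _)
  have hNH : H0 ≤ N := by
    rw [hN]
    exact (Nat.le_succ H0).trans (Nat.le_mul_of_pos_left _ (Nat.factorial_pos _))
  have hNr : (0 : ℝ) < N := by exact_mod_cast hN0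
  have hΔ' : ∀ d ∈ Δ, Squarefree d ∧ d ≤ Q ^ 2 ∧ d ∣ N := by
    intro d hd
    obtain ⟨h1, h2, h3⟩ := hΔ d hd
    refine ⟨h1, h3, ?_⟩
    rw [hN]
    exact (Nat.dvd_factorial (by omega) h3).mul_right _
  obtain ⟨T, hT⟩ : ∃ T : Finset (Fin m → ℕ), T = (Fintype.piFinset fun _ : Fin m => KS (Q ^ 2) 1).filter
    (fun κ => univ.lcm κ ∈ Δ) := ⟨_, rfl⟩
  have hFg := hF.fg2 (fun _ => p0) (fun _ => p0_mem hQ2) T (by rw [hT]; exact filter_subset _ _) E hE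
    (by
      intro κ hκ
      rw [hT] at hκ
      have h1 := (mem_filter.mp hκ).2
      have h2 : (fun i => (p0).1 * κ i) = κ := by
        funext i
        exact one_mul _
      rw [h2]
      exact (hΔ _ h1).2.1)
    0 N hNH
  have hL : ∀ ω ∈ S, ‖∑ n ∈ Ico 0 (0 + N), ∑ κ ∈ T, ∏ i, gk p0 (κ i) (φ ω i (n : ℤ))‖ ^ 2 =
      (N : ℝ) ^ 2 * (∑ d ∈ Δ, tdf d (φ ω)) ^ 2 := by
    intro ω hω
    rw [hT, A2_iden (φ ω) (hF.fb.cp ω hω) (Q ^ 2) N Δ hΔ', norm_mul, Complex.norm_natCast, Complex.norm_real,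
      mul_pow, Real.norm_eq_abs, sq_abs]
  have hlog2 : Real.log ((Q ^ 2 : ℕ) : ℝ) = 2 * Real.log Q := by
    rw [Nat.cast_pow, Real.log_pow]
    norm_num
  have hE0 : (0 : ℝ) ≤ (E : ℝ) ^ (-c) := Real.rpow_nonneg (Nat.cast_nonneg E) _
  have hpw : (1 + Real.log ((Q ^ 2 : ℕ) : ℝ)) ^ C ≤ 2 ^ C * (1 + Real.log Q) ^ C := by
    rw [hlog2, ← Real.mul_rpow (by norm_num) (by linarith)]
    exact Real.rpow_le_rpow (by linarith) (by linarith) (by linarith)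
  have hb1 : (N : ℝ) ^ 2 * ∑ ω ∈ S, (∑ d ∈ Δ, tdf d (φ ω)) ^ 2 ≤
      (N : ℝ) ^ 2 * (C * 2 ^ C * (1 + Real.log Q) ^ C * S.card * (E : ℝ) ^ (-c)) := by
    rw [mul_sum, ← sum_congr rfl hL]
    refine hFg.trans ?_
    have hS0 : (0 : ℝ) ≤ S.card := Nat.cast_nonneg _
    calc C * (1 + Real.log ((Q ^ 2 : ℕ) : ℝ)) ^ C * S.card * (N : ℝ) ^ 2 * (E : ℝ) ^ (-c)
        ≤ C * (2 ^ C * (1 + Real.log Q) ^ C) * S.card * (N : ℝ) ^ 2 * (E : ℝ) ^ (-c) := by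
          gcongr
      _ = _ := by ring
  exact le_of_mul_le_mul_left hb1 (by positivity)

/-- **A2.** Proof. As `T5_main` (`H24P/T5.lean`): `t5_point`, `t5_mink`, `t5_harm`, `t5_mv` (with `a = 1`), `A2_ms`, `G1_size`,
`G1_rlog`. (`c > 0`, `C ≥ 1` given.) -/
theorem A2_TM (m : ℕ) (C c : ℝ) (hC : 1 ≤ C) (hc : 0 < c) : ∃ c' : ℝ, 0 < c' ∧ ∃ Q0 : ℕ, ∀ Q : ℕ,
    Q0 ≤ Q → ∀ (H0 : ℕ) (Ω : Type) (S : Finset Ω) (φ : Ω → Fin m → ℤ → ℤ), Fam C c Q H0 S φ →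
    ∀ R : ℕ, 1 ≤ R → R ≤ fl Q (1 / 16) →
    ∑ ω ∈ S, (∑ d ∈ SF (fl Q (1 / 2) / R) R, tdf d (φ ω) -
      SSf ((pr Q).filter (fun l => ¬ l ∣ R)) (φ ω)) ^ 2 ≤ S.card * (Q : ℝ) ^ (-c') := by
  obtain ⟨Q1, hQ1, hlog⟩ := G1_rlog ((1 + C * 500 ^ m) ^ 2 * (C * 2 ^ C)) (2 * (m + 1) + C) (c / 8)
    (by linarith)
  obtain ⟨Q2, hQ2, hsize⟩ := G1_size 1
  refine ⟨c / 8, by linarith, max 3 (max Q1 Q2), fun Q hQ H0 Ω S φ hF R hR1 hR => ?_⟩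
  have hQ3 : 3 ≤ Q := (le_max_left _ _).trans hQ
  have hQQ1 : Q1 ≤ Q := (le_max_left _ _).trans ((le_max_right _ _).trans hQ)
  have hQQ2 : Q2 ≤ Q := (le_max_right _ _).trans ((le_max_right _ _).trans hQ)
  have hQr : (1 : ℝ) ≤ Q := by exact_mod_cast (show 1 ≤ Q by omega)
  have hQ0 : (0 : ℝ) < Q := by linarith
  have hL : 0 ≤ Real.log Q := Real.log_nonneg hQr
  obtain ⟨-, -, -, hEE, hEbig⟩ := hsize Q hQQ2 1 1 le_rfl le_rfl (by rw [one_pow]; omega)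
  have hEb := hEbig R hR1 hR
  have hone : (1 : ℝ) ≤ (Q : ℝ) ^ (1 / 4 : ℝ) := Real.one_le_rpow hQr (by norm_num)
  have hE1 : 1 ≤ fl Q (1 / 2) / R := by exact_mod_cast hone.trans hEb
  have hEQ : fl Q (1 / 2) / R ≤ Q := by
    refine (Nat.div_le_self _ _).trans ?_
    exact G1_le (by omega) (by norm_num) (by norm_num)
  set E := fl Q (1 / 2) / R with hE
  set P' := (pr Q).filter (fun l => ¬ l ∣ R) with hP'
  have hsub : P' ⊆ pr Q := Finset.filter_subset _ _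
  have hS0 : (0 : ℝ) ≤ S.card := Nat.cast_nonneg _
  have hE0 : (0 : ℝ) < E := by exact_mod_cast hE1
  have hmvs : ∀ j, j ≤ Q → ∑ ω ∈ S, (∑ d ∈ mv P' j E, tdf d (φ ω)) ^ 2 ≤
      C * 2 ^ C * (1 + Real.log Q) ^ C * S.card * (E : ℝ) ^ (-c) := fun j hj =>
    A2_ms hC (by omega) hF (mv P' j E) E hE1 fun d hd =>
      ⟨(t5_mv hEQ (one_dvd R) hj d hd).1, (t5_mv hEQ (one_dvd R) hj d hd).2.1, (t5_mv hEQ (one_dvd R) hj d hd).2.2.1⟩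
  have hW : 0 ≤ C * 2 ^ C * (1 + Real.log Q) ^ C * S.card * (E : ℝ) ^ (-c) := by
    have : 0 ≤ (1 + Real.log Q) ^ C := Real.rpow_nonneg (by linarith) _
    have : 0 ≤ (E : ℝ) ^ (-c) := Real.rpow_nonneg hE0.le _
    positivity
  have hkey := t5_mink S P' (fun q => C / q * (500 * Real.log Q) ^ m)
    (fun q _ => by positivity)
    (fun ω => ∑ n ∈ mv P' Q E, tdf n (φ ω))
    (fun q ω => ∑ n ∈ mv P' (q - 1) E, tdf n (φ ω))
    (fun ω => ∑ d ∈ SF E R, tdf d (φ ω) - SSf P' (φ ω))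
    ((1 + C * 500 ^ m) * (1 + Real.log Q) ^ (m + 1)) _ hW ?_ (hmvs Q le_rfl)
    (fun q hq => hmvs (q - 1) ?_) (fun ω hω => t5_point (φ ω) C (fun l hl => hF.fb.tp ω hω l hl)
      (by omega) hE1 hEQ hR1)
  · refine hkey.trans ?_
    have e1 : (E : ℝ) ^ (-c) ≤ (Q : ℝ) ^ (-(c / 4)) := by
      calc (E : ℝ) ^ (-c) ≤ ((Q : ℝ) ^ (1 / 4 : ℝ)) ^ (-c) :=
            Real.rpow_le_rpow_of_nonpos (by linarith) hEb (by linarith)
        _ = (Q : ℝ) ^ (-(c / 4)) := by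
            rw [← Real.rpow_mul hQ0.le]
            congr 1
            ring
    have e2 := hlog Q hQQ1
    have e3 : ((1 + C * 500 ^ m) * (1 + Real.log Q) ^ (m + 1)) ^ 2 *
        (C * 2 ^ C * (1 + Real.log Q) ^ C) =
        (1 + C * 500 ^ m) ^ 2 * (C * 2 ^ C) * (1 + Real.log Q) ^ (2 * ((m : ℝ) + 1) + C) := by
      have hp : 0 < 1 + Real.log Q := by linarith
      have e4 : (1 + Real.log Q) ^ (2 * ((m : ℝ) + 1) + C) =
          ((1 + Real.log Q) ^ (m + 1)) ^ 2 * (1 + Real.log Q) ^ C := by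
        rw [Real.rpow_add hp]
        congr 1
        rw [← pow_mul, ← Real.rpow_natCast]
        congr 1
        push_cast
        ring
      rw [e4]
      ring
    calc ((1 + C * 500 ^ m) * (1 + Real.log Q) ^ (m + 1)) ^ 2 *
          (C * 2 ^ C * (1 + Real.log Q) ^ C * S.card * (E : ℝ) ^ (-c))
        = (((1 + C * 500 ^ m) * (1 + Real.log Q) ^ (m + 1)) ^ 2 *
          (C * 2 ^ C * (1 + Real.log Q) ^ C)) * S.card * (E : ℝ) ^ (-c) := by ring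
      _ ≤ (Q : ℝ) ^ (c / 8) * S.card * (Q : ℝ) ^ (-(c / 4)) := by
          rw [e3]
          refine mul_le_mul (mul_le_mul_of_nonneg_right e2 hS0) e1 (Real.rpow_nonneg hE0.le _) ?_
          exact mul_nonneg (Real.rpow_nonneg hQ0.le _) hS0
      _ = S.card * ((Q : ℝ) ^ (c / 8) * (Q : ℝ) ^ (-(c / 4))) := by ring
      _ = S.card * (Q : ℝ) ^ (-(c / 8)) := by
          rw [← Real.rpow_add hQ0]
          congr 2
          ring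
  · have f1 := t5_harm Q P' hsub
    have f2 : ∑ q ∈ P', C / (q : ℝ) * (500 * Real.log Q) ^ m =
        (C * (500 * Real.log Q) ^ m) * ∑ q ∈ P', 1 / (q : ℝ) := by
      rw [Finset.mul_sum]
      refine Finset.sum_congr rfl fun q _ => ?_
      ring
    rw [f2]
    have f3 : (500 * Real.log Q) ^ m ≤ 500 ^ m * (1 + Real.log Q) ^ m := by
      rw [mul_pow]
      refine mul_le_mul_of_nonneg_left ?_ (by positivity)
      exact pow_le_pow_left₀ hL (by linarith) _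
    have f4 : (1 : ℝ) ≤ (1 + Real.log Q) ^ (m + 1) := one_le_pow₀ (by linarith)
    have f6 : C * (500 * Real.log Q) ^ m * ∑ q ∈ P', 1 / (q : ℝ) ≤
        C * (500 ^ m * (1 + Real.log Q) ^ m) * (1 + Real.log Q) := by
      refine mul_le_mul (mul_le_mul_of_nonneg_left f3 (by linarith)) f1 ?_ ?_
      · exact Finset.sum_nonneg fun q _ => by positivity
      · have : 0 ≤ 1 + Real.log Q := by linarith
        positivity
    calc 1 + C * (500 * Real.log Q) ^ m * ∑ q ∈ P', 1 / (q : ℝ)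
        ≤ (1 + Real.log Q) ^ (m + 1) +
          C * (500 ^ m * (1 + Real.log Q) ^ m) * (1 + Real.log Q) := add_le_add f4 f6
      _ = (1 + C * 500 ^ m) * (1 + Real.log Q) ^ (m + 1) := by ring
  · have h7 := (Finset.mem_Icc.1 (Finset.mem_filter.1 (hsub hq)).1).2
    omega

end Pool.Agent.Lib.H24Q
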