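import Pool.Agent.Lib.H24Q.Defs
import Pool.Agent.Lib.H24Q.A1
import Pool.Agent.Lib.H24P.G1
import Pool.Agent.Lib.H24P.Z1S
import Pool.Agent.Lib.H24P.Z1L

/-!
# Project H24Q, chunk B1 (M): tuples of characters (compare H24P/Z1S, Z1L, H59P/Z1D, Z1E)
-/

open Finset

namespace Pool.Agent.Lib.H24Q

open Pool.Agent.Lib.H68T Pool.Agent.Lib.H18Q Pool.Agent.Lib.H59P Pool.Agent.Lib.H24P

theorem b1_sq (x y : ℂ) : ‖x + y‖ ^ 2 ≤ 2 * ‖x‖ ^ 2 + 2 * ‖y‖ ^ 2 := by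
  have h1 : ‖x + y‖ ≤ ‖x‖ + ‖y‖ := norm_add_le x y
  have h2 : 0 ≤ ‖x + y‖ := norm_nonneg _
  nlinarith [sq_nonneg (‖x‖ - ‖y‖)]

theorem b1_prod {m : ℕ} (Q : ℕ) (p : Fin m → Ch) (v : Fin m → ℤ) :
    ∏ i, Fc Q (p i) (v i) =
      ∑ κ ∈ Fintype.piFinset (fun i => KS Q (p i).1), ∏ i, gk (p i) (κ i) (v i) := by
  unfold Fc
  rw [Finset.prod_univ_sum]

theorem b1_lcm {m : ℕ} {Q : ℕ} {p : Fin m → Ch} (hp : ∀ i, p i ∈ PC Q) {κ : Fin m → ℕ}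
    (hκ : κ ∈ Fintype.piFinset (fun i => KS Q (p i).1)) :
    0 < univ.lcm (fun i => (p i).1 * κ i) := by
  rw [Fintype.mem_piFinset] at hκ
  refine Nat.pos_of_ne_zero ?_
  rw [Finset.lcm_ne_zero_iff]
  intro i _
  have e1 := (mem_PC.1 (hp i)).1
  have e2 := (CA_mem_KS.1 (hκ i)).1.1
  have := Nat.mul_pos e1 e2
  omega

/-- The numerical estimate of the part with large moduli. -/
theorem b1_num {C δ x : ℝ} (hC : 0 ≤ C) {Q D H : ℕ} {s : ℝ} (hs : 0 ≤ s) (hQ : 1 ≤ Q)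
    (hl : 4 * C * (1 + Real.log Q) ^ C ≤ (Q : ℝ) ^ δ) (hD : (D : ℝ) ^ (-x) ≤ (Q : ℝ) ^ (-(2 * δ))) :
    C * (1 + Real.log Q) ^ C * s * (H : ℝ) ^ 2 * (D : ℝ) ^ (-x) ≤
      1 / 4 * (s * (H : ℝ) ^ 2 * (Q : ℝ) ^ (-δ)) := by
  have hQ1 : (1 : ℝ) ≤ Q := by exact_mod_cast hQ
  have hQ0 : (0 : ℝ) < Q := by linarith
  have hlQ : 0 ≤ Real.log Q := Real.log_nonneg hQ1
  calc C * (1 + Real.log Q) ^ C * s * (H : ℝ) ^ 2 * (D : ℝ) ^ (-x)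
      ≤ C * (1 + Real.log Q) ^ C * s * (H : ℝ) ^ 2 * (Q : ℝ) ^ (-(2 * δ)) :=
        mul_le_mul_of_nonneg_left hD (by positivity)
    _ = 1 / 4 * (s * (H : ℝ) ^ 2 * ((4 * C * (1 + Real.log Q) ^ C) * (Q : ℝ) ^ (-(2 * δ)))) := by ring
    _ ≤ 1 / 4 * (s * (H : ℝ) ^ 2 * ((Q : ℝ) ^ δ * (Q : ℝ) ^ (-(2 * δ)))) := by gcongr
    _ = 1 / 4 * (s * (H : ℝ) ^ 2 * (Q : ℝ) ^ (-δ)) := by
        rw [← Real.rpow_add hQ0]
        congr 3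
        ring

/-- Small modulus. Proof. `R = Rf m0 p ≤ D1 = fl Q (1/16)`, `D = fl Q (1/2)`, `D² ≤ Q`. `∏ Fc = ∑_κ ∏ gk`
(`Finset.prod_univ_sum`). The `κ` with `lcm(R, κ) ≤ D`: `A1_M4`, for each `ω`: error `≤ 2 D² (2(1+log Q))^(2m) ≤ Q^2`, and
`Q^4 ≤ H`. For the others `D/R < lcm κ ≤ lcm(r_i κ_i)`: `FG` at the level `Q` with `D/R ≥ Q^(1/4)`. -/
theorem B1_small (m : ℕ) (C c : ℝ) (hC : 1 ≤ C) (hc : 0 < c) : ∃ c' : ℝ, 0 < c' ∧ ∃ Q0 : ℕ, ∀ Q : ℕ,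
    Q0 ≤ Q → ∀ (H0 : ℕ) (Ω : Type) (S : Finset Ω) (φ : Ω → Fin m → ℤ → ℤ), Fam C c Q H0 S φ →
    ∀ m0 : ℕ, 1 ≤ m0 → ∀ p ∈ TSf m Q (fl Q (1 / 16)) m0, ∀ a H : ℕ, H0 ≤ H → Q ^ 4 ≤ H →
    ∑ ω ∈ S, ‖∑ n ∈ Ico a (a + H), ∏ i, Fc Q (p i) (φ ω i (n : ℤ)) -
      H * (MRf p (Rf m0 p) (φ ω) *
        ((∑ d ∈ SF (fl Q (1 / 2) / Rf m0 p) (Rf m0 p), tdf d (φ ω) : ℝ) : ℂ))‖ ^ 2 ≤
      S.card * (H : ℝ) ^ 2 * (Q : ℝ) ^ (-c') := by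
  classical
  obtain ⟨Q1, -, hlog2⟩ := G1_rlog (2 ^ (2 * m)) ((2 * m : ℕ) : ℝ) 1 one_pos
  obtain ⟨Q2, -, hsize⟩ := G1_size 1
  obtain ⟨δ, hδ⟩ : ∃ δ : ℝ, δ = min (c / 8) 1 := ⟨_, rfl⟩
  have hδ0 : 0 < δ := by
    rw [hδ]
    exact lt_min (by positivity) one_pos
  have hδ1 : δ ≤ 1 := by
    rw [hδ]
    exact min_le_right _ _
  have hδc : δ ≤ c / 8 := by
    rw [hδ]
    exact min_le_left _ _
  obtain ⟨Q3, -, hlog⟩ := G1_rlog (4 * C) C δ hδ0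
  refine ⟨δ, hδ0, max 4 (max Q1 (max Q2 Q3)), ?_⟩
  intro Q hQ H0 Ω S φ hF m0 hm0 p hp a H hH0 hH
  have hQ4 : 4 ≤ Q := (le_max_left _ _).trans hQ
  have hQ1' : Q1 ≤ Q := ((le_max_left _ _).trans (le_max_right _ _)).trans hQ
  have hQ2' : Q2 ≤ Q :=
    ((le_max_left _ _).trans ((le_max_right _ _).trans (le_max_right _ _))).trans hQ
  have hQ3' : Q3 ≤ Q :=
    ((le_max_right _ _).trans ((le_max_right _ _).trans (le_max_right _ _))).trans hQ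
  have hQr : (4 : ℝ) ≤ Q := by exact_mod_cast hQ4
  have hQ0 : (0 : ℝ) < Q := by linarith
  have hQr1 : (1 : ℝ) ≤ Q := by linarith
  have hlQ : 0 ≤ Real.log Q := Real.log_nonneg hQr1
  have hp' : (∀ i, p i ∈ PC Q) ∧ Rf m0 p ≤ fl Q (1 / 16) := by
    unfold TSf at hp
    rw [mem_filter, Fintype.mem_piFinset] at hp
    exact hp
  obtain ⟨hpPC, hRle⟩ := hp'
  obtain ⟨R, hRdef⟩ : ∃ R, R = Rf m0 p := ⟨_, rfl⟩
  rw [← hRdef] at hRle ⊢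
  have hpR : ∀ i, (p i).1 ∣ R := by
    intro i
    rw [hRdef]
    exact (Finset.dvd_lcm (f := fun i => (p i).1) (mem_univ i)).trans (Nat.dvd_lcm_right _ _)
  have hR1 : 1 ≤ R := by
    rw [hRdef]
    refine Nat.pos_of_ne_zero (Nat.lcm_ne_zero (by omega) ?_)
    rw [Finset.lcm_ne_zero_iff]
    intro i _
    have := (mem_PC.1 (hpPC i)).1
    omega
  obtain ⟨-, -, -, hDD, hDR⟩ := hsize Q hQ2' 1 1 (le_refl _) (le_refl _) (by rw [one_pow]; omega)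
  have hDR' := hDR R hR1 hRle
  obtain ⟨D, hD⟩ : ∃ D, D = fl Q (1 / 2) := ⟨_, rfl⟩
  rw [← hD] at hDD hDR' ⊢
  have hDQ1 : D ≤ Q := by
    rcases Nat.eq_zero_or_pos D with h0 | h0
    · omega
    · exact (Nat.le_mul_of_pos_left D h0).trans hDD
  obtain ⟨K, hK⟩ : ∃ K : Finset (Fin m → ℕ), K = Fintype.piFinset fun i => KS Q (p i).1 := ⟨_, rfl⟩
  obtain ⟨T, hT⟩ : ∃ T : Finset (Fin m → ℕ), T = K.filter (fun κ => ¬ R.lcm (univ.lcm κ) ≤ D) :=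
    ⟨_, rfl⟩
  have hF' := hF.fg1 p hpPC T (by
      rw [hT, ← hK]
      exact Finset.filter_subset _ _) (D / R) (by
      have h1 : (0 : ℝ) < (Q : ℝ) ^ (1 / 4 : ℝ) := Real.rpow_pos_of_pos hQ0 _
      have h2 : (0 : ℝ) < ((D / R : ℕ) : ℝ) := lt_of_lt_of_le h1 hDR'
      exact_mod_cast h2) (by
      intro κ hκ
      rw [hT, mem_filter] at hκ
      have h1 : D < R.lcm (univ.lcm κ) := not_le.1 hκ.2
      have h2 : univ.lcm κ ∣ univ.lcm (fun i => (p i).1 * κ i) :=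
        Finset.lcm_dvd fun i _ => (dvd_mul_left (κ i) _).trans
          (Finset.dvd_lcm (f := fun i => (p i).1 * κ i) (mem_univ i))
      have h3 : 0 < univ.lcm (fun i => (p i).1 * κ i) := b1_lcm hpPC (by rw [← hK]; exact hκ.1)
      have h4 := Nat.le_of_dvd h3 h2
      have h5 : R.lcm (univ.lcm κ) ≤ R * univ.lcm κ :=
        Nat.le_of_dvd (Nat.mul_pos (by omega) (Nat.pos_of_dvd_of_pos h2 h3)) (Nat.lcm_dvd_mul _ _)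
      refine lt_of_lt_of_le ?_ h4
      rw [Nat.div_lt_iff_lt_mul (by omega), mul_comm]
      omega) a H hH0
  have hDneg : ((D / R : ℕ) : ℝ) ^ (-c) ≤ (Q : ℝ) ^ (-(2 * δ)) := by
    calc ((D / R : ℕ) : ℝ) ^ (-c) ≤ ((Q : ℝ) ^ (1 / 4 : ℝ)) ^ (-c) :=
          Real.rpow_le_rpow_of_nonpos (Real.rpow_pos_of_pos hQ0 _) hDR' (by linarith)
      _ = (Q : ℝ) ^ (-(c / 4)) := by
          rw [← Real.rpow_mul hQ0.le]
          congr 1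
          ring
      _ ≤ (Q : ℝ) ^ (-(2 * δ)) := Real.rpow_le_rpow_of_exponent_le hQr1 (by linarith)
  have hlarge := hF'.trans (b1_num (by linarith) (Nat.cast_nonneg _) (by omega) (hlog Q hQ3') hDneg)
  -- the main part
  have hsmall : ∀ ω ∈ S, ‖∑ n ∈ Ico a (a + H), ∑ κ ∈ K.filter (fun κ => R.lcm (univ.lcm κ) ≤ D),
          ∏ i, gk (p i) (κ i) (φ ω i (n : ℤ)) -
      H * (MRf p R (φ ω) * ((∑ d ∈ SF (D / R) R, tdf d (φ ω) : ℝ) : ℂ))‖ ^ 2 ≤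
      1 / 4 * ((H : ℝ) ^ 2 * (Q : ℝ) ^ (-δ)) := by
    intro ω hω
    have h1 := A1_M4 (φ ω) (hF.fb.cp ω hω) Q D R hDQ1 (by omega) p hpPC hpR a H
    rw [← hK] at h1
    refine (pow_le_pow_left₀ (norm_nonneg _) h1 2).trans ?_
    have h2 : (Q : ℝ) ^ (-(1 : ℝ)) ≤ (Q : ℝ) ^ (-δ) :=
      Real.rpow_le_rpow_of_exponent_le hQr1 (by linarith)
    have h3 : (Q : ℝ) ^ (-(1 : ℝ)) = (Q : ℝ)⁻¹ := Real.rpow_neg_one _
    have hHr : (Q : ℝ) ^ 4 ≤ H := by exact_mod_cast hH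
    have hDr : (D : ℝ) ^ 2 ≤ Q := by
      rw [sq]
      exact_mod_cast hDD
    have hbd : (2 * (1 + Real.log Q)) ^ (2 * m) ≤ (Q : ℝ) := by
      have h1 := hlog2 Q hQ1'
      rw [Real.rpow_natCast, Real.rpow_one, ← mul_pow] at h1
      exact h1
    calc (2 * (D : ℝ) ^ 2 * (2 * (1 + Real.log Q)) ^ (2 * m)) ^ 2 ≤ (2 * Q * Q) ^ 2 := by
          gcongr
      _ = 1 / 4 * (16 * (Q : ℝ) ^ 4) := by ring
      _ ≤ 1 / 4 * ((Q : ℝ) ^ 2 * (Q : ℝ) ^ 4) := by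
          have : (16 : ℝ) ≤ Q ^ 2 := by nlinarith
          gcongr
      _ ≤ 1 / 4 * (((Q : ℝ) ^ 4) ^ 2 * (Q : ℝ)⁻¹) := by
          rw [← pow_mul, ← pow_add]
          have : (Q : ℝ) ^ (4 * 2) * (Q : ℝ)⁻¹ = (Q : ℝ) ^ 7 := by
            field_simp
          rw [this]
          have : (Q : ℝ) ^ (2 + 4) ≤ (Q : ℝ) ^ 7 := pow_le_pow_right₀ hQr1 (by norm_num)
          exact mul_le_mul_of_nonneg_left this (by norm_num)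
      _ ≤ 1 / 4 * ((H : ℝ) ^ 2 * (Q : ℝ) ^ (-δ)) := by
          rw [← h3]
          have h5 : 0 ≤ (Q : ℝ) ^ (-(1 : ℝ)) := Real.rpow_nonneg hQ0.le _
          have h4 : ((Q : ℝ) ^ 4) ^ 2 ≤ (H : ℝ) ^ 2 := pow_le_pow_left₀ (by positivity) hHr 2
          have := mul_le_mul h4 h2 h5 (by positivity)
          linarith
  have hsplit : ∀ ω ∈ S, ‖∑ n ∈ Ico a (a + H), ∏ i, Fc Q (p i) (φ ω i (n : ℤ)) -
      H * (MRf p R (φ ω) * ((∑ d ∈ SF (D / R) R, tdf d (φ ω) : ℝ) : ℂ))‖ ^ 2 ≤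
      2 * (1 / 4 * ((H : ℝ) ^ 2 * (Q : ℝ) ^ (-δ))) + 2 * ‖∑ n ∈ Ico a (a + H),
        ∑ κ ∈ T, ∏ i, gk (p i) (κ i) (φ ω i (n : ℤ))‖ ^ 2 := by
    intro ω hω
    have e1 : ∑ n ∈ Ico a (a + H), ∏ i, Fc Q (p i) (φ ω i (n : ℤ)) -
      H * (MRf p R (φ ω) * ((∑ d ∈ SF (D / R) R, tdf d (φ ω) : ℝ) : ℂ)) =
      (∑ n ∈ Ico a (a + H), ∑ κ ∈ K.filter (fun κ => R.lcm (univ.lcm κ) ≤ D),
          ∏ i, gk (p i) (κ i) (φ ω i (n : ℤ)) -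
      H * (MRf p R (φ ω) * ((∑ d ∈ SF (D / R) R, tdf d (φ ω) : ℝ) : ℂ))) +
      ∑ n ∈ Ico a (a + H), ∑ κ ∈ T, ∏ i, gk (p i) (κ i) (φ ω i (n : ℤ)) := by
      have e2 : ∑ n ∈ Ico a (a + H), ∏ i, Fc Q (p i) (φ ω i (n : ℤ)) =
          ∑ n ∈ Ico a (a + H), ∑ κ ∈ K.filter (fun κ => R.lcm (univ.lcm κ) ≤ D),
            ∏ i, gk (p i) (κ i) (φ ω i (n : ℤ)) +
          ∑ n ∈ Ico a (a + H), ∑ κ ∈ T, ∏ i, gk (p i) (κ i) (φ ω i (n : ℤ)) := by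
        rw [← Finset.sum_add_distrib]
        refine Finset.sum_congr rfl fun n _ => ?_
        rw [b1_prod, ← hK, hT, Finset.sum_filter_add_sum_filter_not]
      rw [e2]
      ring
    rw [e1]
    refine (b1_sq _ _).trans ?_
    have := hsmall ω hω
    linarith
  refine (Finset.sum_le_sum hsplit).trans ?_
  rw [Finset.sum_add_distrib, Finset.sum_const, nsmul_eq_mul, ← Finset.mul_sum]
  have e3 : (S.card : ℝ) * (2 * (1 / 4 * ((H : ℝ) ^ 2 * (Q : ℝ) ^ (-δ)))) =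
      1 / 2 * (S.card * (H : ℝ) ^ 2 * (Q : ℝ) ^ (-δ)) := by ring
  rw [e3]
  linarith

/-- Large modulus. Proof. `p ∉ TSf`: `fl Q (1/16) < lcm(r, lcm r_i) ≤ r lcm r_i`, so `lcm(r_i κ_i) ≥ lcm r_i > fl Q (1/32)`
for `Q` large (`r ≤ Q^(1/100)`; `G1_size`): `FG` with `T` = everything. -/
theorem B1_large (m : ℕ) (C c : ℝ) (hC : 1 ≤ C) (hc : 0 < c) : ∃ c' : ℝ, 0 < c' ∧ ∃ Q0 : ℕ, ∀ Q : ℕ,
    Q0 ≤ Q → ∀ (H0 : ℕ) (Ω : Type) (S : Finset Ω) (φ : Ω → Fin m → ℤ → ℤ), Fam C c Q H0 S φ →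
    ∀ r : ℕ, 1 ≤ r → r ^ 100 ≤ Q → ∀ p : Fin m → Ch, (∀ i, p i ∈ PC Q) →
    p ∉ TSf m Q (fl Q (1 / 16)) r → ∀ a H : ℕ, H0 ≤ H →
    ∑ ω ∈ S, ‖∑ n ∈ Ico a (a + H), ∏ i, Fc Q (p i) (φ ω i (n : ℤ))‖ ^ 2 ≤
      S.card * (H : ℝ) ^ 2 * (Q : ℝ) ^ (-c') := by
  classical
  obtain ⟨Q2, -, hsize⟩ := G1_size 1
  obtain ⟨Q3, -, hlog⟩ := G1_rlog (4 * (C * 2 ^ c)) C (c / 64) (by positivity)
  refine ⟨c / 64, by positivity, max 1 (max Q2 Q3), ?_⟩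
  intro Q hQ H0 Ω S φ hF r hr hrQ p hp hpT a H hH0
  have hQ1 : 1 ≤ Q := (le_max_left _ _).trans hQ
  have hQ2' : Q2 ≤ Q := ((le_max_left _ _).trans (le_max_right _ _)).trans hQ
  have hQ3' : Q3 ≤ Q := ((le_max_right _ _).trans (le_max_right _ _)).trans hQ
  have hQr1 : (1 : ℝ) ≤ Q := by exact_mod_cast hQ1
  have hQ0 : (0 : ℝ) < Q := by linarith
  have hlQ : 0 ≤ Real.log Q := Real.log_nonneg hQr1
  obtain ⟨-, -, hs3, -, -⟩ := hsize Q hQ2' r 1 (le_refl _) (le_refl _) hrQ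
  obtain ⟨h51, -, -⟩ := G1_one (Q := Q) (x := 1 / 32) hQ1 (by norm_num)
  obtain ⟨h71, -, -⟩ := G1_one (Q := Q) (x := 1 / 128) hQ1 (by norm_num)
  have hnot : ¬ r.lcm (univ.lcm fun i => (p i).1) ≤ fl Q (1 / 16) := by
    intro hle
    apply hpT
    unfold TSf
    rw [mem_filter, Fintype.mem_piFinset]
    exact ⟨hp, hle⟩
  have hlt : fl Q (1 / 32) < univ.lcm (fun i => (p i).1) := by
    by_contra hcon
    rw [not_lt] at hcon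
    apply hnot
    have hl1 : 0 < univ.lcm (fun i => (p i).1) := by
      refine Nat.pos_of_ne_zero ?_
      rw [Finset.lcm_ne_zero_iff]
      intro i _
      have := (mem_PC.1 (hp i)).1
      omega
    have h1 : r.lcm (univ.lcm fun i => (p i).1) ≤ r * univ.lcm (fun i => (p i).1) :=
      Nat.le_of_dvd (Nat.mul_pos hr hl1) (Nat.lcm_dvd_mul _ _)
    have h2 : r * univ.lcm (fun i => (p i).1) ≤ r * fl Q (1 / 32) := Nat.mul_le_mul_left _ hcon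
    have h3 : r * fl Q (1 / 32) ≤ 1 * r * fl Q (1 / 32) * (1 * fl Q (1 / 128)) := by
      rw [one_mul, one_mul]
      exact Nat.le_mul_of_pos_right _ h71
    omega
  have hF' := hF.fg1 p hp (Fintype.piFinset (fun i => KS Q (p i).1)) (Finset.Subset.refl _)
    (fl Q (1 / 32)) h51 (by
      intro κ hκ
      refine lt_of_lt_of_le hlt ?_
      exact Nat.le_of_dvd (b1_lcm hp hκ) (Finset.lcm_dvd fun i _ => (dvd_mul_right _ (κ i)).trans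
          (Finset.dvd_lcm (f := fun i => (p i).1 * κ i) (mem_univ i)))) a H hH0
  have e1 : ∑ ω ∈ S, ‖∑ n ∈ Ico a (a + H), ∏ i, Fc Q (p i) (φ ω i (n : ℤ))‖ ^ 2 =
      ∑ ω ∈ S, ‖∑ n ∈ Ico a (a + H), ∑ κ ∈ Fintype.piFinset (fun i => KS Q (p i).1),
        ∏ i, gk (p i) (κ i) (φ ω i (n : ℤ))‖ ^ 2 := by
    refine Finset.sum_congr rfl fun ω _ => ?_
    congr 2
    exact Finset.sum_congr rfl fun n _ => b1_prod Q p _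
  rw [e1]
  refine hF'.trans ?_
  have hlogv := hlog Q hQ3'
  have hneg := G1_neg (Q := Q) (x := 1 / 32) (c := c) hQ1 (by norm_num) hc.le
  have hL0 : 0 < 1 + Real.log Q := by linarith
  have h0 : 0 ≤ (S.card : ℝ) * (H : ℝ) ^ 2 := by positivity
  calc C * (1 + Real.log Q) ^ C * S.card * (H : ℝ) ^ 2 * (fl Q (1 / 32) : ℝ) ^ (-c)
      ≤ C * (1 + Real.log Q) ^ C * S.card * (H : ℝ) ^ 2 * (2 ^ c * (Q : ℝ) ^ (-(c * (1 / 32)))) :=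
        mul_le_mul_of_nonneg_left hneg (by positivity)
    _ = 1 / 4 * (S.card * (H : ℝ) ^ 2 * ((4 * (C * 2 ^ c) * (1 + Real.log Q) ^ C) *
          (Q : ℝ) ^ (-(c * (1 / 32))))) := by ring
    _ ≤ 1 / 4 * (S.card * (H : ℝ) ^ 2 * ((Q : ℝ) ^ (c / 64) * (Q : ℝ) ^ (-(c * (1 / 32))))) := by
        gcongr
    _ = 1 / 4 * (S.card * (H : ℝ) ^ 2 * (Q : ℝ) ^ (-(c / 64))) := by
        rw [← Real.rpow_add hQ0]
        congr 3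
        ring
    _ ≤ S.card * (H : ℝ) ^ 2 * (Q : ℝ) ^ (-(c / 64)) := by
        have : 0 ≤ (S.card : ℝ) * (H : ℝ) ^ 2 * (Q : ℝ) ^ (-(c / 64)) := by positivity
        linarith

end Pool.Agent.Lib.H24Q
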