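import Pool.Agent.Lib.H24Q.A2
import Pool.Agent.Lib.H24Q.B1
import Pool.Agent.Lib.H24P.W3
import Pool.Agent.Lib.H24P.Z2A
import Pool.Agent.Lib.H24P.Z2B
import Pool.Agent.Lib.H24P.P3

/-!
# Project H24Q, chunk B2 (M): one cell (compare H24P/Z2A, Z2B)
-/

open Finset

namespace Pool.Agent.Lib.H24Q

open Pool.Agent.Lib.H68T Pool.Agent.Lib.H18Q Pool.Agent.Lib.H59P Pool.Agent.Lib.H24P

theorem b2_gam {m : ℕ} (Q : ℕ) (T : Finset (Fin m → Ch))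
    (hT : T ⊆ Fintype.piFinset fun _ : Fin m => PC Q) (cf : Fin m → Ch → ℂ)
    (hcf : ∀ i, ∑ p ∈ PC Q, ‖cf i p‖ ≤ 3) : ∑ p ∈ T, ‖∏ i, cf i (p i)‖ ≤ 3 ^ m := by
  classical
  calc ∑ p ∈ T, ‖∏ i, cf i (p i)‖ = ∑ p ∈ T, ∏ i, ‖cf i (p i)‖ :=
        Finset.sum_congr rfl fun p _ => norm_prod _ _
    _ ≤ ∑ p ∈ Fintype.piFinset fun _ : Fin m => PC Q, ∏ i, ‖cf i (p i)‖ :=
        Finset.sum_le_sum_of_subset_of_nonneg hT fun p _ _ => Finset.prod_nonneg fun i _ => norm_nonneg _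
    _ = ∏ i, ∑ q ∈ PC Q, ‖cf i q‖ := (Finset.prod_univ_sum (fun _ : Fin m => PC Q)
        (fun i q => ‖cf i q‖)).symm
    _ ≤ ∏ _i : Fin m, (3 : ℝ) :=
        Finset.prod_le_prod (fun i _ => Finset.sum_nonneg fun _ _ => norm_nonneg _) fun i _ => hcf i
    _ = 3 ^ m := by
        rw [Finset.prod_const, Finset.card_univ, Fintype.card_fin]

theorem b2_TS {m : ℕ} (Q D m0 : ℕ) : TSf m Q D m0 ⊆ Fintype.piFinset fun _ : Fin m => PC Q := by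
  intro p hp
  unfold TSf at hp
  exact (Finset.mem_filter.1 hp).1

theorem b2_R {m : ℕ} (Q D m0 : ℕ) (hm0 : 1 ≤ m0) (p : Fin m → Ch) (hp : p ∈ TSf m Q D m0) :
    0 < Rf m0 p ∧ Rf m0 p ≤ D ∧ (∀ i, (p i).1 ∣ Rf m0 p) := by
  classical
  unfold TSf at hp
  rw [Finset.mem_filter, Fintype.mem_piFinset] at hp
  obtain ⟨hp1, hp2⟩ := hp
  refine ⟨?_, hp2, ?_⟩
  · have h1 : (univ.lcm fun i => (p i).1) ≠ 0 := by
      intro h0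
      rw [Finset.lcm_eq_zero_iff] at h0
      obtain ⟨i, _, h2⟩ := h0
      have h3 : 0 < (p i).1 := (mem_PC.mp (hp1 i)).1
      exact h3.ne' h2
    unfold Rf
    exact Nat.lcm_pos hm0 (Nat.pos_of_ne_zero h1)
  · intro i
    unfold Rf
    exact (Finset.dvd_lcm (f := fun i => (p i).1) (Finset.mem_univ i)).trans (Nat.dvd_lcm_right _ _)

/-- Proof. `W3_SG`; `Z2a` of `H59P` with `γ_p = ∏ c_i(p_i)` (total size `≤ 3^m`), `f_p` the difference in `B1_small` for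
`p ∈ TSf m Q _ r`, the sum in `B1_large` else. Compare `Z2A_cell` in `H24P/Z2A.lean`. -/
theorem B2_trunc (m : ℕ) (C c : ℝ) (hC : 1 ≤ C) (hc : 0 < c) : ∃ c' : ℝ, 0 < c' ∧ ∃ Q0 : ℕ, ∀ Q : ℕ,
    Q0 ≤ Q → ∀ (H0 : ℕ) (Ω : Type) (S : Finset Ω) (φ : Ω → Fin m → ℤ → ℤ), Fam C c Q H0 S φ →
    ∀ r : ℕ, 1 ≤ r → r ^ 100 ≤ Q → ∀ cf : Fin m → Ch → ℂ, (∀ i, ∑ p ∈ PC Q, ‖cf i p‖ ≤ 3) →
    ∀ a H : ℕ, H0 ≤ H → Q ^ 4 ≤ H →
    ∑ ω ∈ S, ‖∑ n ∈ Ico a (a + H), ∏ i, SG Q (cf i) (φ ω i (n : ℤ)) - H * MCf Q r cf (φ ω)‖ ^ 2 ≤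
      S.card * (H : ℝ) ^ 2 * (Q : ℝ) ^ (-c') := by
  classical
  obtain ⟨c1, hc1, Q1, h1⟩ := B1_small m C c hC hc
  obtain ⟨c2, hc2, Q2, h2⟩ := B1_large m C c hC hc
  have hcm : 0 < min c1 c2 := lt_min hc1 hc2
  obtain ⟨Q3, hQ31, h3⟩ := G1_rlog (9 ^ m) 0 (min c1 c2 / 2) (by linarith)
  refine ⟨min c1 c2 / 2, by linarith, max 1 (max Q1 (max Q2 Q3)), ?_⟩
  intro Q hQ H0 Ω S φ hF r hr1 hr cf hcf a H hH0 hH
  have hQ1 : 1 ≤ Q := (le_max_left _ _).trans hQ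
  have hQQ1 : Q1 ≤ Q := (le_max_left _ _).trans ((le_max_right _ _).trans hQ)
  have hQQ2 : Q2 ≤ Q := (le_max_left _ _).trans ((le_max_right _ _).trans ((le_max_right _ _).trans hQ))
  have hQQ3 : Q3 ≤ Q := (le_max_right _ _).trans ((le_max_right _ _).trans ((le_max_right _ _).trans hQ))
  have hQ1r : (1 : ℝ) ≤ Q := by exact_mod_cast hQ1
  have hQ0r : (0 : ℝ) < Q := by linarith
  have hV : 0 ≤ (S.card : ℝ) * (H : ℝ) ^ 2 := mul_nonneg (Nat.cast_nonneg _) (sq_nonneg _)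
  have h9 : (9 : ℝ) ^ m ≤ (Q : ℝ) ^ (min c1 c2 / 2) := by
    have := h3 Q hQQ3
    rwa [Real.rpow_zero, mul_one] at this
  set W : ℝ := (S.card : ℝ) * (H : ℝ) ^ 2 * (Q : ℝ) ^ (-(min c1 c2)) with hW
  have hW0 : 0 ≤ W := mul_nonneg hV (Real.rpow_nonneg hQ0r.le _)
  have hWle : ∀ c : ℝ, min c1 c2 ≤ c → (S.card : ℝ) * (H : ℝ) ^ 2 * (Q : ℝ) ^ (-c) ≤ W := by
    intro c hc
    exact mul_le_mul_of_nonneg_left (Real.rpow_le_rpow_of_exponent_le hQ1r (by linarith)) hV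
  set F : (Fin m → Ch) → Ω → ℂ := fun p ω => ∑ n ∈ Ico a (a + H), ∏ i, Fc Q (p i) (φ ω i (n : ℤ)) with hFd
  set G : (Fin m → Ch) → Ω → ℂ := fun p ω => H * (MRf p (Rf r p) (φ ω) *
    ((∑ d ∈ SF (fl Q (1 / 2) / Rf r p) (Rf r p), tdf d (φ ω) : ℝ) : ℂ)) with hGd
  set f : (Fin m → Ch) → Ω → ℂ := fun p ω =>
    if p ∈ TSf m Q (fl Q (1 / 16)) r then F p ω - G p ω else F p ω with hfdef
  have hf1 : ∀ p ∈ TSf m Q (fl Q (1 / 16)) r, ∀ ω, f p ω = F p ω - G p ω := by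
    intro p hp ω
    rw [hfdef]
    exact if_pos hp
  have hf2 : ∀ p, p ∉ TSf m Q (fl Q (1 / 16)) r → ∀ ω, f p ω = F p ω := by
    intro p hp ω
    rw [hfdef]
    exact if_neg hp
  have hdec : ∀ ω ∈ S, ‖∑ n ∈ Ico a (a + H), ∏ i, SG Q (cf i) (φ ω i (n : ℤ)) - H * MCf Q r cf (φ ω)‖ ^ 2 =
      ‖∑ p ∈ Fintype.piFinset fun _ : Fin m => PC Q, (∏ i, cf i (p i)) * f p ω‖ ^ 2 := by
    intro ω _
    have e1 : ∑ n ∈ Ico a (a + H), ∏ i, SG Q (cf i) (φ ω i (n : ℤ)) =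
        ∑ p ∈ Fintype.piFinset fun _ : Fin m => PC Q, (∏ i, cf i (p i)) * F p ω := by
      have e2 : ∀ n ∈ Ico a (a + H), ∏ i, SG Q (cf i) (φ ω i (n : ℤ)) =
          ∑ p ∈ Fintype.piFinset fun _ : Fin m => PC Q, (∏ i, cf i (p i)) *
            ∏ i, Fc Q (p i) (φ ω i (n : ℤ)) := fun n _ => W3_SG Q cf (fun i => φ ω i (n : ℤ))
      rw [Finset.sum_congr rfl e2, Finset.sum_comm]
      refine Finset.sum_congr rfl fun p _ => ?_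
      rw [hFd, Finset.mul_sum]
    have e3 : (H : ℂ) * MCf Q r cf (φ ω) = ∑ p ∈ Fintype.piFinset fun _ : Fin m => PC Q,
        (if p ∈ TSf m Q (fl Q (1 / 16)) r then (∏ i, cf i (p i)) * G p ω else 0) := by
      rw [← Finset.sum_filter, Finset.filter_mem_eq_inter, Finset.inter_eq_right.mpr (b2_TS Q _ r)]
      unfold MCf
      rw [Finset.mul_sum, hGd]
      refine Finset.sum_congr rfl fun p _ => ?_
      ring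
    rw [e1, e3, ← Finset.sum_sub_distrib]
    apply congrArg (fun z : ℂ => ‖z‖ ^ 2)
    refine Finset.sum_congr rfl fun p _ => ?_
    by_cases hp : p ∈ TSf m Q (fl Q (1 / 16)) r
    · rw [if_pos hp, hf1 p hp]
      ring
    · rw [if_neg hp, hf2 p hp, sub_zero]
  rw [Finset.sum_congr rfl hdec]
  have hmain := Z2a S (Fintype.piFinset fun _ : Fin m => PC Q) (fun p => ∏ i, cf i (p i)) f (3 ^ m) W hW0
    (b2_gam Q _ (Finset.Subset.refl _) cf hcf) ?_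
  · refine hmain.trans ?_
    have e1 : ((3 : ℝ) ^ m) ^ 2 = 9 ^ m := by
      rw [← pow_mul, mul_comm, pow_mul]
      norm_num
    have e2 : (Q : ℝ) ^ (-(min c1 c2 / 2)) = (Q : ℝ) ^ (min c1 c2 / 2) * (Q : ℝ) ^ (-(min c1 c2)) := by
      rw [← Real.rpow_add hQ0r]
      congr 1
      ring
    rw [e1, e2]
    have e3 := mul_le_mul_of_nonneg_right h9 hW0
    refine e3.trans (le_of_eq ?_)
    rw [hW]
    ring
  · intro p hp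
    have hps : ∀ i, p i ∈ PC Q := Fintype.mem_piFinset.1 hp
    by_cases hpT : p ∈ TSf m Q (fl Q (1 / 16)) r
    · have e1 := h1 Q hQQ1 H0 Ω S φ hF r hr1 p hpT a H hH0 hH
      have e2 : ∑ ω ∈ S, ‖f p ω‖ ^ 2 = ∑ ω ∈ S, ‖∑ n ∈ Ico a (a + H), ∏ i, Fc Q (p i) (φ ω i (n : ℤ)) -
          H * (MRf p (Rf r p) (φ ω) *
            ((∑ d ∈ SF (fl Q (1 / 2) / Rf r p) (Rf r p), tdf d (φ ω) : ℝ) : ℂ))‖ ^ 2 :=
        Finset.sum_congr rfl fun ω _ => by rw [hf1 p hpT ω]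
      rw [e2]
      exact e1.trans (hWle c1 (min_le_left _ _))
    · have e1 := h2 Q hQQ2 H0 Ω S φ hF r hr1 hr p hps hpT a H hH0
      have e2 : ∑ ω ∈ S, ‖f p ω‖ ^ 2 = ∑ ω ∈ S, ‖∑ n ∈ Ico a (a + H), ∏ i, Fc Q (p i) (φ ω i (n : ℤ))‖ ^ 2 :=
        Finset.sum_congr rfl fun ω _ => by rw [hf2 p hpT ω]
      rw [e2]
      exact e1.trans (hWle c2 (min_le_right _ _))

/-- Proof. As `Z2B_main` in `H24P/Z2B.lean`, with `A2_TM` instead of `TMf`. -/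
theorem B2_compl (m : ℕ) (C c : ℝ) (hC : 1 ≤ C) (hc : 0 < c) : ∃ c' : ℝ, 0 < c' ∧ ∃ Q0 : ℕ, ∀ Q : ℕ,
    Q0 ≤ Q → ∀ (H0 : ℕ) (Ω : Type) (S : Finset Ω) (φ : Ω → Fin m → ℤ → ℤ), Fam C c Q H0 S φ →
    ∀ r : ℕ, 1 ≤ r → r ^ 100 ≤ Q → ∀ cf : Fin m → Ch → ℂ, (∀ i, ∑ p ∈ PC Q, ‖cf i p‖ ≤ 3) →
    ∑ ω ∈ S, ‖MCf Q r cf (φ ω) - MDf Q r cf (φ ω)‖ ^ 2 ≤ S.card * (Q : ℝ) ^ (-c') := by
  classical
  obtain ⟨c1, hc1, Q1, h1⟩ := A2_TM m C c hC hc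
  obtain ⟨Q3, hQ31, h3⟩ := G1_rlog (36 ^ m) ((2 * m : ℕ) : ℝ) (c1 / 2) (by linarith)
  refine ⟨c1 / 2, by linarith, max 1 (max Q1 Q3), ?_⟩
  intro Q hQ H0 Ω S φ hF r hr1 hr cf hcf
  have hQ1 : 1 ≤ Q := (le_max_left _ _).trans hQ
  have hQQ1 : Q1 ≤ Q := (le_max_left _ _).trans ((le_max_right _ _).trans hQ)
  have hQQ3 : Q3 ≤ Q := (le_max_right _ _).trans ((le_max_right _ _).trans hQ)
  have hQ0r : (0 : ℝ) < Q := by exact_mod_cast hQ1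
  have hlog0 : 0 ≤ Real.log Q := Real.log_natCast_nonneg Q
  have hV : (0 : ℝ) ≤ (S.card : ℝ) := Nat.cast_nonneg _
  set D1 : ℕ := fl Q (1 / 16) with hD1
  have hD1Q : D1 ≤ Q := G1_le hQ1 (by norm_num) (by norm_num)
  set L1 : ℝ := (2 * (1 + Real.log Q)) ^ m with hL1
  have hL10 : 0 ≤ L1 := by positivity
  set W : ℝ := L1 ^ 2 * ((S.card : ℝ) * (Q : ℝ) ^ (-c1)) with hW
  have hQc0 : 0 ≤ (Q : ℝ) ^ (-c1) := Real.rpow_nonneg hQ0r.le _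
  have hW0 : 0 ≤ W := mul_nonneg (sq_nonneg _) (mul_nonneg hV hQc0)
  set f : (Fin m → Ch) → Ω → ℂ := fun p ω =>
    MRf p (Rf r p) (φ ω) *
      (((∑ d ∈ SF (fl Q (1 / 2) / Rf r p) (Rf r p), tdf d (φ ω) -
        SSf ((pr Q).filter (fun l => ¬ l ∣ Rf r p)) (φ ω) : ℝ) : ℂ)) with hfdef
  have hdec : ∀ ω ∈ S, ‖MCf Q r cf (φ ω) - MDf Q r cf (φ ω)‖ ^ 2 =
      ‖∑ p ∈ TSf m Q D1 r, (∏ i, cf i (p i)) * f p ω‖ ^ 2 := by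
    intro ω hω
    apply congrArg (fun z : ℂ => ‖z‖ ^ 2)
    unfold MCf MDf
    rw [← Finset.sum_sub_distrib]
    refine Finset.sum_congr rfl fun p hp => ?_
    obtain ⟨hR0, hRD, hd⟩ := b2_R Q D1 r hr1 p hp
    have hfac : Rf r p ∣ Q.factorial := Nat.dvd_factorial hR0 (hRD.trans hD1Q)
    have e1 := P3_M5 (φ ω) (hF.fb.cp ω hω) Q (Rf r p) hR0 hfac p hd
    rw [← e1, hfdef]
    beta_reduce
    rw [Complex.ofReal_sub]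
    ring
  rw [Finset.sum_congr rfl hdec]
  have hmain := Z2a S (TSf m Q D1 r) (fun p => ∏ i, cf i (p i)) f (3 ^ m) W hW0
    (b2_gam Q _ (b2_TS Q D1 r) cf hcf) ?_
  · refine hmain.trans ?_
    have e1 : ((3 : ℝ) ^ m) ^ 2 * L1 ^ 2 = 36 ^ m * (1 + Real.log Q) ^ ((2 * m : ℕ) : ℝ) := by
      rw [hL1, Real.rpow_natCast, ← mul_pow, ← mul_pow, ← pow_mul, mul_comm m 2, pow_mul,
        pow_mul, ← mul_pow]
      congr 1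
      ring
    have e2 : (Q : ℝ) ^ (-(c1 / 2)) = (Q : ℝ) ^ (c1 / 2) * (Q : ℝ) ^ (-c1) := by
      rw [← Real.rpow_add hQ0r]
      congr 1
      ring
    have e3 := h3 Q hQQ3
    have e4 : ((3 : ℝ) ^ m) ^ 2 * W = (((3 : ℝ) ^ m) ^ 2 * L1 ^ 2) * ((S.card : ℝ) * (Q : ℝ) ^ (-c1)) := by
      rw [hW]
      ring
    rw [e4, e1, e2]
    have e5 := mul_le_mul_of_nonneg_right e3 (mul_nonneg hV hQc0)
    refine e5.trans (le_of_eq ?_)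
    ring
  · intro p hp
    obtain ⟨hR0, hRD, hd⟩ := b2_R Q D1 r hr1 p hp
    have hRQ : Rf r p ≤ Q := hRD.trans hD1Q
    have e1 := h1 Q hQQ1 H0 Ω S φ hF (Rf r p) hR0 hRD
    rw [hW]
    refine le_trans ?_ (mul_le_mul_of_nonneg_left e1 (sq_nonneg L1))
    rw [Finset.mul_sum]
    refine Finset.sum_le_sum fun ω _ => ?_
    rw [hfdef]
    beta_reduce
    rw [norm_mul, Complex.norm_real, mul_pow, Real.norm_eq_abs, sq_abs]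
    refine mul_le_mul_of_nonneg_right ?_ (sq_nonneg _)
    refine pow_le_pow_left₀ (norm_nonneg _) ?_ 2
    refine (P0_MR p (Rf r p) hR0 (φ ω)).trans ?_
    refine pow_le_pow_left₀ (by positivity) ((M3b _ hR0).trans ?_) _
    have h5 : Real.log (Rf r p) ≤ Real.log Q :=
      Real.log_le_log (by exact_mod_cast hR0) (by exact_mod_cast hRQ)
    linarith

/-- **B2.** Proof. `B2_trunc`, `B2_compl`, `‖x + y‖² ≤ 2‖x‖² + 2‖y‖²`. -/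
theorem B2_cell (m : ℕ) (C c : ℝ) (hC : 1 ≤ C) (hc : 0 < c) : ∃ c' : ℝ, 0 < c' ∧ ∃ Q0 : ℕ, ∀ Q : ℕ,
    Q0 ≤ Q → ∀ (H0 : ℕ) (Ω : Type) (S : Finset Ω) (φ : Ω → Fin m → ℤ → ℤ), Fam C c Q H0 S φ →
    ∀ r : ℕ, 1 ≤ r → r ^ 100 ≤ Q → ∀ cf : Fin m → Ch → ℂ, (∀ i, ∑ p ∈ PC Q, ‖cf i p‖ ≤ 3) →
    ∀ a H : ℕ, H0 ≤ H → Q ^ 4 ≤ H →
    ∑ ω ∈ S, ‖∑ n ∈ Ico a (a + H), ∏ i, SG Q (cf i) (φ ω i (n : ℤ)) - H * MDf Q r cf (φ ω)‖ ^ 2 ≤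
      S.card * (H : ℝ) ^ 2 * (Q : ℝ) ^ (-c') := by
  classical
  obtain ⟨c1, hc1, Q1, h1⟩ := B2_trunc m C c hC hc
  obtain ⟨c2, hc2, Q2, h2⟩ := B2_compl m C c hC hc
  have hcm : 0 < min c1 c2 := lt_min hc1 hc2
  obtain ⟨Q3, hQ31, h3⟩ := G1_rlog 4 0 (min c1 c2 / 2) (by linarith)
  refine ⟨min c1 c2 / 2, by linarith, max 1 (max Q1 (max Q2 Q3)), ?_⟩
  intro Q hQ H0 Ω S φ hF r hr1 hr cf hcf a H hH0 hH
  have hQ1 : 1 ≤ Q := (le_max_left _ _).trans hQ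
  have hQQ1 : Q1 ≤ Q := (le_max_left _ _).trans ((le_max_right _ _).trans hQ)
  have hQQ2 : Q2 ≤ Q := (le_max_left _ _).trans ((le_max_right _ _).trans ((le_max_right _ _).trans hQ))
  have hQQ3 : Q3 ≤ Q := (le_max_right _ _).trans ((le_max_right _ _).trans ((le_max_right _ _).trans hQ))
  have hQ1r : (1 : ℝ) ≤ Q := by exact_mod_cast hQ1
  have hQ0r : (0 : ℝ) < Q := by linarith
  have hV : 0 ≤ (S.card : ℝ) * (H : ℝ) ^ 2 := mul_nonneg (Nat.cast_nonneg _) (sq_nonneg _)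
  have h4 : (4 : ℝ) ≤ (Q : ℝ) ^ (min c1 c2 / 2) := by
    have := h3 Q hQQ3
    rwa [Real.rpow_zero, mul_one] at this
  have hWle : ∀ c : ℝ, min c1 c2 ≤ c → (S.card : ℝ) * (H : ℝ) ^ 2 * (Q : ℝ) ^ (-c) ≤
      (S.card : ℝ) * (H : ℝ) ^ 2 * (Q : ℝ) ^ (-(min c1 c2)) := by
    intro c hc
    exact mul_le_mul_of_nonneg_left (Real.rpow_le_rpow_of_exponent_le hQ1r (by linarith)) hV
  have e1 := (h1 Q hQQ1 H0 Ω S φ hF r hr1 hr cf hcf a H hH0 hH).trans (hWle c1 (min_le_left _ _))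
  have e2 := mul_le_mul_of_nonneg_left (h2 Q hQQ2 H0 Ω S φ hF r hr1 hr cf hcf) (sq_nonneg (H : ℝ))
  have e2' : (H : ℝ) ^ 2 * ∑ ω ∈ S, ‖MCf Q r cf (φ ω) - MDf Q r cf (φ ω)‖ ^ 2 ≤
      (S.card : ℝ) * (H : ℝ) ^ 2 * (Q : ℝ) ^ (-(min c1 c2)) := by
    refine e2.trans (le_trans (le_of_eq ?_) (hWle c2 (min_le_right _ _)))
    ring
  have hpt : ∀ ω ∈ S, ‖∑ n ∈ Ico a (a + H), ∏ i, SG Q (cf i) (φ ω i (n : ℤ)) - H * MDf Q r cf (φ ω)‖ ^ 2 ≤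
      2 * ‖∑ n ∈ Ico a (a + H), ∏ i, SG Q (cf i) (φ ω i (n : ℤ)) - H * MCf Q r cf (φ ω)‖ ^ 2 +
      2 * ((H : ℝ) ^ 2 * ‖MCf Q r cf (φ ω) - MDf Q r cf (φ ω)‖ ^ 2) := by
    intro ω _
    have e3 : ∑ n ∈ Ico a (a + H), ∏ i, SG Q (cf i) (φ ω i (n : ℤ)) - H * MDf Q r cf (φ ω) =
        (∑ n ∈ Ico a (a + H), ∏ i, SG Q (cf i) (φ ω i (n : ℤ)) - H * MCf Q r cf (φ ω)) +
        H * (MCf Q r cf (φ ω) - MDf Q r cf (φ ω)) := by ring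
    rw [e3]
    generalize (∑ n ∈ Ico a (a + H), ∏ i, SG Q (cf i) (φ ω i (n : ℤ)) - H * MCf Q r cf (φ ω)) = x
    generalize MCf Q r cf (φ ω) - MDf Q r cf (φ ω) = y
    have e4 : ‖x + (H : ℂ) * y‖ ≤ ‖x‖ + H * ‖y‖ := by
      refine (norm_add_le _ _).trans ?_
      rw [norm_mul, Complex.norm_natCast]
    have e5 := pow_le_pow_left₀ (norm_nonneg _) e4 2
    nlinarith [sq_nonneg (‖x‖ - H * ‖y‖)]
  refine (Finset.sum_le_sum hpt).trans ?_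
  rw [Finset.sum_add_distrib, ← Finset.mul_sum, ← Finset.mul_sum, ← Finset.mul_sum]
  have e6 : (Q : ℝ) ^ (-(min c1 c2 / 2)) = (Q : ℝ) ^ (min c1 c2 / 2) * (Q : ℝ) ^ (-(min c1 c2)) := by
    rw [← Real.rpow_add hQ0r]
    congr 1
    ring
  have hW0 : 0 ≤ (S.card : ℝ) * (H : ℝ) ^ 2 * (Q : ℝ) ^ (-(min c1 c2)) :=
    mul_nonneg hV (Real.rpow_nonneg hQ0r.le _)
  have e7 := mul_le_mul_of_nonneg_right h4 hW0
  rw [e6]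
  calc _ ≤ 4 * ((S.card : ℝ) * (H : ℝ) ^ 2 * (Q : ℝ) ^ (-(min c1 c2))) := by linarith
    _ ≤ (Q : ℝ) ^ (min c1 c2 / 2) * ((S.card : ℝ) * (H : ℝ) ^ 2 * (Q : ℝ) ^ (-(min c1 c2))) := e7
    _ = _ := by ring

end Pool.Agent.Lib.H24Q
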