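import Pool.Agent.Lib.H24Q.Defs
import Pool.Agent.Lib.H24P.X1A
import Pool.Agent.Lib.H24P.P2
import Pool.Agent.Lib.H24P.P5
import Pool.Agent.Lib.H24P.G1
import Pool.Agent.Lib.H24P.T1
import Pool.Agent.Lib.H18Q.MPA
import Pool.Agent.Lib.Helper57.Mertens

/-!
# Project H24Q, chunk C1 (M): exceptional characters, lower bounds for the model (compare H24P/X1A, X2, K1)
-/

open Finset

namespace Pool.Agent.Lib.H24Q

open Pool.Agent.Lib.H68T Pool.Agent.Lib.H18Q Pool.Agent.Lib.H59P Pool.Agent.Lib.H24P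

/-- the least common multiple is large -/
theorem c1_lcm {m : ℕ} {Q : ℕ} (px : Ch) (hpx : px ∈ PC Q) (Bs : Finset (Fin m)) (hBs : Bs.Nonempty)
    (κ : Fin m → ℕ) (hκ : κ ∈ KT px Bs) : px.1 - 1 < univ.lcm (fun i => (pB px Bs i).1 * κ i) := by
  classical
  obtain ⟨hr1, -, -⟩ := mem_PC.1 hpx
  obtain ⟨i0, hi0⟩ := hBs
  have hsub := X1A_sub Q px hpx Bs
  have hκ' := Fintype.mem_piFinset.1 (hsub.1 hκ)
  have hpos : ∀ i, (pB px Bs i).1 * κ i ≠ 0 := by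
    intro i
    have h1 := f_q_le (hsub.2 i) (hκ' i)
    exact (Nat.one_le_iff_ne_zero).1 h1.1
  have hκ0 : κ i0 = 1 := by
    unfold KT at hκ
    have h1 := Fintype.mem_piFinset.1 hκ i0
    rw [if_pos hi0, Finset.mem_singleton] at h1
    exact h1
  have hp0 : pB px Bs i0 = px := by
    unfold pB
    rw [if_pos hi0]
  have hdvd : px.1 ∣ univ.lcm (fun i => (pB px Bs i).1 * κ i) := by
    have h1 : (pB px Bs i0).1 * κ i0 ∣ univ.lcm (fun i => (pB px Bs i).1 * κ i) :=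
      Finset.dvd_lcm (f := fun i => (pB px Bs i).1 * κ i) (Finset.mem_univ i0)
    rw [hκ0, mul_one, hp0] at h1
    exact h1
  have hne : univ.lcm (fun i => (pB px Bs i).1 * κ i) ≠ 0 := by
    rw [Ne, Finset.lcm_eq_zero_iff]
    rintro ⟨i, _, hi⟩
    exact hpos i hi
  have := Nat.le_of_dvd (Nat.pos_of_ne_zero hne) hdvd
  omega

/-- the mean as a sum over a longer interval -/
theorem c1_mean {m : ℕ} {Q : ℕ} (φ : Fin m → ℤ → ℤ) (hφ : Cp φ) (px : Ch) (hpx : px ∈ PC Q)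
    (Bs : Finset (Fin m)) (q : ℕ) (hq : 0 < q) :
    MRf (pB px Bs) px.1 φ = (∑ n ∈ Ico 0 (0 + px.1 * q), ∑ κ ∈ KT px Bs,
      ∏ i, gk (pB px Bs i) (κ i) (φ i (n : ℤ))) / ((px.1 * q : ℕ) : ℂ) := by
  classical
  obtain ⟨hr1, -, -⟩ := mem_PC.1 hpx
  have h1 : ∀ n : ℕ, ∑ κ ∈ KT px Bs, ∏ i, gk (pB px Bs i) (κ i) (φ i (n : ℤ)) =
      Phf (pB px Bs) px.1.primeFactors (at' φ (n : ℤ)) := fun n =>
    (X1A_expand Q px hpx Bs (fun i => φ i (n : ℤ))).symm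
  have hd : ∀ i, (pB px Bs i).1 ∣ px.1 := by
    intro i
    unfold pB
    split_ifs
    · exact dvd_rfl
    · exact one_dvd _
  rw [zero_add, Nat.Ico_zero_eq_range, Finset.sum_congr rfl fun n _ => h1 n,
    x1_sum_mul px.1 q (fun n => Phf (pB px Bs) px.1.primeFactors (at' φ (n : ℤ))) (fun s => by
      have := P2_Ph φ hφ (pB px Bs) px.1 px.1 dvd_rfl hd (s : ℤ)
      push_cast
      exact this)]
  unfold MRf
  have hq0 : (q : ℂ) ≠ 0 := by exact_mod_cast hq.ne'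
  have hr0 : (px.1 : ℂ) ≠ 0 := by
    have : px.1 ≠ 0 := by omega
    exact_mod_cast this
  push_cast
  field_simp

theorem c1_rc {r : ℕ} (hr : 2 ≤ r) {c : ℝ} (hc : 0 < c) :
    (((r - 1 : ℕ) : ℝ)) ^ (-c) ≤ 2 ^ c * (r : ℝ) ^ (-c) := by
  have hrR : (2 : ℝ) ≤ r := by exact_mod_cast hr
  have hr0 : (0 : ℝ) < r := by linarith
  have h1 : (((r - 1 : ℕ) : ℝ)) = (r : ℝ) - 1 := by
    rw [Nat.cast_sub (by omega), Nat.cast_one]
  rw [h1]
  have h2 : (r : ℝ) / 2 ≤ (r : ℝ) - 1 := by linarith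
  have h3 : ((r : ℝ) - 1) ^ (-c) ≤ ((r : ℝ) / 2) ^ (-c) :=
    Real.rpow_le_rpow_of_nonpos (by positivity) h2 (by linarith)
  refine h3.trans (le_of_eq ?_)
  rw [Real.div_rpow hr0.le (by norm_num), div_eq_mul_inv, mul_comm, ← Real.rpow_neg (by norm_num), neg_neg]

/-- Proof. Let `r = px.1`. `MRf (pB px Bs) r (φ ω)` is a mean over `n < r` of a function of period `r` (`P2_Ph`), hence over
`n < H`, `H = r (H0 + 1)`. By `X1A_expand` it is `(1/H) ∑_{n<H} ∑_{κ ∈ KT px Bs} ∏ gk (pB px Bs i) (κ i) (φ ω i n)`.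
`KT px Bs ⊆ piFinset (KS Q (pB px Bs i).1)` (`X1A_sub` gives the level `r`; `KS r _ ⊆ KS Q _` since `r ≤ Q`). `FG` with
`D = r - 1 ≥ 1` (the lcm is a multiple of `r` as `Bs` is nonempty, and positive), `(r-1)^(-c) ≤ 2^c r^(-c)`. -/
theorem C1_MR {C c : ℝ} (hC : 1 ≤ C) (hc : 0 < c) {Q H0 : ℕ} {m : ℕ} {Ω : Type} {S : Finset Ω}
    {φ : Ω → Fin m → ℤ → ℤ} (hF : FG C c Q H0 S φ) (hcp : ∀ ω ∈ S, Cp (φ ω)) (px : Ch)
    (hpx : px ∈ PC Q) (hr : 2 ≤ px.1) (Bs : Finset (Fin m)) (hBs : Bs.Nonempty) :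
    ∑ ω ∈ S, ‖MRf (pB px Bs) px.1 (φ ω)‖ ^ 2 ≤
      C * 2 ^ c * (1 + Real.log Q) ^ C * S.card * (px.1 : ℝ) ^ (-c) := by
  classical
  obtain ⟨hr1, hrQ, hprim⟩ := mem_PC.1 hpx
  have hQ1 : 1 ≤ Q := by omega
  have hlog : 0 ≤ Real.log Q := Real.log_natCast_nonneg Q
  have hsub := X1A_sub Q px hpx Bs
  have hPC : ∀ i, pB px Bs i ∈ PC Q := by
    intro i
    obtain ⟨e1, e2, e3⟩ := mem_PC.1 (hsub.2 i)
    exact mem_PC.2 ⟨e1, e2.trans hrQ, e3⟩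
  have hKS : KT px Bs ⊆ Fintype.piFinset (fun i => KS Q (pB px Bs i).1) := by
    refine hsub.1.trans (Fintype.piFinset_subset _ _ fun i => ?_)
    intro κ hκ
    rw [KS, Finset.mem_filter, Finset.mem_Icc] at hκ ⊢
    exact ⟨⟨hκ.1.1, hκ.1.2.trans (Nat.div_le_div_right hrQ)⟩, hκ.2⟩
  have hH : H0 ≤ px.1 * (H0 + 1) := by nlinarith
  have hmain := hF (pB px Bs) hPC (KT px Bs) hKS (px.1 - 1) (by omega)
    (fun κ hκ => c1_lcm px hpx Bs hBs κ hκ) 0 (px.1 * (H0 + 1)) hH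
  have hHpos : (0 : ℝ) < ((px.1 * (H0 + 1) : ℕ) : ℝ) := by
    have : 0 < px.1 * (H0 + 1) := Nat.mul_pos (by omega) (Nat.succ_pos _)
    exact_mod_cast this
  have hnorm : ∀ ω ∈ S, ‖MRf (pB px Bs) px.1 (φ ω)‖ ^ 2 = (1 / ((px.1 * (H0 + 1) : ℕ) : ℝ) ^ 2) *
      ‖∑ n ∈ Ico 0 (0 + px.1 * (H0 + 1)), ∑ κ ∈ KT px Bs,
        ∏ i, gk (pB px Bs i) (κ i) (φ ω i (n : ℤ))‖ ^ 2 := by
    intro ω hω
    rw [c1_mean (φ ω) (hcp ω hω) px hpx Bs (H0 + 1) (Nat.succ_pos _), norm_div, Complex.norm_natCast, div_pow]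
    ring
  rw [Finset.sum_congr rfl hnorm, ← Finset.mul_sum]
  have h5 := mul_le_mul_of_nonneg_left hmain
    (by positivity : (0 : ℝ) ≤ 1 / ((px.1 * (H0 + 1) : ℕ) : ℝ) ^ 2)
  refine h5.trans ?_
  have h6 : (1 / ((px.1 * (H0 + 1) : ℕ) : ℝ) ^ 2) * (C * (1 + Real.log Q) ^ C * S.card *
      ((px.1 * (H0 + 1) : ℕ) : ℝ) ^ 2 * (((px.1 - 1 : ℕ) : ℝ)) ^ (-c)) =
      C * (1 + Real.log Q) ^ C * S.card * (((px.1 - 1 : ℕ) : ℝ)) ^ (-c) := by
    field_simp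
  rw [h6]
  have hC0 : 0 ≤ C * (1 + Real.log Q) ^ C * S.card := by
    have : 0 ≤ (1 + Real.log Q) ^ C := Real.rpow_nonneg (by linarith) _
    positivity
  refine (mul_le_mul_of_nonneg_left (c1_rc hr hc) hC0).trans (le_of_eq ?_)
  ring

theorem c1_low1 {k : ℕ} (φ : Fin k → ℤ → ℤ) (hφ : Cp φ) (hN : NoFix φ) (l : ℕ)
    (hl : l.Prime) : 1 / (l : ℝ) ≤ 1 + tpf l φ := by
  classical
  have hl2 : (2 : ℝ) ≤ l := by exact_mod_cast hl.two_le
  have hl0 : (0 : ℝ) < l := by linarith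
  have hlz : (0 : ℤ) < l := by exact_mod_cast hl.pos
  obtain ⟨n, hn⟩ := hN l hl
  set n' : ℕ := (n % l).toNat with hn'
  have h1 : (n' : ℤ) = n % l := Int.toNat_of_nonneg (Int.emod_nonneg _ hlz.ne')
  have h2 : n' < l := by
    have := Int.emod_lt_of_pos n hlz
    omega
  have h3 : n' ∈ (range l).filter (fun n : ℕ => ∀ i, ¬ (l : ℤ) ∣ φ i n) := by
    refine mem_filter.2 ⟨mem_range.2 h2, fun i hi => hn i ?_⟩
    have h4 := hφ i (l * (n / l)) (n' : ℤ)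
    have h5 : (n' : ℤ) + l * (n / l) = n := by
      rw [h1]
      exact Int.emod_add_mul_ediv n l
    rw [h5] at h4
    have h6 : (l : ℤ) ∣ φ i n - φ i n' := (Dvd.intro _ rfl).trans h4
    exact (dvd_sub_left hi).1 h6
  rw [T1_count l hl]
  have h4 : (1 : ℝ) ≤ (((range l).filter (fun n : ℕ => ∀ i, ¬ (l : ℤ) ∣ φ i n)).card : ℝ) := by
    exact_mod_cast Finset.card_pos.2 ⟨n', h3⟩
  have h5 : (1 : ℝ) ≤ ((l : ℝ) / (l - 1)) ^ k := one_le_pow₀ (M3a_ratio l hl)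
  calc 1 / (l : ℝ) = 1 / (l : ℝ) * 1 := (mul_one _).symm
    _ ≤ _ := mul_le_mul (div_le_div_of_nonneg_right h4 hl0.le) h5 (by norm_num) (by positivity)

/-- the local lower bound -/
theorem c1_loc {k : ℕ} (φ : Fin k → ℤ → ℤ) (hφ : Cp φ) (hN : NoFix φ) (C : ℝ) (hC : 1 ≤ C)
    (l : ℕ) (hl : l.Prime) (ht : |tpf l φ| ≤ C / l) :
    (if (l : ℝ) ≤ 2 * C then 1 / (2 * C) else 1) * Real.exp (-(2 * C) * (1 / l)) ≤ 1 + tpf l φ := by
  have hl2 : (2 : ℝ) ≤ l := by exact_mod_cast hl.two_le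
  have hl0 : (0 : ℝ) < l := by linarith
  split_ifs with h
  · have h1 : Real.exp (-(2 * C) * (1 / l)) ≤ 1 := by
      rw [Real.exp_le_one_iff]
      have : 0 ≤ 2 * C * (1 / (l : ℝ)) := by positivity
      linarith
    have h2 : 1 / (2 * C) ≤ 1 / (l : ℝ) := one_div_le_one_div_of_le hl0 h
    calc _ ≤ 1 / (2 * C) * 1 := mul_le_mul_of_nonneg_left h1 (by positivity)
      _ = 1 / (2 * C) := mul_one _
      _ ≤ 1 / (l : ℝ) := h2
      _ ≤ _ := c1_low1 φ hφ hN l hl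
  · push Not at h
    rw [one_mul]
    set x : ℝ := C / l with hx
    have hx0 : 0 ≤ x := by positivity
    have hx1 : 2 * x ≤ 1 := by
      rw [hx, mul_div_assoc', div_le_one hl0]
      exact h.le
    have h1 : 1 - x ≤ 1 + tpf l φ := by
      have := (abs_le.1 ht).1
      linarith
    refine le_trans ?_ h1
    have h2 : -(2 * C) * (1 / (l : ℝ)) = -(2 * x) := by
      rw [hx]
      ring
    rw [h2, Real.exp_neg]
    have h3 : 1 + 2 * x ≤ Real.exp (2 * x) := by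
      have := Real.add_one_le_exp (2 * x)
      linarith
    have h4 : (Real.exp (2 * x))⁻¹ ≤ (1 + 2 * x)⁻¹ := inv_anti₀ (by linarith) h3
    refine h4.trans ?_
    rw [inv_le_iff_one_le_mul₀ (by linarith)]
    nlinarith [mul_nonneg hx0 (by linarith : (0 : ℝ) ≤ 1 - 2 * x)]

theorem c1_exp (Q : ℕ) (hQ : 2 ≤ Q) :
    Real.exp (∑ l ∈ pr Q, 1 / (l : ℝ)) ≤ 500 * (1 + Real.log Q) := by
  have h1 := Pool.Agent.Lib.Helper57.prod_one_sub_inv_inv_le Q hQ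
  have h2 : pr Q = Pool.Agent.Lib.Sieve.primesUpTo Q := by
    ext l
    rw [p5_mem_pr, Pool.Agent.Lib.Sieve.mem_primesUpTo]
  rw [← h2] at h1
  rw [Real.exp_sum]
  have h3 : ∏ l ∈ pr Q, Real.exp (1 / (l : ℝ)) ≤ ∏ p ∈ pr Q, (1 - 1 / (p : ℝ))⁻¹ := by
    refine Finset.prod_le_prod (fun l _ => (Real.exp_pos _).le) fun l hl => ?_
    have hlp := (p5_mem_pr.1 hl).1
    have hl2 : (2 : ℝ) ≤ l := by exact_mod_cast hlp.two_le
    have h4 : 1 / (l : ℝ) ≤ 1 / 2 := one_div_le_one_div_of_le (by norm_num) hl2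
    have h5 := Real.one_sub_le_exp_neg (1 / (l : ℝ))
    rw [Real.exp_neg] at h5
    have h6 : Real.exp (1 / (l : ℝ)) = ((Real.exp (1 / (l : ℝ)))⁻¹)⁻¹ := (inv_inv _).symm
    rw [h6]
    exact inv_anti₀ (by linarith) h5
  have h7 : (500 : ℝ) * Real.log Q ≤ 500 * (1 + Real.log Q) := by linarith
  exact h3.trans (h1.trans h7)

/-- Proof. As `X2_low` in `H24P` (see its docstring); the lower bound `1 + tpf ≥ 1/l` without fixed divisor as in `T1_low`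
(`T1_count`, reduction of `n` modulo `l` by `Cp`). -/
theorem C1_low (m : ℕ) (C : ℝ) (hC : 1 ≤ C) : ∃ C' c' : ℝ, 1 ≤ C' ∧ 0 < c' ∧ ∀ φ : Fin m → ℤ → ℤ,
    Cp φ → (∀ l : ℕ, l.Prime → |tpf l φ| ≤ C / l) → NoFix φ → ∀ Q : ℕ, 2 ≤ Q →
    ∀ P' : Finset ℕ, P' ⊆ pr Q → c' * (1 + Real.log Q) ^ (-C') ≤ SSf P' φ := by
  classical
  have hC0 : 0 < C := by linarith
  have hb0 : 0 < 1 / (2 * C) := by positivity
  have hb1 : 1 / (2 * C) ≤ 1 := by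
    rw [div_le_one (by linarith)]
    linarith
  refine ⟨2 * C, (1 / (2 * C)) ^ ⌊2 * C⌋₊ * (500 : ℝ) ^ (-(2 * C)), by linarith, by positivity, ?_⟩
  intro φ hφ ht hN Q hQ P' hP'
  have hlog : 0 ≤ Real.log Q := Real.log_natCast_nonneg Q
  have hprime : ∀ l ∈ P', l.Prime := fun l hl => (p5_mem_pr.1 (hP' hl)).1
  have h1 : ∏ l ∈ P', ((if (l : ℝ) ≤ 2 * C then 1 / (2 * C) else 1) * Real.exp (-(2 * C) * (1 / l))) ≤
      SSf P' φ := by
    unfold SSf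
    refine Finset.prod_le_prod (fun l _ => ?_) fun l hl => c1_loc φ hφ hN C hC l (hprime l hl) (ht l (hprime l hl))
    have : 0 ≤ Real.exp (-(2 * C) * (1 / (l : ℝ))) := (Real.exp_pos _).le
    split_ifs <;> positivity
  refine le_trans ?_ h1
  rw [Finset.prod_mul_distrib]
  have h2 : (1 / (2 * C)) ^ ⌊2 * C⌋₊ ≤ ∏ l ∈ P', (if (l : ℝ) ≤ 2 * C then 1 / (2 * C) else 1) := by
    rw [← Finset.prod_filter, Finset.prod_const]
    refine pow_le_pow_of_le_one hb0.le hb1 ?_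
    have h3 : P'.filter (fun l : ℕ => (l : ℝ) ≤ 2 * C) ⊆ (Finset.Icc 1 ⌊2 * C⌋₊ : Finset ℕ) := by
      intro l hl
      rw [Finset.mem_filter] at hl
      rw [Finset.mem_Icc]
      exact ⟨(hprime l hl.1).one_lt.le, Nat.le_floor hl.2⟩
    have h4 := Finset.card_le_card h3
    rwa [Nat.card_Icc, Nat.add_sub_cancel] at h4
  have h5 : (500 : ℝ) ^ (-(2 * C)) * (1 + Real.log Q) ^ (-(2 * C)) ≤
      ∏ l ∈ P', Real.exp (-(2 * C) * (1 / l)) := by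
    rw [← Real.exp_sum, ← Finset.mul_sum, ← Real.mul_rpow (by norm_num) (by linarith)]
    have h6 : ∑ l ∈ P', 1 / (l : ℝ) ≤ ∑ l ∈ pr Q, 1 / (l : ℝ) :=
      Finset.sum_le_sum_of_subset_of_nonneg hP' fun l _ _ => by positivity
    have h7 : Real.exp (-(2 * C) * ∑ l ∈ pr Q, 1 / (l : ℝ)) ≤
        Real.exp (-(2 * C) * ∑ l ∈ P', 1 / (l : ℝ)) := by
      rw [Real.exp_le_exp]
      nlinarith
    refine le_trans ?_ h7
    have h8 : Real.exp (-(2 * C) * ∑ l ∈ pr Q, 1 / (l : ℝ)) =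
        (Real.exp (∑ l ∈ pr Q, 1 / (l : ℝ))) ^ (-(2 * C)) := by
      rw [← Real.exp_mul]
      congr 1
      ring
    rw [h8]
    exact Real.rpow_le_rpow_of_nonpos (Real.exp_pos _) (c1_exp Q hQ) (by linarith)
  calc (1 / (2 * C)) ^ ⌊2 * C⌋₊ * (500 : ℝ) ^ (-(2 * C)) * (1 + Real.log Q) ^ (-(2 * C))
      = (1 / (2 * C)) ^ ⌊2 * C⌋₊ * ((500 : ℝ) ^ (-(2 * C)) * (1 + Real.log Q) ^ (-(2 * C))) := by ring
    _ ≤ _ := by
        refine mul_le_mul h2 h5 ?_ ?_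
        · have : 0 ≤ (1 + Real.log Q) ^ (-(2 * C)) := Real.rpow_nonneg (by linarith) _
          positivity
        · exact Finset.prod_nonneg fun l _ => by split_ifs <;> positivity

/-- logarithms are smaller than powers -/
theorem c1_small (K b e : ℝ) (he : 0 < e) (hK : 0 < K) : ∃ Q0 : ℕ, 2 ≤ Q0 ∧ ∀ Q : ℕ, Q0 ≤ Q →
    (Q : ℝ) ^ (-e) ≤ K * (1 + Real.log Q) ^ (-b) := by
  obtain ⟨Q0, hQ01, h⟩ := G1_rlog (1 / K) b e he
  refine ⟨max Q0 2, le_max_right _ _, fun Q hQ => ?_⟩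
  have h1 := h Q ((le_max_left _ _).trans hQ)
  have hQ2 : 2 ≤ Q := (le_max_right _ _).trans hQ
  have hQ0 : (0 : ℝ) < Q := by
    have : 0 < Q := by omega
    exact_mod_cast this
  have hlog : 0 ≤ Real.log Q := Real.log_natCast_nonneg Q
  have hL : 0 < (1 + Real.log Q) ^ b := Real.rpow_pos_of_pos (by linarith) _
  rw [Real.rpow_neg hQ0.le, Real.rpow_neg (by linarith)]
  have h2 : ((Q : ℝ) ^ e)⁻¹ ≤ (1 / K * (1 + Real.log Q) ^ b)⁻¹ := inv_anti₀ (by positivity) h1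
  refine h2.trans (le_of_eq ?_)
  field_simp

/-- Proof. `P5_eta` with `η = 1`, `C1_low` with `P' = pr Q`, `G1_rlog`. -/
theorem C1_good (m : ℕ) (C c1 : ℝ) (hC : 1 ≤ C) (hc1 : 0 < c1) : ∃ Q0 : ℕ, ∀ Q : ℕ, Q0 ≤ Q →
    ∀ φ : Fin m → ℤ → ℤ, Cp φ → (∀ l : ℕ, l.Prime → |tpf l φ| ≤ C / l) → NoFix φ →
    ∀ th' : Fin m → ℝ, (∀ i, 0 ≤ th' i) → (∀ i, th' i ≤ 1 - 1) →
    (Q : ℝ) ^ (-c1) ≤ PMf Q p0 th' φ := by
  obtain ⟨C', c', hC', hc', hlow⟩ := C1_low m C hC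
  obtain ⟨Q0, hQ02, h⟩ := c1_small c' C' c1 hc1 hc'
  refine ⟨Q0, ?_⟩
  intro Q hQ φ hφ ht hN th' h0 h1
  have h2 := P5_eta φ hφ Q p0 (by
    have : (p0 : Ch).2 = 1 := rfl
    rw [this, one_pow]) 1 zero_le_one th' h0 h1
  rw [one_pow, one_mul] at h2
  exact (h Q hQ).trans ((hlow φ hφ ht hN Q (hQ02.trans hQ) (pr Q) (Finset.Subset.refl _)).trans h2)

/-- **C1.** Proof. Compare `K1_exc` in `H24P` (see its docstring), with `C1_MR` instead of `X1A_main`, `X1B_main`, and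
`C1_low` instead of `X2_low`.
(i) `2 η ≥ 1 - β ≥ c/(r (1+log r)²)` (`zero_lower`, `H18Q/MPA.lean`), `r ≤ Q^c6`, and `PMf ≥ η^m SSf (pr Q)` (`P5_eta`), `C1_low`;
logarithms and constants are at most `Q^ε` (`G1_rlog`).
(ii) `Bad` is the set of the `ω` with `2^(m+1) ‖MRf (pB px Bs) r (φ ω)‖ > c' (1+log Q)^(-C')` for some nonempty `Bs` (`c'`, `C'` from
`C1_low`; `r.primeFactors ⊆ pr Q`); by Chebyshev and `C1_MR` at most
`2^m 4^(m+1) c'^(-2) C 2^c (1+log Q)^(C + 2 C') |S| r^(-c) ≤ |S| Q^(-c c6/2)` of them. For the others `P5_X2`, `C1_low`.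
(`r ≥ 2` as `ψ ≠ 1`; `⟨r, ψ⟩ ∈ PC Q` by `mem_PC`.) -/
theorem C1_exc (m : ℕ) (C c c6 ε : ℝ) (hC : 1 ≤ C) (hc : 0 < c) (hc6 : 0 < c6) (hε : 0 < ε) :
    ∃ Q0 : ℕ, ∀ Q : ℕ, Q0 ≤ Q → ∀ (H0 : ℕ) (Ω : Type) (S : Finset Ω) (φ : Ω → Fin m → ℤ → ℤ),
    Fam C c Q H0 S φ → ∀ (r : ℕ) [NeZero r] (ψ : DirichletCharacter ℂ r) (β η : ℝ), r ^ 100 ≤ Q →
    ψ.IsPrimitive → ψ ≠ 1 → ψ ^ 2 = 1 → β < 1 → ψ.LFunction (β : ℂ) = 0 → 1 - β ≤ 2 * η → η ≤ 1 →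
    (((r : ℝ) ≤ (Q : ℝ) ^ c6 → ∀ ω ∈ S, NoFix (φ ω) → ∀ th' : Fin m → ℝ, (∀ i, 0 ≤ th' i) →
        (∀ i, th' i ≤ 1 - η) → (Q : ℝ) ^ (-(m * c6 + ε)) ≤ PMf Q ⟨r, ψ⟩ th' (φ ω)) ∧
      ((Q : ℝ) ^ c6 < r → ∃ Bad : Finset Ω, Bad ⊆ S ∧ (Bad.card : ℝ) ≤ S.card * (Q : ℝ) ^ (-(c * c6 / 2)) ∧
        ∀ ω ∈ S, ω ∉ Bad → NoFix (φ ω) → ∀ th' : Fin m → ℝ, (∀ i, 0 ≤ th' i) →
          (∀ i, th' i ≤ 1 - η) → (Q : ℝ) ^ (-ε) ≤ PMf Q ⟨r, ψ⟩ th' (φ ω))) := by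
  classical
  obtain ⟨C', c', hC', hc', hlow⟩ := C1_low m C hC
  obtain ⟨c0, hc0, hzero⟩ := zero_lower
  have hKpos : 0 < (c0 / 2) ^ m * c' := by positivity
  obtain ⟨Q1, hQ12, hs1⟩ := c1_small ((c0 / 2) ^ m * c') (2 * m + C') ε hε hKpos
  obtain ⟨Q2, hQ22, hs2⟩ := c1_small (1 / 2 * c') C' ε hε (by positivity)
  obtain ⟨Q3, hQ31, hs3⟩ := G1_rlog (2 ^ m * (C * 2 ^ c) * (2 ^ (m + 1) / c') ^ 2) (C + 2 * C') (c * c6 / 2)
    (by positivity)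
  refine ⟨max Q1 (max Q2 Q3), ?_⟩
  intro Q hQ H0 Ω S φ hF r _ ψ β η hr100 hprim hψ1 hψ2 hβ hL hη hη1
  have hQQ1 : Q1 ≤ Q := (le_max_left _ _).trans hQ
  have hQQ2 : Q2 ≤ Q := (le_max_left _ _).trans ((le_max_right _ _).trans hQ)
  have hQQ3 : Q3 ≤ Q := (le_max_right _ _).trans ((le_max_right _ _).trans hQ)
  have hQ2 : 2 ≤ Q := hQ12.trans hQQ1
  have hQR : (2 : ℝ) ≤ Q := by exact_mod_cast hQ2
  have hQ0 : (0 : ℝ) < Q := by linarith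
  have hlog : 0 ≤ Real.log Q := Real.log_natCast_nonneg Q
  have hr0 : 0 < r := Nat.pos_of_ne_zero (NeZero.ne r)
  have hrQ : r ≤ Q := (Nat.le_self_pow (by norm_num) r).trans hr100
  have hr2 : 2 ≤ r := by
    by_contra h
    have : r = 1 := by omega
    subst this
    exact hψ1 (DirichletCharacter.level_one ψ)
  have hrR : (2 : ℝ) ≤ r := by exact_mod_cast hr2
  have hrR0 : (0 : ℝ) < r := by linarith
  have hη0 : 0 < η := by linarith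
  have hpx : (⟨r, ψ⟩ : Ch) ∈ PC Q := mem_PC.2 ⟨hr0, hrQ, hprim⟩
  have hLpos : 0 < 1 + Real.log Q := by linarith
  constructor
  · intro hrc ω hω hN th' h0 h1
    have hcp := hF.fb.cp ω hω
    have h2 := P5_eta (φ ω) hcp Q ⟨r, ψ⟩ hψ2 η hη0.le th' h0 h1
    refine le_trans ?_ h2
    have h3 := hlow (φ ω) hcp (hF.fb.tp ω hω) hN Q hQ2 (pr Q) (Finset.Subset.refl _)
    have h4 : c0 / (r * (1 + Real.log r) ^ 2) ≤ 1 - β := hzero r ψ hψ1 hψ2 β hβ hL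
    have hlogr : Real.log r ≤ Real.log Q := Real.log_le_log hrR0 (by exact_mod_cast hrQ)
    have hlogr0 : 0 ≤ Real.log r := Real.log_natCast_nonneg r
    have h5 : (c0 / 2) * ((Q : ℝ) ^ (-c6) * (1 + Real.log Q) ^ (-(2 : ℝ))) ≤ η := by
      have h6 : (r : ℝ) * (1 + Real.log r) ^ 2 ≤ (Q : ℝ) ^ c6 * (1 + Real.log Q) ^ 2 := by
        refine mul_le_mul hrc ?_ (by positivity) (by positivity)
        exact pow_le_pow_left₀ (by linarith) (by linarith) 2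
      have h7 : c0 / ((Q : ℝ) ^ c6 * (1 + Real.log Q) ^ 2) ≤ c0 / (r * (1 + Real.log r) ^ 2) :=
        div_le_div_of_nonneg_left hc0.le (by positivity) h6
      have h8 : (c0 / 2) * ((Q : ℝ) ^ (-c6) * (1 + Real.log Q) ^ (-(2 : ℝ))) =
          c0 / ((Q : ℝ) ^ c6 * (1 + Real.log Q) ^ 2) / 2 := by
        rw [Real.rpow_neg hQ0.le, Real.rpow_neg hLpos.le, Real.rpow_two]
        have : (Q : ℝ) ^ c6 ≠ 0 := (Real.rpow_pos_of_pos hQ0 _).ne'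
        field_simp
      rw [h8]
      linarith
    have h9 : ((c0 / 2) * ((Q : ℝ) ^ (-c6) * (1 + Real.log Q) ^ (-(2 : ℝ)))) ^ m *
        (c' * (1 + Real.log Q) ^ (-C')) ≤ η ^ m * SSf (pr Q) (φ ω) := by
      refine mul_le_mul (pow_le_pow_left₀ (by positivity) h5 m) h3 (by positivity) (by positivity)
    refine le_trans ?_ h9
    have h10 := hs1 Q hQQ1
    have h11 : (Q : ℝ) ^ (-(m * c6 + ε)) = (Q : ℝ) ^ (-(m * c6 : ℝ)) * (Q : ℝ) ^ (-ε) := by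
      rw [← Real.rpow_add hQ0]
      congr 1
      ring
    rw [h11]
    have h12 : ((c0 / 2) * ((Q : ℝ) ^ (-c6) * (1 + Real.log Q) ^ (-(2 : ℝ)))) ^ m *
        (c' * (1 + Real.log Q) ^ (-C')) = (Q : ℝ) ^ (-(m * c6 : ℝ)) *
          ((c0 / 2) ^ m * c' * (1 + Real.log Q) ^ (-(2 * m + C' : ℝ))) := by
      have e1 : ((Q : ℝ) ^ (-c6)) ^ m = (Q : ℝ) ^ (-(m * c6 : ℝ)) := by
        rw [← Real.rpow_natCast, ← Real.rpow_mul hQ0.le]
        congr 1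
        ring
      have e2 : ((1 + Real.log Q) ^ (-(2 : ℝ))) ^ m = (1 + Real.log Q) ^ (-(2 * m : ℝ)) := by
        rw [← Real.rpow_natCast, ← Real.rpow_mul hLpos.le]
        congr 1
        ring
      have e3 : (1 + Real.log Q) ^ (-(2 * m + C' : ℝ)) =
          (1 + Real.log Q) ^ (-(2 * m : ℝ)) * (1 + Real.log Q) ^ (-C') := by
        rw [← Real.rpow_add hLpos]
        congr 1
        ring
      rw [mul_pow, mul_pow, e1, e2, e3]
      ring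
    rw [h12]
    exact mul_le_mul_of_nonneg_left h10 (by positivity)
  · intro hrc
    set t : ℝ := c' * (1 + Real.log Q) ^ (-C') with ht
    have ht0 : 0 < t := by positivity
    set Bad : Finset Ω := S.filter (fun ω => ∃ Bs : Finset (Fin m), Bs.Nonempty ∧
      t < 2 ^ (m + 1) * ‖MRf (pB ⟨r, ψ⟩ Bs) r (φ ω)‖) with hBad
    refine ⟨Bad, Finset.filter_subset _ _, ?_, ?_⟩
    · -- the number of the exceptions
      have hms : ∀ Bs : Finset (Fin m), Bs.Nonempty → ∑ ω ∈ S, ‖MRf (pB ⟨r, ψ⟩ Bs) r (φ ω)‖ ^ 2 ≤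
          C * 2 ^ c * (1 + Real.log Q) ^ C * S.card * (r : ℝ) ^ (-c) := fun Bs hBs =>
        C1_MR hC hc hF.fg1 hF.fb.cp ⟨r, ψ⟩ hpx hr2 Bs hBs
      set X : ℝ := C * 2 ^ c * (1 + Real.log Q) ^ C * S.card * (r : ℝ) ^ (-c) with hX
      have hX0 : 0 ≤ X := by positivity
      have hpt : ∀ ω ∈ Bad, (t / 2 ^ (m + 1)) ^ 2 ≤ ∑ Bs ∈ (univ : Finset (Finset (Fin m))).filter
          (fun Bs => Bs.Nonempty), ‖MRf (pB ⟨r, ψ⟩ Bs) r (φ ω)‖ ^ 2 := by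
        intro ω hω
        rw [hBad, Finset.mem_filter] at hω
        obtain ⟨-, Bs, hBs, hlt⟩ := hω
        have h1 : t / 2 ^ (m + 1) ≤ ‖MRf (pB ⟨r, ψ⟩ Bs) r (φ ω)‖ := by
          rw [div_le_iff₀ (by positivity)]
          linarith
        refine (pow_le_pow_left₀ (by positivity) h1 2).trans ?_
        exact Finset.single_le_sum (f := fun Bs => ‖MRf (pB ⟨r, ψ⟩ Bs) r (φ ω)‖ ^ 2)
          (fun _ _ => sq_nonneg _) (Finset.mem_filter.2 ⟨Finset.mem_univ Bs, hBs⟩)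
      have h1 : (Bad.card : ℝ) * (t / 2 ^ (m + 1)) ^ 2 ≤ 2 ^ m * X := by
        calc (Bad.card : ℝ) * (t / 2 ^ (m + 1)) ^ 2 = ∑ _ω ∈ Bad, (t / 2 ^ (m + 1)) ^ 2 := by
              rw [Finset.sum_const, nsmul_eq_mul]
          _ ≤ ∑ ω ∈ Bad, ∑ Bs ∈ (univ : Finset (Finset (Fin m))).filter
              (fun Bs => Bs.Nonempty), ‖MRf (pB ⟨r, ψ⟩ Bs) r (φ ω)‖ ^ 2 := Finset.sum_le_sum hpt
          _ ≤ ∑ ω ∈ S, ∑ Bs ∈ (univ : Finset (Finset (Fin m))).filter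
              (fun Bs => Bs.Nonempty), ‖MRf (pB ⟨r, ψ⟩ Bs) r (φ ω)‖ ^ 2 :=
              Finset.sum_le_sum_of_subset_of_nonneg (Finset.filter_subset _ _)
                fun _ _ _ => Finset.sum_nonneg fun _ _ => sq_nonneg _
          _ = ∑ Bs ∈ (univ : Finset (Finset (Fin m))).filter
              (fun Bs => Bs.Nonempty), ∑ ω ∈ S, ‖MRf (pB ⟨r, ψ⟩ Bs) r (φ ω)‖ ^ 2 := Finset.sum_comm
          _ ≤ ∑ Bs ∈ (univ : Finset (Finset (Fin m))).filter (fun Bs => Bs.Nonempty), X :=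
              Finset.sum_le_sum fun Bs hBs => hms Bs (Finset.mem_filter.1 hBs).2
          _ ≤ 2 ^ m * X := by
              rw [Finset.sum_const, nsmul_eq_mul]
              refine mul_le_mul_of_nonneg_right ?_ hX0
              have h2 := Finset.card_filter_le (univ : Finset (Finset (Fin m))) (fun Bs => Bs.Nonempty)
              rw [Finset.card_univ, Fintype.card_finset, Fintype.card_fin] at h2
              exact_mod_cast h2
      have h2 : (Bad.card : ℝ) ≤ 2 ^ m * X * (2 ^ (m + 1) / t) ^ 2 := by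
        have e : (t / 2 ^ (m + 1)) ^ 2 * (2 ^ (m + 1) / t) ^ 2 = 1 := by
          rw [← mul_pow]
          have : t / 2 ^ (m + 1) * (2 ^ (m + 1) / t) = 1 := by
            field_simp
          rw [this, one_pow]
        calc (Bad.card : ℝ) = (Bad.card : ℝ) * (t / 2 ^ (m + 1)) ^ 2 * (2 ^ (m + 1) / t) ^ 2 := by
              rw [mul_assoc, e, mul_one]
          _ ≤ _ := mul_le_mul_of_nonneg_right h1 (sq_nonneg _)
      refine h2.trans ?_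
      have h3 : (r : ℝ) ^ (-c) ≤ (Q : ℝ) ^ (-(c * c6)) := by
        have e : (Q : ℝ) ^ (-(c * c6)) = ((Q : ℝ) ^ c6) ^ (-c) := by
          rw [← Real.rpow_mul hQ0.le]
          congr 1
          ring
        rw [e]
        exact Real.rpow_le_rpow_of_nonpos (Real.rpow_pos_of_pos hQ0 _) hrc.le (by linarith)
      have h4 : 2 ^ m * X * (2 ^ (m + 1) / t) ^ 2 = (2 ^ m * (C * 2 ^ c) * (2 ^ (m + 1) / c') ^ 2 *
          (1 + Real.log Q) ^ (C + 2 * C')) * (S.card * (r : ℝ) ^ (-c)) := by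
        have e1 : (1 + Real.log Q) ^ (C + 2 * C') = (1 + Real.log Q) ^ C * ((1 + Real.log Q) ^ C') ^ 2 := by
          rw [Real.rpow_add hLpos, ← Real.rpow_natCast ((1 + Real.log Q) ^ C') 2, ← Real.rpow_mul hLpos.le]
          congr 2
          push_cast
          ring
        have hne : (1 + Real.log Q) ^ C' ≠ 0 := (Real.rpow_pos_of_pos hLpos _).ne'
        rw [e1, hX, ht, Real.rpow_neg hLpos.le]
        field_simp
      rw [h4]
      have h5 := hs3 Q hQQ3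
      calc (2 ^ m * (C * 2 ^ c) * (2 ^ (m + 1) / c') ^ 2 * (1 + Real.log Q) ^ (C + 2 * C')) *
            (S.card * (r : ℝ) ^ (-c))
          ≤ (Q : ℝ) ^ (c * c6 / 2) * (S.card * (Q : ℝ) ^ (-(c * c6))) := by
            refine mul_le_mul h5 (mul_le_mul_of_nonneg_left h3 (Nat.cast_nonneg _)) (by positivity)
              (by positivity)
        _ = S.card * ((Q : ℝ) ^ (c * c6 / 2) * (Q : ℝ) ^ (-(c * c6))) := by ring
        _ = S.card * (Q : ℝ) ^ (-(c * c6 / 2)) := by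
            rw [← Real.rpow_add hQ0]
            congr 2
            ring
    · intro ω hω hωB hN th' h0 h1
      have hcp := hF.fb.cp ω hω
      have hsub : r.primeFactors ⊆ pr Q := by
        intro l hl
        rw [p5_mem_pr]
        exact ⟨Nat.prime_of_mem_primeFactors hl, (Nat.le_of_mem_primeFactors hl).trans hrQ⟩
      have h2 := hlow (φ ω) hcp (hF.fb.tp ω hω) hN Q hQ2 r.primeFactors hsub
      have h3 := P5_X2 (φ ω) hcp Q ⟨r, ψ⟩ hpx hψ2 th' h0 (fun i => (h1 i).trans (by linarith)) (by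
        intro Bs hBs
        by_contra hcon
        apply hωB
        rw [hBad, Finset.mem_filter]
        refine ⟨hω, Bs, hBs, ?_⟩
        push Not at hcon
        exact lt_of_le_of_lt h2 hcon)
      refine le_trans ?_ h3
      have h4 := hlow (φ ω) hcp (hF.fb.tp ω hω) hN Q hQ2 (pr Q) (Finset.Subset.refl _)
      have h5 := hs2 Q hQQ2
      linarith

end Pool.Agent.Lib.H24Q
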