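import Pool.Agent.Lib.H24Q.R0
import Pool.Agent.Lib.H24P.T1

/-!
# Project H24Q, chunk D0 (M): the families `L4`, `L2`, and `L2` with the linear coordinate `2n - 3`
-/

open Finset Polynomial

namespace Pool.Agent.Lib.H24Q

open Pool.Agent.Lib.H68T Pool.Agent.Lib.H18Q Pool.Agent.Lib.H59P Pool.Agent.Lib.H24P

theorem d0_eq (l a b : ℕ) (ha : a < l) (hb : b < l) (h : (l : ℤ) ∣ (a : ℤ) - b) : a = b := by
  have h1 : (a : ℤ) ≡ b [ZMOD l] := (Int.modEq_iff_dvd.2 (by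
    obtain ⟨c, hc⟩ := h
    exact ⟨-c, by linarith⟩))
  have h2 : a ≡ b [MOD l] := (Int.natCast_modEq_iff).1 h1
  exact Nat.ModEq.eq_of_lt_of_lt h2 ha hb

theorem d0_one (f : ℤ → ℤ) (l : ℕ) (hl : l.Prime) (v w : ℤ) (hf : ∀ n, f n = v * n + w)
    (hv : v = 1 ∨ v = -1) : ((range l).filter (fun n : ℕ => (l : ℤ) ∣ f n)).card ≤ 1 := by
  rw [Finset.card_le_one]
  intro a ha b hb
  obtain ⟨ha1, ha2⟩ := mem_filter.1 ha
  obtain ⟨hb1, hb2⟩ := mem_filter.1 hb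
  rw [hf] at ha2 hb2
  refine d0_eq l a b (mem_range.1 ha1) (mem_range.1 hb1) ?_
  have h3 := dvd_sub ha2 hb2
  rcases hv with rfl | rfl
  · have h4 : (1 * (a : ℤ) + w) - (1 * (b : ℤ) + w) = (a : ℤ) - b := by ring
    rwa [h4] at h3
  · have h4 : (-1 * (a : ℤ) + w) - (-1 * (b : ℤ) + w) = -((a : ℤ) - b) := by ring
    rw [h4] at h3
    exact (dvd_neg).1 h3

theorem d0_L2 (ω : Fin 1 → ℕ) (i : Fin 2) (l : ℕ) (hl : l.Prime) :
    ((range l).filter (fun n : ℕ => (l : ℤ) ∣ L2.map ω i n)).card ≤ 1 := by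
  refine d0_one (L2.map ω i) l hl (L2.v i) (L2.u i * (ω (L2.gi i) : ℤ) + L2.t i) ?_ ?_
  · intro n
    unfold LF.map
    ring
  · fin_cases i
    · exact Or.inl rfl
    · exact Or.inr rfl

theorem d0_lin : ∀ n : ℤ, B23.eval n = 2 * n - 3 := by
  intro n
  unfold B23
  rw [eval_sub, eval_mul, eval_C, eval_X, eval_C]

theorem d0_deg : B23.natDegree = 1 := by
  unfold B23
  rw [natDegree_sub_C]
  exact natDegree_C_mul_X 2 (by norm_num)

theorem d0_lc : B23.leadingCoeff = 2 := by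
  unfold leadingCoeff
  rw [d0_deg]
  unfold B23
  rw [coeff_sub, coeff_C_mul, coeff_X_one, coeff_C, if_neg (by norm_num)]
  norm_num

theorem d0_c (C C' : ℝ) (Q : ℕ) (hC : C ≤ C') (h0 : 0 ≤ C) (hQ : 1 ≤ Q) :
    C * (1 + Real.log Q) ^ C ≤ C' * (1 + Real.log Q) ^ C' := by
  have h1 : 0 ≤ Real.log Q := Real.log_nonneg (by exact_mod_cast hQ)
  have h2 : (1 + Real.log Q) ^ C ≤ (1 + Real.log Q) ^ C' :=
    Real.rpow_le_rpow_of_exponent_le (by linarith) hC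
  exact mul_le_mul hC h2 (by positivity) (h0.trans hC)

theorem d0_fgm {C C' c : ℝ} {Q H0 H1 m : ℕ} {Ω : Type} {S : Finset Ω} {φ : Ω → Fin m → ℤ → ℤ}
    (h : FG C c Q H0 S φ) (hC : C ≤ C') (h0 : 0 ≤ C) (hH : H0 ≤ H1) (hQ : 1 ≤ Q) :
    FG C' c Q H1 S φ := by
  intro p hp T hT D hD hTD a H hH1
  refine (h p hp T hT D hD hTD a H (hH.trans hH1)).trans ?_
  refine mul_le_mul_of_nonneg_right ?_ (Real.rpow_nonneg (Nat.cast_nonneg _) _)
  refine mul_le_mul_of_nonneg_right ?_ (by positivity)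
  refine mul_le_mul_of_nonneg_right ?_ (Nat.cast_nonneg _)
  exact d0_c C C' Q hC h0 hQ

theorem d0_fwm {C C' c : ℝ} {Q H0 H1 m : ℕ} {Ω : Type} {S : Finset Ω} {φ : Ω → Fin m → ℤ → ℤ}
    (h : FW C c Q H0 S φ) (hC : C ≤ C') (h0 : 0 ≤ C) (hH : H0 ≤ H1) (hQ : 1 ≤ Q) :
    FW C' c Q H1 S φ := by
  intro p hp T hT D hD hTD w a H hH1
  refine (h p hp T hT D hD hTD w a H (hH.trans hH1)).trans ?_
  refine mul_le_mul_of_nonneg_right ?_ (Real.rpow_nonneg (Nat.cast_nonneg _) _)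
  refine mul_le_mul_of_nonneg_right ?_
    (mul_nonneg (Nat.cast_nonneg _) (Finset.sum_nonneg fun n _ => by positivity))
  refine mul_le_mul_of_nonneg_right ?_ (Nat.cast_nonneg _)
  exact d0_c C C' Q hC h0 hQ

/-- At most one zero modulo each prime. Proof. `T1_count`: the count is between `l - m` and `l`. Upper bound:
`1 + tpf ≤ (l/(l-1))^m ≤ 1 + 4^m/l` (`l/(l-1) = 1 + 1/(l-1) ≤ 1 + 2/l`, `t1_pow` of `H24P/T1.lean`). Lower bound:
`1 + tpf ≥ (l - m)/l = 1 - m/l` if `l > m` (and `≥ 0 ≥ 1 - m/l` if `l ≤ m`). So `C = 4^m + m` for instance. -/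
theorem D0_tp (m : ℕ) : ∃ C : ℝ, 1 ≤ C ∧ ∀ φ : Fin m → ℤ → ℤ,
    (∀ i, ∀ l : ℕ, l.Prime → ((range l).filter (fun n : ℕ => (l : ℤ) ∣ φ i n)).card ≤ 1) →
    ∀ l : ℕ, l.Prime → |tpf l φ| ≤ C / l := by
  classical
  refine ⟨2 * 2 ^ m + m, ?_, ?_⟩
  · have h1 : (1 : ℝ) ≤ 2 ^ m := one_le_pow₀ (by norm_num)
    have h2 : (0 : ℝ) ≤ m := Nat.cast_nonneg _
    linarith
  intro φ hφ l hl
  have h2k : (1 : ℝ) ≤ 2 ^ m := one_le_pow₀ (by norm_num)
  have hm0 : (0 : ℝ) ≤ m := Nat.cast_nonneg _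
  have hl2 : (2 : ℝ) ≤ l := by exact_mod_cast hl.two_le
  have hl0 : (0 : ℝ) < l := by linarith
  have hl1 : (0 : ℝ) < l - 1 := by linarith
  obtain ⟨e1, e2⟩ := P0_tp l hl φ
  rw [abs_le]
  constructor
  · set good := (range l).filter (fun n : ℕ => ∀ i, ¬ (l : ℤ) ∣ φ i n) with hgood
    set bad := univ.biUnion (fun i : Fin m => (range l).filter
      (fun n : ℕ => (l : ℤ) ∣ φ i n)) with hbad
    have hb : bad.card ≤ m := by
      refine card_biUnion_le.trans ?_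
      calc ∑ i : Fin m, ((range l).filter (fun n : ℕ => (l : ℤ) ∣ φ i n)).card
          ≤ ∑ _i : Fin m, 1 := Finset.sum_le_sum fun i _ => hφ i l hl
        _ = m := by
            rw [Finset.sum_const, card_univ, Fintype.card_fin, smul_eq_mul, mul_one]
    have hcov : l ≤ good.card + bad.card := by
      have h1 : range l ⊆ good ∪ bad := by
        intro n hn
        by_cases h2 : ∀ i, ¬ (l : ℤ) ∣ φ i n
        · exact mem_union_left _ (mem_filter.2 ⟨hn, h2⟩)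
        · push Not at h2
          obtain ⟨i, hi⟩ := h2
          exact mem_union_right _ (mem_biUnion.2 ⟨i, mem_univ i, mem_filter.2 ⟨hn, hi⟩⟩)
      have h2 := (card_le_card h1).trans (card_union_le _ _)
      rwa [card_range] at h2
    have h3 : (l : ℝ) ≤ good.card + m := by
      have h4 : l ≤ good.card + m := by omega
      exact_mod_cast h4
    have h5 := T1_count l hl φ
    rw [← hgood] at h5
    have h6 : (1 : ℝ) ≤ ((l : ℝ) / (l - 1)) ^ m := one_le_pow₀ (M3a_ratio l hl)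
    have h7 : (0 : ℝ) ≤ (good.card : ℝ) / l := by positivity
    have h8 : (good.card : ℝ) / l * 1 ≤ (good.card : ℝ) / l * ((l : ℝ) / (l - 1)) ^ m :=
      mul_le_mul_of_nonneg_left h6 h7
    have h9 : 1 - m / (l : ℝ) ≤ (good.card : ℝ) / l := by
      rw [le_div_iff₀ hl0]
      have h10 : (1 - m / (l : ℝ)) * l = l - m := by field_simp
      rw [h10]
      linarith
    have h11 : (0 : ℝ) ≤ 2 * 2 ^ m / (l : ℝ) := by positivity
    rw [add_div]
    linarith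
  · have h1 : (l : ℝ) / (l - 1) = 1 + 1 / ((l : ℝ) - 1) := by
      field_simp
      ring
    have h2 : 1 / ((l : ℝ) - 1) ≤ 1 := by
      rw [div_le_one hl1]
      linarith
    have h3 := t1_pow m (1 / ((l : ℝ) - 1)) (by positivity) h2
    rw [← h1] at h3
    have h4 : 1 / ((l : ℝ) - 1) ≤ 2 / l := by
      rw [div_le_div_iff₀ hl1 hl0]
      linarith
    have h5 : ((2 : ℝ) ^ m - 1) * (1 / ((l : ℝ) - 1)) ≤ 2 ^ m * (2 / l) := by
      refine mul_le_mul (by linarith) h4 (by positivity) (by linarith)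
    have h6 : (2 : ℝ) ^ m * (2 / l) ≤ (2 * 2 ^ m + m) / l := by
      rw [← mul_div_assoc]
      refine div_le_div_of_nonneg_right ?_ hl0.le
      linarith
    linarith

/-- Proof. Definitions. -/
theorem D0_cp {m g : ℕ} (F : LF m g) (ω : Fin g → ℕ) : Cp (F.map ω) := by
  intro i q n
  exact ⟨F.v i, by unfold LF.map; ring⟩

/-- Proof. `D0_tp`, `D0_cp`; `l` divides at most one of the numbers `x + n`, `n < l` (`x - n` likewise). -/
theorem D0_fb4 : ∃ C : ℝ, 1 ≤ C ∧ ∀ S : Finset (Fin 2 → ℕ), FB C S L4.map := by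
  obtain ⟨C, hC, h⟩ := D0_tp 4
  refine ⟨C, hC, fun S => ⟨fun ω _ => D0_cp L4 ω, fun ω _ l hl => h _ (fun i l hl => ?_) l hl⟩⟩
  refine d0_one (L4.map ω i) l hl (L4.v i) (L4.u i * (ω (L4.gi i) : ℤ) + L4.t i) ?_ ?_
  · intro n
    unfold LF.map
    ring
  · fin_cases i
    · exact Or.inl rfl
    · exact Or.inr rfl
    · exact Or.inl rfl
    · exact Or.inr rfl

/-- Proof. As `D0_fb4`. -/
theorem D0_fb2 : ∃ C : ℝ, 1 ≤ C ∧ ∀ S : Finset (Fin 1 → ℕ), FB C S L2.map := by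
  obtain ⟨C, hC, h⟩ := D0_tp 2
  refine ⟨C, hC, fun S => ⟨fun ω _ => D0_cp L2 ω, fun ω _ l hl => h _ (fun i l hl => ?_) l hl⟩⟩
  exact d0_L2 ω i l hl

/-- Proof. As `D0_fb4`, with three coordinates (`Fin.cons`, `Fin.cases`): `2 n - 3` is odd, and for an odd prime `l`
at most one `n < l` satisfies `l ∣ 2 n - 3`. -/
theorem D0_fw2 : ∃ C : ℝ, 1 ≤ C ∧ ∀ (ω : Fin 1 → ℕ) (l : ℕ), l.Prime →
    |tpf l (sy B23 (L2.map ω))| ≤ C / l := by
  obtain ⟨C, hC, h⟩ := D0_tp 3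
  refine ⟨C, hC, fun ω l hl => h _ (fun i l hl => ?_) l hl⟩
  refine Fin.cases ?_ (fun i => ?_) i
  · show ((range l).filter (fun n : ℕ => (l : ℤ) ∣ B23.eval (n : ℤ))).card ≤ 1
    rw [Finset.card_le_one]
    intro a ha b hb
    obtain ⟨ha1, ha2⟩ := mem_filter.1 ha
    obtain ⟨hb1, hb2⟩ := mem_filter.1 hb
    rw [d0_lin] at ha2 hb2
    have h2 : (l : ℤ) ∣ 2 * ((a : ℤ) - b) := by
      have h3 := dvd_sub ha2 hb2
      have h4 : (2 * (a : ℤ) - 3) - (2 * (b : ℤ) - 3) = 2 * ((a : ℤ) - b) := by ring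
      rwa [h4] at h3
    have hlp : Prime (l : ℤ) := Nat.prime_iff_prime_int.1 hl
    have hl2 : ¬ (l : ℤ) ∣ 2 := by
      intro h3
      have h4 : (l : ℤ) ∣ 2 * (a : ℤ) := Dvd.dvd.mul_right h3 _
      have h5 : (l : ℤ) ∣ 3 := by
        have h6 := dvd_sub h4 ha2
        have h7 : 2 * (a : ℤ) - (2 * (a : ℤ) - 3) = 3 := by ring
        rwa [h7] at h6
      have h8 : (l : ℤ) ∣ 1 := by
        have h9 := dvd_sub h5 h3
        norm_num at h9
        exact h9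
      exact hlp.not_dvd_one h8
    have h5 := (hlp.dvd_or_dvd h2).resolve_left hl2
    exact d0_eq l a b (mem_range.1 ha1) (mem_range.1 hb1) h5
  · exact d0_L2 ω i l hl

/-- Proof. `B23 = 2 X - 3`. -/
theorem D0_lin : Lin 2 B23 ∧ B23.leadingCoeff = 2 ∧ ∀ n : ℤ, B23.eval n = 2 * n - 3 := by
  refine ⟨⟨?_, ?_, ?_⟩, ?_, d0_lin⟩
  · exact d0_deg
  · rw [d0_lc]
    norm_num
  · have h0 : B23.coeff 0 = -3 := by
      unfold B23
      rw [coeff_sub, coeff_C_mul, coeff_X_zero, coeff_C_zero]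
      norm_num
    have h1 : B23.coeff 1 = 2 := by
      have h2 := d0_lc
      unfold leadingCoeff at h2
      rwa [d0_deg] at h2
    rw [h0, h1]
    exact ⟨-1, -1, by norm_num⟩
  · exact d0_lc

/-- Proof. `B' = 2 B`: the property at the level `Q` with `Q^B ≤ Q^(2B)`, and at the level `Q²` with
`(Q²)^B = Q^(2B)`. `C' = max C C0`; `C (1 + log Q)^C` is monotone in `C` (`1 ≤ 1 + log Q`). -/
theorem D0_HF {m g : ℕ} (F : LF m g) (C c C0 : ℝ) (B : ℕ) (hC : 1 ≤ C) (hC0 : 1 ≤ C0)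
    (hfb : ∀ S : Finset (Fin g → ℕ), FB C0 S F.map)
    (h : ∀ Q : ℕ, 2 ≤ Q → ∀ b s : Fin g → ℕ, (∀ j, Q ^ B ≤ s j) → FG C c Q (Q ^ B) (cub b s) F.map) :
    HF (max C C0) c (2 * B) F := by
  intro Q hQ b s hs
  have hQ1 : 1 ≤ Q := by omega
  have hB : Q ^ B ≤ Q ^ (2 * B) := Nat.pow_le_pow_right (by omega) (by omega)
  have e2 : (Q ^ 2) ^ B = Q ^ (2 * B) := (pow_mul Q 2 B).symm
  have hQ2 : 2 ≤ Q ^ 2 := by nlinarith
  refine ⟨?_, ?_, ?_⟩
  · exact d0_fgm (h Q hQ b s (fun j => hB.trans (hs j))) (le_max_left _ _) (by linarith) hB hQ1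
  · exact d0_fgm (h (Q ^ 2) hQ2 b s (fun j => by rw [e2]; exact hs j)) (le_max_left _ _)
      (by linarith) e2.le (by omega)
  · have h1 := hfb (cub b s)
    refine ⟨h1.cp, fun ω hω l hl => (h1.tp ω hω l hl).trans ?_⟩
    exact div_le_div_of_nonneg_right (le_max_right _ _) (Nat.cast_nonneg _)

/-- Proof. As `D0_HF`. -/
theorem D0_HW {m g : ℕ} (F : LF m g) (P : ℤ[X]) (C c C0 : ℝ) (B : ℕ) (hC : 1 ≤ C) (hC0 : 1 ≤ C0)
    (htp : ∀ (ω : Fin g → ℕ) (l : ℕ), l.Prime → |tpf l (sy P (F.map ω))| ≤ C0 / l)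
    (h : ∀ Q : ℕ, 2 ≤ Q → ∀ b s : Fin g → ℕ, (∀ j, Q ^ B ≤ s j) → FW C c Q (Q ^ B) (cub b s) F.map) :
    HW (max C C0) c (2 * B) P F := by
  intro Q hQ b s hs
  have hQ1 : 1 ≤ Q := by omega
  have hB : Q ^ B ≤ Q ^ (2 * B) := Nat.pow_le_pow_right (by omega) (by omega)
  have e2 : (Q ^ 2) ^ B = Q ^ (2 * B) := (pow_mul Q 2 B).symm
  have hQ2 : 2 ≤ Q ^ 2 := by nlinarith
  refine ⟨?_, ?_, fun ω _ => D0_cp F ω, ?_⟩
  · exact d0_fwm (h Q hQ b s (fun j => hB.trans (hs j))) (le_max_left _ _) (by linarith) hB hQ1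
  · exact d0_fwm (h (Q ^ 2) hQ2 b s (fun j => by rw [e2]; exact hs j)) (le_max_left _ _)
      (by linarith) e2.le (by omega)
  · intro ω hω l hl
    exact (htp ω l hl).trans (div_le_div_of_nonneg_right (le_max_right _ _) (Nat.cast_nonneg _))

end Pool.Agent.Lib.H24Q
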