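import Pool.Agent.Lib.H24Q.Defs2
import Pool.Agent.Lib.H24P.E1
import Pool.Agent.Lib.H59P.Z2

/-!
# Project H24Q, chunk D2 (M): cells (compare H24P/E1)
-/

open Finset

namespace Pool.Agent.Lib.H24Q

open Pool.Agent.Lib.H68T Pool.Agent.Lib.H18Q Pool.Agent.Lib.H59P Pool.Agent.Lib.H24P

theorem d2_fib {k : ℕ} (b M s : Fin k → ℕ) (q : ℕ) (hs : ∀ i, M i = s i * q) (hpos : ∀ i, 0 < s i)
    (t : Fin k → ℕ) (ht : ∀ i, t i < q) :
    (cub b M).filter (fun h => (fun i => (h i - b i) / s i) = t) = cub (fun i => b i + t i * s i) s := by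
  classical
  ext h
  unfold cub
  rw [mem_filter, Fintype.mem_piFinset, Fintype.mem_piFinset]
  constructor
  · rintro ⟨h1, h2⟩ i
    have h3 : (h i - b i) / s i = t i := congrFun h2 i
    have h0 := mem_Ico.mp (h1 i)
    rw [mem_Ico]
    change b i + t i * s i ≤ h i ∧ h i < b i + t i * s i + s i
    have h4 := Nat.div_mul_le_self (h i - b i) (s i)
    have h5 := Nat.lt_div_mul_add (hpos i) (a := h i - b i)
    rw [h3] at h4 h5
    constructor
    · omega
    · omega
  · intro h1
    have h3 : ∀ i, b i + t i * s i ≤ h i ∧ h i < b i + t i * s i + s i := fun i => mem_Ico.mp (h1 i)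
    refine ⟨fun i => ?_, ?_⟩
    · rw [mem_Ico]
      have h4 : (t i + 1) * s i ≤ q * s i := Nat.mul_le_mul_right (s i) (ht i)
      have h5 : q * s i = M i := by rw [hs i]; ring
      have h6 : (t i + 1) * s i = t i * s i + s i := by ring
      have h7 := h3 i
      constructor
      · omega
      · omega
    · funext i
      have h4 := h3 i
      rw [Nat.div_eq_iff (hpos i)]
      constructor
      · omega
      · have h5 := hpos i
        omega

/-- Proof. As `E1_cells` in `H24P/E1.lean`, the box `cub b M` (with `M i = s i q`) being the disjoint union of the `q^k` boxes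
`cub (b + t s) s`. -/
theorem D2_cells {k : ℕ} (b M s : Fin k → ℕ) (q : ℕ) (hs : ∀ i, M i = s i * q) (X1 H N : ℕ)
    (hX : X1 = H * N) (W : ℝ) (hW : 0 ≤ W) (F : (Fin k → ℕ) → ℕ → ℂ)
    (hF : ∀ t : Fin k → ℕ, (∀ i, t i < q) → ∀ j < N,
      ∑ h ∈ cub (fun i => b i + t i * s i) s,
        ‖∑ n ∈ Ico (X1 + j * H) (X1 + j * H + H), F h n‖ ^ 2 ≤ vol s * H ^ 2 * W) :
    ∑ h ∈ cub b M, ‖∑ n ∈ Ico X1 (2 * X1), F h n‖ ^ 2 ≤ vol M * X1 ^ 2 * W := by
  classical
  have hvM : 0 ≤ vol M := Finset.prod_nonneg (fun i _ => Nat.cast_nonneg _)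
  by_cases hz : ∃ i, s i = 0
  · obtain ⟨i, hi⟩ := hz
    have h0 : cub b M = ∅ := by
      rw [Finset.eq_empty_iff_forall_notMem]
      intro h hh
      unfold cub at hh
      rw [Fintype.mem_piFinset] at hh
      have h1 := mem_Ico.mp (hh i)
      have h2 : M i = 0 := by rw [hs i, hi, zero_mul]
      omega
    rw [h0, Finset.sum_empty]
    positivity
  · push Not at hz
    have hpos : ∀ i, 0 < s i := fun i => Nat.pos_of_ne_zero (hz i)
    have hcube : ∀ t ∈ Fintype.piFinset (fun _ : Fin k => range q),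
        ∑ h ∈ cub (fun i => b i + t i * s i) s, ‖∑ n ∈ Ico X1 (2 * X1), F h n‖ ^ 2
          ≤ (N : ℝ) * (N * (vol s * H ^ 2 * W)) := by
      intro t ht
      rw [Fintype.mem_piFinset] at ht
      have ht' : ∀ i, t i < q := fun i => mem_range.mp (ht i)
      have h2 : 2 * X1 = X1 + N * H := by
        have : N * H = X1 := by rw [hX]; ring
        omega
      calc ∑ h ∈ cub (fun i => b i + t i * s i) s, ‖∑ n ∈ Ico X1 (2 * X1), F h n‖ ^ 2
          ≤ ∑ h ∈ cub (fun i => b i + t i * s i) s, (N : ℝ) * ∑ j ∈ range N,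
              ‖∑ n ∈ Ico (X1 + j * H) (X1 + j * H + H), F h n‖ ^ 2 := by
            refine Finset.sum_le_sum (fun h _ => ?_)
            rw [h2, z2_cells]
            exact z2_cs _ _
        _ = (N : ℝ) * ∑ j ∈ range N, ∑ h ∈ cub (fun i => b i + t i * s i) s,
              ‖∑ n ∈ Ico (X1 + j * H) (X1 + j * H + H), F h n‖ ^ 2 := by
            rw [← Finset.mul_sum, Finset.sum_comm]
        _ ≤ (N : ℝ) * ∑ j ∈ range N, vol s * H ^ 2 * W := by
            refine mul_le_mul_of_nonneg_left ?_ (by positivity)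
            exact Finset.sum_le_sum (fun j hj => hF t ht' j (mem_range.mp hj))
        _ = (N : ℝ) * (N * (vol s * H ^ 2 * W)) := by
            rw [Finset.sum_const, card_range, nsmul_eq_mul]
    have hmaps : ∀ h ∈ cub b M,
        (fun i => (h i - b i) / s i) ∈ Fintype.piFinset (fun _ : Fin k => range q) := by
      intro h hh
      unfold cub at hh
      rw [Fintype.mem_piFinset] at hh ⊢
      intro i
      have h1 := mem_Ico.mp (hh i)
      rw [mem_range, Nat.div_lt_iff_lt_mul (hpos i)]
      have h5 : q * s i = M i := by rw [hs i]; ring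
      omega
    rw [← Finset.sum_fiberwise_of_maps_to hmaps]
    have hfib : ∀ t ∈ Fintype.piFinset (fun _ : Fin k => range q),
        ∑ h ∈ (cub b M).filter (fun h => (fun i => (h i - b i) / s i) = t),
          ‖∑ n ∈ Ico X1 (2 * X1), F h n‖ ^ 2 ≤ (N : ℝ) * (N * (vol s * H ^ 2 * W)) := by
      intro t ht
      have ht' : ∀ i, t i < q := fun i => mem_range.mp ((Fintype.mem_piFinset.mp ht) i)
      rw [d2_fib b M s q hs hpos t ht']
      exact hcube t ht
    refine (Finset.sum_le_sum hfib).trans (le_of_eq ?_)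
    rw [Finset.sum_const, Fintype.card_piFinset, nsmul_eq_mul]
    simp only [card_range, Finset.prod_const, card_univ, Fintype.card_fin]
    have hv : vol M = vol s * (q : ℝ) ^ k := by
      unfold vol
      have h1 : ∀ i, (M i : ℝ) = (s i : ℝ) * (q : ℝ) := fun i => by rw [hs i]; push_cast; ring
      simp only [h1]
      rw [Finset.prod_mul_distrib, Finset.prod_const, card_univ, Fintype.card_fin]
    rw [hv, hX]
    push_cast
    ring

end Pool.Agent.Lib.H24Q
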