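import Pool.Agent.Lib.H24Q.D3
import Pool.Agent.Lib.H24Q.C1
import Pool.Agent.Lib.H24P.L

/-!
# Project H24Q, chunk D4 (M): lower bounds for MF
-/

open Finset

namespace Pool.Agent.Lib.H24Q

open Pool.Agent.Lib.H68T Pool.Agent.Lib.H18Q Pool.Agent.Lib.H59P Pool.Agent.Lib.H24P

/-- The exceptional level structure of `L_levels` (with `A = 1`), `R` a condition on the conductor. -/
def Exc (Q N : ℕ) (E0 : ℝ) (R : ℕ → Prop) : Prop :=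
  ∃ (r : ℕ) (_ : NeZero r) (ψ : DirichletCharacter ℂ r) (β η : ℝ), R r ∧ r ^ 100 ≤ Q ∧
    ψ.IsPrimitive ∧ ψ ≠ 1 ∧ ψ ^ 2 = 1 ∧ β < 1 ∧ ψ.LFunction (β : ℂ) = 0 ∧ 1 - β ≤ 2 * η ∧
    ∀ Y : ℕ, N ≤ Y ^ 2 → Y ≤ N ^ 2 → Mdl Q Y η E0 ⟨r, ψ⟩ (fun m => (m : ℝ) ^ (β - 1)) ∧
      Mdl (Q ^ 100) Y η E0 ⟨r, ψ⟩ (fun m => (m : ℝ) ^ (β - 1))

/-- Good, or exceptional with conductor at most `Q^c6`. -/
def LvA (Q N : ℕ) (E0 c6 : ℝ) : Prop :=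
  (∀ Y : ℕ, N ≤ Y ^ 2 → Y ≤ N ^ 2 →
      Mdl Q Y 1 E0 p0 (fun _ => 0) ∧ Mdl (Q ^ 100) Y 1 E0 p0 (fun _ => 0)) ∨
    Exc Q N E0 (fun r => (r : ℝ) ≤ (Q : ℝ) ^ c6)

/-- Exceptional with conductor larger than `Q^c6`. -/
def LvB (Q N : ℕ) (E0 c6 : ℝ) : Prop := Exc Q N E0 (fun r => (Q : ℝ) ^ c6 < r)

/-- The conclusion for the family `F`: exceptional set `Q^(-c)`, loss `Q^(-b)`. -/
def LowF {m g : ℕ} (F : LF m g) (Q N : ℕ) (c b : ℝ) : Prop :=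
  ∀ (Z : ℕ) (X : Fin g → ℕ) (Y : Fin m → ℕ), Gm F Q N Z X Y →
    ∃ Bad : Finset (Fin g → ℕ), Bad ⊆ cub (fun j => 2 * X j) X ∧
      (Bad.card : ℝ) ≤ vol X * (Q : ℝ) ^ (-c) ∧
      ∀ ω ∈ cub (fun j => 2 * X j) X, ω ∉ Bad → NoFix (F.map ω) →
        Z * (Q : ℝ) ^ (-b) ≤ MF F Q Z Y ω

/-- Proof. Directly (`1 ≤ Q`). -/
theorem LowF_mono {m g : ℕ} {F : LF m g} {Q N : ℕ} (hQ : 1 ≤ Q) {c c' b b' : ℝ} (h : LowF F Q N c b)
    (hc : c' ≤ c) (hb : b ≤ b') : LowF F Q N c' b' := by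
  intro Z X Y hG
  obtain ⟨Bad, hB1, hB2, hB3⟩ := h Z X Y hG
  have hQr : (1 : ℝ) ≤ Q := by exact_mod_cast hQ
  refine ⟨Bad, hB1, hB2.trans ?_, fun ω hω hωB hN => le_trans ?_ (hB3 ω hω hωB hN)⟩
  · exact mul_le_mul_of_nonneg_left (Real.rpow_le_rpow_of_exponent_le hQr (by linarith))
      (Finset.prod_nonneg fun i _ => Nat.cast_nonneg _)
  · exact mul_le_mul_of_nonneg_left (Real.rpow_le_rpow_of_exponent_le hQr (by linarith))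
      (Nat.cast_nonneg _)

theorem d4_fam {m g B : ℕ} {F : LF m g} {C c : ℝ} (hF : HF C c B F) {Q N Z : ℕ} {X : Fin g → ℕ}
    {Y : Fin m → ℕ} {K : ℝ} (hQ : 2 ≤ Q) (hK : max K (2 * (B + 50)) * Real.log Q ≤ Real.log N)
    (hG : Gm F Q N Z X Y) : K * Real.log Q ≤ Real.log N ∧
      Fam C c Q (Q ^ B) (cub (fun j => 2 * X j) X) F.map := by
  have hl : 0 ≤ Real.log Q := Real.log_natCast_nonneg Q
  have h1 : K * Real.log Q ≤ Real.log N :=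
    (mul_le_mul_of_nonneg_right (le_max_left _ _) hl).trans hK
  have h2 : 2 * ((B : ℝ) + 50) * Real.log Q ≤ Real.log N :=
    (mul_le_mul_of_nonneg_right (le_max_right _ _) hl).trans hK
  refine ⟨h1, hF Q hQ _ _ fun j => ?_⟩
  exact (Nat.pow_le_pow_right (by omega) (by omega)).trans ((d3_N Q N B hQ h2).2 (X j) (hG.Xlo j))

theorem d4_fin {Q : ℕ} {a ε c1 : ℝ} (hQ : (1 : ℝ) ≤ Q) (h4 : (4 : ℝ) ≤ (Q : ℝ) ^ ε)
    (hc : a + ε ≤ c1) : (Q : ℝ) ^ (-(a + ε)) ≤ (Q : ℝ) ^ (-a) / 2 - (Q : ℝ) ^ (-c1) := by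
  have hQ0 : (0 : ℝ) < Q := by linarith
  have h1 : (Q : ℝ) ^ (-c1) ≤ (Q : ℝ) ^ (-(a + ε)) :=
    Real.rpow_le_rpow_of_exponent_le hQ (by linarith)
  have h2 : (Q : ℝ) ^ (-a) = (Q : ℝ) ^ ε * (Q : ℝ) ^ (-(a + ε)) := by
    rw [← Real.rpow_add hQ0]
    congr 1
    ring
  have h3 : 0 ≤ (Q : ℝ) ^ (-(a + ε)) := Real.rpow_nonneg hQ0.le _
  have h5 := mul_le_mul_of_nonneg_right h4 h3
  rw [← h2] at h5
  linarith

/-- **D4A.** Proof. `D3_main` with `c1 = c'`, `E0 = 1/16`. Good levels: `px = p0`, `η = 1`, `m0 = Q^(-ε)` (`C1_good`, `FB` from `HF`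
for the family over `S = cub (2X) X`). Exceptional ones: `m0 = Q^(-(m c6 + ε))` (`C1_exc`, first part). So
`MF ≥ Z (Q^(-(m c6 + ε))/2 - Q^(-c1)) ≥ Z Q^(-(m c6 + 2 ε))` for `Q` large, as `m c6 + 2 ε < c1`. (`η ≤ 1`, `0 < η` from
`Mdl`, for instance with `Y = N`.) -/
theorem D4_A (m g B : ℕ) (hm : m ≤ 4) (F : LF m g) (C c : ℝ) (hC : 1 ≤ C) (hc : 0 < c)
    (hF : HF C c B F) : ∃ c1 K : ℝ, 0 < c1 ∧ 1 ≤ K ∧ ∀ c6 ε : ℝ, 0 < c6 → 0 < ε →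
    m * c6 + 2 * ε < c1 → ∃ Q0 : ℕ, ∀ (Q N : ℕ), Q0 ≤ Q → K * Real.log Q ≤ Real.log N →
    LvA Q N (1 / 16) c6 → LowF F Q N c1 (m * c6 + 2 * ε) := by
  obtain ⟨c1, K, hc1, hK, Qa, hmain⟩ := D3_main m g B hm F C c hC hc hF
  refine ⟨c1, max K (2 * (B + 50)), hc1, le_max_of_le_left hK, fun c6 ε hc6 hε hlt => ?_⟩
  obtain ⟨Qb, hgood⟩ := C1_good m C ε hC hε
  obtain ⟨Qc, hexc⟩ := C1_exc m C c c6 ε hC hc hc6 hε
  obtain ⟨Qd, hQd1, hlog⟩ := G1_rlog 4 0 ε hε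
  refine ⟨max (max Qa Qb) (max Qc (max Qd 2)), fun Q N hQ hKN hLv Z X Y hG => ?_⟩
  have qa : Qa ≤ Q := (le_max_left _ _).trans ((le_max_left _ _).trans hQ)
  have qb : Qb ≤ Q := (le_max_right _ _).trans ((le_max_left _ _).trans hQ)
  have qc : Qc ≤ Q := (le_max_left _ _).trans ((le_max_right _ _).trans hQ)
  have qd : Qd ≤ Q := (le_max_left _ _).trans ((le_max_right _ _).trans ((le_max_right _ _).trans hQ))
  have q2 : 2 ≤ Q := (le_max_right _ _).trans ((le_max_right _ _).trans ((le_max_right _ _).trans hQ))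
  have hQr : (1 : ℝ) ≤ Q := by exact_mod_cast (show 1 ≤ Q by omega)
  obtain ⟨hKN', hFam⟩ := d4_fam hF q2 hKN hG
  have hm1 : 4 * (m : ℝ) * (1 / 16) ≤ 1 := by
    have : (m : ℝ) ≤ 4 := by exact_mod_cast hm
    linarith
  have hm0 : (0 : ℝ) ≤ m := Nat.cast_nonneg _
  have hmc : (0 : ℝ) ≤ m * c6 := mul_nonneg hm0 hc6.le
  have hfin := d4_fin (Q := Q) (a := m * c6 + ε) (ε := ε) (c1 := c1) hQr
    (by have := hlog Q qd; rwa [Real.rpow_zero, mul_one] at this) (by linarith)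
  rcases hLv with hL | ⟨r, hr, ψ, β, η, hrc, hr100, hprim, hψ1, hψ2, hβ, hzero, hη, hM⟩
  · have hMN := (hL N (Nat.le_self_pow (by norm_num) N) (Nat.le_self_pow (by norm_num) N)).1
    obtain ⟨Bad, hB1, hB2, hB3⟩ := hmain Q N Z X Y 1 (1 / 16) p0 (fun _ => 0) qa hKN' hG hMN.mem
      hMN.cond (fun i => (hL (Y i) (hG.Ylo i) (hG.Yhi i)).1) one_pos hMN.real (by norm_num) hm1
      (by norm_num)
    refine ⟨Bad, hB1, hB2, fun ω hω hωB hNF => ?_⟩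
    have h1 := hB3 ω hω hωB ((Q : ℝ) ^ (-(m * c6 + ε))) (fun th' h0 h1 _ => ?_)
    · refine le_trans ?_ h1
      refine mul_le_mul_of_nonneg_left ?_ (Nat.cast_nonneg _)
      have e1 : m * c6 + ε + ε = m * c6 + 2 * ε := by ring
      rw [e1] at hfin
      exact hfin
    · refine le_trans ?_ (hgood Q qb (F.map ω) (hFam.fb.cp ω hω) (hFam.fb.tp ω hω) hNF th' h0 h1)
      exact Real.rpow_le_rpow_of_exponent_le hQr (by linarith)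
  · have hMN := (hM N (Nat.le_self_pow (by norm_num) N) (Nat.le_self_pow (by norm_num) N)).1
    obtain ⟨Bad, hB1, hB2, hB3⟩ := hmain Q N Z X Y η (1 / 16) ⟨r, ψ⟩ _ qa hKN' hG hMN.mem
      hMN.cond (fun i => (hM (Y i) (hG.Ylo i) (hG.Yhi i)).1) hMN.eta_pos hMN.real (by norm_num) hm1
      (by norm_num)
    refine ⟨Bad, hB1, hB2, fun ω hω hωB hNF => ?_⟩
    have h1 := hB3 ω hω hωB ((Q : ℝ) ^ (-(m * c6 + ε))) (fun th' h0 h1 _ => ?_)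
    · refine le_trans ?_ h1
      refine mul_le_mul_of_nonneg_left ?_ (Nat.cast_nonneg _)
      have e1 : m * c6 + ε + ε = m * c6 + 2 * ε := by ring
      rw [e1] at hfin
      exact hfin
    · exact (hexc Q qc (Q ^ B) (Fin g → ℕ) (cub (fun j => 2 * X j) X) F.map hFam r ψ β η hr100 hprim
        hψ1 hψ2 hβ hzero hη hMN.eta_le).1 hrc ω hω hNF th' h0 h1

/-- **D4B.** Proof. `D3_main` (`c1 = c'`) and `C1_exc`, second part: the union of the two bad sets has at most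
`vol X (Q^(-c1) + Q^(-c c6/2)) ≤ vol X Q^(-min(c1, c c6/2)/2)` elements (`card (cub _ X) = vol X`), `m0 = Q^(-ε)`. -/
theorem D4_B (m g B : ℕ) (hm : m ≤ 4) (F : LF m g) (C c : ℝ) (hC : 1 ≤ C) (hc : 0 < c)
    (hF : HF C c B F) : ∃ c1 K : ℝ, 0 < c1 ∧ 1 ≤ K ∧ ∀ c6 ε : ℝ, 0 < c6 → 0 < ε →
    2 * ε < c1 → ∃ Q0 : ℕ, ∀ (Q N : ℕ), Q0 ≤ Q → K * Real.log Q ≤ Real.log N →
    LvB Q N (1 / 16) c6 → LowF F Q N (min c1 (c * c6 / 2) / 2) (2 * ε) := by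
  classical
  obtain ⟨c1, K, hc1, hK, Qa, hmain⟩ := D3_main m g B hm F C c hC hc hF
  refine ⟨c1, max K (2 * (B + 50)), hc1, le_max_of_le_left hK, fun c6 ε hc6 hε hlt => ?_⟩
  obtain ⟨Qc, hexc⟩ := C1_exc m C c c6 ε hC hc hc6 hε
  obtain ⟨Qd, hQd1, hlog⟩ := G1_rlog 4 0 ε hε
  have hcc : 0 < min c1 (c * c6 / 2) := lt_min hc1 (by positivity)
  obtain ⟨Qe, hQe1, hlog2⟩ := G1_rlog 2 0 (min c1 (c * c6 / 2) / 2) (by positivity)
  refine ⟨max (max Qa Qe) (max Qc (max Qd 2)), fun Q N hQ hKN hLv Z X Y hG => ?_⟩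
  have qa : Qa ≤ Q := (le_max_left _ _).trans ((le_max_left _ _).trans hQ)
  have qe : Qe ≤ Q := (le_max_right _ _).trans ((le_max_left _ _).trans hQ)
  have qc : Qc ≤ Q := (le_max_left _ _).trans ((le_max_right _ _).trans hQ)
  have qd : Qd ≤ Q := (le_max_left _ _).trans ((le_max_right _ _).trans ((le_max_right _ _).trans hQ))
  have q2 : 2 ≤ Q := (le_max_right _ _).trans ((le_max_right _ _).trans ((le_max_right _ _).trans hQ))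
  have hQr : (1 : ℝ) ≤ Q := by exact_mod_cast (show 1 ≤ Q by omega)
  have hQr0 : (0 : ℝ) < Q := by linarith
  obtain ⟨hKN', hFam⟩ := d4_fam hF q2 hKN hG
  have hm1 : 4 * (m : ℝ) * (1 / 16) ≤ 1 := by
    have : (m : ℝ) ≤ 4 := by exact_mod_cast hm
    linarith
  have hfin := d4_fin (Q := Q) (a := ε) (ε := ε) (c1 := c1) hQr
    (by have := hlog Q qd; rwa [Real.rpow_zero, mul_one] at this) (by linarith)
  obtain ⟨r, hr, ψ, β, η, hrc, hr100, hprim, hψ1, hψ2, hβ, hzero, hη, hM⟩ := hLv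
  have hMN := (hM N (Nat.le_self_pow (by norm_num) N) (Nat.le_self_pow (by norm_num) N)).1
  obtain ⟨Bad, hB1, hB2, hB3⟩ := hmain Q N Z X Y η (1 / 16) ⟨r, ψ⟩ _ qa hKN' hG hMN.mem
    hMN.cond (fun i => (hM (Y i) (hG.Ylo i) (hG.Yhi i)).1) hMN.eta_pos hMN.real (by norm_num) hm1
    (by norm_num)
  obtain ⟨Bad', hC1, hC2, hC3⟩ := (hexc Q qc (Q ^ B) (Fin g → ℕ) (cub (fun j => 2 * X j) X) F.map hFam
    r ψ β η hr100 hprim hψ1 hψ2 hβ hzero hη hMN.eta_le).2 hrc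
  have hv0 : 0 ≤ vol X := Finset.prod_nonneg fun i _ => Nat.cast_nonneg _
  refine ⟨Bad ∪ Bad', Finset.union_subset hB1 hC1, ?_, ?_⟩
  · rw [d3_card] at hC2
    have h1 : ((Bad ∪ Bad').card : ℝ) ≤ Bad.card + Bad'.card := by
      exact_mod_cast Finset.card_union_le _ _
    set μ : ℝ := min c1 (c * c6 / 2) with hμ
    have h2 : vol X * (Q : ℝ) ^ (-c1) ≤ vol X * (Q : ℝ) ^ (-μ) :=
      mul_le_mul_of_nonneg_left (Real.rpow_le_rpow_of_exponent_le hQr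
        (neg_le_neg (min_le_left _ _))) hv0
    have h3 : vol X * (Q : ℝ) ^ (-(c * c6 / 2)) ≤ vol X * (Q : ℝ) ^ (-μ) :=
      mul_le_mul_of_nonneg_left (Real.rpow_le_rpow_of_exponent_le hQr
        (neg_le_neg (min_le_right _ _))) hv0
    have h4 := hlog2 Q qe
    rw [Real.rpow_zero, mul_one] at h4
    have h5 : (Q : ℝ) ^ (-(μ / 2)) = (Q : ℝ) ^ (μ / 2) * (Q : ℝ) ^ (-μ) := by
      rw [← Real.rpow_add hQr0]
      congr 1
      ring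
    have h6 : 0 ≤ vol X * (Q : ℝ) ^ (-μ) := mul_nonneg hv0 (Real.rpow_nonneg hQr0.le _)
    rw [h5]
    nlinarith [mul_le_mul_of_nonneg_right h4 h6]
  · intro ω hω hωB hNF
    rw [Finset.mem_union, not_or] at hωB
    have h1 := hB3 ω hω hωB.1 ((Q : ℝ) ^ (-ε)) (fun th' h0 h1 _ => hC3 ω hω hωB.2 hNF th' h0 h1)
    refine le_trans ?_ h1
    refine mul_le_mul_of_nonneg_left ?_ (Nat.cast_nonneg _)
    have e1 : ε + ε = 2 * ε := by ring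
    rw [e1] at hfin
    exact hfin

end Pool.Agent.Lib.H24Q
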