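import Pool.Agent.Lib.H24Q.D4

/-!
# Project H24Q, chunk D5 (M): the families, geometry and local conditions
-/

open Finset

namespace Pool.Agent.Lib.H24Q

open Pool.Agent.Lib.H68T Pool.Agent.Lib.H18Q Pool.Agent.Lib.H59P Pool.Agent.Lib.H24P

/-- `Lk(x+y) Lk(x-y)` at the scale `X`. -/
noncomputable def KL (Q X x y : ℕ) : ℝ :=
  Lk Q (X / Q ^ 2) ((x : ℤ) + y) * Lk Q (X / Q ^ 2) ((x : ℤ) - y)

theorem d5_eq (l a b : ℕ) (ha : a < l) (hb : b < l) (h : (l : ℤ) ∣ (a : ℤ) - b) : a = b := by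
  have h1 : (a : ℤ) ≡ b [ZMOD l] := (Int.modEq_iff_dvd.2 (by
    obtain ⟨c, hc⟩ := h
    exact ⟨-c, by linarith⟩))
  have h2 : a ≡ b [MOD l] := (Int.natCast_modEq_iff).1 h1
  exact Nat.ModEq.eq_of_lt_of_lt h2 ha hb

theorem d5_one (f : ℤ → ℤ) (l : ℕ) (v w : ℤ) (hf : ∀ n, f n = v * n + w)
    (hv : v = 1 ∨ v = -1) : ((range l).filter (fun n : ℕ => (l : ℤ) ∣ f n)).card ≤ 1 := by
  rw [Finset.card_le_one]
  intro a ha b hb
  obtain ⟨ha1, ha2⟩ := mem_filter.1 ha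
  obtain ⟨hb1, hb2⟩ := mem_filter.1 hb
  rw [hf] at ha2 hb2
  refine d5_eq l a b (mem_range.1 ha1) (mem_range.1 hb1) ?_
  have h3 := dvd_sub ha2 hb2
  rcases hv with rfl | rfl
  · have h4 : (1 * (a : ℤ) + w) - (1 * (b : ℤ) + w) = (a : ℤ) - b := by ring
    rwa [h4] at h3
  · have h4 : (-1 * (a : ℤ) + w) - (-1 * (b : ℤ) + w) = -((a : ℤ) - b) := by ring
    rw [h4] at h3
    exact (dvd_neg).1 h3

/-- Fewer coordinates than residue classes. -/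
theorem d5_free {m : ℕ} (φ : Fin m → ℤ → ℤ) (l : ℕ) (hm : m < l)
    (h : ∀ i, ∃ v w : ℤ, (∀ n, φ i n = v * n + w) ∧ (v = 1 ∨ v = -1)) :
    ∃ n : ℤ, ∀ i, ¬ (l : ℤ) ∣ φ i n := by
  classical
  have h1 : (univ.biUnion (fun i : Fin m => (range l).filter
      (fun n : ℕ => (l : ℤ) ∣ φ i n))).card ≤ m := by
    refine card_biUnion_le.trans ?_
    calc ∑ i : Fin m, ((range l).filter (fun n : ℕ => (l : ℤ) ∣ φ i n)).card
        ≤ ∑ _i : Fin m, 1 := Finset.sum_le_sum fun i _ => by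
          obtain ⟨v, w, hv, hv1⟩ := h i
          exact d5_one (φ i) l v w hv hv1
      _ = m := by
          rw [Finset.sum_const, card_univ, Fintype.card_fin, smul_eq_mul, mul_one]
  have h2 : ∃ n ∈ range l, n ∉ univ.biUnion (fun i : Fin m => (range l).filter
      (fun n : ℕ => (l : ℤ) ∣ φ i n)) := by
    by_contra hc
    push Not at hc
    have h3 := card_le_card (show range l ⊆ _ from hc)
    rw [card_range] at h3
    omega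
  obtain ⟨n, hn, hn2⟩ := h2
  refine ⟨(n : ℤ), fun i hi => hn2 ?_⟩
  exact mem_biUnion.2 ⟨i, mem_univ i, mem_filter.2 ⟨hn, hi⟩⟩

theorem d5_L4 (ω : Fin 2 → ℕ) (n : ℤ) : L4.map ω 0 n = (ω 0 : ℤ) + n ∧
    L4.map ω 1 n = (ω 0 : ℤ) - n ∧ L4.map ω 2 n = (ω 1 : ℤ) + n ∧ L4.map ω 3 n = (ω 1 : ℤ) - n := by
  refine ⟨?_, ?_, ?_, ?_⟩
  · show (1 : ℤ) * (ω 0 : ℤ) + 1 * n + 0 = _
    ring
  · show (1 : ℤ) * (ω 0 : ℤ) + (-1) * n + 0 = _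
    ring
  · show (1 : ℤ) * (ω 1 : ℤ) + 1 * n + 0 = _
    ring
  · show (1 : ℤ) * (ω 1 : ℤ) + (-1) * n + 0 = _
    ring

theorem d5_L2 (ω : Fin 1 → ℕ) (n : ℤ) : L2.map ω 0 n = (ω 0 : ℤ) + n ∧
    L2.map ω 1 n = (ω 0 : ℤ) - n := by
  refine ⟨?_, ?_⟩
  · show (1 : ℤ) * (ω 0 : ℤ) + 1 * n + 0 = _
    ring
  · show (1 : ℤ) * (ω 0 : ℤ) + (-1) * n + 0 = _
    ring

theorem d5_L4a (ω : Fin 2 → ℕ) (i : Fin 4) : ∃ v w : ℤ, (∀ n, L4.map ω i n = v * n + w) ∧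
    (v = 1 ∨ v = -1) := by
  refine ⟨L4.v i, L4.u i * (ω (L4.gi i) : ℤ) + L4.t i, ?_, ?_⟩
  · intro n
    unfold LF.map
    ring
  · fin_cases i
    · exact Or.inl rfl
    · exact Or.inr rfl
    · exact Or.inl rfl
    · exact Or.inr rfl

theorem d5_L2a (ω : Fin 1 → ℕ) (i : Fin 2) : ∃ v w : ℤ, (∀ n, L2.map ω i n = v * n + w) ∧
    (v = 1 ∨ v = -1) := by
  refine ⟨L2.v i, L2.u i * (ω (L2.gi i) : ℤ) + L2.t i, ?_, ?_⟩
  · intro n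
    unfold LF.map
    ring
  · fin_cases i
    · exact Or.inl rfl
    · exact Or.inr rfl

/-- Proof. Let `l` be a prime; choose `n` modulo `l`: `l = 2`: `n ≡ x + 1 ≡ x' + 1`. `l = 3`: if `3 ∣ x`, then `3 ∣ x'`, `n = 1`; else
`n = 0`. `l ≥ 5`: the four classes `± x, ± x'` do not cover all (`l > 4`). `L4.map ω = ![x+n, x-n, x'+n, x'-n]`. -/
theorem D5_fix4 (ω : Fin 2 → ℕ) (h2 : ω 0 % 2 = ω 1 % 2) (h3 : 3 ∣ ω 0 ↔ 3 ∣ ω 1) :
    NoFix (L4.map ω) := by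
  intro l hl
  rcases Nat.lt_or_ge l 5 with h5 | h5
  · have h6 : l = 2 ∨ l = 3 := by
      have := hl.two_le
      interval_cases l
      · exact Or.inl rfl
      · exact Or.inr rfl
      · exact absurd hl (by norm_num)
    rcases h6 with rfl | rfl
    · refine ⟨(ω 0 : ℤ) + 1, fun i => ?_⟩
      obtain ⟨a0, a1, a2, a3⟩ := d5_L4 ω ((ω 0 : ℤ) + 1)
      fin_cases i
      · show ¬ ((2 : ℕ) : ℤ) ∣ L4.map ω 0 ((ω 0 : ℤ) + 1)
        rw [a0]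
        omega
      · show ¬ ((2 : ℕ) : ℤ) ∣ L4.map ω 1 ((ω 0 : ℤ) + 1)
        rw [a1]
        omega
      · show ¬ ((2 : ℕ) : ℤ) ∣ L4.map ω 2 ((ω 0 : ℤ) + 1)
        rw [a2]
        omega
      · show ¬ ((2 : ℕ) : ℤ) ∣ L4.map ω 3 ((ω 0 : ℤ) + 1)
        rw [a3]
        omega
    · by_cases h7 : 3 ∣ ω 0
      · have h8 := h3.1 h7
        refine ⟨1, fun i => ?_⟩
        obtain ⟨a0, a1, a2, a3⟩ := d5_L4 ω 1
        fin_cases i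
        · show ¬ ((3 : ℕ) : ℤ) ∣ L4.map ω 0 1
          rw [a0]
          omega
        · show ¬ ((3 : ℕ) : ℤ) ∣ L4.map ω 1 1
          rw [a1]
          omega
        · show ¬ ((3 : ℕ) : ℤ) ∣ L4.map ω 2 1
          rw [a2]
          omega
        · show ¬ ((3 : ℕ) : ℤ) ∣ L4.map ω 3 1
          rw [a3]
          omega
      · have h8 : ¬ 3 ∣ ω 1 := fun h => h7 (h3.2 h)
        refine ⟨0, fun i => ?_⟩
        obtain ⟨a0, a1, a2, a3⟩ := d5_L4 ω 0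
        fin_cases i
        · show ¬ ((3 : ℕ) : ℤ) ∣ L4.map ω 0 0
          rw [a0]
          omega
        · show ¬ ((3 : ℕ) : ℤ) ∣ L4.map ω 1 0
          rw [a1]
          omega
        · show ¬ ((3 : ℕ) : ℤ) ∣ L4.map ω 2 0
          rw [a2]
          omega
        · show ¬ ((3 : ℕ) : ℤ) ∣ L4.map ω 3 0
          rw [a3]
          omega
  · exact d5_free (L4.map ω) l (by omega) (d5_L4a ω)

/-- Proof. `l = 2`: `n = x + 1`; `l = 3`: `n = 1` if `3 ∣ x`, else `n = 0`; `l ≥ 5`: two bad classes. -/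
theorem D5_fix2 (ω : Fin 1 → ℕ) : NoFix (L2.map ω) := by
  intro l hl
  rcases Nat.lt_or_ge l 3 with h5 | h5
  · have h6 : l = 2 := by
      have := hl.two_le
      omega
    subst h6
    refine ⟨(ω 0 : ℤ) + 1, fun i => ?_⟩
    obtain ⟨a0, a1⟩ := d5_L2 ω ((ω 0 : ℤ) + 1)
    fin_cases i
    · show ¬ ((2 : ℕ) : ℤ) ∣ L2.map ω 0 ((ω 0 : ℤ) + 1)
      rw [a0]
      omega
    · show ¬ ((2 : ℕ) : ℤ) ∣ L2.map ω 1 ((ω 0 : ℤ) + 1)
      rw [a1]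
      omega
  · exact d5_free (L2.map ω) l (by omega) (d5_L2a ω)

/-- Proof. `y < 2 Z ≤ X`, `2X ≤ x < 3X`: `x ± y ∈ (X, 4X)`. -/
theorem D5_Gm4 (Q N Z X X' : ℕ) (hZ : Q ^ 40 ∣ Z) (hX : Q ^ 40 ∣ X) (hX' : Q ^ 40 ∣ X')
    (h1 : N ≤ Z ^ 2) (h2 : 2 * Z ≤ X) (h3 : 2 * Z ≤ X') (h4 : X ≤ N) (h5 : X' ≤ N) :
    Gm L4 Q N Z ![X, X'] ![X, X, X', X'] := by
  have hZX : Z ≤ X := by omega
  have hZX' : Z ≤ X' := by omega
  have hNX : N ≤ X ^ 2 := h1.trans (Nat.pow_le_pow_left hZX 2)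
  have hNX' : N ≤ X' ^ 2 := h1.trans (Nat.pow_le_pow_left hZX' 2)
  have hNN : N ≤ N ^ 2 := Nat.le_self_pow (by norm_num) N
  refine ⟨hZ, ?_, h1, by omega, ?_, ?_, ?_, ?_, ?_, ?_, ?_, ?_, ?_, ?_⟩
  · intro j
    fin_cases j
    · exact hX
    · exact hX'
  · intro j
    fin_cases j
    · exact hNX
    · exact hNX'
  · intro j
    fin_cases j
    · exact h4
    · exact h5
  · intro i
    fin_cases i
    · exact hNX
    · exact hNX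
    · exact hNX'
    · exact hNX'
  · intro i
    fin_cases i
    · exact h4.trans hNN
    · exact h4.trans hNN
    · exact h5.trans hNN
    · exact h5.trans hNN
  · intro i
    fin_cases i <;> simp [L4]
  · intro i
    fin_cases i <;> simp [L4]
  · intro i
    fin_cases i
    · show |(1 : ℤ)| * ((X : ℕ) : ℤ) ≤ 4 * ((X : ℕ) : ℤ)
      rw [abs_one]
      omega
    · show |(1 : ℤ)| * ((X : ℕ) : ℤ) ≤ 4 * ((X : ℕ) : ℤ)
      rw [abs_one]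
      omega
    · show |(1 : ℤ)| * ((X' : ℕ) : ℤ) ≤ 4 * ((X' : ℕ) : ℤ)
      rw [abs_one]
      omega
    · show |(1 : ℤ)| * ((X' : ℕ) : ℤ) ≤ 4 * ((X' : ℕ) : ℤ)
      rw [abs_one]
      omega
  · intro i
    fin_cases i
    · show |(1 : ℤ)| * (Z : ℤ) ≤ 4 * ((X : ℕ) : ℤ)
      rw [abs_one]
      omega
    · show |(-1 : ℤ)| * (Z : ℤ) ≤ 4 * ((X : ℕ) : ℤ)
      rw [abs_neg, abs_one]
      omega
    · show |(1 : ℤ)| * (Z : ℤ) ≤ 4 * ((X' : ℕ) : ℤ)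
      rw [abs_one]
      omega
    · show |(-1 : ℤ)| * (Z : ℤ) ≤ 4 * ((X' : ℕ) : ℤ)
      rw [abs_neg, abs_one]
      omega
  · intro i ω hω n hn
    have w0 := mem_Ico.1 (Fintype.mem_piFinset.1 hω 0)
    have w1 := mem_Ico.1 (Fintype.mem_piFinset.1 hω 1)
    have hn' := mem_Ico.1 hn
    have w0' : 2 * X ≤ ω 0 ∧ ω 0 < 2 * X + X := w0
    have w1' : 2 * X' ≤ ω 1 ∧ ω 1 < 2 * X' + X' := w1
    obtain ⟨a0, a1, a2, a3⟩ := d5_L4 ω (n : ℤ)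
    fin_cases i
    · show ((X : ℕ) : ℤ) ≤ L4.map ω 0 (n : ℤ)
      rw [a0]
      omega
    · show ((X : ℕ) : ℤ) ≤ L4.map ω 1 (n : ℤ)
      rw [a1]
      omega
    · show ((X' : ℕ) : ℤ) ≤ L4.map ω 2 (n : ℤ)
      rw [a2]
      omega
    · show ((X' : ℕ) : ℤ) ≤ L4.map ω 3 (n : ℤ)
      rw [a3]
      omega
  · intro i ω hω n hn
    have w0 := mem_Ico.1 (Fintype.mem_piFinset.1 hω 0)
    have w1 := mem_Ico.1 (Fintype.mem_piFinset.1 hω 1)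
    have hn' := mem_Ico.1 hn
    have w0' : 2 * X ≤ ω 0 ∧ ω 0 < 2 * X + X := w0
    have w1' : 2 * X' ≤ ω 1 ∧ ω 1 < 2 * X' + X' := w1
    obtain ⟨a0, a1, a2, a3⟩ := d5_L4 ω (n : ℤ)
    fin_cases i
    · show L4.map ω 0 (n : ℤ) < 4 * ((X : ℕ) : ℤ)
      rw [a0]
      omega
    · show L4.map ω 1 (n : ℤ) < 4 * ((X : ℕ) : ℤ)
      rw [a1]
      omega
    · show L4.map ω 2 (n : ℤ) < 4 * ((X' : ℕ) : ℤ)
      rw [a2]
      omega
    · show L4.map ω 3 (n : ℤ) < 4 * ((X' : ℕ) : ℤ)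
      rw [a3]
      omega

/-- Proof. As `D5_Gm4`. -/
theorem D5_Gm2 (Q N Z X : ℕ) (hZ : Q ^ 40 ∣ Z) (hX : Q ^ 40 ∣ X)
    (h1 : N ≤ Z ^ 2) (h2 : 2 * Z ≤ X) (h4 : X ≤ N) : Gm L2 Q N Z ![X] ![X, X] := by
  have hZX : Z ≤ X := by omega
  have hNX : N ≤ X ^ 2 := h1.trans (Nat.pow_le_pow_left hZX 2)
  have hNN : N ≤ N ^ 2 := Nat.le_self_pow (by norm_num) N
  refine ⟨hZ, ?_, h1, by omega, ?_, ?_, ?_, ?_, ?_, ?_, ?_, ?_, ?_, ?_⟩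
  · intro j
    fin_cases j
    exact hX
  · intro j
    fin_cases j
    exact hNX
  · intro j
    fin_cases j
    exact h4
  · intro i
    fin_cases i
    · exact hNX
    · exact hNX
  · intro i
    fin_cases i
    · exact h4.trans hNN
    · exact h4.trans hNN
  · intro i
    fin_cases i <;> simp [L2]
  · intro i
    fin_cases i <;> simp [L2]
  · intro i
    fin_cases i
    · show |(1 : ℤ)| * ((X : ℕ) : ℤ) ≤ 4 * ((X : ℕ) : ℤ)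
      rw [abs_one]
      omega
    · show |(1 : ℤ)| * ((X : ℕ) : ℤ) ≤ 4 * ((X : ℕ) : ℤ)
      rw [abs_one]
      omega
  · intro i
    fin_cases i
    · show |(1 : ℤ)| * (Z : ℤ) ≤ 4 * ((X : ℕ) : ℤ)
      rw [abs_one]
      omega
    · show |(-1 : ℤ)| * (Z : ℤ) ≤ 4 * ((X : ℕ) : ℤ)
      rw [abs_neg, abs_one]
      omega
  · intro i ω hω n hn
    have w0 := mem_Ico.1 (Fintype.mem_piFinset.1 hω 0)
    have hn' := mem_Ico.1 hn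
    have w0' : 2 * X ≤ ω 0 ∧ ω 0 < 2 * X + X := w0
    obtain ⟨a0, a1⟩ := d5_L2 ω (n : ℤ)
    fin_cases i
    · show ((X : ℕ) : ℤ) ≤ L2.map ω 0 (n : ℤ)
      rw [a0]
      omega
    · show ((X : ℕ) : ℤ) ≤ L2.map ω 1 (n : ℤ)
      rw [a1]
      omega
  · intro i ω hω n hn
    have w0 := mem_Ico.1 (Fintype.mem_piFinset.1 hω 0)
    have hn' := mem_Ico.1 hn
    have w0' : 2 * X ≤ ω 0 ∧ ω 0 < 2 * X + X := w0
    obtain ⟨a0, a1⟩ := d5_L2 ω (n : ℤ)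
    fin_cases i
    · show L2.map ω 0 (n : ℤ) < 4 * ((X : ℕ) : ℤ)
      rw [a0]
      omega
    · show L2.map ω 1 (n : ℤ) < 4 * ((X : ℕ) : ℤ)
      rw [a1]
      omega

/-- Proof. `Fin.prod_univ_four`, definitions. -/
theorem D5_MF4 (Q Z X X' : ℕ) (ω : Fin 2 → ℕ) : MF L4 Q Z ![X, X, X', X'] ω =
    ∑ y ∈ Ico Z (2 * Z), KL Q X (ω 0) y * KL Q X' (ω 1) y := by
  unfold MF KL
  refine Finset.sum_congr rfl fun y _ => ?_
  obtain ⟨a0, a1, a2, a3⟩ := d5_L4 ω (y : ℤ)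
  rw [Fin.prod_univ_four, a0, a1, a2, a3]
  show Lk Q (X / Q ^ 2) ((ω 0 : ℤ) + y) * Lk Q (X / Q ^ 2) ((ω 0 : ℤ) - y) *
    Lk Q (X' / Q ^ 2) ((ω 1 : ℤ) + y) * Lk Q (X' / Q ^ 2) ((ω 1 : ℤ) - y) = _
  ring

/-- Proof. `Fin.prod_univ_two`, definitions. -/
theorem D5_MF2 (Q Z X : ℕ) (ω : Fin 1 → ℕ) : MF L2 Q Z ![X, X] ω =
    ∑ y ∈ Ico Z (2 * Z), KL Q X (ω 0) y := by
  unfold MF KL
  refine Finset.sum_congr rfl fun y _ => ?_
  obtain ⟨a0, a1⟩ := d5_L2 ω (y : ℤ)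
  rw [Fin.prod_univ_two, a0, a1]
  rfl

end Pool.Agent.Lib.H24Q
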