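import Pool.Agent.Lib.H24Q.Defs2
import Pool.Agent.Lib.H24P.P2

/-!
# Project H24Q: definitions for the system with a deterministic linear coordinate (modules R, M)
-/

open Finset Polynomial

namespace Pool.Agent.Lib.H24Q

open Pool.Agent.Lib.H68T Pool.Agent.Lib.H18Q Pool.Agent.Lib.H59P Pool.Agent.Lib.H24P

noncomputable section

/-- **The property FW**: `FG` with an arbitrary weight (proved in module H59T for `L2`). -/
def FW (C c : ℝ) (Q H0 : ℕ) {m : ℕ} {Ω : Type} (S : Finset Ω) (φ : Ω → Fin m → ℤ → ℤ) : Prop :=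
  ∀ p : Fin m → Ch, (∀ i, p i ∈ PC Q) →
  ∀ T : Finset (Fin m → ℕ), T ⊆ Fintype.piFinset (fun i => KS Q (p i).1) →
  ∀ D : ℕ, 1 ≤ D → (∀ κ ∈ T, D < univ.lcm (fun i => (p i).1 * κ i)) →
  ∀ (w : ℕ → ℂ) (a H : ℕ), H0 ≤ H →
  ∑ ω ∈ S, ‖∑ n ∈ Ico a (a + H), w n * ∑ κ ∈ T, ∏ i, gk (p i) (κ i) (φ ω i (n : ℤ))‖ ^ 2 ≤
    C * (1 + Real.log Q) ^ C * S.card * (H * ∑ n ∈ Ico a (a + H), ‖w n‖ ^ 2) * (D : ℝ) ^ (-c)

/-- The system: the deterministic linear coordinate `B` and the random coordinates `φ`. -/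
def sy {k : ℕ} (B : ℤ[X]) (φ : Fin k → ℤ → ℤ) : Fin (k + 1) → ℤ → ℤ :=
  Fin.cons (fun n => B.eval n) φ

/-- All the hypotheses on a family together with the linear coordinate `B`, at the level `Q`. -/
structure FamW (C c : ℝ) (Q H0 : ℕ) (B : ℤ[X]) {k : ℕ} {Ω : Type} (S : Finset Ω)
    (φ : Ω → Fin k → ℤ → ℤ) : Prop where
  fw1 : FW C c Q H0 S φ
  fw2 : FW C c (Q ^ 2) H0 S φ
  cp : ∀ ω ∈ S, Cp (φ ω)
  tp : ∀ ω ∈ S, ∀ l : ℕ, l.Prime → |tpf l (sy B (φ ω))| ≤ C / l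

/-- The hypothesis on the family `F` with the linear coordinate `B`, for all boxes with large sides. -/
def HW (C c : ℝ) (b0 : ℕ) (B : ℤ[X]) {m g : ℕ} (F : LF m g) : Prop :=
  ∀ Q : ℕ, 2 ≤ Q → ∀ b s : Fin g → ℕ, (∀ j, Q ^ b0 ≤ s j) →
    FamW C c Q (Q ^ b0) B (cub b s) F.map

/-- The linear coordinate `2 n - 3`. -/
def B23 : ℤ[X] := C 2 * X - C 3

end

end Pool.Agent.Lib.H24Q
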