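import Pool.Agent.Lib.H24Q.D5
import Pool.Agent.Lib.H24Q.R0
import Pool.Agent.Lib.H24P.L

/-!
# Project H24Q, chunk D6 (M): the main terms of module F
-/

open Finset

namespace Pool.Agent.Lib.H24Q

open Pool.Agent.Lib.H68T Pool.Agent.Lib.H18Q Pool.Agent.Lib.H59P Pool.Agent.Lib.H24P

/-- The three-fold lower bound, with true primes `2 y - 3`: exceptional set `Q^(-c)`, loss `Q^(-b)`. -/
def Low3 (Q N : ℕ) (c b : ℝ) : Prop :=
  ∀ Z X : ℕ, Q ^ 800 ∣ Z → Q ^ 40 ∣ X → N ≤ Z ^ 2 → 2 * Z ≤ X → X ≤ N →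
    ∃ Bad : Finset ℕ, Bad ⊆ Ico (2 * X) (3 * X) ∧ (Bad.card : ℝ) ≤ X * (Q : ℝ) ^ (-c) ∧
      ∀ x ∈ Ico (2 * X) (3 * X), x ∉ Bad → 3 ∣ x →
        Z * (Q : ℝ) ^ (-b) ≤ ∑ y ∈ Ico Z (2 * Z), KL Q X x y * lp (2 * (y : ℤ) - 3)

/-- The lower bounds for the main terms (interface of module F): exceptional sets `Q^(-c)`, loss `Q^(-b)`. -/
structure MT (Q N : ℕ) (c b : ℝ) : Prop where
  m4 : ∀ Z X X' : ℕ, Q ^ 40 ∣ Z → Q ^ 40 ∣ X → Q ^ 40 ∣ X' → N ≤ Z ^ 2 → 2 * Z ≤ X → 2 * Z ≤ X' →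
    X ≤ N → X' ≤ N → ∃ Bad : Finset (ℕ × ℕ), Bad ⊆ Ico (2 * X) (3 * X) ×ˢ Ico (2 * X') (3 * X') ∧
      (Bad.card : ℝ) ≤ X * X' * (Q : ℝ) ^ (-c) ∧
      ∀ x ∈ Ico (2 * X) (3 * X), ∀ x' ∈ Ico (2 * X') (3 * X'), (x, x') ∉ Bad → x % 2 = x' % 2 →
        (3 ∣ x ↔ 3 ∣ x') →
        Z * (Q : ℝ) ^ (-b) ≤ ∑ y ∈ Ico Z (2 * Z), KL Q X x y * KL Q X' x' y
  m3 : Low3 Q N c b
  m2 : ∀ Z X : ℕ, Q ^ 40 ∣ Z → Q ^ 40 ∣ X → N ≤ Z ^ 2 → 2 * Z ≤ X → X ≤ N →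
    ∃ Bad : Finset ℕ, Bad ⊆ Ico (2 * X) (3 * X) ∧ (Bad.card : ℝ) ≤ X * (Q : ℝ) ^ (-c) ∧
      ∀ x ∈ Ico (2 * X) (3 * X), x ∉ Bad →
        Z * (Q : ℝ) ^ (-b) ≤ ∑ y ∈ Ico Z (2 * Z), KL Q X x y

/-- Proof. Directly (`1 ≤ Q`). -/
theorem Low3_mono {Q N : ℕ} (hQ : 1 ≤ Q) {c c' b b' : ℝ} (h : Low3 Q N c b)
    (hc : c' ≤ c) (hb : b ≤ b') : Low3 Q N c' b' := by
  intro Z X h1 h2 h3 h4 h5
  obtain ⟨Bad, hB1, hB2, hB3⟩ := h Z X h1 h2 h3 h4 h5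
  have hQr : (1 : ℝ) ≤ Q := by exact_mod_cast hQ
  refine ⟨Bad, hB1, hB2.trans ?_, fun x hx hxB h3x => le_trans ?_ (hB3 x hx hxB h3x)⟩
  · exact mul_le_mul_of_nonneg_left (Real.rpow_le_rpow_of_exponent_le hQr (by linarith))
      (Nat.cast_nonneg _)
  · exact mul_le_mul_of_nonneg_left (Real.rpow_le_rpow_of_exponent_le hQr (by linarith))
      (Nat.cast_nonneg _)

/-- From `LowF` to `MT`. Proof. `D5_Gm4`, `D5_Gm2`, `D5_MF4`, `D5_MF2`, `D5_fix4`, `D5_fix2`; the maps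
`ω ↦ (ω 0, ω 1)` and `ω ↦ ω 0` are bijections from the boxes `cub (2X) X` to the product of intervals and the interval
(`Fin 2 → ℕ`, `Fin 1 → ℕ`), `vol ![X, X'] = X X'`. -/
theorem D6_MT (Q N : ℕ) (c b : ℝ) (h4 : LowF L4 Q N c b) (h3 : Low3 Q N c b)
    (h2 : LowF L2 Q N c b) : MT Q N c b := by
  classical
  refine ⟨?_, h3, ?_⟩
  · intro Z X X' hZ hX hX' hN hZX hZX' hXN hXN'
    have hG := D5_Gm4 Q N Z X X' hZ hX hX' hN hZX hZX' hXN hXN'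
    obtain ⟨Bad, hB1, hB2, hB3⟩ := h4 Z ![X, X'] ![X, X, X', X'] hG
    have hmem : ∀ ω : Fin 2 → ℕ, ω ∈ cub (fun j => 2 * (![X, X'] : Fin 2 → ℕ) j) ![X, X'] ↔
        ω 0 ∈ Ico (2 * X) (3 * X) ∧ ω 1 ∈ Ico (2 * X') (3 * X') := by
      intro ω
      unfold cub
      rw [Fintype.mem_piFinset, Fin.forall_fin_two]
      have e1 : 2 * X + X = 3 * X := by ring
      have e2 : 2 * X' + X' = 3 * X' := by ring
      simp only [Matrix.cons_val_zero, Matrix.cons_val_one, e1, e2]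
    refine ⟨Bad.image (fun ω => (ω 0, ω 1)), ?_, ?_, ?_⟩
    · intro z hz
      obtain ⟨ω, hω, rfl⟩ := mem_image.mp hz
      have := (hmem ω).mp (hB1 hω)
      exact mem_product.mpr this
    · have hv : vol (![X, X'] : Fin 2 → ℕ) = X * X' := by
        unfold vol
        rw [Fin.prod_univ_two]
        rfl
      rw [hv] at hB2
      refine le_trans ?_ hB2
      exact_mod_cast card_image_le
    · intro x hx x' hx' hnot hpar h3x
      have hω : (![x, x'] : Fin 2 → ℕ) ∉ Bad := by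
        intro hin
        apply hnot
        exact mem_image.mpr ⟨![x, x'], hin, rfl⟩
      have h6 := hB3 ![x, x'] ((hmem ![x, x']).mpr ⟨hx, hx'⟩) hω
        (D5_fix4 ![x, x'] hpar h3x)
      rw [D5_MF4] at h6
      exact h6
  · intro Z X hZ hX hN hZX hXN
    have hG := D5_Gm2 Q N Z X hZ hX hN hZX hXN
    obtain ⟨Bad, hB1, hB2, hB3⟩ := h2 Z ![X] ![X, X] hG
    have hmem : ∀ ω : Fin 1 → ℕ, ω ∈ cub (fun j => 2 * (![X] : Fin 1 → ℕ) j) ![X] ↔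
        ω 0 ∈ Ico (2 * X) (3 * X) := by
      intro ω
      unfold cub
      rw [Fintype.mem_piFinset]
      have e1 : 2 * X + X = 3 * X := by ring
      constructor
      · intro h
        have h7 := h 0
        simp only [Matrix.cons_val_zero, e1] at h7
        exact h7
      · intro h i
        have hi : i = 0 := Subsingleton.elim _ _
        subst hi
        simp only [Matrix.cons_val_zero, e1]
        exact h
    refine ⟨Bad.image (fun ω => ω 0), ?_, ?_, ?_⟩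
    · intro z hz
      obtain ⟨ω, hω, rfl⟩ := mem_image.mp hz
      exact (hmem ω).mp (hB1 hω)
    · have hv : vol (![X] : Fin 1 → ℕ) = X := by
        unfold vol
        simp
      rw [hv] at hB2
      refine le_trans ?_ hB2
      exact_mod_cast card_image_le
    · intro x hx hnot
      have hω : (![x] : Fin 1 → ℕ) ∉ Bad := by
        intro hin
        apply hnot
        exact mem_image.mpr ⟨![x], hin, rfl⟩
      have h6 := hB3 ![x] ((hmem ![x]).mpr hx) hω (D5_fix2 ![x])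
      rw [D5_MF2] at h6
      exact h6

end Pool.Agent.Lib.H24Q
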