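import Pool.Agent.Lib.H24Q.D6

/-!
# Project H24Q, chunk D7 (M): conclusion of module F
-/

open Finset

namespace Pool.Agent.Lib.H24Q

open Pool.Agent.Lib.H68T Pool.Agent.Lib.H18Q Pool.Agent.Lib.H59P Pool.Agent.Lib.H24P

/-- The three-fold bound, first case (theorem `M9_A`). -/
def Thm3A : Prop := ∃ c1 K : ℝ, 0 < c1 ∧ 1 ≤ K ∧ ∀ c6 ε : ℝ, 0 < c6 → 0 < ε → 3 * c6 + 2 * ε < c1 →
  ∀ Cr : ℝ, ∃ Q0 : ℕ, ∀ Q N : ℕ, Q0 ≤ Q → K * Real.log Q ≤ Real.log N →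
    Real.log N ≤ Cr * Real.log Q → LvA Q N (1 / 16) c6 → Low3 Q N c1 (3 * c6 + 2 * ε)

/-- The three-fold bound, second case (theorem `M9_B`). -/
def Thm3B : Prop := ∃ c1 c K : ℝ, 0 < c1 ∧ 0 < c ∧ 1 ≤ K ∧ ∀ c6 ε : ℝ, 0 < c6 → 0 < ε → 2 * ε < c1 →
  ∀ Cr : ℝ, ∃ Q0 : ℕ, ∀ Q N : ℕ, Q0 ≤ Q → K * Real.log Q ≤ Real.log N →
    Real.log N ≤ Cr * Real.log Q → LvB Q N (1 / 16) c6 → Low3 Q N (min c1 (c * c6 / 2) / 2) (2 * ε)

/-- **D7, conclusion of module F.** Proof. `L_levels` of `H24P` with `A = 1`, `E0 = 1/16`, `K0' = max K0 K` (`K` the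
maximum of the constants of `D4_A`, `D4_B` for `L4`, `L2` and of `hA`, `hB`; `RegP` is monotone in its constant, or
apply `L_levels` with `K0'` and weaken) gives `Cr` and the level; `LvA … c6` if the level is good or the exceptional
conductor is `≤ Q^c6`, else `LvB … c6`. Let `c1` be the minimum of `cb` and of the six constants `c1`;
`c6 = min(ρ, 1) c1/16`, `ε = c6/8`: in the case `LvA` all losses are `≤ 4 c6 + 2 ε ≤ ρ c1`, exponent `c = c1`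
(`LowF_mono`, `Low3_mono`). In the case `LvB`: `cB = min(c1, c* c6/2)/2` with `c*` the smallest of the constants `c`
(of `D4_B` for `L4`, `L2` and of `hB`), `ε = min(ρ, 1) cB/4`: loss `2 ε ≤ ρ cB`, exponent `c = cB`. So `c0 = min(c1, cB)`.
`Q ≥ Q0` for `N` large because `log N ≤ Cr log Q`. `D6_MT`. -/
theorem main_terms (C4 c4 C2 c2 : ℝ) (B : ℕ) (hC4 : 1 ≤ C4) (hc4 : 0 < c4) (hC2 : 1 ≤ C2)
    (hc2 : 0 < c2) (h4 : HF C4 c4 B L4) (h2 : HF C2 c2 B L2) (hA : Thm3A) (hB : Thm3B)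
    (K0 : ℝ) (hK0 : 1 ≤ K0) : ∃ Cr : ℝ, 1 ≤ Cr ∧ ∀ ρ cb : ℝ, 0 < ρ → 0 < cb →
    ∃ c0 : ℝ, 0 < c0 ∧ ∃ N0 : ℕ, ∀ N : ℕ, N0 ≤ N → ∃ Q : ℕ, K0 * Real.log Q ≤ Real.log N ∧
      Real.log N ≤ Cr * Real.log Q ∧
      (∀ Y : ℕ, N ≤ Y ^ 2 → Y ≤ N ^ 2 → RegP K0 Q Y ∧ RegP K0 (Q ^ 100) Y) ∧
      (∀ Y : ℕ, N ≤ Y ^ 2 → Y ≤ N ^ 2 → ∃ (η : ℝ) (px : Ch) (th : ℤ → ℝ), Mdl Q Y η (1 / 16) px th) ∧
      ∃ c : ℝ, c0 ≤ c ∧ c ≤ cb ∧ MT Q N c (ρ * c) := by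
  obtain ⟨a1, k1, ha1, hk1, A4⟩ := D4_A 4 2 B (by norm_num) L4 C4 c4 hC4 hc4 h4
  obtain ⟨a2, k2, ha2, hk2, A2⟩ := D4_A 2 1 B (by norm_num) L2 C2 c2 hC2 hc2 h2
  obtain ⟨a3, k3, ha3, hk3, A3⟩ := hA
  obtain ⟨b1, l1, hb1, hl1, B4⟩ := D4_B 4 2 B (by norm_num) L4 C4 c4 hC4 hc4 h4
  obtain ⟨b2, l2, hb2, hl2, B2⟩ := D4_B 2 1 B (by norm_num) L2 C2 c2 hC2 hc2 h2
  obtain ⟨b3, c3, l3, hb3, hc3, hl3, B3⟩ := hB
  obtain ⟨K, hKd⟩ : ∃ K : ℝ, K = max K0 (max (max k1 (max k2 k3)) (max l1 (max l2 l3))) := ⟨_, rfl⟩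
  have hK1 : K0 ≤ K := by rw [hKd]; exact le_max_left _ _
  have hk1K : k1 ≤ K := by
    rw [hKd]; exact le_max_of_le_right (le_max_of_le_left (le_max_left _ _))
  have hk2K : k2 ≤ K := by
    rw [hKd]; exact le_max_of_le_right (le_max_of_le_left (le_max_of_le_right (le_max_left _ _)))
  have hk3K : k3 ≤ K := by
    rw [hKd]; exact le_max_of_le_right (le_max_of_le_left (le_max_of_le_right (le_max_right _ _)))
  have hl1K : l1 ≤ K := by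
    rw [hKd]; exact le_max_of_le_right (le_max_of_le_right (le_max_left _ _))
  have hl2K : l2 ≤ K := by
    rw [hKd]; exact le_max_of_le_right (le_max_of_le_right (le_max_of_le_right (le_max_left _ _)))
  have hl3K : l3 ≤ K := by
    rw [hKd]; exact le_max_of_le_right (le_max_of_le_right (le_max_of_le_right (le_max_right _ _)))
  have hK : 1 ≤ K := hK0.trans hK1
  obtain ⟨Cr, hCr, X0, hlev⟩ := L_levels 1 (1 / 16) K (by norm_num) hK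
  refine ⟨Cr, hCr, fun ρ cb hρ hcb => ?_⟩
  -- the parameters
  obtain ⟨ρ1, hρ1⟩ : ∃ ρ1 : ℝ, ρ1 = min ρ 1 := ⟨_, rfl⟩
  have hρ10 : 0 < ρ1 := by rw [hρ1]; exact lt_min hρ one_pos
  have hρ1ρ : ρ1 ≤ ρ := by rw [hρ1]; exact min_le_left _ _
  have hρ11 : ρ1 ≤ 1 := by rw [hρ1]; exact min_le_right _ _
  obtain ⟨c1, hc1, hc1cb, hca1, hca2, hca3, hcb1, hcb2, hcb3⟩ : ∃ c1 : ℝ, 0 < c1 ∧ c1 ≤ cb ∧ c1 ≤ a1 ∧
      c1 ≤ a2 ∧ c1 ≤ a3 ∧ c1 ≤ b1 ∧ c1 ≤ b2 ∧ c1 ≤ b3 :=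
    ⟨min cb (min (min a1 (min a2 a3)) (min b1 (min b2 b3))),
      lt_min hcb (lt_min (lt_min ha1 (lt_min ha2 ha3)) (lt_min hb1 (lt_min hb2 hb3))),
      min_le_left _ _,
      (min_le_right _ _).trans ((min_le_left _ _).trans (min_le_left _ _)),
      (min_le_right _ _).trans ((min_le_left _ _).trans ((min_le_right _ _).trans (min_le_left _ _))),
      (min_le_right _ _).trans ((min_le_left _ _).trans ((min_le_right _ _).trans (min_le_right _ _))),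
      (min_le_right _ _).trans ((min_le_right _ _).trans (min_le_left _ _)),
      (min_le_right _ _).trans ((min_le_right _ _).trans ((min_le_right _ _).trans (min_le_left _ _))),
      (min_le_right _ _).trans ((min_le_right _ _).trans ((min_le_right _ _).trans (min_le_right _ _)))⟩
  obtain ⟨cs, hcs, hcs4, hcs2, hcs3⟩ : ∃ cs : ℝ, 0 < cs ∧ cs ≤ c4 ∧ cs ≤ c2 ∧ cs ≤ c3 :=
    ⟨min c4 (min c2 c3), lt_min hc4 (lt_min hc2 hc3), min_le_left _ _,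
      (min_le_right _ _).trans (min_le_left _ _), (min_le_right _ _).trans (min_le_right _ _)⟩
  obtain ⟨c6, hc6⟩ : ∃ c6 : ℝ, c6 = ρ1 * c1 / 16 := ⟨_, rfl⟩
  have hc60 : 0 < c6 := by rw [hc6]; positivity
  have hρc : ρ1 * c1 ≤ c1 := by nlinarith
  have hρc0 : 0 < ρ1 * c1 := by positivity
  have hρc2 : ρ1 * c1 ≤ ρ * c1 := mul_le_mul_of_nonneg_right hρ1ρ hc1.le
  obtain ⟨cB, hcB⟩ : ∃ cB : ℝ, cB = min c1 (cs * c6 / 2) / 2 := ⟨_, rfl⟩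
  have hcB0 : 0 < cB := by
    rw [hcB]
    have : 0 < min c1 (cs * c6 / 2) := lt_min hc1 (by positivity)
    linarith
  have hcB1 : 2 * cB ≤ c1 := by
    rw [hcB]
    linarith [min_le_left c1 (cs * c6 / 2)]
  obtain ⟨ε, hε⟩ : ∃ ε : ℝ, ε = ρ1 * cB / 4 := ⟨_, rfl⟩
  have hε0 : 0 < ε := by rw [hε]; positivity
  have hρB : ρ1 * cB ≤ cB := by nlinarith
  have hρB2 : ρ1 * cB ≤ ρ * cB := mul_le_mul_of_nonneg_right hρ1ρ hcB0.le
  obtain ⟨Q1, A4⟩ := A4 c6 (c6 / 8) hc60 (by positivity) (by push_cast; linarith)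
  obtain ⟨Q2, A2⟩ := A2 c6 (c6 / 8) hc60 (by positivity) (by push_cast; linarith)
  obtain ⟨Q3, A3⟩ := A3 c6 (c6 / 8) hc60 (by positivity) (by linarith) Cr
  obtain ⟨Q4, B4⟩ := B4 c6 ε hc60 hε0 (by linarith)
  obtain ⟨Q5, B2⟩ := B2 c6 ε hc60 hε0 (by linarith)
  obtain ⟨Q6, B3⟩ := B3 c6 ε hc60 hε0 (by linarith) Cr
  obtain ⟨Qm, hQm2, hq1, hq2, hq3, hq4, hq5, hq6⟩ : ∃ Qm : ℕ, 2 ≤ Qm ∧ Q1 ≤ Qm ∧ Q2 ≤ Qm ∧ Q3 ≤ Qm ∧
      Q4 ≤ Qm ∧ Q5 ≤ Qm ∧ Q6 ≤ Qm := ⟨2 + Q1 + Q2 + Q3 + Q4 + Q5 + Q6, by omega, by omega, by omega,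
        by omega, by omega, by omega, by omega⟩
  refine ⟨cB, hcB0, max X0 ⌈Real.exp (Cr * Real.log Qm)⌉₊, fun N hN => ?_⟩
  obtain ⟨Q, hKQ, hCQ, hReg, hL⟩ := hlev N ((le_max_left _ _).trans hN)
  have hlQ0 : 0 ≤ Real.log Q := Real.log_natCast_nonneg Q
  have hQQ : Qm ≤ Q := by
    have h1 : Real.exp (Cr * Real.log Qm) ≤ N :=
      (Nat.le_ceil _).trans (by exact_mod_cast (le_max_right _ _).trans hN)
    have hN0 : (0 : ℝ) < N := lt_of_lt_of_le (Real.exp_pos _) h1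
    have h2 : Cr * Real.log Qm ≤ Real.log N := (Real.le_log_iff_exp_le hN0).2 h1
    have h3 : Real.log Qm ≤ Real.log Q := by
      have h4 : Cr * Real.log Qm ≤ Cr * Real.log Q := h2.trans hCQ
      exact le_of_mul_le_mul_left h4 (by linarith)
    have h5 : 0 < Real.log Qm := Real.log_pos (by exact_mod_cast (show 1 < Qm by omega))
    have hQ0 : 0 < Q := by
      rcases Nat.eq_zero_or_pos Q with h | h
      · rw [h, Nat.cast_zero, Real.log_zero] at h3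
        linarith
      · exact h
    have h6 : (Qm : ℝ) ≤ Q := (Real.log_le_log_iff (by exact_mod_cast (show 0 < Qm by omega))
      (by exact_mod_cast hQ0)).1 h3
    exact_mod_cast h6
  have hQ1 : 1 ≤ Q := by omega
  have hk : ∀ k : ℝ, k ≤ K → k * Real.log Q ≤ Real.log N := fun k hk =>
    (mul_le_mul_of_nonneg_right hk hlQ0).trans hKQ
  have hK00 : (0 : ℝ) ≤ K := by linarith
  refine ⟨Q, hk K0 hK1, hCQ, fun Y h1 h2 => ?_, ?_, ?_⟩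
  · obtain ⟨e1, e2⟩ := hReg Y h1 h2
    exact ⟨e1.mono hK00 hK1, e2.mono hK00 hK1⟩
  · intro Y h1 h2
    rcases hL with hg | ⟨r, hr, ψ, β, η, -, -, -, -, -, -, -, hM⟩
    · exact ⟨1, p0, _, (hg Y h1 h2).1⟩
    · exact ⟨η, ⟨r, ψ⟩, _, (hM Y h1 h2).1⟩
  · have hAB : LvA Q N (1 / 16) c6 ∨ LvB Q N (1 / 16) c6 := by
      rcases hL with hg | ⟨r, hr, ψ, β, η, e1, e2, e3, e4, e5, e6, e7, hM⟩
      · exact Or.inl (Or.inl hg)
      · rcases le_or_gt (r : ℝ) ((Q : ℝ) ^ c6) with h | h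
        · exact Or.inl (Or.inr ⟨r, hr, ψ, β, η, h, e1, e2, e3, e4, e5, e6, e7, hM⟩)
        · exact Or.inr ⟨r, hr, ψ, β, η, h, e1, e2, e3, e4, e5, e6, e7, hM⟩
    rcases hAB with hLA | hLB
    · refine ⟨c1, by linarith, hc1cb, D6_MT Q N c1 (ρ * c1) ?_ ?_ ?_⟩
      · refine LowF_mono hQ1 (A4 Q N (by omega) (hk k1 hk1K) hLA) hca1 ?_
        push_cast
        linarith
      · refine Low3_mono hQ1 (A3 Q N (by omega) (hk k3 hk3K) hCQ hLA) hca3 ?_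
        linarith
      · refine LowF_mono hQ1 (A2 Q N (by omega) (hk k2 hk2K) hLA) hca2 ?_
        push_cast
        linarith
    · have hmin : ∀ b c : ℝ, c1 ≤ b → cs ≤ c → cB ≤ min b (c * c6 / 2) / 2 := by
        intro b c hb hc
        rw [hcB]
        have h1 : cs * c6 / 2 ≤ c * c6 / 2 := by
          have := mul_le_mul_of_nonneg_right hc hc60.le
          linarith
        have h2 := min_le_min hb h1
        linarith
      refine ⟨cB, le_rfl, by linarith, D6_MT Q N cB (ρ * cB) ?_ ?_ ?_⟩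
      · exact LowF_mono hQ1 (B4 Q N (by omega) (hk l1 hl1K) hLB) (hmin b1 c4 hcb1 hcs4) (by linarith)
      · exact Low3_mono hQ1 (B3 Q N (by omega) (hk l3 hl3K) hCQ hLB) (hmin b3 c3 hcb3 hcs3) (by linarith)
      · exact LowF_mono hQ1 (B2 Q N (by omega) (hk l2 hl2K) hLB) (hmin b2 c2 hcb2 hcs2) (by linarith)

end Pool.Agent.Lib.H24Q
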