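import Pool.Agent.Lib.H24P.ZDefs
import Pool.Agent.Lib.H24P.X1A

/-!
# Project H24Q (MP_443e5f_co, candidate T, main terms): definitions

A family of systems of congruence preserving maps `φ ω : Fin m → ℤ → ℤ`, `ω ∈ S` (finite set of parameters). The only
analytic input is the property `FG` (mean squares of the parts with large moduli).
-/

open Finset

namespace Pool.Agent.Lib.H24Q

open Pool.Agent.Lib.H68T Pool.Agent.Lib.H18Q Pool.Agent.Lib.H59P Pool.Agent.Lib.H24P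

noncomputable section

/-- **The property FG** (proved in module H59T for the two families used). -/
def FG (C c : ℝ) (Q H0 : ℕ) {m : ℕ} {Ω : Type} (S : Finset Ω) (φ : Ω → Fin m → ℤ → ℤ) : Prop :=
  ∀ p : Fin m → Ch, (∀ i, p i ∈ PC Q) →
  ∀ T : Finset (Fin m → ℕ), T ⊆ Fintype.piFinset (fun i => KS Q (p i).1) →
  ∀ D : ℕ, 1 ≤ D → (∀ κ ∈ T, D < univ.lcm (fun i => (p i).1 * κ i)) →
  ∀ a H : ℕ, H0 ≤ H →
  ∑ ω ∈ S, ‖∑ n ∈ Ico a (a + H), ∑ κ ∈ T, ∏ i, gk (p i) (κ i) (φ ω i (n : ℤ))‖ ^ 2 ≤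
    C * (1 + Real.log Q) ^ C * S.card * (H : ℝ) ^ 2 * (D : ℝ) ^ (-c)

/-- The local factors are close to `1`, the maps preserve congruences. -/
structure FB (C : ℝ) {m : ℕ} {Ω : Type} (S : Finset Ω) (φ : Ω → Fin m → ℤ → ℤ) : Prop where
  cp : ∀ ω ∈ S, Cp (φ ω)
  tp : ∀ ω ∈ S, ∀ l : ℕ, l.Prime → |tpf l (φ ω)| ≤ C / l

/-- All the hypotheses on the family at the level `Q`. -/
structure Fam (C c : ℝ) (Q H0 : ℕ) {m : ℕ} {Ω : Type} (S : Finset Ω) (φ : Ω → Fin m → ℤ → ℤ) :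
    Prop where
  fg1 : FG C c Q H0 S φ
  fg2 : FG C c (Q ^ 2) H0 S φ
  fb : FB C S φ

end

end Pool.Agent.Lib.H24Q
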