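import Pool.Agent.Lib.H24Q.Defs

/-!
# Project H24Q: families of linear forms
-/

open Finset

namespace Pool.Agent.Lib.H24Q

open Pool.Agent.Lib.H68T Pool.Agent.Lib.H18Q Pool.Agent.Lib.H59P Pool.Agent.Lib.H24P

noncomputable section

/-- `m` linear forms `u_i ω(g_i) + v_i n + t_i` in `n`, depending on the parameters `ω : Fin g → ℕ`. -/
structure LF (m g : ℕ) where
  gi : Fin m → Fin g
  u : Fin m → ℤ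
  v : Fin m → ℤ
  t : Fin m → ℤ

/-- The forms. -/
def LF.map {m g : ℕ} (F : LF m g) (ω : Fin g → ℕ) : Fin m → ℤ → ℤ :=
  fun i n => F.u i * (ω (F.gi i) : ℤ) + F.v i * n + F.t i

/-- `x + n`, `x - n`, `x' + n`, `x' - n` -/
def L4 : LF 4 2 := ⟨![0, 0, 1, 1], ![1, 1, 1, 1], ![1, -1, 1, -1], ![0, 0, 0, 0]⟩

/-- `x + n`, `x - n` -/
def L2 : LF 2 1 := ⟨![0, 0], ![1, 1], ![1, -1], ![0, 0]⟩

/-- The hypothesis on the family: `Fam` for all boxes with large sides. -/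
def HF (C c : ℝ) (B : ℕ) {m g : ℕ} (F : LF m g) : Prop :=
  ∀ Q : ℕ, 2 ≤ Q → ∀ b s : Fin g → ℕ, (∀ j, Q ^ B ≤ s j) → Fam C c Q (Q ^ B) (cub b s) F.map

/-- The base point of the cell of `ω`. -/
def bw {g : ℕ} (Q : ℕ) (X : Fin g → ℕ) (ω : Fin g → ℕ) : Fin g → ℕ :=
  fun j => bs (X j / Q ^ 40) (ω j)

/-- The point where the coefficients of the `i`-th form are frozen. -/
def fp {m g : ℕ} (F : LF m g) (Q Z : ℕ) (X : Fin g → ℕ) (ω : Fin g → ℕ) (n : ℕ) (i : Fin m) : ℤ :=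
  F.map (bw Q X ω) i ((bs (Z / Q ^ 40) n : ℕ) : ℤ)

/-- The geometry: `ω ∈ ∏ [2 X_j, 3 X_j)`, `n ∈ [Z, 2Z)`, the values of the `i`-th form in `[Y_i, 4 Y_i)`. -/
structure Gm {m g : ℕ} (F : LF m g) (Q N Z : ℕ) (X : Fin g → ℕ) (Y : Fin m → ℕ) : Prop where
  dvdZ : Q ^ 40 ∣ Z
  dvdX : ∀ j, Q ^ 40 ∣ X j
  Zlo : N ≤ Z ^ 2
  Zhi : Z ≤ N
  Xlo : ∀ j, N ≤ X j ^ 2
  Xhi : ∀ j, X j ≤ N
  Ylo : ∀ i, N ≤ Y i ^ 2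
  Yhi : ∀ i, Y i ≤ N ^ 2
  u2 : ∀ i, |F.u i| ≤ 2
  v2 : ∀ i, |F.v i| ≤ 2
  uX : ∀ i, |F.u i| * X (F.gi i) ≤ 4 * Y i
  vZ : ∀ i, |F.v i| * Z ≤ 4 * Y i
  lo : ∀ i, ∀ ω ∈ cub (fun j => 2 * X j) X, ∀ n ∈ Ico Z (2 * Z), (Y i : ℤ) ≤ F.map ω i (n : ℤ)
  hi : ∀ i, ∀ ω ∈ cub (fun j => 2 * X j) X, ∀ n ∈ Ico Z (2 * Z), F.map ω i (n : ℤ) < 4 * Y i

/-- The sum of the products of the projections. -/
def MF {m g : ℕ} (F : LF m g) (Q Z : ℕ) (Y : Fin m → ℕ) (ω : Fin g → ℕ) : ℝ :=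
  ∑ n ∈ Ico Z (2 * Z), ∏ i, Lk Q (Y i / Q ^ 2) (F.map ω i (n : ℤ))

/-- The main term with coefficients `Cc i` frozen on cells, modulus `r`. -/
def MZ {m g : ℕ} (F : LF m g) (Q Z r : ℕ) (X : Fin g → ℕ) (Cc : Fin m → ℤ → Ch → ℂ)
    (ω : Fin g → ℕ) : ℂ :=
  ∑ n ∈ Ico Z (2 * Z), MDf Q r (fun i => Cc i (fp F Q Z X ω n i)) (F.map ω)

end

end Pool.Agent.Lib.H24Q
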