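import Pool.Agent.Lib.H24Q.MDefs
import Pool.Agent.Lib.H24Q.D0
import Pool.Agent.Lib.H24Q.D1
import Pool.Agent.Lib.H24P.V1A

/-!
# Project H24Q, chunk M1 (M): geometry and pointwise freezing, cells of length `X/Q^8`, `Z/Q^8`
-/

open Finset Polynomial

namespace Pool.Agent.Lib.H24Q

open Pool.Agent.Lib.H68T Pool.Agent.Lib.H18Q Pool.Agent.Lib.H59P Pool.Agent.Lib.H24P

theorem m1_map0 (ω : Fin 1 → ℕ) (n : ℤ) : L2.map ω 0 n = (ω 0 : ℤ) + n := by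
  unfold LF.map L2
  simp

theorem m1_map1 (ω : Fin 1 → ℕ) (n : ℤ) : L2.map ω 1 n = (ω 0 : ℤ) - n := by
  unfold LF.map L2
  simp
  ring

/-- Proof. `Z ≥ 3` since `9 ≤ N ≤ Z²`; `Z > 0`, `Q^8 ∣ Q^40 ∣ X`, `Q^8 ∣ Q^800 ∣ Z`, so `bs (X/Q^8) (ω 0) ∈ [2X, 3X)`,
`bs (Z/Q^8) n ∈ [Z, 2Z)` (`v1a_bs` of `H24P/V1A.lean` is such a statement; here the box starts at `2X`, a multiple of
`X/Q^8`); `x ± y` with `x ∈ [2X,3X)`, `y < 2Z ≤ X` is in `[X, 4X)`. -/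
theorem M1_geo {Q N Z X : ℕ} (hQ : 1 ≤ Q) (hG : G3 Q N Z X) (ω : Fin 1 → ℕ) (hω : ω ∈ bx X) (n : ℕ)
    (hn : n ∈ Ico Z (2 * Z)) (i : Fin 2) :
    ((X : ℤ) ≤ L2.map ω i (n : ℤ) ∧ L2.map ω i (n : ℤ) < 4 * X) ∧
    ((X : ℤ) ≤ fp8 Q Z X ω n i ∧ fp8 Q Z X ω n i < 4 * X) ∧
    (Q : ℤ) ^ 8 * |L2.map ω i (n : ℤ) - fp8 Q Z X ω n i| ≤ 2 * X := by
  have hq : 0 < Q ^ 8 := pow_pos (by omega) _
  have h9 := hG.nine
  have hZN := hG.Zlo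
  have hZX := hG.ZX
  have hZ3 : 3 ≤ Z := by
    by_contra h
    have h1 : Z ≤ 2 := by omega
    have h2 : Z ^ 2 ≤ 2 ^ 2 := Nat.pow_le_pow_left h1 2
    omega
  have hX0 : 0 < X := by omega
  have hdX : Q ^ 8 ∣ X := (pow_dvd_pow Q (by norm_num : 8 ≤ 40)).trans hG.dvdX
  have hdZ : Q ^ 8 ∣ Z := (pow_dvd_pow Q (by norm_num : 8 ≤ 800)).trans hG.dvdZ
  have hXe : Q ^ 8 * (X / Q ^ 8) = X := Nat.mul_div_cancel' hdX
  have hZe : Q ^ 8 * (Z / Q ^ 8) = Z := Nat.mul_div_cancel' hdZ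
  have hXs : 0 < X / Q ^ 8 := Nat.div_pos (Nat.le_of_dvd hX0 hdX) hq
  have hZs : 0 < Z / Q ^ 8 := Nat.div_pos (Nat.le_of_dvd (by omega) hdZ) hq
  have hω0 : ω 0 ∈ Ico (2 * X) (2 * X + X) := Fintype.mem_piFinset.1 hω 0
  have h1 := mem_Ico.1 hω0
  have h2 := mem_Ico.1 hn
  have h3 := d1_bs (X / Q ^ 8) (2 * Q ^ 8) (ω 0) hXs (by
    have : X / Q ^ 8 * (2 * Q ^ 8) = 2 * X := by
      calc X / Q ^ 8 * (2 * Q ^ 8) = 2 * (Q ^ 8 * (X / Q ^ 8)) := by ring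
        _ = 2 * X := by rw [hXe]
    rw [this]
    exact h1.1)
  have h3e : X / Q ^ 8 * (2 * Q ^ 8) = 2 * X := by
    calc X / Q ^ 8 * (2 * Q ^ 8) = 2 * (Q ^ 8 * (X / Q ^ 8)) := by ring
      _ = 2 * X := by rw [hXe]
  rw [h3e] at h3
  have h4e : Z / Q ^ 8 * Q ^ 8 = Z := by rw [mul_comm]; exact hZe
  have h4 := d1_bs (Z / Q ^ 8) (Q ^ 8) n hZs (by rw [h4e]; exact h2.1)
  rw [h4e] at h4
  have hb : bw8 Q X ω 0 = bs (X / Q ^ 8) (ω 0) := rfl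
  have e5 : (Q : ℤ) ^ 8 * ((X / Q ^ 8 : ℕ) : ℤ) = X := by exact_mod_cast hXe
  have e6 : (Q : ℤ) ^ 8 * ((Z / Q ^ 8 : ℕ) : ℤ) = Z := by exact_mod_cast hZe
  have hQp : (0 : ℤ) ≤ (Q : ℤ) ^ 8 := by positivity
  have hA : |(ω 0 : ℤ) - (bs (X / Q ^ 8) (ω 0) : ℤ)| ≤ ((X / Q ^ 8 : ℕ) : ℤ) := by
    rw [abs_of_nonneg (by omega)]
    omega
  have hB : |(n : ℤ) - (bs (Z / Q ^ 8) n : ℤ)| ≤ ((Z / Q ^ 8 : ℕ) : ℤ) := by
    rw [abs_of_nonneg (by omega)]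
    omega
  have hdist : ∀ u v : ℤ, |u| ≤ ((X / Q ^ 8 : ℕ) : ℤ) → |v| ≤ ((Z / Q ^ 8 : ℕ) : ℤ) →
      (Q : ℤ) ^ 8 * |u + v| ≤ 2 * X := by
    intro u v hu hv
    calc (Q : ℤ) ^ 8 * |u + v| ≤ (Q : ℤ) ^ 8 * (((X / Q ^ 8 : ℕ) : ℤ) + ((Z / Q ^ 8 : ℕ) : ℤ)) :=
          mul_le_mul_of_nonneg_left ((abs_add_le _ _).trans (add_le_add hu hv)) hQp
      _ = X + Z := by rw [mul_add, e5, e6]
      _ ≤ 2 * X := by
          have : (Z : ℤ) ≤ X := by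
            have : Z ≤ X := by omega
            exact_mod_cast this
          linarith
  have hi : i = 0 ∨ i = 1 := by
    fin_cases i
    · exact Or.inl rfl
    · exact Or.inr rfl
  rcases hi with rfl | rfl
  · unfold fp8
    rw [m1_map0, m1_map0, hb]
    refine ⟨⟨by omega, by omega⟩, ⟨by omega, by omega⟩, ?_⟩
    have e7 : (ω 0 : ℤ) + n - ((bs (X / Q ^ 8) (ω 0) : ℤ) + ((bs (Z / Q ^ 8) n : ℕ) : ℤ)) =
        ((ω 0 : ℤ) - (bs (X / Q ^ 8) (ω 0) : ℤ)) + ((n : ℤ) - (bs (Z / Q ^ 8) n : ℤ)) := by ring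
    rw [e7]
    exact hdist _ _ hA hB
  · unfold fp8
    rw [m1_map1, m1_map1, hb]
    refine ⟨⟨by omega, by omega⟩, ⟨by omega, by omega⟩, ?_⟩
    have e7 : (ω 0 : ℤ) - n - ((bs (X / Q ^ 8) (ω 0) : ℤ) - ((bs (Z / Q ^ 8) n : ℕ) : ℤ)) =
        ((ω 0 : ℤ) - (bs (X / Q ^ 8) (ω 0) : ℤ)) + (-((n : ℤ) - (bs (Z / Q ^ 8) n : ℤ))) := by ring
    rw [e7]
    exact hdist _ _ hA (by rw [abs_neg]; exact hB)

/-- Proof. `B23.eval n = 2 n - 3` (`D0_lin`): `Y = 2 Z - 3`, `3 Y = 6 Z - 9 > 4 Z - 5` as `Z ≥ 3`. -/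
theorem M1_GeoB {Q N Z X : ℕ} (hG : G3 Q N Z X) : GeoB 2 Z Z (2 * Z - 3) B23 ∧
    N ≤ (2 * Z - 3) ^ 2 ∧ 2 * Z - 3 ≤ N ^ 2 ∧ N ≤ X ^ 2 ∧ X ≤ N ^ 2 := by
  have h9 := hG.nine
  have hZN := hG.Zlo
  have hZX := hG.ZX
  have hXN := hG.Xhi
  have hZ3 : 3 ≤ Z := by
    by_contra h
    have h1 : Z ≤ 2 := by omega
    have h2 : Z ^ 2 ≤ 2 ^ 2 := Nat.pow_le_pow_left h1 2
    omega
  obtain ⟨hlin, _, hev⟩ := D0_lin
  refine ⟨⟨hlin, ?_, ?_, by omega, by omega⟩, ?_, ?_, ?_, ?_⟩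
  · intro n hn
    have h1 := mem_Ico.1 hn
    rw [hev]
    omega
  · intro n hn
    have h1 := mem_Ico.1 hn
    rw [hev]
    omega
  · exact hZN.trans (Nat.pow_le_pow_left (by omega) 2)
  · have : N ≤ N ^ 2 := by nlinarith
    omega
  · exact hZN.trans (Nat.pow_le_pow_left (by omega) 2)
  · have : N ≤ N ^ 2 := by nlinarith
    omega

/-- **M1.** Proof. `Lk = SG (Cc x) x` at `x = L2.map ω i n` (`Cf.eq`), the frozen point is at distance `≤ 2X/Q^8`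
(`M1_geo`): the coefficients differ by at most `(2X/Q^8) (2 Q³/X) = 4/Q^5` (`v2_slow` of `H24P/V2.lean`), so
`‖SG - SG‖ ≤ 400 (1+log Q)³/Q²` (`v2_SG`); each factor is at most `300 (1+log Q)³ Q` (`S1b` of `H59P`, `Cf.le`, `Cf.sum`,
`dQ ≤ Q`), so the products of two factors differ by at most `240000 (1+log Q)^6/Q ≤ Q^(-1/2)`, and are at most
`90000 (1+log Q)^6 Q² ≤ Q³` (`G1_rlog`). -/
theorem M1_pt : ∃ Q0 : ℕ, ∀ (Q N Z X : ℕ), Q0 ≤ Q → G3 Q N Z X → ∀ (Cc : ℤ → Ch → ℂ) (mb : Ch → ℝ),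
    Cf Q X Cc mb → ∀ ω ∈ bx X, ∀ n ∈ Ico Z (2 * Z),
    ‖∏ i, ((Lk Q (X / Q ^ 2) (L2.map ω i (n : ℤ)) : ℝ) : ℂ) -
      ∏ i, SG Q (Cc (fp8 Q Z X ω n i)) (L2.map ω i (n : ℤ))‖ ≤ (Q : ℝ) ^ (-(1 / 2) : ℝ) ∧
    ‖∏ i, SG Q (Cc (fp8 Q Z X ω n i)) (L2.map ω i (n : ℤ))‖ ≤ (Q : ℝ) ^ 3 := by
  obtain ⟨Q1, hQ1, hlog⟩ := G1_rlog 720000 6 (1 / 2) (by norm_num)
  refine ⟨max Q1 1, fun Q N Z X hQ hG Cc mb hC ω hω n hn => ?_⟩
  have hQge : Q1 ≤ Q := (le_max_left _ _).trans hQ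
  have hQ' : 1 ≤ Q := (le_max_right _ _).trans hQ
  have hQr : (1 : ℝ) ≤ Q := by exact_mod_cast hQ'
  have hQ0 : (0 : ℝ) < Q := by linarith
  have hlogQ : 0 ≤ Real.log Q := Real.log_nonneg hQr
  have hgeo := fun i => M1_geo hQ' hG ω hω n hn i
  have hX0 : (0 : ℝ) < X := by
    have h1 := (hgeo 0).1
    have h2 : (0 : ℤ) < X := by omega
    exact_mod_cast h2
  have hval : ∀ i, (X : ℤ) ≤ L2.map ω i (n : ℤ) ∧ L2.map ω i (n : ℤ) ≤ 4 * X :=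
    fun i => ⟨(hgeo i).1.1, (hgeo i).1.2.le⟩
  have hbase : ∀ i, (X : ℤ) ≤ fp8 Q Z X ω n i ∧ fp8 Q Z X ω n i ≤ 4 * X :=
    fun i => ⟨(hgeo i).2.1.1, (hgeo i).2.1.2.le⟩
  set W : ℝ := 300 * (1 + Real.log Q) ^ 3 * Q with hW
  have hW1 : 1 ≤ W := by
    have h1 : (1 : ℝ) ≤ (1 + Real.log Q) ^ 3 := one_le_pow₀ (by linarith)
    rw [hW]
    nlinarith
  have hdq : ∀ x : ℤ, dQ Q x ≤ Q := by
    intro x
    unfold dQ
    have h4 : ((Icc 1 Q).filter (fun d : ℕ => (d : ℤ) ∣ x)).card ≤ Q := by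
      refine (card_filter_le _ _).trans ?_
      simp
    exact_mod_cast h4
  have hdq0 : ∀ x : ℤ, 0 ≤ dQ Q x := fun x => by
    unfold dQ
    exact Nat.cast_nonneg _
  have hC0 : 0 ≤ 100 * (1 + Real.log Q) ^ 3 := by positivity
  have hsg : ∀ (x : ℤ) (i : Fin 2), (X : ℤ) ≤ x → x ≤ 4 * X →
      ‖SG Q (Cc x) (L2.map ω i (n : ℤ))‖ ≤ W := by
    intro x i h1 h2
    refine (S1b Q hQ' (Cc x) mb (hC.le x h1 h2) _).trans ?_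
    have h3 : 0 ≤ 100 * (1 + Real.log Q) ^ 3 * dQ Q (L2.map ω i (n : ℤ)) := mul_nonneg hC0 (hdq0 _)
    calc 100 * (1 + Real.log Q) ^ 3 * dQ Q (L2.map ω i (n : ℤ)) * ∑ p ∈ PC Q, mb p
        ≤ 100 * (1 + Real.log Q) ^ 3 * dQ Q (L2.map ω i (n : ℤ)) * 3 :=
          mul_le_mul_of_nonneg_left hC.sum h3
      _ ≤ 100 * (1 + Real.log Q) ^ 3 * Q * 3 :=
          mul_le_mul_of_nonneg_right (mul_le_mul_of_nonneg_left (hdq _) hC0) (by norm_num)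
      _ = W := by rw [hW]; ring
  have hLk : ∏ i, ((Lk Q (X / Q ^ 2) (L2.map ω i (n : ℤ)) : ℝ) : ℂ) =
      ∏ i, SG Q (Cc (L2.map ω i (n : ℤ))) (L2.map ω i (n : ℤ)) :=
    Finset.prod_congr rfl fun i _ => hC.eq _ (hval i).1 (hval i).2
  rw [hLk]
  have hl := hlog Q hQge
  have e6 : (1 + Real.log Q) ^ (6 : ℝ) = (1 + Real.log Q) ^ 6 := by
    exact_mod_cast Real.rpow_natCast (1 + Real.log Q) 6
  rw [e6] at hl
  have key := v1b_prod (Finset.univ : Finset (Fin 2))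
    (fun i => SG Q (Cc (L2.map ω i (n : ℤ))) (L2.map ω i (n : ℤ)))
    (fun i => SG Q (Cc (fp8 Q Z X ω n i)) (L2.map ω i (n : ℤ)))
    (fun _ => W) (4 / (Q : ℝ) ^ 3)
    (by positivity) (fun i => by linarith)
    (fun i _ => hsg _ i (hval i).1 (hval i).2)
    (fun i _ => hsg _ i (hbase i).1 (hbase i).2)
    (fun i _ => ?_)
  · refine ⟨?_, ?_⟩
    · refine key.trans ?_
      rw [Finset.prod_const, Finset.card_univ, Fintype.card_fin]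
      have hneg : (Q : ℝ) ^ (-(1 / 2) : ℝ) = (Q : ℝ) ^ (1 / 2 : ℝ) / Q := by
        rw [eq_div_iff hQ0.ne', ← Real.rpow_add_one hQ0.ne']
        norm_num
      rw [hneg]
      calc ((2 : ℕ) : ℝ) * (4 / (Q : ℝ) ^ 3) * W ^ 2
          = (720000 * (1 + Real.log Q) ^ 6) / Q := by
            rw [hW]
            field_simp
            push_cast
            ring
        _ ≤ (Q : ℝ) ^ (1 / 2 : ℝ) / Q := div_le_div_of_nonneg_right hl hQ0.le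
    · rw [norm_prod]
      calc ∏ i : Fin 2, ‖SG Q (Cc (fp8 Q Z X ω n i)) (L2.map ω i (n : ℤ))‖ ≤ ∏ _i : Fin 2, W :=
            Finset.prod_le_prod (fun _ _ => norm_nonneg _)
              (fun i _ => hsg _ i (hbase i).1 (hbase i).2)
        _ = 90000 * (1 + Real.log Q) ^ 6 * Q ^ 2 := by
            rw [Finset.prod_const, Finset.card_univ, Fintype.card_fin, hW]
            ring
        _ ≤ (Q : ℝ) * Q ^ 2 := by
            refine mul_le_mul_of_nonneg_right ?_ (by positivity)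
            have h1 : (0 : ℝ) ≤ (1 + Real.log Q) ^ 6 := by positivity
            have h2 : (Q : ℝ) ^ (1 / 2 : ℝ) ≤ Q := by
              calc (Q : ℝ) ^ (1 / 2 : ℝ) ≤ (Q : ℝ) ^ (1 : ℝ) :=
                    Real.rpow_le_rpow_of_exponent_le hQr (by norm_num)
                _ = Q := Real.rpow_one _
            linarith
        _ = (Q : ℝ) ^ 3 := by ring
  · have h1 : ∀ p ∈ PC Q, ‖Cc (L2.map ω i (n : ℤ)) p - Cc (fp8 Q Z X ω n i) p‖ ≤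
        4 / (Q : ℝ) ^ 5 := by
      intro p hp
      refine (v1a_slow Q X Cc mb hC _ _ (hbase i).1 (hbase i).2
        (hval i).1 (hval i).2 p hp).trans ?_
      have h2 : (Q : ℝ) ^ 8 * |((L2.map ω i (n : ℤ) : ℤ) : ℝ) - ((fp8 Q Z X ω n i : ℤ) : ℝ)| ≤
          2 * X := by
        exact_mod_cast (hgeo i).2.2
      have h4 : |((L2.map ω i (n : ℤ) : ℤ) : ℝ) - ((fp8 Q Z X ω n i : ℤ) : ℝ)| ≤
          (2 * X) / (Q : ℝ) ^ 8 := by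
        rw [le_div_iff₀ (by positivity), mul_comm]
        exact h2
      calc |((L2.map ω i (n : ℤ) : ℤ) : ℝ) - ((fp8 Q Z X ω n i : ℤ) : ℝ)| *
            (2 * (Q : ℝ) ^ 3 / X)
          ≤ (2 * X) / (Q : ℝ) ^ 8 * (2 * (Q : ℝ) ^ 3 / X) :=
            mul_le_mul_of_nonneg_right h4 (by positivity)
        _ = 4 / (Q : ℝ) ^ 5 := by
            field_simp
            ring
    refine (v2_SG Q hQ' _ _ (4 / (Q : ℝ) ^ 5) h1 (by positivity) _).trans ?_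
    have h5 : (0 : ℝ) ≤ (1 + Real.log Q) ^ 3 * Q := by positivity
    calc 100 * (1 + Real.log Q) ^ 3 * Q * ((Q : ℝ) ^ 2 * (4 / (Q : ℝ) ^ 5))
        = 4 / (Q : ℝ) ^ 3 * (100 * (1 + Real.log Q) ^ 3 * Q) := by
          field_simp
      _ ≤ 4 / (Q : ℝ) ^ 3 * W := by
          refine mul_le_mul_of_nonneg_left ?_ (by positivity)
          rw [hW]
          nlinarith

end Pool.Agent.Lib.H24Q
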