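import Pool.Agent.Lib.H24Q.M1

/-!
# Project H24Q, chunk M2 (S/M): freezing in mean square
-/

open Finset Polynomial

namespace Pool.Agent.Lib.H24Q

open Pool.Agent.Lib.H68T Pool.Agent.Lib.H18Q Pool.Agent.Lib.H59P Pool.Agent.Lib.H24P

theorem m2_lp0 (m : ℤ) : 0 ≤ lp m := by
  unfold H68T.lp
  split_ifs with h
  · have h1 : 0 < m.toNat := h.pos
    have h2 : 0 < m := by omega
    exact Real.log_nonneg (by exact_mod_cast (by omega : 1 ≤ m))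
  · exact le_rfl

theorem m2_lp_le (m : ℤ) (N : ℕ) (hN : 1 ≤ N) (h : m ≤ N) : lp m ≤ Real.log N := by
  unfold H68T.lp
  split_ifs with hp
  · have h1 : 0 < m.toNat := hp.pos
    have h2 : 0 < m := by omega
    exact Real.log_le_log (by exact_mod_cast h2) (by exact_mod_cast h)
  · exact Real.log_nonneg (by exact_mod_cast hN)

theorem m2_card (X : ℕ) : ((bx X).card : ℝ) = X := by
  unfold bx cub
  rw [Fintype.card_piFinset, Fin.prod_univ_one, Nat.card_Ico, Nat.add_sub_cancel_left]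

theorem m2_sum (Q Z : ℕ) (X : ℕ) (f : (Fin 1 → ℕ) → ℂ) (U V : ℝ) (hU : 0 ≤ U)
    (hf : ∀ ω ∈ bx X, ‖f ω‖ ≤ Z * U) (hUV : U ^ 2 ≤ V) :
    ∑ ω ∈ bx X, ‖f ω‖ ^ 2 ≤ X * (Z : ℝ) ^ 2 * V := by
  have h1 : ∀ ω ∈ bx X, ‖f ω‖ ^ 2 ≤ (Z : ℝ) ^ 2 * V := by
    intro ω hω
    have h2 : ‖f ω‖ ^ 2 ≤ (Z * U) ^ 2 := pow_le_pow_left₀ (norm_nonneg _) (hf ω hω) 2
    refine h2.trans ?_
    rw [mul_pow]
    exact mul_le_mul_of_nonneg_left hUV (by positivity)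
  refine (Finset.sum_le_sum h1).trans (le_of_eq ?_)
  rw [Finset.sum_const, nsmul_eq_mul, m2_card]
  ring

/-- Proof. `|lp (2n-3)| ≤ log (2n-3) ≤ 2 log N` (`2n - 3 ≤ 4Z ≤ N²`), `M1_pt`: the difference is at most
`Z · 2 log N · Q^(-1/2)` for each of the `X` values of `ω` (`card (bx X) = X`); `G1_log`: `4 (log N)² ≤ Q^(1/2)`. -/
theorem M2_lp (Cr : ℝ) : ∃ Q0 : ℕ, ∀ (Q N Z X : ℕ), Q0 ≤ Q → Real.log N ≤ Cr * Real.log Q →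
    G3 Q N Z X → ∀ (Cc : ℤ → Ch → ℂ) (mb : Ch → ℝ), Cf Q X Cc mb →
    ∑ ω ∈ bx X, ‖T3w Q Z X (fun n => ((lp (B23.eval (n : ℤ)) : ℝ) : ℂ)) ω -
      T3z Q Z X Cc (fun n => ((lp (B23.eval (n : ℤ)) : ℝ) : ℂ)) ω‖ ^ 2 ≤
      X * (Z : ℝ) ^ 2 * (Q : ℝ) ^ (-(1 / 2) : ℝ) := by
  classical
  obtain ⟨Q1, hM⟩ := M1_pt
  obtain ⟨Q2, hQ2, hlog⟩ := G1_log Cr 2 4 (1 / 2) (by norm_num)
  refine ⟨max Q1 Q2, ?_⟩
  intro Q N Z X hQ hN hG Cc mb hCc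
  have hQ1' : Q1 ≤ Q := (le_max_left _ _).trans hQ
  have hQ2' : Q2 ≤ Q := (le_max_right _ _).trans hQ
  have hQ1 : 1 ≤ Q := hQ2.trans hQ2'
  have hQr0 : (0 : ℝ) < Q := by exact_mod_cast hQ1
  have hL := hlog Q N hQ2' hN
  have hlN : 0 ≤ Real.log N := Real.log_natCast_nonneg N
  have hq0 : 0 ≤ (Q : ℝ) ^ (-(1 / 2) : ℝ) := Real.rpow_nonneg hQr0.le _
  refine m2_sum Q Z X _ (2 * Real.log N * (Q : ℝ) ^ (-(1 / 2) : ℝ)) _ (by positivity) ?_ ?_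
  · intro ω hω
    have h1 : T3w Q Z X (fun n => ((lp (B23.eval (n : ℤ)) : ℝ) : ℂ)) ω -
        T3z Q Z X Cc (fun n => ((lp (B23.eval (n : ℤ)) : ℝ) : ℂ)) ω =
        ∑ n ∈ Ico Z (2 * Z), ((lp (B23.eval (n : ℤ)) : ℝ) : ℂ) *
          (∏ i, ((Lk Q (X / Q ^ 2) (L2.map ω i (n : ℤ)) : ℝ) : ℂ) -
          ∏ i, SG Q (Cc (fp8 Q Z X ω n i)) (L2.map ω i (n : ℤ))) := by
      unfold T3w T3z
      rw [← Finset.sum_sub_distrib]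
      exact Finset.sum_congr rfl fun n _ => by ring
    rw [h1]
    have h2 : ∀ n ∈ Ico Z (2 * Z), ‖((lp (B23.eval (n : ℤ)) : ℝ) : ℂ) *
          (∏ i, ((Lk Q (X / Q ^ 2) (L2.map ω i (n : ℤ)) : ℝ) : ℂ) -
          ∏ i, SG Q (Cc (fp8 Q Z X ω n i)) (L2.map ω i (n : ℤ)))‖ ≤
        2 * Real.log N * (Q : ℝ) ^ (-(1 / 2) : ℝ) := by
      intro n hn
      rw [norm_mul, Complex.norm_real, Real.norm_of_nonneg (m2_lp0 _)]
      have h3 : lp (B23.eval (n : ℤ)) ≤ 2 * Real.log N := by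
        have h4 : B23.eval (n : ℤ) ≤ ((N ^ 2 : ℕ) : ℤ) := by
          rw [d0_lin]
          have h5 := (mem_Ico.1 hn).2
          have h6 := hG.ZX
          have h7 := hG.Xhi
          have h8 := hG.nine
          have h9 : 2 * N ≤ N ^ 2 := by nlinarith
          have h10 : (2 * n : ℕ) ≤ N ^ 2 := by omega
          have h11 : (((2 * n : ℕ)) : ℤ) ≤ ((N ^ 2 : ℕ) : ℤ) := by exact_mod_cast h10
          rw [Nat.cast_mul] at h11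
          have h12 : ((2 : ℕ) : ℤ) = 2 := rfl
          rw [h12] at h11
          linarith
        have h5 := m2_lp_le _ (N ^ 2) (Nat.one_le_pow _ _ (by have := hG.nine; omega)) h4
        rw [Nat.cast_pow, Real.log_pow] at h5
        push_cast at h5
        exact h5
      have h4 := (hM Q N Z X hQ1' hG Cc mb hCc ω hω n hn).1
      exact mul_le_mul h3 h4 (norm_nonneg _) (by positivity)
    refine (norm_sum_le _ _).trans ((Finset.sum_le_sum h2).trans (le_of_eq ?_))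
    rw [Finset.sum_const, Nat.card_Ico, nsmul_eq_mul]
    congr 2
    omega
  · have h1 : (Q : ℝ) ^ (1 / 2 : ℝ) * ((Q : ℝ) ^ (-(1 / 2) : ℝ) * (Q : ℝ) ^ (-(1 / 2) : ℝ)) =
        (Q : ℝ) ^ (-(1 / 2) : ℝ) := by
      rw [← Real.rpow_add hQr0, ← Real.rpow_add hQr0]
      norm_num
    calc (2 * Real.log N * (Q : ℝ) ^ (-(1 / 2) : ℝ)) ^ 2
        = (4 * Real.log N ^ 2) * ((Q : ℝ) ^ (-(1 / 2) : ℝ) * (Q : ℝ) ^ (-(1 / 2) : ℝ)) := by ring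
      _ ≤ (Q : ℝ) ^ (1 / 2 : ℝ) * ((Q : ℝ) ^ (-(1 / 2) : ℝ) * (Q : ℝ) ^ (-(1 / 2) : ℝ)) :=
          mul_le_mul_of_nonneg_right hL (mul_nonneg hq0 hq0)
      _ = (Q : ℝ) ^ (-(1 / 2) : ℝ) := h1

/-- Proof. `V2_pt` (`A = 2`, `X = X1 = Z`, `Y = 2Z - 3`, `M1_GeoB`): the weights differ by at most `Q^(-10)`; `M1_pt` (second
part): the difference is at most `Z Q^(-7)` for each `ω`. -/
theorem M2_gB : ∃ Q0 : ℕ, ∀ (Q N Z X : ℕ), Q0 ≤ Q → G3 Q N Z X →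
    ∀ (C0 : ℤ → Ch → ℂ) (m0 : Ch → ℝ), Cf (Q ^ 100) (2 * Z - 3) C0 m0 →
    ∀ (Cc : ℤ → Ch → ℂ) (mb : Ch → ℝ), Cf Q X Cc mb →
    ∑ ω ∈ bx X, ‖T3z Q Z X Cc
        (fun n => ((Lk (Q ^ 100) ((2 * Z - 3) / (Q ^ 100) ^ 2) (B23.eval (n : ℤ)) : ℝ) : ℂ)) ω -
      T3z Q Z X Cc (gB Q Z B23 C0) ω‖ ^ 2 ≤ X * (Z : ℝ) ^ 2 * (Q : ℝ) ^ (-(10) : ℝ) := by
  classical
  obtain ⟨Q1, hM⟩ := M1_pt
  obtain ⟨Q2, hV⟩ := V2_pt 2
  refine ⟨max (max Q1 Q2) 1, ?_⟩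
  intro Q N Z X hQ hG C0 m0 hC0 Cc mb hCc
  have hQ1' : Q1 ≤ Q := (le_max_left _ _).trans ((le_max_left _ _).trans hQ)
  have hQ2' : Q2 ≤ Q := (le_max_right _ _).trans ((le_max_left _ _).trans hQ)
  have hQ1 : 1 ≤ Q := (le_max_right _ _).trans hQ
  have hQr0 : (0 : ℝ) < Q := by exact_mod_cast hQ1
  have hQr1 : (1 : ℝ) ≤ Q := by exact_mod_cast hQ1
  have hq0 : 0 ≤ (Q : ℝ) ^ (-(10) : ℝ) := Real.rpow_nonneg hQr0.le _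
  obtain ⟨hB, -, -, -, -⟩ := M1_GeoB hG
  refine m2_sum Q Z X _ ((Q : ℝ) ^ (-(10) : ℝ) * (Q : ℝ) ^ 3) _ (by positivity) ?_ ?_
  · intro ω hω
    have h1 : T3z Q Z X Cc
        (fun n => ((Lk (Q ^ 100) ((2 * Z - 3) / (Q ^ 100) ^ 2) (B23.eval (n : ℤ)) : ℝ) : ℂ)) ω -
        T3z Q Z X Cc (gB Q Z B23 C0) ω =
        ∑ n ∈ Ico Z (2 * Z),
          (((Lk (Q ^ 100) ((2 * Z - 3) / (Q ^ 100) ^ 2) (B23.eval (n : ℤ)) : ℝ) : ℂ) -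
            gB Q Z B23 C0 n) * ∏ i, SG Q (Cc (fp8 Q Z X ω n i)) (L2.map ω i (n : ℤ)) := by
      unfold T3z
      rw [← Finset.sum_sub_distrib]
      exact Finset.sum_congr rfl fun n _ => by ring
    rw [h1]
    have h2 : ∀ n ∈ Ico Z (2 * Z),
        ‖(((Lk (Q ^ 100) ((2 * Z - 3) / (Q ^ 100) ^ 2) (B23.eval (n : ℤ)) : ℝ) : ℂ) -
            gB Q Z B23 C0 n) * ∏ i, SG Q (Cc (fp8 Q Z X ω n i)) (L2.map ω i (n : ℤ))‖ ≤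
        (Q : ℝ) ^ (-(10) : ℝ) * (Q : ℝ) ^ 3 := by
      intro n hn
      rw [norm_mul]
      have h3 := hV Q Z Z (2 * Z - 3) B23 C0 m0 hQ2' hG.dvdZ hB hC0 n hn
      have h4 := (hM Q N Z X hQ1' hG Cc mb hCc ω hω n hn).2
      exact mul_le_mul h3 h4 (norm_nonneg _) hq0
    refine (norm_sum_le _ _).trans ((Finset.sum_le_sum h2).trans (le_of_eq ?_))
    rw [Finset.sum_const, Nat.card_Ico, nsmul_eq_mul]
    congr 2
    omega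
  · have h1 : (Q : ℝ) ^ (-(10) : ℝ) * (Q : ℝ) ^ 3 = (Q : ℝ) ^ (-(7) : ℝ) := by
      rw [← Real.rpow_natCast (Q : ℝ) 3, ← Real.rpow_add hQr0]
      norm_num
    rw [h1, ← Real.rpow_natCast, ← Real.rpow_mul hQr0.le]
    exact Real.rpow_le_rpow_of_exponent_le hQr1 (by norm_num)

end Pool.Agent.Lib.H24Q
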