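import Pool.Agent.Lib.H24Q.R0
import Pool.Agent.Lib.H24P.W3

/-!
# Project H24Q, chunk R7 (M): Fourier uniform weights (port of `H24P/W1`, `W3_cell`)
-/

open Finset Polynomial

namespace Pool.Agent.Lib.H24Q

open Pool.Agent.Lib.H68T Pool.Agent.Lib.H18Q Pool.Agent.Lib.H59P Pool.Agent.Lib.H24P

/-- Proof. As `W1_small` (`H24P/W1.lean`); the product has period `lcm(r_i κ_i)` in `n` by `Cp φ`. -/
theorem R7_small {k : ℕ} (φ : Fin k → ℤ → ℤ) (hφ : Cp φ) (Q D : ℕ) (hD : 1 ≤ D) (p : Fin k → Ch)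
    (hp : ∀ i, p i ∈ PC Q) (T : Finset (Fin k → ℕ)) (hT : T ⊆ Fintype.piFinset (fun i => KS Q (p i).1))
    (hTD : ∀ κ ∈ T, univ.lcm (fun i => (p i).1 * κ i) ≤ D) (f : ℕ → ℂ) (I : Finset ℕ) (δ : ℝ)
    (hf : ∀ θ : ℝ, ‖∑ n ∈ I, f n * e ((n : ℝ) * θ)‖ ≤ δ) :
    ‖∑ n ∈ I, f n * ∑ κ ∈ T, ∏ i, gk (p i) (κ i) (φ i (n : ℤ))‖ ≤ (D : ℝ) ^ (2 * k + 1) * δ := by
  have hδ : 0 ≤ δ := (norm_nonneg _).trans (hf 0)
  have hDr : (1 : ℝ) ≤ D := by exact_mod_cast hD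
  have h1 : ∑ n ∈ I, f n * ∑ κ ∈ T, ∏ i, gk (p i) (κ i) (φ i (n : ℤ))
      = ∑ κ ∈ T, ∑ n ∈ I, f n * ∏ i, gk (p i) (κ i) (φ i (n : ℤ)) := by
    simp_rw [mul_sum]
    exact sum_comm
  rw [h1]
  refine (norm_sum_le _ _).trans ?_
  have hKS : ∀ κ ∈ T, ∀ i, κ i ∈ KS Q (p i).1 := fun κ hκ i => Fintype.mem_piFinset.mp (hT hκ) i
  have hle : ∀ κ ∈ T, ∀ i, (p i).1 * κ i ≤ D := by
    intro κ hκ i
    have hpos : 0 < univ.lcm (fun i => (p i).1 * κ i) := by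
      rw [Nat.pos_iff_ne_zero, Ne, Finset.lcm_eq_zero_iff]
      rintro ⟨j, -, hj⟩
      have h2 := (mem_PC.1 (hp j)).1
      have h3 := (CA_mem_KS.1 (hKS κ hκ j)).1
      have h4 : 1 ≤ κ j := h3.1
      have h5 : 0 < (p j).1 * κ j := Nat.mul_pos h2 h4
      omega
    exact (Nat.le_of_dvd hpos (dvd_lcm (mem_univ i))).trans (hTD κ hκ)
  have h2 : ∀ κ ∈ T, ‖∑ n ∈ I, f n * ∏ i, gk (p i) (κ i) (φ i (n : ℤ))‖
      ≤ (D : ℝ) ^ (k + 1) * δ := by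
    intro κ hκ
    set N : ℕ := univ.lcm (fun i => (p i).1 * κ i) with hN
    have hND : N ≤ D := hTD κ hκ
    have hN0 : 0 < N := by
      rw [Nat.pos_iff_ne_zero, hN, Ne, Finset.lcm_eq_zero_iff]
      rintro ⟨j, -, hj⟩
      have h2 := (mem_PC.1 (hp j)).1
      have h3 := (CA_mem_KS.1 (hKS κ hκ j)).1
      have h4 : 1 ≤ κ j := h3.1
      have h5 : 0 < (p j).1 * κ j := Nat.mul_pos h2 h4
      omega
    have h3 := W1_per f I δ hf N hN0 (fun n => ∏ i, gk (p i) (κ i) (φ i n)) (by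
      intro n
      refine prod_congr rfl fun i _ => ?_
      have h4 : (((p i).1 * κ i : ℕ) : ℤ) ∣ φ i (n + N) - φ i n := by
        refine dvd_trans ?_ (hφ i N n)
        have h6 : (p i).1 * κ i ∣ N := dvd_lcm (mem_univ i)
        exact_mod_cast h6
      obtain ⟨j, hj⟩ := h4
      have h7 : φ i (n + N) = φ i n + (((p i).1 * κ i : ℕ) : ℤ) * j := by
        linarith
      rw [h7]
      exact gk_period _ _ _ _) ((D : ℝ) ^ k) (by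
      intro n
      rw [norm_prod]
      calc ∏ i, ‖gk (p i) (κ i) (φ i n)‖ ≤ ∏ _i : Fin k, (D : ℝ) := by
            refine prod_le_prod (fun i _ => norm_nonneg _) fun i _ => ?_
            obtain ⟨hr1, hrQ, hprim⟩ := mem_PC.1 (hp i)
            obtain ⟨hI, hsq, hcop⟩ := CA_mem_KS.1 (hKS κ hκ i)
            have hk1 : 1 ≤ κ i := hI.1
            have hiD := hle κ hκ i
            refine gk_bound D (p i) (mem_PC.2 ⟨hr1, ?_, hprim⟩) (κ i) (CA_mem_KS.2 ⟨?_, hsq, hcop⟩) _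
            · exact (Nat.le_mul_of_pos_right _ hk1).trans hiD
            · refine ⟨hk1, ?_⟩
              rw [Nat.le_div_iff_mul_le hr1, mul_comm]
              exact hiD
        _ = (D : ℝ) ^ k := by rw [prod_const, card_univ, Fintype.card_fin])
    refine h3.trans ?_
    have hNr : (N : ℝ) ≤ D := by exact_mod_cast hND
    calc (N : ℝ) * (D : ℝ) ^ k * δ ≤ D * (D : ℝ) ^ k * δ := by gcongr
      _ = (D : ℝ) ^ (k + 1) * δ := by ring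
  refine (sum_le_sum h2).trans ?_
  rw [sum_const, nsmul_eq_mul]
  have hcard : (T.card : ℝ) ≤ (D : ℝ) ^ k := by
    have h3 : T ⊆ Fintype.piFinset (fun _ : Fin k => Icc 1 D) := by
      intro κ hκ
      refine Fintype.mem_piFinset.mpr fun i => ?_
      obtain ⟨hI, -, -⟩ := CA_mem_KS.1 (hKS κ hκ i)
      have hr1 := (mem_PC.1 (hp i)).1
      refine mem_Icc.mpr ⟨hI.1, ?_⟩
      exact (Nat.le_mul_of_pos_left _ hr1).trans (hle κ hκ i)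
    have h4 := card_le_card h3
    rw [Fintype.card_piFinset] at h4
    simp only [Nat.card_Icc, add_tsub_cancel_right, prod_const, card_univ, Fintype.card_fin] at h4
    exact_mod_cast h4
  calc (T.card : ℝ) * ((D : ℝ) ^ (k + 1) * δ) ≤ (D : ℝ) ^ k * ((D : ℝ) ^ (k + 1) * δ) :=
        mul_le_mul_of_nonneg_right hcard (by positivity)
    _ = (D : ℝ) ^ (2 * k + 1) * δ := by ring

/-- Proof. As `W1_cell` (`H24P/W1.lean`), `FW` instead of `Fgen`. -/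
theorem R7_w1 (k : ℕ) (C c : ℝ) (hC : 1 ≤ C) (hc : 0 < c) : ∃ C' c' : ℝ, 1 ≤ C' ∧ 0 < c' ∧ c' ≤ 1 ∧
    ∀ Q : ℕ, 1 ≤ Q → ∀ (H0 : ℕ) (Ω : Type) (S : Finset Ω) (φ : Ω → Fin k → ℤ → ℤ),
    FW C c Q H0 S φ → (∀ ω ∈ S, Cp (φ ω)) → ∀ p : Fin k → Ch, (∀ i, p i ∈ PC Q) →
    ∀ a H : ℕ, H0 ≤ H → Q ≤ H → ∀ (f : ℕ → ℂ) (Ws : ℝ), 0 ≤ Ws →
    ∑ n ∈ Ico a (a + H), ‖f n‖ ^ 2 ≤ H * Ws →
    (∀ θ : ℝ, ‖∑ n ∈ Ico a (a + H), f n * e ((n : ℝ) * θ)‖ ≤ H / (Q : ℝ) ^ 2) →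
    ∑ ω ∈ S, ‖∑ n ∈ Ico a (a + H), f n * ∏ i, Fc Q (p i) (φ ω i (n : ℤ))‖ ^ 2 ≤
      S.card * (H : ℝ) ^ 2 * (C' * (1 + Real.log Q) ^ C' * (Ws + 1) * (Q : ℝ) ^ (-c')) := by
  classical
  obtain ⟨cc, hcc0, hcc1, hccc⟩ : ∃ cc : ℝ, 0 < cc ∧ cc ≤ 1 ∧ cc ≤ c :=
    ⟨min c 1, lt_min hc one_pos, min_le_right _ _, min_le_left _ _⟩
  set x : ℝ := 1 / (2 * k + 2) with hx
  have hx0 : 0 < x := by positivity
  have hx1 : x ≤ 1 := by
    rw [hx, div_le_one (by positivity)]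
    have : (0 : ℝ) ≤ k := by positivity
    linarith
  refine ⟨4 * C + 2, cc * x, by linarith, mul_pos hcc0 hx0, ?_, ?_⟩
  · calc cc * x ≤ 1 * 1 := mul_le_mul hcc1 hx1 hx0.le zero_le_one
      _ = 1 := one_mul 1
  intro Q hQ H0 Ω S φ hFW hCp p hp a H hH0 hQH f Ws hWs hf2 hfe
  set D : ℕ := fl Q x with hD
  obtain ⟨hD1, hD2, -⟩ := G1_one hQ hx0.le
  rw [← hD] at hD1 hD2
  have hQr : (1 : ℝ) ≤ Q := by exact_mod_cast hQ
  have hQp : (0 : ℝ) < Q := by linarith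
  have hHr : (0 : ℝ) ≤ H := by positivity
  have hvol : (0 : ℝ) ≤ S.card := Nat.cast_nonneg _
  have hl : 0 ≤ Real.log Q := Real.log_natCast_nonneg Q
  set T0 := Fintype.piFinset (fun i => KS Q (p i).1) with hT0
  set T1 := T0.filter (fun κ => univ.lcm (fun i => (p i).1 * κ i) ≤ D) with hT1
  set T2 := T0.filter (fun κ => ¬ univ.lcm (fun i => (p i).1 * κ i) ≤ D) with hT2
  have hsplit : ∀ ω : Ω, ∑ n ∈ Ico a (a + H), f n * ∏ i, Fc Q (p i) (φ ω i (n : ℤ))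
      = ∑ n ∈ Ico a (a + H), f n * ∑ κ ∈ T1, ∏ i, gk (p i) (κ i) (φ ω i (n : ℤ))
        + ∑ n ∈ Ico a (a + H), f n * ∑ κ ∈ T2, ∏ i, gk (p i) (κ i) (φ ω i (n : ℤ)) := by
    intro ω
    rw [← sum_add_distrib]
    refine sum_congr rfl fun n _ => ?_
    rw [← mul_add, hT1, hT2, sum_filter_add_sum_filter_not]
    congr 1
    unfold Fc
    rw [hT0, prod_univ_sum]
  have hA1 : ∀ ω ∈ S,
      ‖∑ n ∈ Ico a (a + H), f n * ∑ κ ∈ T1, ∏ i, gk (p i) (κ i) (φ ω i (n : ℤ))‖ ≤ H / Q := by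
    intro ω hω
    have h1 := R7_small (φ ω) (hCp ω hω) Q D hD1 p hp T1 (filter_subset _ _)
      (fun κ hκ => (mem_filter.mp hκ).2) f (Ico a (a + H)) (H / (Q : ℝ) ^ 2) hfe
    refine h1.trans ?_
    have h2 : (D : ℝ) ^ (2 * k + 1) ≤ Q := by
      calc (D : ℝ) ^ (2 * k + 1) ≤ ((Q : ℝ) ^ x) ^ (2 * k + 1) :=
            pow_le_pow_left₀ (by positivity) hD2 _
        _ = (Q : ℝ) ^ (x * ((2 * k + 1 : ℕ) : ℝ)) := by
            rw [← Real.rpow_natCast, ← Real.rpow_mul hQp.le]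
        _ ≤ (Q : ℝ) ^ (1 : ℝ) := by
            refine Real.rpow_le_rpow_of_exponent_le hQr ?_
            rw [hx, div_mul_eq_mul_div, one_mul, div_le_one (by positivity)]
            push_cast
            linarith
        _ = Q := Real.rpow_one _
    calc (D : ℝ) ^ (2 * k + 1) * (H / (Q : ℝ) ^ 2) ≤ Q * (H / (Q : ℝ) ^ 2) :=
          mul_le_mul_of_nonneg_right h2 (by positivity)
      _ = H / Q := by field_simp
  have hA2 : ∑ ω ∈ S,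
      ‖∑ n ∈ Ico a (a + H), f n * ∑ κ ∈ T1, ∏ i, gk (p i) (κ i) (φ ω i (n : ℤ))‖ ^ 2
      ≤ (S.card : ℝ) * H ^ 2 * (Q : ℝ) ^ (-(cc * x)) := by
    have h1 : ∀ ω ∈ S,
        ‖∑ n ∈ Ico a (a + H), f n * ∑ κ ∈ T1, ∏ i, gk (p i) (κ i) (φ ω i (n : ℤ))‖ ^ 2
        ≤ (H / Q) ^ 2 := fun ω hω => pow_le_pow_left₀ (norm_nonneg _) (hA1 ω hω) 2
    refine (sum_le_sum h1).trans ?_
    rw [sum_const, nsmul_eq_mul, div_pow, mul_assoc]
    refine mul_le_mul_of_nonneg_left ?_ hvol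
    rw [div_eq_mul_inv]
    refine mul_le_mul_of_nonneg_left ?_ (by positivity)
    have h2 : ((Q : ℝ) ^ 2)⁻¹ = (Q : ℝ) ^ (-(2 : ℝ)) := by
      rw [Real.rpow_neg hQp.le, Real.rpow_ofNat]
    rw [h2]
    refine Real.rpow_le_rpow_of_exponent_le hQr ?_
    have h3 : cc * x ≤ 1 * 1 := mul_le_mul hcc1 hx1 hx0.le zero_le_one
    linarith
  have hB := hFW p hp T2 (filter_subset _ _) D hD1
    (fun κ hκ => not_le.mp (mem_filter.mp hκ).2) f a H hH0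
  have hDr : (1 : ℝ) ≤ D := by exact_mod_cast hD1
  have hDc : (D : ℝ) ^ (-c) ≤ (D : ℝ) ^ (-cc) :=
    Real.rpow_le_rpow_of_exponent_le hDr (by linarith)
  have hneg : (D : ℝ) ^ (-cc) ≤ 2 * (Q : ℝ) ^ (-(cc * x)) := by
    refine (G1_neg hQ hx0.le hcc0.le).trans ?_
    refine mul_le_mul_of_nonneg_right ?_ (by positivity)
    calc (2 : ℝ) ^ cc ≤ 2 ^ (1 : ℝ) := Real.rpow_le_rpow_of_exponent_le (by norm_num) hcc1
      _ = 2 := Real.rpow_one 2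
  set E : ℝ := (Q : ℝ) ^ (-(cc * x)) with hE
  have hE0 : 0 < E := by positivity
  set Lg : ℝ := (1 + Real.log Q) ^ (4 * C + 2) with hLg
  have hLg1 : 1 ≤ Lg := Real.one_le_rpow (by linarith) (by linarith)
  have hLg2 : (1 + Real.log Q) ^ C ≤ Lg :=
    Real.rpow_le_rpow_of_exponent_le (by linarith) (by linarith)
  have hLc0 : 0 ≤ (1 + Real.log Q) ^ C := by positivity
  have hB2 : ∑ ω ∈ S,
      ‖∑ n ∈ Ico a (a + H), f n * ∑ κ ∈ T2, ∏ i, gk (p i) (κ i) (φ ω i (n : ℤ))‖ ^ 2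
      ≤ (S.card : ℝ) * H ^ 2 * (2 * C * Lg * Ws * E) := by
    refine hB.trans ?_
    calc C * (1 + Real.log Q) ^ C * (S.card : ℝ) * (H * ∑ n ∈ Ico a (a + H), ‖f n‖ ^ 2) * (D : ℝ) ^ (-c)
        ≤ C * Lg * (S.card : ℝ) * (H * (H * Ws)) * (2 * E) := by
          have h0 : 0 ≤ ∑ n ∈ Ico a (a + H), ‖f n‖ ^ 2 := sum_nonneg fun _ _ => by positivity
          have h1 : 0 ≤ (D : ℝ) ^ (-c) := by positivity
          have h2 : (D : ℝ) ^ (-c) ≤ 2 * E := hDc.trans hneg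
          gcongr
      _ = (S.card : ℝ) * H ^ 2 * (2 * C * Lg * Ws * E) := by ring
  have h4 : ∀ ω ∈ S, ‖∑ n ∈ Ico a (a + H), f n *
        ∏ i, Fc Q (p i) (φ ω i (n : ℤ))‖ ^ 2
      ≤ 2 * ‖∑ n ∈ Ico a (a + H), f n * ∑ κ ∈ T1, ∏ i, gk (p i) (κ i) (φ ω i (n : ℤ))‖ ^ 2
        + 2 * ‖∑ n ∈ Ico a (a + H), f n * ∑ κ ∈ T2, ∏ i, gk (p i) (κ i) (φ ω i (n : ℤ))‖ ^ 2 := by
    intro ω _
    rw [hsplit ω]
    generalize (∑ n ∈ Ico a (a + H), f n * ∑ κ ∈ T1, ∏ i, gk (p i) (κ i) (φ ω i (n : ℤ))) = z1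
    generalize (∑ n ∈ Ico a (a + H), f n * ∑ κ ∈ T2, ∏ i, gk (p i) (κ i) (φ ω i (n : ℤ))) = z2
    have h5 := norm_add_le z1 z2
    have h6 : ‖z1 + z2‖ ^ 2 ≤ (‖z1‖ + ‖z2‖) ^ 2 := pow_le_pow_left₀ (norm_nonneg _) h5 2
    nlinarith [sq_nonneg (‖z1‖ - ‖z2‖)]
  refine (sum_le_sum h4).trans ?_
  rw [sum_add_distrib, ← mul_sum, ← mul_sum]
  have h7 : 2 * ((S.card : ℝ) * (H : ℝ) ^ 2 * E) + 2 * ((S.card : ℝ) * H ^ 2 * (2 * C * Lg * Ws * E))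
      ≤ (S.card : ℝ) * H ^ 2 * ((4 * C + 2) * Lg * (Ws + 1) * E) := by
    have h8 : 2 * ((S.card : ℝ) * (H : ℝ) ^ 2 * E) + 2 * ((S.card : ℝ) * H ^ 2 * (2 * C * Lg * Ws * E))
        = (S.card : ℝ) * H ^ 2 * ((2 + 4 * C * Lg * Ws) * E) := by ring
    rw [h8]
    refine mul_le_mul_of_nonneg_left ?_ (by positivity)
    refine mul_le_mul_of_nonneg_right ?_ hE0.le
    nlinarith [mul_nonneg (by linarith : 0 ≤ Lg) hWs, mul_nonneg (by linarith : 0 ≤ C) (by linarith : 0 ≤ Lg)]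
  linarith

theorem r7_Rg {K K' C : ℝ} {Q X : ℕ} (h : Rg K C Q X) (hK : K' ≤ K) : Rg K' C Q X :=
  ⟨(mul_le_mul_of_nonneg_right hK (Real.log_natCast_nonneg Q)).trans h.1, h.2⟩

/-- **R7.** Proof. As `W3_cell` (`H24P/W3.lean`), with `R7_w1` instead of `W1_cell`. -/
theorem R7_cell (k A : ℕ) (hA : 1 ≤ A) (C c : ℝ) (hC : 1 ≤ C) (hc : 0 < c) : ∃ c' K : ℝ, 0 < c' ∧
    1 ≤ K ∧ ∀ Cr : ℝ, ∃ Q0 : ℕ,
    ∀ (Q X X1 Y : ℕ) (B : ℤ[X]) (C0 : ℤ → Ch → ℂ) (mb : Ch → ℝ), Q0 ≤ Q → Rg K Cr Q X → 0 < X1 →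
    X1 ≤ X → X ≤ X1 * Q → GeoB A X X1 Y B → Cf (Q ^ 100) Y C0 mb →
    ∀ (H0 : ℕ) (Ω : Type) (S : Finset Ω) (φ : Ω → Fin k → ℤ → ℤ), FamW C c Q H0 B S φ →
    ∀ cf : Fin k → Ch → ℂ, (∀ i, ∑ p ∈ PC Q, ‖cf i p‖ ≤ 3) →
    ∀ a H : ℕ, H0 ≤ H → X1 ≤ a → a + H ≤ 2 * X1 → X1 ≤ H * Q ^ 8 →
    ∑ ω ∈ S, ‖∑ n ∈ Ico a (a + H), ((fB Q Y B n : ℝ) : ℂ) *
      ∏ i, SG Q (cf i) (φ ω i (n : ℤ))‖ ^ 2 ≤ S.card * (H : ℝ) ^ 2 * (Q : ℝ) ^ (-c') := by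
  classical
  obtain ⟨C1, c1, hC1, hc1, hc1', hW1⟩ := R7_w1 k C c hC hc
  obtain ⟨K2, hK2, hW2⟩ := W2_fourier
  obtain ⟨K3, hK3, hW3⟩ := W2_ms A
  refine ⟨c1 / 2, max (100 * K2 + 2) (max K3 10), by linarith,
    (by norm_num : (1 : ℝ) ≤ 10).trans ((le_max_right _ _).trans (le_max_right _ _)), fun Cr => ?_⟩
  obtain ⟨Qa, hQa⟩ := hW3 Cr
  obtain ⟨Qb, hQb⟩ := G2_regB A K2 Cr hK2
  obtain ⟨Qc, hQc1, hQc⟩ := G1_log Cr 20 1 (c1 / 8) (by linarith)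
  obtain ⟨Qd, hQd1, hQd⟩ := G1_rlog (2 * 9 ^ k * C1) C1 (c1 / 8) (by linarith)
  refine ⟨max (max Qa Qb) (max (max Qc Qd) (max A 1)), ?_⟩
  intro Q X X1 Y B C0 mb hQ hRg hX1 hX1X hXX1 hB hCf H0 Ω S φ hFam c' hc' a H hH0 haX haH hH
  have hQa' : Qa ≤ Q := (le_max_left _ _).trans ((le_max_left _ _).trans hQ)
  have hQb' : Qb ≤ Q := (le_max_right _ _).trans ((le_max_left _ _).trans hQ)
  have hQc' : Qc ≤ Q := (le_max_left _ _).trans ((le_max_left _ _).trans ((le_max_right _ _).trans hQ))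
  have hQd' : Qd ≤ Q := (le_max_right _ _).trans ((le_max_left _ _).trans ((le_max_right _ _).trans hQ))
  have hQA : A ≤ Q := (le_max_left _ _).trans ((le_max_right _ _).trans ((le_max_right _ _).trans hQ))
  have hQ1 : 1 ≤ Q := (le_max_right _ _).trans ((le_max_right _ _).trans ((le_max_right _ _).trans hQ))
  have hQr : (1 : ℝ) ≤ Q := by exact_mod_cast hQ1
  have hQ0 : (0 : ℝ) < Q := by linarith
  have hRa : Rg (100 * K2 + 2) Cr Q X := r7_Rg hRg (le_max_left _ _)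
  have hRb : Rg K3 Cr Q X := r7_Rg hRg ((le_max_left _ _).trans (le_max_right _ _))
  have hRc : Rg 10 Cr Q X := r7_Rg hRg ((le_max_right _ _).trans (le_max_right _ _))
  have hHpos : 0 < H := by
    rcases Nat.eq_zero_or_pos H with h0 | h0
    · rw [h0, zero_mul] at hH
      omega
    · exact h0
  have hHr : (0 : ℝ) < H := by exact_mod_cast hHpos
  have hXH : X ≤ H * Q ^ 9 := by
    calc X ≤ X1 * Q := hXX1
      _ ≤ (H * Q ^ 8) * Q := Nat.mul_le_mul_right Q hH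
      _ = H * Q ^ 9 := by ring
  have hXpos : 0 < X := lt_of_lt_of_le hX1 hX1X
  have hQH : Q ≤ H := by
    have h1 : Real.log X ≤ Real.log H + 9 * Real.log Q := by
      calc Real.log X ≤ Real.log ((H : ℝ) * (Q : ℝ) ^ 9) :=
            Real.log_le_log (by exact_mod_cast hXpos) (by exact_mod_cast hXH)
        _ = Real.log H + 9 * Real.log Q := by
            rw [Real.log_mul hHr.ne' (by positivity), Real.log_pow]
            norm_num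
    have h2 := hRc.1
    have h3 : Real.log Q ≤ Real.log H := by linarith
    have h4 := (Real.log_le_log_iff hQ0 hHr).1 h3
    exact_mod_cast h4
  -- the Fourier bound
  have hreg := hQb Q X X1 Y B hQb' hRa hX1 hX1X hXX1 hB
  have hYH : (Y : ℝ) ≤ A * (H * (Q : ℝ) ^ 9) := by
    have h1 : Y ≤ A * (H * Q ^ 9) := hB.Yhi.trans (Nat.mul_le_mul_left A hXH)
    exact_mod_cast h1
  have hfour : ∀ θ : ℝ, ‖∑ n ∈ Ico a (a + H), ((fB Q Y B n : ℝ) : ℂ) * e ((n : ℝ) * θ)‖ ≤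
      H / (Q : ℝ) ^ 2 := by
    intro θ
    refine (hW2 A Q X X1 Y B hQ1 hreg.1 hB a H haX haH θ).trans ?_
    have h1 : (Q : ℝ) ^ (-(25) : ℝ) = ((Q : ℝ) ^ 25)⁻¹ := by
      have h25 : (25 : ℝ) = ((25 : ℕ) : ℝ) := by norm_num
      rw [Real.rpow_neg hQ0.le, h25, Real.rpow_natCast]
    rw [h1, ← div_eq_mul_inv, div_le_div_iff₀ (by positivity) (by positivity)]
    have h2 : (A : ℝ) ≤ (Q : ℝ) ^ 14 := by
      have h3 : (A : ℝ) ≤ Q := by exact_mod_cast hQA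
      have h4 : (Q : ℝ) ^ 1 ≤ (Q : ℝ) ^ 14 := pow_le_pow_right₀ hQr (by norm_num)
      rw [pow_one] at h4
      linarith
    calc (Y : ℝ) * (Q : ℝ) ^ 2 ≤ (A * (H * (Q : ℝ) ^ 9)) * (Q : ℝ) ^ 2 :=
          mul_le_mul_of_nonneg_right hYH (by positivity)
      _ = A * (H * (Q : ℝ) ^ 11) := by ring
      _ ≤ (Q : ℝ) ^ 14 * (H * (Q : ℝ) ^ 11) := mul_le_mul_of_nonneg_right h2 (by positivity)
      _ = H * (Q : ℝ) ^ 25 := by ring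
  -- the mean square
  have hms := (hQa Q X X1 Y B C0 mb hQa' hRb hX1 hX1X hXX1 hB hCf a H haX haH
    (hH.trans (Nat.mul_le_mul_left H (Nat.pow_le_pow_right hQ1 (by norm_num))))).1
  set Ws : ℝ := (Real.log X) ^ 20 with hWs
  have hWs0 : 0 ≤ Ws := pow_nonneg (Real.log_natCast_nonneg X) _
  set W : ℝ := (S.card : ℝ) * (H : ℝ) ^ 2 * (C1 * (1 + Real.log Q) ^ C1 * (Ws + 1) * (Q : ℝ) ^ (-c1)) with hW
  have hvol : (0 : ℝ) ≤ (S.card : ℝ) := Nat.cast_nonneg _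
  have hlogQ : 0 ≤ Real.log Q := Real.log_natCast_nonneg Q
  have hW0 : 0 ≤ W := by
    have h1 : 0 ≤ (1 + Real.log Q) ^ C1 := Real.rpow_nonneg (by linarith) _
    have h2 : 0 ≤ (Q : ℝ) ^ (-c1) := Real.rpow_nonneg hQ0.le _
    have h3 : 0 ≤ C1 := by linarith
    positivity
  -- expansion
  have hexp : ∀ ω : Ω, ∑ n ∈ Ico a (a + H), ((fB Q Y B n : ℝ) : ℂ) *
      ∏ i, SG Q (c' i) (φ ω i (n : ℤ)) =
      ∑ p ∈ Fintype.piFinset fun _ : Fin k => PC Q, (∏ i, c' i (p i)) *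
        ∑ n ∈ Ico a (a + H), ((fB Q Y B n : ℝ) : ℂ) *
          ∏ i, Fc Q (p i) (φ ω i (n : ℤ)) := by
    intro ω
    have h1 : ∀ n ∈ Ico a (a + H), ((fB Q Y B n : ℝ) : ℂ) *
        ∏ i, SG Q (c' i) (φ ω i (n : ℤ)) =
        ∑ p ∈ Fintype.piFinset fun _ : Fin k => PC Q, (∏ i, c' i (p i)) *
          (((fB Q Y B n : ℝ) : ℂ) * ∏ i, Fc Q (p i) (φ ω i (n : ℤ))) := by
      intro n _
      rw [W3_SG, Finset.mul_sum]
      refine Finset.sum_congr rfl fun p _ => ?_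
      ring
    rw [Finset.sum_congr rfl h1, Finset.sum_comm]
    refine Finset.sum_congr rfl fun p _ => ?_
    rw [Finset.mul_sum]
  have hγ : ∑ p ∈ Fintype.piFinset fun _ : Fin k => PC Q, ‖∏ i, c' i (p i)‖ ≤ (3 : ℝ) ^ k := by
    have h1 : ∑ p ∈ Fintype.piFinset fun _ : Fin k => PC Q, ‖∏ i, c' i (p i)‖ =
        ∏ i, ∑ p ∈ PC Q, ‖c' i p‖ := by
      rw [Finset.prod_univ_sum]
      exact Finset.sum_congr rfl fun p _ => norm_prod _ _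
    rw [h1]
    have h2 : ∏ i : Fin k, ∑ p ∈ PC Q, ‖c' i p‖ ≤ ∏ _i : Fin k, (3 : ℝ) :=
      Finset.prod_le_prod (fun i _ => Finset.sum_nonneg fun p _ => norm_nonneg _) (fun i _ => hc' i)
    rwa [prod_const, card_univ, Fintype.card_fin] at h2
  have hmain := Z2a S (Fintype.piFinset fun _ : Fin k => PC Q) (fun p => ∏ i, c' i (p i))
    (fun p ω => ∑ n ∈ Ico a (a + H), ((fB Q Y B n : ℝ) : ℂ) *
      ∏ i, Fc Q (p i) (φ ω i (n : ℤ))) ((3 : ℝ) ^ k) W hW0 hγ (fun p hp =>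
      hW1 Q hQ1 H0 Ω S φ hFam.fw1 hFam.cp p (fun i => Fintype.mem_piFinset.1 hp i) a H hH0 hQH
        (fun n => ((fB Q Y B n : ℝ) : ℂ)) Ws hWs0 hms hfour)
  refine (le_of_eq (Finset.sum_congr rfl fun ω _ => by rw [hexp ω])).trans (hmain.trans ?_)
  -- numerics
  have e1 : Ws + 1 ≤ 2 * (Q : ℝ) ^ (c1 / 8) := by
    have h1 := hQc Q X hQc' hRg.2
    rw [one_mul] at h1
    have h2 : 1 ≤ (Q : ℝ) ^ (c1 / 8) := Real.one_le_rpow hQr (by linarith)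
    linarith
  have e2 := hQd Q hQd'
  have h9 : ((3 : ℝ) ^ k) ^ 2 = 9 ^ k := by
    rw [← pow_mul, mul_comm k 2, pow_mul]
    norm_num
  have hL0 : 0 ≤ (1 + Real.log Q) ^ C1 := Real.rpow_nonneg (by linarith) _
  have hn1 : 0 ≤ (Q : ℝ) ^ (-c1) := Real.rpow_nonneg hQ0.le _
  have hC10 : 0 ≤ C1 := by linarith
  calc ((3 : ℝ) ^ k) ^ 2 * W = (S.card : ℝ) * (H : ℝ) ^ 2 *
        ((9 ^ k * C1 * (1 + Real.log Q) ^ C1) * (Ws + 1) * (Q : ℝ) ^ (-c1)) := by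
        rw [h9, hW]
        ring
    _ ≤ (S.card : ℝ) * (H : ℝ) ^ 2 * ((9 ^ k * C1 * (1 + Real.log Q) ^ C1) * (2 * (Q : ℝ) ^ (c1 / 8)) *
        (Q : ℝ) ^ (-c1)) := by
        refine mul_le_mul_of_nonneg_left ?_ (by positivity)
        refine mul_le_mul_of_nonneg_right ?_ hn1
        exact mul_le_mul_of_nonneg_left e1 (by positivity)
    _ = (S.card : ℝ) * (H : ℝ) ^ 2 * ((2 * 9 ^ k * C1 * (1 + Real.log Q) ^ C1) * (Q : ℝ) ^ (c1 / 8) *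
        (Q : ℝ) ^ (-c1)) := by ring
    _ ≤ (S.card : ℝ) * (H : ℝ) ^ 2 * ((Q : ℝ) ^ (c1 / 8) * (Q : ℝ) ^ (c1 / 8) * (Q : ℝ) ^ (-c1)) := by
        refine mul_le_mul_of_nonneg_left ?_ (by positivity)
        refine mul_le_mul_of_nonneg_right ?_ hn1
        exact mul_le_mul_of_nonneg_right e2 (Real.rpow_nonneg hQ0.le _)
    _ = (S.card : ℝ) * (H : ℝ) ^ 2 * (Q : ℝ) ^ (c1 / 8 + c1 / 8 + -c1) := by
        rw [Real.rpow_add hQ0, Real.rpow_add hQ0]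
    _ ≤ (S.card : ℝ) * (H : ℝ) ^ 2 * (Q : ℝ) ^ (-(c1 / 2)) := by
        refine mul_le_mul_of_nonneg_left ?_ (by positivity)
        exact Real.rpow_le_rpow_of_exponent_le hQr (by linarith)

end Pool.Agent.Lib.H24Q
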