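import Pool.Agent.Lib.H24Q.M1
import Pool.Agent.Lib.H24Q.D2
import Pool.Agent.Lib.H24Q.R7
import Pool.Agent.Lib.H24P.E1

/-!
# Project H24Q, chunk M3 (M): from the primes to the projection of level `Q^100` in the linear coordinate
-/

open Finset Polynomial

namespace Pool.Agent.Lib.H24Q

open Pool.Agent.Lib.H68T Pool.Agent.Lib.H18Q Pool.Agent.Lib.H59P Pool.Agent.Lib.H24P

theorem m3_card {g : ℕ} (b s : Fin g → ℕ) : ((cub b s).card : ℝ) = vol s := by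
  unfold cub vol
  rw [Fintype.card_piFinset]
  push_cast
  refine Finset.prod_congr rfl fun i _ => ?_
  rw [Nat.card_Ico, Nat.add_sub_cancel_left]

theorem m3_N (Q N B : ℕ) (hQ : 2 ≤ Q) (hK : 2 * ((B : ℝ) + 50) * Real.log Q ≤ Real.log N) :
    1 ≤ N ∧ ∀ x : ℕ, N ≤ x ^ 2 → Q ^ (B + 50) ≤ x := by
  have hQr : (0 : ℝ) < Q := by exact_mod_cast (show 0 < Q by omega)
  have hlQ : 0 < Real.log Q := Real.log_pos (by exact_mod_cast (show 1 < Q by omega))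
  have hB0 : (0 : ℝ) ≤ B := Nat.cast_nonneg _
  have hN : 1 ≤ N := by
    rcases Nat.eq_zero_or_pos N with h | h
    · rw [h, Nat.cast_zero, Real.log_zero] at hK
      have : 0 < 2 * ((B : ℝ) + 50) * Real.log Q := by positivity
      linarith
    · exact h
  refine ⟨hN, fun x hx => ?_⟩
  have hNr : (0 : ℝ) < N := by exact_mod_cast hN
  have h1 : Real.log ((Q : ℝ) ^ (2 * (B + 50))) ≤ Real.log N := by
    rw [Real.log_pow]
    refine le_trans (le_of_eq ?_) hK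
    push_cast
    ring
  have h2 : (Q : ℝ) ^ (2 * (B + 50)) ≤ N := (Real.log_le_log_iff (by positivity) hNr).1 h1
  have h3 : Q ^ (2 * (B + 50)) ≤ N := by exact_mod_cast h2
  have h4 : (Q ^ (B + 50)) ^ 2 ≤ x ^ 2 := by
    rw [← pow_mul, mul_comm]
    exact h3.trans hx
  exact (Nat.pow_le_pow_iff_left (by norm_num)).1 h4

/-- **M3.** Proof. `T3z` is linear in the weight, so the difference is `T3z` with the weight `fB Q (2Z-3) B23`.
`D2_cells` (`k = 1`) with `b = 2X`, `M = X`, `s = X/Q^8`, `q = Q^8`, `X1 = Z`, `H = Z/Q^8`, `N = Q^8`. On a cell `cub (2X + t s) s`,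
`n ∈ Ico (Z + jH) (Z + jH + H)` the base points are `2X + t s` and `Z + jH` (`E1_bs` of `H24P`; `s ∣ 2X`, `H ∣ Z`), so the
coefficients are constant there, of total size `≤ 3` (`Cf.le`, `Cf.sum`, `M1_geo`): `R7_cell` with `X = X1 = Z`,
`Y = 2Z - 3`, `B = B23` (`M1_GeoB`), `A = 2`, `k = 2`, `H0 = Q^b0`, `FamW` from `hW` (`Q^b0 ≤ s = X/Q^8`: `X ≥ Z ≥ N^(1/2)`,
`N ≥ Q^K`, `K ≥ 2 (b0 + 9)`; `Q^b0 ≤ H` likewise), `card (cub _ s) = vol s`. `Rg`: `log N/2 ≤ log Z ≤ log N`. The condition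
`X1 ≤ H Q^8` holds as `H Q^8 = Z`. -/
theorem M3_fB (b0 : ℕ) (C c : ℝ) (hC : 1 ≤ C) (hc : 0 < c) (hW : HW C c b0 B23 L2) :
    ∃ c' K : ℝ, 0 < c' ∧ 1 ≤ K ∧ ∀ Cr : ℝ, ∃ Q0 : ℕ, ∀ (Q N Z X : ℕ), Q0 ≤ Q →
    K * Real.log Q ≤ Real.log N → Real.log N ≤ Cr * Real.log Q → G3 Q N Z X →
    ∀ (C0 : ℤ → Ch → ℂ) (m0 : Ch → ℝ), Cf (Q ^ 100) (2 * Z - 3) C0 m0 →
    ∀ (Cc : ℤ → Ch → ℂ) (mb : Ch → ℝ), Cf Q X Cc mb →
    ∑ ω ∈ bx X, ‖T3z Q Z X Cc (fun n => ((lp (B23.eval (n : ℤ)) : ℝ) : ℂ)) ω -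
      T3z Q Z X Cc
        (fun n => ((Lk (Q ^ 100) ((2 * Z - 3) / (Q ^ 100) ^ 2) (B23.eval (n : ℤ)) : ℝ) : ℂ)) ω‖ ^ 2 ≤
      X * (Z : ℝ) ^ 2 * (Q : ℝ) ^ (-c') := by
  classical
  obtain ⟨c1, K, hc1, hK, hcell⟩ := R7_cell 2 2 (by norm_num) C c hC hc
  refine ⟨c1, max (2 * K) (2 * ((b0 : ℝ) + 50)), hc1, ?_, fun Cr => ?_⟩
  · exact le_trans (by linarith) (le_max_left _ _)
  obtain ⟨Q1, hQ1⟩ := hcell Cr
  refine ⟨max 2 Q1, fun Q N Z X hQ hKN hNC hG C0 m0 hC0 Cc mb hCc => ?_⟩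
  have q2 : 2 ≤ Q := (le_max_left _ _).trans hQ
  have q1 : Q1 ≤ Q := (le_max_right _ _).trans hQ
  have q0 : 1 ≤ Q := by omega
  have hlQ : 0 ≤ Real.log Q := Real.log_natCast_nonneg Q
  have hK1 : 2 * K * Real.log Q ≤ Real.log N :=
    (mul_le_mul_of_nonneg_right (le_max_left _ _) hlQ).trans hKN
  have hK2 : 2 * ((b0 : ℝ) + 50) * Real.log Q ≤ Real.log N :=
    (mul_le_mul_of_nonneg_right (le_max_right _ _) hlQ).trans hKN
  obtain ⟨hN1, hsq⟩ := m3_N Q N b0 q2 hK2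
  obtain ⟨hGB, -, -, hNX, -⟩ := M1_GeoB hG
  have hZlo : Q ^ (b0 + 50) ≤ Z := hsq Z hG.Zlo
  have hXlo : Q ^ (b0 + 50) ≤ X := hsq X hNX
  have hZpos : 0 < Z := lt_of_lt_of_le (Nat.pow_pos (by omega)) hZlo
  have hZr : (0 : ℝ) < Z := by exact_mod_cast hZpos
  have hNr : (0 : ℝ) < N := by exact_mod_cast hN1
  have hq8 : 0 < Q ^ 8 := Nat.pow_pos (by omega)
  have hdZ : Q ^ 8 ∣ Z := (pow_dvd_pow Q (by norm_num)).trans hG.dvdZ
  have hdX : Q ^ 8 ∣ X := (pow_dvd_pow Q (by norm_num)).trans hG.dvdX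
  have hRg : Rg K Cr Q Z := by
    constructor
    · have h1 : Real.log N ≤ 2 * Real.log Z := by
        have h2 : Real.log N ≤ Real.log ((Z : ℝ) ^ 2) :=
          Real.log_le_log hNr (by exact_mod_cast hG.Zlo)
        rwa [Real.log_pow] at h2
      linarith
    · refine le_trans (Real.log_le_log hZr ?_) hNC
      have h1 : Z ≤ N := by
        have h2 := hG.ZX
        have h3 := hG.Xhi
        omega
      exact_mod_cast h1
  set H : ℕ := Z / Q ^ 8 with hH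
  set s : Fin 1 → ℕ := fun _ => X / Q ^ 8 with hs
  have hZH : Z = H * Q ^ 8 := (Nat.div_mul_cancel hdZ).symm
  have hXs : ∀ i : Fin 1, (fun _ : Fin 1 => X) i = s i * Q ^ 8 := fun i => (Nat.div_mul_cancel hdX).symm
  have hdv : ∀ x : ℕ, Q ^ (b0 + 50) ≤ x → Q ^ b0 ≤ x / Q ^ 8 := by
    intro x hx
    rw [Nat.le_div_iff_mul_le hq8, ← pow_add]
    exact (Nat.pow_le_pow_right q0 (by omega)).trans hx
  have hHlo : Q ^ b0 ≤ H := hdv Z hZlo
  have hslo : ∀ i, Q ^ b0 ≤ s i := fun i => hdv X hXlo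
  have hHpos : 0 < H := lt_of_lt_of_le (Nat.pow_pos (by omega)) hHlo
  have hspos : ∀ i, 0 < s i := fun i => lt_of_lt_of_le (Nat.pow_pos (by omega)) (hslo i)
  set F : (Fin 1 → ℕ) → ℕ → ℂ := fun ω n => ((fB Q (2 * Z - 3) B23 n : ℝ) : ℂ) *
    ∏ i, SG Q (Cc (fp8 Q Z X ω n i)) (L2.map ω i (n : ℤ)) with hF
  have hdiff : ∀ ω : Fin 1 → ℕ,
      T3z Q Z X Cc (fun n => ((lp (B23.eval (n : ℤ)) : ℝ) : ℂ)) ω -
      T3z Q Z X Cc
        (fun n => ((Lk (Q ^ 100) ((2 * Z - 3) / (Q ^ 100) ^ 2) (B23.eval (n : ℤ)) : ℝ) : ℂ)) ω =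
      ∑ n ∈ Ico Z (2 * Z), F ω n := by
    intro ω
    unfold T3z
    rw [← Finset.sum_sub_distrib]
    refine Finset.sum_congr rfl fun n _ => ?_
    rw [hF]
    beta_reduce
    rw [← sub_mul]
    congr 1
    unfold fB
    push_cast
    ring
  rw [Finset.sum_congr rfl fun h _ => by rw [hdiff h]]
  have hvX : vol (fun _ : Fin 1 => X) = X := by
    unfold vol
    rw [Fin.prod_univ_one]
  have hE := D2_cells (fun _ : Fin 1 => 2 * X) (fun _ => X) s (Q ^ 8) hXs Z H (Q ^ 8) hZH ((Q : ℝ) ^ (-c1))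
    (Real.rpow_nonneg (Nat.cast_nonneg _) _) F ?_
  · rw [hvX] at hE
    exact hE
  intro t ht j hj
  set w0 : Fin 1 → ℕ := fun i => 2 * X + t i * s i with hw0
  have hXs0 : ∀ i, s i * Q ^ 8 = X := fun i => (hXs i).symm
  have hw0m : w0 ∈ bx X := by
    refine Fintype.mem_piFinset.2 fun i => mem_Ico.2 ⟨Nat.le_add_right _ _, ?_⟩
    have h1 : t i * s i < X := by
      calc t i * s i < Q ^ 8 * s i := Nat.mul_lt_mul_of_pos_right (ht i) (hspos i)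
        _ = X := by rw [mul_comm]; exact hXs0 i
    show 2 * X + t i * s i < 2 * X + X
    omega
  have hjH : (j + 1) * H ≤ Z := by
    calc (j + 1) * H ≤ Q ^ 8 * H := Nat.mul_le_mul_right H hj
      _ = Z := by rw [mul_comm]; exact hZH.symm
  have hjH' : j * H + H ≤ Z := by
    have : (j + 1) * H = j * H + H := by ring
    omega
  have hn0 : Z + j * H ∈ Ico Z (2 * Z) := by
    rw [mem_Ico]
    omega
  have hbw : ∀ ω ∈ cub w0 s, bw8 Q X ω = w0 := by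
    intro ω hω
    funext i
    have h1 := Fintype.mem_piFinset.1 hω i
    exact E1_bs (hspos i) (Dvd.dvd.mul_left ⟨Q ^ 8, hXs i⟩ 2) h1
  have hbn : ∀ n ∈ Ico (Z + j * H) (Z + j * H + H), bs (Z / Q ^ 8) n = Z + j * H := by
    intro n hn
    exact E1_bs hHpos ⟨Q ^ 8, hZH⟩ hn
  have hfp : ∀ ω ∈ cub w0 s, ∀ n ∈ Ico (Z + j * H) (Z + j * H + H), ∀ i,
      fp8 Q Z X ω n i = L2.map w0 i ((Z + j * H : ℕ) : ℤ) := by
    intro ω hω n hn i
    unfold fp8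
    rw [hbw ω hω, hbn n hn]
  have hval : ∀ i, (X : ℤ) ≤ L2.map w0 i ((Z + j * H : ℕ) : ℤ) ∧
      L2.map w0 i ((Z + j * H : ℕ) : ℤ) ≤ 4 * X := by
    intro i
    have h1 := (M1_geo q0 hG w0 hw0m (Z + j * H) hn0 i).1
    exact ⟨h1.1, h1.2.le⟩
  set cf : Fin 2 → Ch → ℂ := fun i => Cc (L2.map w0 i ((Z + j * H : ℕ) : ℤ)) with hcf
  have hcf3 : ∀ i, ∑ p ∈ PC Q, ‖cf i p‖ ≤ 3 := by
    intro i
    exact (Finset.sum_le_sum fun p hp => hCc.le _ (hval i).1 (hval i).2 p hp).trans hCc.sum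
  have hFam := hW Q q2 w0 s hslo
  have key := hQ1 Q Z Z (2 * Z - 3) B23 C0 m0 q1 hRg hZpos le_rfl (Nat.le_mul_of_pos_right Z (by omega)) hGB hC0
    (Q ^ b0) (Fin 1 → ℕ) (cub w0 s) L2.map hFam cf hcf3 (Z + j * H) H hHlo (Nat.le_add_right _ _) (by omega) hZH.le
  rw [m3_card] at key
  refine le_trans (le_of_eq ?_) key
  refine Finset.sum_congr rfl fun ω hω => ?_
  congr 2
  refine Finset.sum_congr rfl fun n hn => ?_
  rw [hF]
  beta_reduce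
  congr 1
  refine Finset.prod_congr rfl fun i _ => ?_
  rw [hcf]
  beta_reduce
  rw [hfp ω hω n hn i]

end Pool.Agent.Lib.H24Q
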