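import Pool.Agent.Lib.H24Q.R4
import Pool.Agent.Lib.H24Q.R5
import Pool.Agent.Lib.H24P.Z2A

/-!
# Project H24Q, chunk R6A (M): one cell, truncated main term (port of `H24P/Z2A`)
-/

open Finset Polynomial

namespace Pool.Agent.Lib.H24Q

open Pool.Agent.Lib.H68T Pool.Agent.Lib.H18Q Pool.Agent.Lib.H59P Pool.Agent.Lib.H24P

/-- the function of a tuple of characters -/
noncomputable def r6a_f {k : ℕ} (Q : ℕ) (B : ℤ[X]) (a H : ℕ) (p : Fin (k + 1) → Ch) (φ : Fin k → ℤ → ℤ) : ℂ :=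
  ∑ n ∈ Ico a (a + H), Fc (Q ^ 100) (p 0) (B.eval (n : ℤ)) *
    ∏ i : Fin k, Fc Q (p i.succ) (φ i (n : ℤ))

/-- the main term of a tuple of characters -/
noncomputable def r6a_g {k : ℕ} (Q m0 : ℕ) (B : ℤ[X]) (H : ℕ) (p : Fin (k + 1) → Ch) (φ : Fin k → ℤ → ℤ) : ℂ :=
  H * (MRf p (Rf m0 p) (sy B φ) *
    ((∑ d ∈ SF (fl Q (1 / 2) / Rf m0 p) (Rf m0 p), tdf d (sy B φ) : ℝ) : ℂ))

theorem r6a_dec {k : ℕ} (Q m0 : ℕ) (hQ : 1 ≤ Q) (B : ℤ[X]) (φ : Fin k → ℤ → ℤ) (a H : ℕ)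
    (c0 : Ch → ℂ) (c' : Fin k → Ch → ℂ) (f : (Fin (k + 1) → Ch) → ℂ)
    (hf1 : ∀ p ∈ TSf (k + 1) Q (fl Q (1 / 16)) m0, f p = r6a_f Q B a H p φ - r6a_g Q m0 B H p φ)
    (hf2 : ∀ p, p ∉ TSf (k + 1) Q (fl Q (1 / 16)) m0 → f p = r6a_f Q B a H p φ) :
    ∑ n ∈ Ico a (a + H), SG (Q ^ 100) c0 (B.eval (n : ℤ)) *
        ∏ i, SG Q (c' i) (φ i (n : ℤ)) -
      H * MCf Q m0 (Fin.cons c0 c' : Fin (k + 1) → Ch → ℂ) (sy B φ) =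
      ∑ p ∈ z2a_I k Q, (∏ i, (Fin.cons c0 c' : Fin (k + 1) → Ch → ℂ) i (p i)) * f p := by
  classical
  have h1 : ∑ n ∈ Ico a (a + H), SG (Q ^ 100) c0 (B.eval (n : ℤ)) *
        ∏ i, SG Q (c' i) (φ i (n : ℤ)) =
      ∑ p ∈ z2a_I k Q, (∏ i, (Fin.cons c0 c' : Fin (k + 1) → Ch → ℂ) i (p i)) *
        r6a_f Q B a H p φ := by
    have e1 : ∀ n ∈ Ico a (a + H), SG (Q ^ 100) c0 (B.eval (n : ℤ)) *
        ∏ i, SG Q (c' i) (φ i (n : ℤ)) =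
        ∑ p ∈ z2a_I k Q, (∏ i, (Fin.cons c0 c' : Fin (k + 1) → Ch → ℂ) i (p i)) *
          (Fc (Q ^ 100) (p 0) (B.eval (n : ℤ)) *
            ∏ i : Fin k, Fc Q (p i.succ) (φ i (n : ℤ))) :=
      fun n _ => Z2A_expand Q c0 c' _ (fun i => φ i (n : ℤ))
    rw [Finset.sum_congr rfl e1, Finset.sum_comm]
    refine Finset.sum_congr rfl fun p _ => ?_
    unfold r6a_f
    rw [Finset.mul_sum]
  have h2 : (H : ℂ) * MCf Q m0 (Fin.cons c0 c' : Fin (k + 1) → Ch → ℂ) (sy B φ) =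
      ∑ p ∈ z2a_I k Q, (if p ∈ TSf (k + 1) Q (fl Q (1 / 16)) m0 then
        (∏ i, (Fin.cons c0 c' : Fin (k + 1) → Ch → ℂ) i (p i)) * r6a_g Q m0 B H p φ else 0) := by
    rw [← Finset.sum_filter, Finset.filter_mem_eq_inter, Finset.inter_eq_right.mpr (z2a_sub hQ)]
    unfold MCf r6a_g
    rw [Finset.mul_sum]
    refine Finset.sum_congr rfl fun p _ => ?_
    ring
  rw [h1, h2, ← Finset.sum_sub_distrib]
  refine Finset.sum_congr rfl fun p _ => ?_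
  by_cases hp : p ∈ TSf (k + 1) Q (fl Q (1 / 16)) m0
  · rw [if_pos hp, hf1 p hp]
    ring
  · rw [if_neg hp, hf2 p hp, sub_zero]

/-- **R6A.** Proof. As `Z2A_cell` (`H24P/Z2A.lean`): `Z2A_expand` (general), `Z2a` of `H59P`, `R4_small`, `R5_large`; `z2a_dec`
with `ran P h` replaced by `φ`. -/
theorem R6A_cell (k A : ℕ) (hA : 1 ≤ A) (C c : ℝ) (hC : 1 ≤ C) (hc : 0 < c) : ∃ c' : ℝ, 0 < c' ∧
    ∃ Q0 : ℕ, ∀ Q : ℕ, Q0 ≤ Q → ∀ B : ℤ[X], Lin A B → ∀ (H0 : ℕ) (Ω : Type) (S : Finset Ω)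
    (φ : Ω → Fin k → ℤ → ℤ), FamW C c Q H0 B S φ → ∀ r : ℕ, 1 ≤ r → r ^ 100 ≤ Q →
    ∀ c0 : Ch → ℂ, ∑ p ∈ PC (Q ^ 100), ‖c0 p‖ ≤ 3 → ∀ cf : Fin k → Ch → ℂ,
    (∀ i, ∑ p ∈ PC Q, ‖cf i p‖ ≤ 3) → ∀ a H : ℕ, H0 ≤ H → Q ^ 600 ≤ H →
    ∑ ω ∈ S, ‖∑ n ∈ Ico a (a + H), SG (Q ^ 100) c0 (B.eval (n : ℤ)) *
        ∏ i, SG Q (cf i) (φ ω i (n : ℤ)) -
      H * MCf Q (B.leadingCoeff.natAbs * r) (Fin.cons c0 cf : Fin (k + 1) → Ch → ℂ)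
        (sy B (φ ω))‖ ^ 2 ≤
      S.card * (H : ℝ) ^ 2 * (Q : ℝ) ^ (-c') := by
  classical
  obtain ⟨c1, hc1, Q1, h1⟩ := R4_small k A hA C c hC hc
  obtain ⟨c2, hc2, Q2, h2⟩ := R5_large k A hA C c hC hc
  have hcm : 0 < min c1 c2 := lt_min hc1 hc2
  obtain ⟨Q3, hQ31, h3⟩ := G1_rlog (9 ^ (k + 1)) 0 (min c1 c2 / 2) (by linarith)
  refine ⟨min c1 c2 / 2, by linarith, max 1 (max Q1 (max Q2 Q3)), ?_⟩
  intro Q hQ B hB H0 Ω S φ hF r hr1 hr c0 hc0 c' hc' a H hH0 hH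
  have hQ1 : 1 ≤ Q := (le_max_left _ _).trans hQ
  have hQQ1 : Q1 ≤ Q := (le_max_left _ _).trans ((le_max_right _ _).trans hQ)
  have hQQ2 : Q2 ≤ Q := (le_max_left _ _).trans ((le_max_right _ _).trans ((le_max_right _ _).trans hQ))
  have hQQ3 : Q3 ≤ Q := (le_max_right _ _).trans ((le_max_right _ _).trans ((le_max_right _ _).trans hQ))
  have hQ1r : (1 : ℝ) ≤ Q := by exact_mod_cast hQ1
  have hQ0r : (0 : ℝ) < Q := by linarith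
  have hV : 0 ≤ (S.card : ℝ) * (H : ℝ) ^ 2 := mul_nonneg (Nat.cast_nonneg _) (sq_nonneg _)
  have h9 : (9 : ℝ) ^ (k + 1) ≤ (Q : ℝ) ^ (min c1 c2 / 2) := by
    have := h3 Q hQQ3
    rwa [Real.rpow_zero, mul_one] at this
  set m0 : ℕ := B.leadingCoeff.natAbs * r with hm0
  have hlc : 1 ≤ B.leadingCoeff.natAbs := by
    have hB0 : B ≠ 0 := by
      intro h0
      have := hB.deg
      rw [h0, natDegree_zero] at this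
      omega
    have : B.leadingCoeff ≠ 0 := leadingCoeff_ne_zero.2 hB0
    omega
  have hm01 : 1 ≤ m0 := Nat.mul_pos hlc hr1
  have hdvd : B.leadingCoeff.natAbs ∣ m0 := Dvd.intro _ rfl
  set W : ℝ := S.card * (H : ℝ) ^ 2 * (Q : ℝ) ^ (-(min c1 c2)) with hW
  have hW0 : 0 ≤ W := mul_nonneg hV (Real.rpow_nonneg hQ0r.le _)
  have hWle : ∀ c : ℝ, min c1 c2 ≤ c → S.card * (H : ℝ) ^ 2 * (Q : ℝ) ^ (-c) ≤ W := by
    intro c hc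
    exact mul_le_mul_of_nonneg_left (Real.rpow_le_rpow_of_exponent_le hQ1r (by linarith)) hV
  set f : (Fin (k + 1) → Ch) → Ω → ℂ := fun p h =>
    if p ∈ TSf (k + 1) Q (fl Q (1 / 16)) m0 then r6a_f Q B a H p (φ h) - r6a_g Q m0 B H p (φ h)
    else r6a_f Q B a H p (φ h) with hfdef
  have hf1 : ∀ p ∈ TSf (k + 1) Q (fl Q (1 / 16)) m0, ∀ h, f p h =
      r6a_f Q B a H p (φ h) - r6a_g Q m0 B H p (φ h) := by
    intro p hp h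
    rw [hfdef]
    exact if_pos hp
  have hf2 : ∀ p, p ∉ TSf (k + 1) Q (fl Q (1 / 16)) m0 → ∀ h, f p h = r6a_f Q B a H p (φ h) := by
    intro p hp h
    rw [hfdef]
    exact if_neg hp
  have hdec : ∀ h ∈ S, ‖∑ n ∈ Ico a (a + H), SG (Q ^ 100) c0 (B.eval (n : ℤ)) *
        ∏ i, SG Q (c' i) (φ h i (n : ℤ)) -
      H * MCf Q m0 (Fin.cons c0 c' : Fin (k + 1) → Ch → ℂ) (sy B (φ h))‖ ^ 2 =
      ‖∑ p ∈ z2a_I k Q, (∏ i, (Fin.cons c0 c' : Fin (k + 1) → Ch → ℂ) i (p i)) * f p h‖ ^ 2 := by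
    intro h _
    rw [r6a_dec Q m0 hQ1 B (φ h) a H c0 c' (fun p => f p h) (fun p hp => hf1 p hp h)
      (fun p hp => hf2 p hp h)]
  rw [Finset.sum_congr rfl hdec]
  have hmain := Z2a S (z2a_I k Q)
    (fun p => ∏ i, (Fin.cons c0 c' : Fin (k + 1) → Ch → ℂ) i (p i)) f (3 ^ (k + 1)) W hW0
    (z2a_gam Q c0 hc0 c' hc') ?_
  · refine hmain.trans ?_
    have e1 : ((3 : ℝ) ^ (k + 1)) ^ 2 = 9 ^ (k + 1) := by
      rw [← pow_mul, mul_comm, pow_mul]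
      norm_num
    have e2 : (Q : ℝ) ^ (-(min c1 c2 / 2)) = (Q : ℝ) ^ (min c1 c2 / 2) * (Q : ℝ) ^ (-(min c1 c2)) := by
      rw [← Real.rpow_add hQ0r]
      congr 1
      ring
    rw [e1, e2]
    have e3 := mul_le_mul_of_nonneg_right h9 hW0
    refine e3.trans (le_of_eq ?_)
    rw [hW]
    ring
  · intro p hp
    obtain ⟨hp0, hps⟩ := z2a_mem.1 hp
    by_cases hpT : p ∈ TSf (k + 1) Q (fl Q (1 / 16)) m0
    · have e1 := h1 Q hQQ1 B hB H0 Ω S φ hF m0 hm01 hdvd p hpT a H hH0 hH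
      have e2 : ∑ h ∈ S, ‖f p h‖ ^ 2 = ∑ h ∈ S,
          ‖∑ n ∈ Ico a (a + H), Fc (Q ^ 100) (p 0) (B.eval (n : ℤ)) *
              ∏ i : Fin k, Fc Q (p i.succ) (φ h i (n : ℤ)) -
            H * (MRf p (Rf m0 p) (sy B (φ h)) *
              ((∑ d ∈ SF (fl Q (1 / 2) / Rf m0 p) (Rf m0 p), tdf d (sy B (φ h)) : ℝ) : ℂ))‖ ^ 2 :=
        Finset.sum_congr rfl fun h _ => by rw [hf1 p hpT h]; rfl
      rw [e2]
      exact e1.trans (hWle c1 (min_le_left _ _))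
    · have e1 := h2 Q hQQ2 B hB H0 Ω S φ hF r hr1 hr p hp0 hps hpT a H hH0 hH
      have e2 : ∑ h ∈ S, ‖f p h‖ ^ 2 = ∑ h ∈ S,
          ‖∑ n ∈ Ico a (a + H), Fc (Q ^ 100) (p 0) (B.eval (n : ℤ)) *
              ∏ i : Fin k, Fc Q (p i.succ) (φ h i (n : ℤ))‖ ^ 2 :=
        Finset.sum_congr rfl fun h _ => by rw [hf2 p hpT h]; rfl
      rw [e2]
      exact e1.trans (hWle c2 (min_le_right _ _))

end Pool.Agent.Lib.H24Q
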