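import Pool.Agent.Lib.H24Q.R3
import Pool.Agent.Lib.H24Q.R6A
import Pool.Agent.Lib.H24P.Z2B

/-!
# Project H24Q, chunk R6B (M): one cell, complete main term (port of `H24P/Z2B`)
-/

open Finset Polynomial

namespace Pool.Agent.Lib.H24Q

open Pool.Agent.Lib.H68T Pool.Agent.Lib.H18Q Pool.Agent.Lib.H59P Pool.Agent.Lib.H24P

/-- Proof. As `Z2B_main` (`H24P/Z2B.lean`), with `R3_TM` instead of `TMf`, `R1_cp` instead of `P2_sys`. -/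
theorem R6B_compl (k A : ℕ) (hA : 1 ≤ A) (C c : ℝ) (hC : 1 ≤ C) (hc : 0 < c) : ∃ c' : ℝ, 0 < c' ∧
    ∃ Q0 : ℕ, ∀ Q : ℕ, Q0 ≤ Q → ∀ B : ℤ[X], Lin A B → ∀ (H0 : ℕ) (Ω : Type) (S : Finset Ω)
    (φ : Ω → Fin k → ℤ → ℤ), FamW C c Q H0 B S φ → ∀ r : ℕ, 1 ≤ r → r ^ 100 ≤ Q →
    ∀ cf : Fin (k + 1) → Ch → ℂ, (∀ i, ∑ p ∈ PC Q, ‖cf i p‖ ≤ 3) →
    ∑ ω ∈ S, ‖MCf Q (B.leadingCoeff.natAbs * r) cf (sy B (φ ω)) -
      MDf Q (B.leadingCoeff.natAbs * r) cf (sy B (φ ω))‖ ^ 2 ≤ S.card * (Q : ℝ) ^ (-c') := by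
  classical
  obtain ⟨c1, hc1, Q1, h1⟩ := R3_TM k A C c hC hc
  obtain ⟨Q3, hQ31, h3⟩ := G1_rlog (36 ^ (k + 1)) ((2 * (k + 1) : ℕ) : ℝ) (c1 / 2) (by linarith)
  refine ⟨c1 / 2, by linarith, max 1 (max Q1 Q3), ?_⟩
  intro Q hQ B hB H0 Ω S φ hF r hr1 hr cf hcf
  have hQ1 : 1 ≤ Q := (le_max_left _ _).trans hQ
  have hQQ1 : Q1 ≤ Q := (le_max_left _ _).trans ((le_max_right _ _).trans hQ)
  have hQQ3 : Q3 ≤ Q := (le_max_right _ _).trans ((le_max_right _ _).trans hQ)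
  have hQ0r : (0 : ℝ) < Q := by exact_mod_cast hQ1
  have hlog0 : 0 ≤ Real.log Q := Real.log_natCast_nonneg Q
  have hV : (0 : ℝ) ≤ S.card := Nat.cast_nonneg _
  have hlc : 1 ≤ B.leadingCoeff.natAbs := by
    have hB0 : B ≠ 0 := by
      intro h0
      have := hB.deg
      rw [h0, natDegree_zero] at this
      omega
    have : B.leadingCoeff ≠ 0 := leadingCoeff_ne_zero.2 hB0
    omega
  set m0 : ℕ := B.leadingCoeff.natAbs * r with hm0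
  have hm01 : 1 ≤ m0 := Nat.mul_pos hlc hr1
  have hdvd : B.leadingCoeff.natAbs ∣ m0 := Dvd.intro _ rfl
  set D1 : ℕ := fl Q (1 / 16) with hD1
  have hD1Q : D1 ≤ Q := G1_le hQ1 (by norm_num) (by norm_num)
  set L1 : ℝ := (2 * (1 + Real.log Q)) ^ (k + 1) with hL1
  have hL10 : 0 ≤ L1 := by positivity
  set W : ℝ := L1 ^ 2 * (S.card * (Q : ℝ) ^ (-c1)) with hW
  have hQc0 : 0 ≤ (Q : ℝ) ^ (-c1) := Real.rpow_nonneg hQ0r.le _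
  have hW0 : 0 ≤ W := mul_nonneg (sq_nonneg _) (mul_nonneg hV hQc0)
  set f : (Fin (k + 1) → Ch) → Ω → ℂ := fun p ω =>
    MRf p (Rf m0 p) (sy B (φ ω)) *
      (((∑ d ∈ SF (fl Q (1 / 2) / Rf m0 p) (Rf m0 p), tdf d (sy B (φ ω)) -
        SSf ((pr Q).filter (fun l => ¬ l ∣ Rf m0 p)) (sy B (φ ω)) : ℝ) : ℂ)) with hfdef
  have hdec : ∀ ω ∈ S, ‖MCf Q m0 cf (sy B (φ ω)) - MDf Q m0 cf (sy B (φ ω))‖ ^ 2 =
      ‖∑ p ∈ TSf (k + 1) Q D1 m0, (∏ i, cf i (p i)) * f p ω‖ ^ 2 := by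
    intro ω hω
    congr 2
    unfold MCf MDf
    rw [← Finset.sum_sub_distrib]
    refine Finset.sum_congr rfl fun p hp => ?_
    obtain ⟨hR0, hRD, hd, hmR⟩ := z2b_R Q D1 m0 hm01 p hp
    have hfac : Rf m0 p ∣ Q.factorial := Nat.dvd_factorial hR0 (hRD.trans hD1Q)
    have e1 := P3_M5 (sy B (φ ω)) (R1_cp B (φ ω) (hF.cp ω hω)) Q (Rf m0 p) hR0 hfac p hd
    rw [← e1, hfdef]
    beta_reduce
    rw [Complex.ofReal_sub]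
    ring
  rw [Finset.sum_congr rfl hdec]
  have hmain := Z2a S (TSf (k + 1) Q D1 m0) (fun p => ∏ i, cf i (p i)) f (3 ^ (k + 1)) W hW0
    (z2b_gam Q D1 m0 cf hcf) ?_
  · refine hmain.trans ?_
    have e1 : ((3 : ℝ) ^ (k + 1)) ^ 2 * L1 ^ 2 =
        36 ^ (k + 1) * (1 + Real.log Q) ^ ((2 * (k + 1) : ℕ) : ℝ) := by
      rw [hL1, Real.rpow_natCast, ← mul_pow, ← mul_pow, ← pow_mul, mul_comm (k + 1) 2, pow_mul,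
        pow_mul, ← mul_pow]
      congr 1
      ring
    have e2 : (Q : ℝ) ^ (-(c1 / 2)) = (Q : ℝ) ^ (c1 / 2) * (Q : ℝ) ^ (-c1) := by
      rw [← Real.rpow_add hQ0r]
      congr 1
      ring
    have e3 := h3 Q hQQ3
    have e4 : ((3 : ℝ) ^ (k + 1)) ^ 2 * W =
        (((3 : ℝ) ^ (k + 1)) ^ 2 * L1 ^ 2) * (S.card * (Q : ℝ) ^ (-c1)) := by
      rw [hW]
      ring
    rw [e4, e1, e2]
    have e5 := mul_le_mul_of_nonneg_right e3 (mul_nonneg hV hQc0)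
    refine e5.trans (le_of_eq ?_)
    ring
  · intro p hp
    obtain ⟨hR0, hRD, hd, hmR⟩ := z2b_R Q D1 m0 hm01 p hp
    have hRQ : Rf m0 p ≤ Q := hRD.trans hD1Q
    have e1 := h1 Q hQQ1 B hB H0 Ω S φ hF (Rf m0 p) hR0 hRD (hdvd.trans hmR)
    rw [hW]
    refine le_trans ?_ (mul_le_mul_of_nonneg_left e1 (sq_nonneg L1))
    rw [Finset.mul_sum]
    refine Finset.sum_le_sum fun h _ => ?_
    rw [hfdef]
    beta_reduce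
    rw [norm_mul, Complex.norm_real, mul_pow, Real.norm_eq_abs, sq_abs]
    refine mul_le_mul_of_nonneg_right ?_ (sq_nonneg _)
    exact pow_le_pow_left₀ (norm_nonneg _) (z2b_MR Q p (Rf m0 p) hR0 hRQ _) 2

/-- **R6.** Proof. `R6A_cell`, `R6B_compl` times `H²` (`∑_{PC Q} ‖c0‖ ≤ ∑_{PC (Q^100)} ‖c0‖ ≤ 3`: `z2f_PC`-type,
`PC Q ⊆ PC (Q^100)`), `‖x + y‖² ≤ 2‖x‖² + 2‖y‖²`. -/
theorem R6_cell (k A : ℕ) (hA : 1 ≤ A) (C c : ℝ) (hC : 1 ≤ C) (hc : 0 < c) : ∃ c' : ℝ, 0 < c' ∧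
    ∃ Q0 : ℕ, ∀ Q : ℕ, Q0 ≤ Q → ∀ B : ℤ[X], Lin A B → ∀ (H0 : ℕ) (Ω : Type) (S : Finset Ω)
    (φ : Ω → Fin k → ℤ → ℤ), FamW C c Q H0 B S φ → ∀ r : ℕ, 1 ≤ r → r ^ 100 ≤ Q →
    ∀ c0 : Ch → ℂ, ∑ p ∈ PC (Q ^ 100), ‖c0 p‖ ≤ 3 → ∀ cf : Fin k → Ch → ℂ,
    (∀ i, ∑ p ∈ PC Q, ‖cf i p‖ ≤ 3) → ∀ a H : ℕ, H0 ≤ H → Q ^ 600 ≤ H →
    ∑ ω ∈ S, ‖∑ n ∈ Ico a (a + H), SG (Q ^ 100) c0 (B.eval (n : ℤ)) *
        ∏ i, SG Q (cf i) (φ ω i (n : ℤ)) -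
      H * MDf Q (B.leadingCoeff.natAbs * r) (Fin.cons c0 cf : Fin (k + 1) → Ch → ℂ)
        (sy B (φ ω))‖ ^ 2 ≤
      S.card * (H : ℝ) ^ 2 * (Q : ℝ) ^ (-c') := by
  classical
  obtain ⟨c1, hc1, Q1, h1⟩ := R6A_cell k A hA C c hC hc
  obtain ⟨c2, hc2, Q2, h2⟩ := R6B_compl k A hA C c hC hc
  have hm : 0 < min c1 c2 := lt_min hc1 hc2
  obtain ⟨Q3, hQ31, h3⟩ := G1_rlog 4 0 (min c1 c2 / 2) (by linarith)
  refine ⟨min c1 c2 / 2, by linarith, max (max 1 Q3) (max Q1 Q2), ?_⟩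
  intro Q hQ B hB H0 Ω S φ hF r hr1 hr c0 hc0 cf hcf a H hH0 hH
  have hQ1 : 1 ≤ Q := (le_max_left _ _).trans ((le_max_left _ _).trans hQ)
  have hQQ3 : Q3 ≤ Q := (le_max_right _ _).trans ((le_max_left _ _).trans hQ)
  have hQQ1 : Q1 ≤ Q := (le_max_left _ _).trans ((le_max_right _ _).trans hQ)
  have hQQ2 : Q2 ≤ Q := (le_max_right _ _).trans ((le_max_right _ _).trans hQ)
  have hQ0r : (0 : ℝ) < Q := by exact_mod_cast hQ1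
  have hQ1r : (1 : ℝ) ≤ Q := by exact_mod_cast hQ1
  have e1 := h1 Q hQQ1 B hB H0 Ω S φ hF r hr1 hr c0 hc0 cf hcf a H hH0 hH
  have hc0' : ∑ p ∈ PC Q, ‖c0 p‖ ≤ 3 := by
    refine le_trans (Finset.sum_le_sum_of_subset_of_nonneg ?_ fun p _ _ => norm_nonneg _) hc0
    intro p hp
    rw [mem_PC] at hp ⊢
    exact ⟨hp.1, hp.2.1.trans (Nat.le_self_pow (by norm_num) _), hp.2.2⟩
  have e2 := h2 Q hQQ2 B hB H0 Ω S φ hF r hr1 hr (Fin.cons c0 cf : Fin (k + 1) → Ch → ℂ)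
    (fun i => by
      refine Fin.cases ?_ (fun j => ?_) i
      · simp only [Fin.cons_zero]
        exact hc0'
      · simp only [Fin.cons_succ]
        exact hcf j)
  set X : Ω → ℂ := fun ω => ∑ n ∈ Ico a (a + H), SG (Q ^ 100) c0 (B.eval (n : ℤ)) *
        ∏ i, SG Q (cf i) (φ ω i (n : ℤ)) with hX
  set Y : Ω → ℂ := fun ω => MCf Q (B.leadingCoeff.natAbs * r)
    (Fin.cons c0 cf : Fin (k + 1) → Ch → ℂ) (sy B (φ ω)) with hY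
  set Z : Ω → ℂ := fun ω => MDf Q (B.leadingCoeff.natAbs * r)
    (Fin.cons c0 cf : Fin (k + 1) → Ch → ℂ) (sy B (φ ω)) with hZ
  have hpt : ∀ ω ∈ S, ‖X ω - H * Z ω‖ ^ 2 ≤ 2 * ‖X ω - H * Y ω‖ ^ 2 + 2 * ((H : ℝ) ^ 2 * ‖Y ω - Z ω‖ ^ 2) := by
    intro ω _
    have g1 : X ω - H * Z ω = (X ω - H * Y ω) + H * (Y ω - Z ω) := by ring
    have g2 : ‖X ω - H * Z ω‖ ≤ ‖X ω - H * Y ω‖ + H * ‖Y ω - Z ω‖ := by
      rw [g1]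
      refine (norm_add_le _ _).trans (le_of_eq ?_)
      rw [norm_mul, Complex.norm_natCast]
    calc ‖X ω - H * Z ω‖ ^ 2 ≤ (‖X ω - H * Y ω‖ + H * ‖Y ω - Z ω‖) ^ 2 :=
          pow_le_pow_left₀ (norm_nonneg _) g2 2
      _ ≤ 2 * ‖X ω - H * Y ω‖ ^ 2 + 2 * ((H : ℝ) ^ 2 * ‖Y ω - Z ω‖ ^ 2) := by
          nlinarith [sq_nonneg (‖X ω - H * Y ω‖ - H * ‖Y ω - Z ω‖)]
  have hH2 : (0 : ℝ) ≤ (H : ℝ) ^ 2 := sq_nonneg _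
  have hV : (0 : ℝ) ≤ S.card := Nat.cast_nonneg _
  have e3 : (Q : ℝ) ^ (-c1) ≤ (Q : ℝ) ^ (-(min c1 c2)) :=
    Real.rpow_le_rpow_of_exponent_le hQ1r (neg_le_neg (min_le_left _ _))
  have e4 : (Q : ℝ) ^ (-c2) ≤ (Q : ℝ) ^ (-(min c1 c2)) :=
    Real.rpow_le_rpow_of_exponent_le hQ1r (neg_le_neg (min_le_right _ _))
  have e5 : 4 ≤ (Q : ℝ) ^ (min c1 c2 / 2) := by
    have := h3 Q hQQ3
    rwa [Real.rpow_zero, mul_one] at this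
  have e6 : (Q : ℝ) ^ (-(min c1 c2 / 2)) = (Q : ℝ) ^ (min c1 c2 / 2) * (Q : ℝ) ^ (-(min c1 c2)) := by
    rw [← Real.rpow_add hQ0r]
    congr 1
    ring
  have hq0 : 0 ≤ (Q : ℝ) ^ (-(min c1 c2)) := Real.rpow_nonneg hQ0r.le _
  calc ∑ ω ∈ S, ‖X ω - H * Z ω‖ ^ 2
      ≤ ∑ ω ∈ S, (2 * ‖X ω - H * Y ω‖ ^ 2 + 2 * ((H : ℝ) ^ 2 * ‖Y ω - Z ω‖ ^ 2)) :=
        Finset.sum_le_sum hpt
    _ = 2 * ∑ ω ∈ S, ‖X ω - H * Y ω‖ ^ 2 + 2 * ((H : ℝ) ^ 2 * ∑ ω ∈ S, ‖Y ω - Z ω‖ ^ 2) := by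
        rw [Finset.sum_add_distrib, ← Finset.mul_sum, ← Finset.mul_sum, ← Finset.mul_sum]
    _ ≤ 2 * (S.card * (H : ℝ) ^ 2 * (Q : ℝ) ^ (-c1)) + 2 * ((H : ℝ) ^ 2 * (S.card * (Q : ℝ) ^ (-c2))) := by
        have := mul_le_mul_of_nonneg_left e2 hH2
        linarith
    _ ≤ 2 * (S.card * (H : ℝ) ^ 2 * (Q : ℝ) ^ (-(min c1 c2))) +
          2 * ((H : ℝ) ^ 2 * (S.card * (Q : ℝ) ^ (-(min c1 c2)))) := by
        have g1 := mul_le_mul_of_nonneg_left e3 (mul_nonneg hV hH2)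
        have g2 := mul_le_mul_of_nonneg_left (mul_le_mul_of_nonneg_left e4 hV) hH2
        linarith
    _ = 4 * (S.card * (H : ℝ) ^ 2 * (Q : ℝ) ^ (-(min c1 c2))) := by ring
    _ ≤ (Q : ℝ) ^ (min c1 c2 / 2) * (S.card * (H : ℝ) ^ 2 * (Q : ℝ) ^ (-(min c1 c2))) :=
        mul_le_mul_of_nonneg_right e5 (mul_nonneg (mul_nonneg hV hH2) hq0)
    _ = S.card * (H : ℝ) ^ 2 * (Q : ℝ) ^ (-(min c1 c2 / 2)) := by rw [e6]; ring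

end Pool.Agent.Lib.H24Q
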