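import Pool.Agent.Lib.H24Q.M1
import Pool.Agent.Lib.H24Q.D2
import Pool.Agent.Lib.H24Q.R6B
import Pool.Agent.Lib.H24P.E1

/-!
# Project H24Q, chunk M4 (M): the main term in mean square (port of `H24P/Z2`)
-/

open Finset Polynomial

namespace Pool.Agent.Lib.H24Q

open Pool.Agent.Lib.H68T Pool.Agent.Lib.H18Q Pool.Agent.Lib.H59P Pool.Agent.Lib.H24P

theorem m4_card {k : ℕ} (b s : Fin k → ℕ) : ((cub b s).card : ℝ) = vol s := by
  unfold cub vol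
  rw [Fintype.card_piFinset]
  push_cast
  refine Finset.prod_congr rfl fun i _ => ?_
  rw [Nat.card_Ico, Nat.add_sub_cancel_left]

theorem m4_pow {b0 Q N Z : ℕ} (hQ : 1 ≤ Q) (hN : 0 < N)
    (hK : (2 * ((b0 : ℝ) + 1500)) * Real.log Q ≤ Real.log N) (hZ : N ≤ Z ^ 2) :
    Q ^ (b0 + 1500) ≤ Z := by
  have hNr : (0 : ℝ) < N := by exact_mod_cast hN
  have hQr : (0 : ℝ) < Q := by exact_mod_cast hQ
  have h1 : Real.log ((Q : ℝ) ^ (2 * (b0 + 1500))) ≤ Real.log N := by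
    rw [Real.log_pow]
    push_cast
    exact hK
  have h2 : (Q : ℝ) ^ (2 * (b0 + 1500)) ≤ N := (Real.log_le_log_iff (by positivity) hNr).1 h1
  have h3 : Q ^ (2 * (b0 + 1500)) ≤ N := by exact_mod_cast h2
  have h4 : (Q ^ (b0 + 1500)) ^ 2 ≤ Z ^ 2 := by
    rw [← pow_mul, mul_comm (b0 + 1500) 2]
    exact h3.trans hZ
  exact (Nat.pow_le_pow_iff_left (by norm_num)).1 h4

/-- **M4.** Proof. Compare `Z2_main` (`H24P/Z2.lean`). `D2_cells` (`k = 1`) with `b = 2X`, `M = X`, `s = X/Q^8`, `q = Q^8`,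
`X1 = Z`, `H = Z/Q^800`, `N = Q^800`, `F ω n = gB n ∏ SG … - MDf …`. On a cell the base points are constant: `2X + t s` for
`ω 0` (`E1_bs`), `Z + jH` for the fine cells of `n` (`E1_bs`), `bs (Z/Q^8) (Z + jH)` for the coarse cells (`E1_fine`), so the
sum is `∑_n SG (Q^100) c0 (B23 n) ∏ SG Q (cf i) … - H MDf Q (2 r) (Fin.cons c0 cf) (sy B23 (L2.map ω))` with
`c0 = C0 (B23 (Z + jH))`, `cf i = Cc (…)`, of total sizes `≤ 3` (`Cf.le`, `Cf.sum`; `M1_geo`, `M1_GeoB`):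
`R6_cell` (`k = A = 2`), `FamW` from `hW` (`Q^b0 ≤ X/Q^8`, `Q^b0 ≤ Z/Q^800`, `Q^600 ≤ Z/Q^800`: `Z ≥ N^(1/2)`, `N ≥ Q^K`,
`K ≥ 2 (b0 + 1500)`). -/
theorem M4_main (b0 : ℕ) (C c : ℝ) (hC : 1 ≤ C) (hc : 0 < c) (hW : HW C c b0 B23 L2) :
    ∃ c' K : ℝ, 0 < c' ∧ 1 ≤ K ∧ ∃ Q0 : ℕ, ∀ (Q N Z X : ℕ), Q0 ≤ Q →
    K * Real.log Q ≤ Real.log N → G3 Q N Z X →
    ∀ (C0 : ℤ → Ch → ℂ) (m0 : Ch → ℝ), Cf (Q ^ 100) (2 * Z - 3) C0 m0 →
    ∀ (Cc : ℤ → Ch → ℂ) (mb : Ch → ℝ), Cf Q X Cc mb → ∀ r : ℕ, 1 ≤ r → r ^ 100 ≤ Q →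
    ∑ ω ∈ bx X, ‖T3z Q Z X Cc (gB Q Z B23 C0) ω - M3z Q Z X r C0 Cc ω‖ ^ 2 ≤
      X * (Z : ℝ) ^ 2 * (Q : ℝ) ^ (-c') := by
  classical
  obtain ⟨c1, hc1, Q1, hcell⟩ := R6_cell 2 2 (by norm_num) C c hC hc
  have hb0 : (0 : ℝ) ≤ b0 := Nat.cast_nonneg _
  refine ⟨c1, 2 * ((b0 : ℝ) + 1500), hc1, by linarith, max Q1 2, ?_⟩
  intro Q N Z X hQ hK hG C0 m0 hC0 Cc mb hCc r hr hr100
  have hQ1' : Q1 ≤ Q := (le_max_left _ _).trans hQ
  have hQ2 : 2 ≤ Q := (le_max_right _ _).trans hQ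
  have hQ1 : 1 ≤ Q := by omega
  have hQ8 : 0 < Q ^ 8 := Nat.pow_pos hQ1
  have hQ800 : 0 < Q ^ 800 := Nat.pow_pos hQ1
  have hN0 : 0 < N := by
    have := hG.nine
    omega
  have hZbig := m4_pow hQ1 hN0 hK hG.Zlo
  have hZpos : 0 < Z := (Nat.pow_pos hQ1).trans_le hZbig
  have hXZ : Z ≤ X := by
    have := hG.ZX
    omega
  obtain ⟨hB, -, -, -, -⟩ := M1_GeoB hG
  set H : ℕ := Z / Q ^ 800 with hH
  set s : Fin 1 → ℕ := fun _ => X / Q ^ 8 with hs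
  have hXH : Z = H * Q ^ 800 := (Nat.div_mul_cancel hG.dvdZ).symm
  have hHbig : Q ^ (b0 + 700) ≤ H := by
    rw [hH, Nat.le_div_iff_mul_le hQ800]
    calc Q ^ (b0 + 700) * Q ^ 800 = Q ^ (b0 + 1500) := by rw [← pow_add]
      _ ≤ Z := hZbig
  have hH600 : Q ^ 600 ≤ H := (Nat.pow_le_pow_right hQ1 (by omega)).trans hHbig
  have hHb0 : Q ^ b0 ≤ H := (Nat.pow_le_pow_right hQ1 (by omega)).trans hHbig
  have hHpos : 0 < H := (Nat.pow_pos hQ1).trans_le hH600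
  have hdX : Q ^ 8 ∣ X := (pow_dvd_pow Q (by norm_num)).trans hG.dvdX
  have hsM : ∀ i, (fun _ : Fin 1 => X) i = s i * Q ^ 8 := fun i => (Nat.div_mul_cancel hdX).symm
  have hsX : X = X / Q ^ 8 * Q ^ 8 := (Nat.div_mul_cancel hdX).symm
  have hsb0 : ∀ i, Q ^ b0 ≤ s i := by
    intro i
    refine (Nat.le_div_iff_mul_le hQ8).2 ?_
    calc Q ^ b0 * Q ^ 8 = Q ^ (b0 + 8) := by rw [← pow_add]
      _ ≤ Q ^ (b0 + 1500) := Nat.pow_le_pow_right hQ1 (by omega)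
      _ ≤ Z := hZbig
      _ ≤ X := hXZ
  have hspos : ∀ i, 0 < s i := fun i => lt_of_lt_of_le (Nat.pow_pos hQ1) (hsb0 i)
  -- the difference
  set F : (Fin 1 → ℕ) → ℕ → ℂ := fun ω n => gB Q Z B23 C0 n *
    ∏ i, SG Q (Cc (fp8 Q Z X ω n i)) (L2.map ω i (n : ℤ)) -
    MDf Q (B23.leadingCoeff.natAbs * r)
      (Fin.cons (C0 (B23.eval ((bs (Z / Q ^ 800) n : ℕ) : ℤ)))
      (fun i : Fin 2 => Cc (fp8 Q Z X ω n i)) : Fin 3 → Ch → ℂ) (sy B23 (L2.map ω)) with hF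
  have hdiff : ∀ ω : Fin 1 → ℕ, T3z Q Z X Cc (gB Q Z B23 C0) ω - M3z Q Z X r C0 Cc ω =
      ∑ n ∈ Ico Z (2 * Z), F ω n := by
    intro ω
    unfold T3z M3z
    rw [← Finset.sum_sub_distrib]
  rw [Finset.sum_congr rfl fun ω _ => by rw [hdiff ω]]
  have hE := D2_cells (fun _ : Fin 1 => 2 * X) (fun _ : Fin 1 => X) s (Q ^ 8) hsM Z H (Q ^ 800) hXH
    ((Q : ℝ) ^ (-c1)) (Real.rpow_nonneg (Nat.cast_nonneg _) _) F ?_
  · have hv : vol (fun _ : Fin 1 => X) = X := by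
      unfold vol
      rw [Fin.prod_univ_one]
    rw [hv] at hE
    exact hE
  intro t ht j hj
  have hjH' : j * H + H ≤ Z := by
    have h1 : (j + 1) * H ≤ Q ^ 800 * H := Nat.mul_le_mul_right H hj
    have h2 : (j + 1) * H = j * H + H := by ring
    have h3 : Q ^ 800 * H = Z := by rw [mul_comm]; exact hXH.symm
    omega
  have haI : Z + j * H ∈ Ico Z (2 * Z) := by
    rw [mem_Ico]
    omega
  -- the base points
  have hbsn : ∀ n ∈ Ico (Z + j * H) (Z + j * H + H), bs (Z / Q ^ 800) n = Z + j * H := fun n hn =>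
    E1_bs hHpos ⟨Q ^ 800, hXH⟩ hn
  have hdX8 : Q ^ 8 ∣ Z := (pow_dvd_pow Q (by norm_num)).trans hG.dvdZ
  have hHc : Z / Q ^ 8 = H * Q ^ 792 := by
    refine Nat.div_eq_of_eq_mul_left hQ8 ?_
    rw [mul_assoc, ← pow_add]
    exact hXH
  have hHcX : Z / Q ^ 8 ∣ Z := Nat.div_dvd_of_dvd hdX8
  have hbsc : ∀ n ∈ Ico (Z + j * H) (Z + j * H + H),
      bs (Z / Q ^ 8) n = bs (Z / Q ^ 8) (Z + j * H) := fun n hn =>
    E1_fine hHpos (Nat.pow_pos hQ1) hHc hHcX hn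
  have hsd : X / Q ^ 8 ∣ 2 * X := Dvd.dvd.mul_left ⟨Q ^ 8, hsX⟩ 2
  have hbsx : ∀ ω ∈ cub (fun i => (fun _ : Fin 1 => 2 * X) i + t i * s i) s, ∀ i,
      bs (X / Q ^ 8) (ω i) = 2 * X + t i * s i := by
    intro ω hω i
    unfold cub at hω
    exact E1_bs (hspos i) hsd ((Fintype.mem_piFinset.1 hω) i)
  -- the base point of the box
  set ω0 : Fin 1 → ℕ := fun i => 2 * X + t i * s i with hω0
  have hω0b : ω0 ∈ cub (fun i => (fun _ : Fin 1 => 2 * X) i + t i * s i) s := by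
    unfold cub
    rw [Fintype.mem_piFinset]
    intro i
    rw [mem_Ico]
    have := hspos i
    exact ⟨le_refl _, Nat.lt_add_of_pos_right this⟩
  have hω0x : ω0 ∈ bx X := by
    unfold bx cub
    rw [Fintype.mem_piFinset]
    intro i
    have h1 : (t i + 1) * s i ≤ Q ^ 8 * s i := Nat.mul_le_mul_right _ (ht i)
    have h2 : Q ^ 8 * s i = X := by
      rw [mul_comm]
      exact hsX.symm
    have h3 : (t i + 1) * s i = t i * s i + s i := by ring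
    have h4 := hspos i
    rw [mem_Ico]
    show 2 * X ≤ 2 * X + t i * s i ∧ 2 * X + t i * s i < 2 * X + X
    omega
  have hbw : ∀ ω ∈ cub (fun i => (fun _ : Fin 1 => 2 * X) i + t i * s i) s, bw8 Q X ω = ω0 := by
    intro ω hω
    funext i
    exact hbsx ω hω i
  have hfp : ∀ ω ∈ cub (fun i => (fun _ : Fin 1 => 2 * X) i + t i * s i) s,
      ∀ n ∈ Ico (Z + j * H) (Z + j * H + H), ∀ i,
      fp8 Q Z X ω n i = fp8 Q Z X ω0 (Z + j * H) i := by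
    intro ω hω n hn i
    unfold fp8
    rw [hbw ω hω, hbw ω0 hω0b, hbsc n hn]
  set c0 : Ch → ℂ := C0 (B23.eval ((Z + j * H : ℕ) : ℤ)) with hc0
  set c' : Fin 2 → Ch → ℂ := fun i => Cc (fp8 Q Z X ω0 (Z + j * H) i) with hc'
  -- sizes
  have hsz0 : ∑ p ∈ PC (Q ^ 100), ‖c0 p‖ ≤ 3 := by
    refine (Finset.sum_le_sum fun p hp => ?_).trans hC0.sum
    have h1 := hB.lo _ haI
    have h2 := hB.hi _ haI
    have h3 : (0 : ℤ) ≤ ((2 * Z - 3 : ℕ) : ℤ) := Nat.cast_nonneg _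
    exact hC0.le _ h1 (by linarith) p hp
  have hsz : ∀ i, ∑ p ∈ PC Q, ‖c' i p‖ ≤ 3 := by
    intro i
    obtain ⟨-, ⟨h1, h2⟩, -⟩ := M1_geo hQ1 hG ω0 hω0x (Z + j * H) haI i
    refine (Finset.sum_le_sum fun p hp => ?_).trans hCc.sum
    exact hCc.le _ h1 h2.le p hp
  have hA1 := hcell Q hQ1' B23 hB.lin (Q ^ b0) (Fin 1 → ℕ)
    (cub (fun i => (fun _ : Fin 1 => 2 * X) i + t i * s i) s) L2.map
    (hW Q hQ2 _ s hsb0) r hr hr100 c0 hsz0 c' hsz (Z + j * H) H hHb0 hH600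
  rw [m4_card] at hA1
  refine le_trans (le_of_eq ?_) hA1
  refine Finset.sum_congr rfl fun ω hω => ?_
  congr 2
  have h2 : ∑ n ∈ Ico (Z + j * H) (Z + j * H + H), F ω n =
      ∑ n ∈ Ico (Z + j * H) (Z + j * H + H), (SG (Q ^ 100) c0 (B23.eval (n : ℤ)) *
      ∏ i, SG Q (c' i) (L2.map ω i (n : ℤ)) -
      MDf Q (B23.leadingCoeff.natAbs * r) (Fin.cons c0 c' : Fin 3 → Ch → ℂ)
        (sy B23 (L2.map ω))) := by
    refine Finset.sum_congr rfl fun n hn => ?_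
    rw [hF]
    simp only
    have h3 : (fun i : Fin 2 => Cc (fp8 Q Z X ω n i)) = c' := by
      funext i
      rw [hc', hfp ω hω n hn i]
    have h4 : (∏ i, SG Q (Cc (fp8 Q Z X ω n i)) (L2.map ω i (n : ℤ))) =
        ∏ i, SG Q (c' i) (L2.map ω i (n : ℤ)) := by
      refine Finset.prod_congr rfl fun i _ => ?_
      rw [← h3]
    rw [h3, h4]
    unfold gB
    rw [hbsn n hn]
  rw [h2, Finset.sum_sub_distrib, Finset.sum_const, Nat.card_Ico, nsmul_eq_mul,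
    Nat.add_sub_cancel_left]

end Pool.Agent.Lib.H24Q
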