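import Pool.Agent.Lib.H24Q.M2
import Pool.Agent.Lib.H24Q.M3
import Pool.Agent.Lib.H24Q.M4
import Pool.Agent.Lib.H24P.Z3
import Pool.Agent.Lib.H59P.CF0

/-!
# Project H24Q, chunk M5 (M): the lower bound for the three-fold count
-/

open Finset Polynomial

namespace Pool.Agent.Lib.H24Q

open Pool.Agent.Lib.H68T Pool.Agent.Lib.H18Q Pool.Agent.Lib.H59P Pool.Agent.Lib.H24P

theorem m5_four (a b c d : ℂ) : ‖a + b + c + d‖ ^ 2 ≤ 4 * (‖a‖ ^ 2 + ‖b‖ ^ 2 + ‖c‖ ^ 2 + ‖d‖ ^ 2) := by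
  have h1 : ‖a + b + c + d‖ ≤ ‖a‖ + ‖b‖ + ‖c‖ + ‖d‖ :=
    (norm_add_le _ _).trans (by linarith [(norm_add_le (a + b) c), norm_add_le a b])
  refine (pow_le_pow_left₀ (norm_nonneg _) h1 2).trans ?_
  nlinarith [sq_nonneg (‖a‖ - ‖b‖), sq_nonneg (‖a‖ - ‖c‖), sq_nonneg (‖a‖ - ‖d‖), sq_nonneg (‖b‖ - ‖c‖),
    sq_nonneg (‖b‖ - ‖d‖), sq_nonneg (‖c‖ - ‖d‖)]

theorem m5_PC {Q : ℕ} (hQ : 1 ≤ Q) {p : Ch} (hp : p ∈ PC Q) : p ∈ PC (Q ^ 100) := by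
  obtain ⟨h1, h2, h3⟩ := mem_PC.1 hp
  exact mem_PC.2 ⟨h1, h2.trans (Nat.le_self_pow (by norm_num) Q), h3⟩

/-- Proof. Definitions: `KL`, `L2.map ω 0 n = ω 0 + n`, `L2.map ω 1 n = ω 0 - n` (`Fin.prod_univ_two`),
`B23.eval n = 2 n - 3` (`D0_lin`). -/
theorem M5_T3w (Q Z X : ℕ) (ω : Fin 1 → ℕ) :
    T3w Q Z X (fun n => ((lp (B23.eval (n : ℤ)) : ℝ) : ℂ)) ω =
      ((∑ y ∈ Ico Z (2 * Z), KL Q X (ω 0) y * lp (2 * (y : ℤ) - 3) : ℝ) : ℂ) := by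
  unfold T3w
  rw [Complex.ofReal_sum]
  refine Finset.sum_congr rfl fun n _ => ?_
  rw [Fin.prod_univ_two]
  have e0 : L2.map ω 0 (n : ℤ) = (ω 0 : ℤ) + n := by
    have h : L2.map ω 0 (n : ℤ) = 1 * (ω 0 : ℤ) + 1 * n + 0 := rfl
    rw [h]
    ring
  have e1 : L2.map ω 1 (n : ℤ) = (ω 0 : ℤ) - n := by
    have h : L2.map ω 1 (n : ℤ) = 1 * (ω 0 : ℤ) + (-1) * n + 0 := rfl
    rw [h]
    ring
  rw [e0, e1]
  beta_reduce
  rw [D0_lin.2.2]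
  unfold KL
  push_cast
  ring

/-- **M5.** Proof. Compare `Z4_main`, `Z3_main` in `H24P`. `CF0` of `H59P` at the level `Q^100`, scale `2Z - 3`, and at the level
`Q`, scale `X` (`E0 ≤ 1`). `M2_lp`, `M3_fB`, `M2_gB`, `M4_main` with `r = px.1`, `(∑ of 4)² ≤ 4 ∑ squares`: the mean square of
`T3w (lp) - M3z` is at most `X Z² Q^(-c)`; `z4_cheb` (`H59P`): `Bad` = the `ω` with difference `> Z Q^(-c/4)`. For the others, for
each `n`, `Z3_cell` of `H24P` (`k = 3` coordinates, `m0 = 2 px.1 ≤ fl Q (1/16)` by `G1_size` with `A = a = 2`; `th i` = `th` at the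
frozen points `B23 (bs …) ∈ [Y, 3Y)` (`M1_GeoB`) resp. `fp8 ∈ [X, 4X)` (`M1_geo`); the errors `e` at level `Q^100` summed over
`PC Q ⊆ PC (Q^100)`; `MX px th x p = MX px (fun _ => th x) 0 p` by unfolding), so `Re M3z ≥ Z m0/2`. `M5_T3w`. -/
theorem M5_main (b0 : ℕ) (C c : ℝ) (hC : 1 ≤ C) (hc : 0 < c) (hW : HW C c b0 B23 L2) :
    ∃ c' K : ℝ, 0 < c' ∧ 1 ≤ K ∧ ∀ Cr : ℝ, ∃ Q0 : ℕ, ∀ (Q N Z X : ℕ) (η E0 : ℝ) (px : Ch)
    (th : ℤ → ℝ), Q0 ≤ Q → K * Real.log Q ≤ Real.log N → Real.log N ≤ Cr * Real.log Q →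
    G3 Q N Z X → px ∈ PC Q → px.1 ^ 100 ≤ Q → Mdl (Q ^ 100) (2 * Z - 3) η E0 px th →
    Mdl Q X η E0 px th → 0 ≤ E0 → 12 * E0 ≤ 1 →
    ∃ Bad : Finset (Fin 1 → ℕ), Bad ⊆ bx X ∧ (Bad.card : ℝ) ≤ X * (Q : ℝ) ^ (-c') ∧
      ∀ ω ∈ bx X, ω ∉ Bad → ∀ m0 : ℝ, (∀ th' : Fin 3 → ℝ, (∀ i, 0 ≤ th' i) →
        (∀ i, th' i ≤ 1 - η) → (px = p0 → ∀ i, th' i = 0) →
        m0 ≤ PMf Q px th' (sy B23 (L2.map ω))) →
        Z * (m0 / 2 - (Q : ℝ) ^ (-c')) ≤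
          ∑ y ∈ Ico Z (2 * Z), KL Q X (ω 0) y * lp (2 * (y : ℤ) - 3) := by
  classical
  obtain ⟨c3, K3, hc3, hK3, h3⟩ := M3_fB b0 C c hC hc hW
  obtain ⟨c4, K4, hc4, hK4, Q4, h4⟩ := M4_main b0 C c hC hc hW
  obtain ⟨Q5, h5⟩ := M2_gB
  obtain ⟨Q6, hQ6, hsize⟩ := G1_size 2
  obtain ⟨cm, hcm⟩ : ∃ cm : ℝ, cm = min (min c3 c4) (1 / 2) := ⟨_, rfl⟩
  have hcm0 : 0 < cm := by
    rw [hcm]
    exact lt_min (lt_min hc3 hc4) (by norm_num)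
  have hcm3 : cm ≤ c3 := by
    rw [hcm]
    exact (min_le_left _ _).trans (min_le_left _ _)
  have hcm4 : cm ≤ c4 := by
    rw [hcm]
    exact (min_le_left _ _).trans (min_le_right _ _)
  have hcm5 : cm ≤ 1 / 2 := by
    rw [hcm]
    exact min_le_right _ _
  obtain ⟨Q7, hQ7, hlog⟩ := G1_rlog 16 0 (cm / 2) (by positivity)
  obtain ⟨c1, hc1⟩ : ∃ c1 : ℝ, c1 = cm / 2 := ⟨_, rfl⟩
  have hc10 : 0 < c1 := by
    rw [hc1]
    positivity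
  refine ⟨c1 / 4, max K3 K4, by positivity, hK3.trans (le_max_left _ _), fun Cr => ?_⟩
  obtain ⟨Q3, h3'⟩ := h3 Cr
  obtain ⟨Q2, h2⟩ := M2_lp Cr
  refine ⟨max (max (max Q2 Q3) (max Q4 Q5)) (max (max Q6 Q7) 2), ?_⟩
  intro Q N Z X η E0 px th hQ hKN hNC hG hpx hpx100 hM0 hM hE0 hE12
  have q2 : Q2 ≤ Q := (le_max_left _ _).trans ((le_max_left _ _).trans ((le_max_left _ _).trans hQ))
  have q3 : Q3 ≤ Q := (le_max_right _ _).trans ((le_max_left _ _).trans ((le_max_left _ _).trans hQ))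
  have q4 : Q4 ≤ Q := (le_max_left _ _).trans ((le_max_right _ _).trans ((le_max_left _ _).trans hQ))
  have q5 : Q5 ≤ Q := (le_max_right _ _).trans ((le_max_right _ _).trans ((le_max_left _ _).trans hQ))
  have q6 : Q6 ≤ Q := (le_max_left _ _).trans ((le_max_left _ _).trans ((le_max_right _ _).trans hQ))
  have q7 : Q7 ≤ Q := (le_max_right _ _).trans ((le_max_left _ _).trans ((le_max_right _ _).trans hQ))
  have q8 : 2 ≤ Q := (le_max_right _ _).trans ((le_max_right _ _).trans hQ)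
  have q0 : 1 ≤ Q := by omega
  have hQr : (1 : ℝ) ≤ Q := by exact_mod_cast q0
  have hQr0 : (0 : ℝ) < Q := by linarith
  have hlQ : 0 ≤ Real.log Q := Real.log_natCast_nonneg Q
  have hKN3 : K3 * Real.log Q ≤ Real.log N :=
    (mul_le_mul_of_nonneg_right (le_max_left _ _) hlQ).trans hKN
  have hKN4 : K4 * Real.log Q ≤ Real.log N :=
    (mul_le_mul_of_nonneg_right (le_max_right _ _) hlQ).trans hKN
  have hE1 : E0 ≤ 1 := by linarith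
  obtain ⟨hGB, -, -, -, -⟩ := M1_GeoB hG
  have hZ3 : 3 ≤ Z := by
    have h6 := hG.nine
    have h7 := hG.Zlo
    by_contra hlt
    push Not at hlt
    have h8 : Z ^ 2 ≤ 2 ^ 2 := Nat.pow_le_pow_left (by omega) 2
    omega
  have hZpos : 0 < Z := by omega
  have hZr : (0 : ℝ) < Z := by exact_mod_cast hZpos
  have hXr : (0 : ℝ) ≤ X := Nat.cast_nonneg _
  obtain ⟨e0, eb0, mb0, a1, a2, a3, a4⟩ := CF0 (Q ^ 100) (2 * Z - 3) η E0 px th (Nat.one_le_pow _ _ (by omega)) hM0 hE1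
  obtain ⟨e1, eb1, mb1, b1, b2, b3, b4⟩ := CF0 Q X η E0 px th q0 hM hE1
  obtain ⟨C0, hC0⟩ : ∃ C0 : ℤ → Ch → ℂ, C0 = fun m p => MX px th m p + e0 m p := ⟨_, rfl⟩
  obtain ⟨Cc, hCc⟩ : ∃ Cc : ℤ → Ch → ℂ, Cc = fun m p => MX px th m p + e1 m p := ⟨_, rfl⟩
  rw [← hC0] at a4
  rw [← hCc] at b4
  have g1 := h2 Q N Z X q2 hNC hG Cc mb1 b4
  have g2 := h3' Q N Z X q3 hKN3 hNC hG C0 mb0 a4 Cc mb1 b4
  have g3 := h5 Q N Z X q5 hG C0 mb0 a4 Cc mb1 b4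
  have g4 := h4 Q N Z X q4 hKN4 hG C0 mb0 a4 Cc mb1 b4 px.1 (mem_PC.1 hpx).1 hpx100
  have hV0 : 0 ≤ (X : ℝ) * (Z : ℝ) ^ 2 := by positivity
  have hle : ∀ x : ℝ, cm ≤ x → (X : ℝ) * (Z : ℝ) ^ 2 * (Q : ℝ) ^ (-x) ≤ X * (Z : ℝ) ^ 2 * (Q : ℝ) ^ (-cm) := by
    intro x hx
    exact mul_le_mul_of_nonneg_left (Real.rpow_le_rpow_of_exponent_le hQr (by linarith)) hV0
  have g1' := g1.trans (hle _ hcm5)
  have g2' := g2.trans (hle _ hcm3)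
  have g3' := g3.trans (hle 10 (by linarith))
  have g4' := g4.trans (hle _ hcm4)
  obtain ⟨T, hT⟩ : ∃ T : (Fin 1 → ℕ) → ℂ, T = T3w Q Z X (fun n => ((lp (B23.eval (n : ℤ)) : ℝ) : ℂ)) := ⟨_, rfl⟩
  rw [← hT] at g1'
  have hms : ∑ ω ∈ bx X, ‖T ω - M3z Q Z X px.1 C0 Cc ω‖ ^ 2 ≤ X * (Z : ℝ) ^ 2 * (Q : ℝ) ^ (-c1) := by
    have k1 : ∀ ω ∈ bx X, ‖T ω - M3z Q Z X px.1 C0 Cc ω‖ ^ 2 ≤
        4 * (‖T ω - T3z Q Z X Cc (fun n => ((lp (B23.eval (n : ℤ)) : ℝ) : ℂ)) ω‖ ^ 2 +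
          ‖T3z Q Z X Cc (fun n => ((lp (B23.eval (n : ℤ)) : ℝ) : ℂ)) ω -
            T3z Q Z X Cc (fun n => ((Lk (Q ^ 100) ((2 * Z - 3) / (Q ^ 100) ^ 2) (B23.eval (n : ℤ)) : ℝ) : ℂ)) ω‖ ^ 2 +
          ‖T3z Q Z X Cc (fun n => ((Lk (Q ^ 100) ((2 * Z - 3) / (Q ^ 100) ^ 2) (B23.eval (n : ℤ)) : ℝ) : ℂ)) ω -
            T3z Q Z X Cc (gB Q Z B23 C0) ω‖ ^ 2 +
          ‖T3z Q Z X Cc (gB Q Z B23 C0) ω - M3z Q Z X px.1 C0 Cc ω‖ ^ 2) := by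
      intro ω _
      refine le_trans (le_of_eq ?_) (m5_four _ _ _ _)
      congr 2
      ring
    refine (Finset.sum_le_sum k1).trans ?_
    rw [← Finset.mul_sum, Finset.sum_add_distrib, Finset.sum_add_distrib, Finset.sum_add_distrib]
    have k2 : (Q : ℝ) ^ (-c1) = (Q : ℝ) ^ (cm / 2) * (Q : ℝ) ^ (-cm) := by
      rw [← Real.rpow_add hQr0, hc1]
      congr 1
      ring
    have k3 := hlog Q q7
    rw [Real.rpow_zero, mul_one] at k3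
    have k4 : 0 ≤ (X : ℝ) * (Z : ℝ) ^ 2 * (Q : ℝ) ^ (-cm) := mul_nonneg hV0 (Real.rpow_nonneg hQr0.le _)
    have k5 := mul_le_mul_of_nonneg_right k3 k4
    rw [k2]
    linarith
  have hTpos : 0 < (Z : ℝ) * (Q : ℝ) ^ (-(c1 / 4)) := by positivity
  have hch := z4_cheb (bx X) (fun ω => ‖T ω - M3z Q Z X px.1 C0 Cc ω‖) _ _ hTpos hms (fun _ => norm_nonneg _)
  refine ⟨_, filter_subset _ _, hch.trans ?_, ?_⟩
  · have k1 : ((Z : ℝ) * (Q : ℝ) ^ (-(c1 / 4))) ^ 2 = (Z : ℝ) ^ 2 * (Q : ℝ) ^ (-(c1 / 2)) := by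
      rw [mul_pow, ← Real.rpow_natCast ((Q : ℝ) ^ (-(c1 / 4))), ← Real.rpow_mul hQr0.le]
      congr 2
      push_cast
      ring
    have k2 : (Q : ℝ) ^ (-c1) = (Q : ℝ) ^ (-(c1 / 2)) * (Q : ℝ) ^ (-(c1 / 2)) := by
      rw [← Real.rpow_add hQr0]
      congr 1
      ring
    have k3 : (0 : ℝ) < (Q : ℝ) ^ (-(c1 / 2)) := Real.rpow_pos_of_pos hQr0 _
    have k4 : (X : ℝ) * (Z : ℝ) ^ 2 * (Q : ℝ) ^ (-c1) / ((Z : ℝ) * (Q : ℝ) ^ (-(c1 / 4))) ^ 2 =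
        X * (Q : ℝ) ^ (-(c1 / 2)) := by
      rw [k1, k2]
      field_simp
    rw [k4]
    exact mul_le_mul_of_nonneg_left (Real.rpow_le_rpow_of_exponent_le hQr (by linarith)) hXr
  · intro ω hω hbad m0 hm0
    rw [mem_filter, not_and, not_lt] at hbad
    have k1 := hbad hω
    have hlc : B23.leadingCoeff.natAbs = 2 := by rw [D0_lin.2.1]; rfl
    have hcond := (hsize Q q6 px.1 2 (by norm_num) le_rfl hpx100).1
    have hq800 : Q ^ 800 ∣ Z := hG.dvdZ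
    have hH800 : 0 < Z / Q ^ 800 := Nat.div_pos (Nat.le_of_dvd hZpos hq800) (Nat.pow_pos (by omega))
    have hcell : ∀ n ∈ Ico Z (2 * Z), m0 / 2 ≤
        (MDf Q (B23.leadingCoeff.natAbs * px.1) (Fin.cons (C0 (B23.eval ((bs (Z / Q ^ 800) n : ℕ) : ℤ)))
          (fun i : Fin 2 => Cc (fp8 Q Z X ω n i)) : Fin 3 → Ch → ℂ) (sy B23 (L2.map ω))).re := by
      intro n hn
      have d1 := (v1a_bs (Z / Q ^ 800) (Q ^ 800) n Z hH800 (Nat.div_mul_cancel hq800).symm hn).1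
      have d2 : ((2 * Z - 3 : ℕ) : ℤ) ≤ B23.eval ((bs (Z / Q ^ 800) n : ℕ) : ℤ) ∧
          B23.eval ((bs (Z / Q ^ 800) n : ℕ) : ℤ) ≤ 4 * ((2 * Z - 3 : ℕ) : ℤ) := by
        have d3 := hGB.lo _ d1
        have d4 := hGB.hi _ d1
        refine ⟨d3, ?_⟩
        have d5 : (0 : ℤ) ≤ ((2 * Z - 3 : ℕ) : ℤ) := Int.natCast_nonneg _
        linarith
      have hval : ∀ i, (X : ℤ) ≤ fp8 Q Z X ω n i ∧ fp8 Q Z X ω n i ≤ 4 * X := by
        intro i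
        have d3 := (M1_geo q0 hG ω hω n hn i).2.1
        exact ⟨d3.1, d3.2.le⟩
      refine Z3_cell Q (B23.leadingCoeff.natAbs * px.1) q0 η E0 px hpx hM.real (dvd_mul_left _ _) ?_ ?_ hM.eta_pos hE0
        ?_ (sy B23 (L2.map ω))
        (Fin.cons (th (B23.eval ((bs (Z / Q ^ 800) n : ℕ) : ℤ))) (fun i : Fin 2 => th (fp8 Q Z X ω n i)) : Fin 3 → ℝ)
        ?_ ?_ ?_
        (Fin.cons (e0 (B23.eval ((bs (Z / Q ^ 800) n : ℕ) : ℤ))) (fun i : Fin 2 => e1 (fp8 Q Z X ω n i)) :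
          Fin 3 → Ch → ℂ) _ ?_ ?_ m0 hm0
      · rw [hlc]
        have := (mem_PC.1 hpx).1
        omega
      · rw [hlc]
        exact hcond
      · push_cast
        linarith
      · intro i
        refine Fin.cases ?_ (fun i => ?_) i
        · exact hM0.nonneg _ d2.1 d2.2
        · exact hM.nonneg _ (hval i).1 (hval i).2
      · intro i
        refine Fin.cases ?_ (fun i => ?_) i
        · exact hM0.le _ d2.1 d2.2
        · exact hM.le _ (hval i).1 (hval i).2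
      · intro h0 i
        refine Fin.cases ?_ (fun i => ?_) i
        · exact hM.triv h0 _
        · exact hM.triv h0 _
      · intro i
        refine Fin.cases ?_ (fun i => ?_) i
        · refine le_trans (Finset.sum_le_sum fun p hp => a3 _ d2.1 d2.2 p (m5_PC q0 hp)) (le_trans ?_ a2)
          exact Finset.sum_le_sum_of_subset_of_nonneg (fun p hp => m5_PC q0 hp) fun p hp _ => a1 p hp
        · exact (Finset.sum_le_sum fun p hp => b3 _ (hval i).1 (hval i).2 p hp).trans b2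
      · intro i p
        refine Fin.cases ?_ (fun i => ?_) i
        · show C0 _ p = _
          rw [hC0]
          rfl
        · show Cc _ p = _
          rw [hCc]
          rfl
    have hZ4 : Z * (m0 / 2) ≤ (M3z Q Z X px.1 C0 Cc ω).re := by
      unfold M3z
      rw [Complex.re_sum]
      have k2 := Finset.sum_le_sum hcell
      rw [Finset.sum_const, Nat.card_Ico, nsmul_eq_mul] at k2
      have k3 : 2 * Z - Z = Z := by omega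
      rw [k3] at k2
      exact k2
    have k5 : (M3z Q Z X px.1 C0 Cc ω).re - (T ω).re ≤ Z * (Q : ℝ) ^ (-(c1 / 4)) := by
      refine le_trans ?_ k1
      have k6 := Complex.abs_re_le_norm (T ω - M3z Q Z X px.1 C0 Cc ω)
      refine le_trans ?_ k6
      rw [Complex.sub_re]
      have k7 := neg_abs_le ((T ω).re - (M3z Q Z X px.1 C0 Cc ω).re)
      linarith
    have k8 : (T ω).re = ∑ y ∈ Ico Z (2 * Z), KL Q X (ω 0) y * lp (2 * (y : ℤ) - 3) := by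
      rw [hT, M5_T3w, Complex.ofReal_re]
    rw [k8] at k5
    have k9 : (Z : ℝ) * (m0 / 2 - (Q : ℝ) ^ (-(c1 / 4))) = Z * (m0 / 2) - Z * (Q : ℝ) ^ (-(c1 / 4)) := by ring
    rw [k9]
    linarith

end Pool.Agent.Lib.H24Q
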