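import Pool.Agent.Lib.H24Q.R8

/-!
# Project H24Q, chunk R9 (M): lower bounds for the main term of the system with the linear coordinate
-/

open Finset Polynomial

namespace Pool.Agent.Lib.H24Q

open Pool.Agent.Lib.H68T Pool.Agent.Lib.H18Q Pool.Agent.Lib.H59P Pool.Agent.Lib.H24P

/-- **R9.** Proof. As `C1_exc` (`H24Q/C1.lean`) for the maps `sy B (φ ω)` (`k + 1` coordinates; `R1_cp`; the bounds of `tpf` are
`FamW.tp`), with `R8_tw` (some `i.succ ∈ Bs`) and `R8_lin` (`Bs = {0}`) instead of `C1_MR`. `c2 = min c c'`, `c'` from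
`R8_lin`. -/
theorem R9_exc (k A : ℕ) (hA : 1 ≤ A) (C c : ℝ) (hC : 1 ≤ C) (hc : 0 < c) : ∃ c2 : ℝ, 0 < c2 ∧
    ∀ c6 ε : ℝ, 0 < c6 → 0 < ε → ∃ Q0 : ℕ, ∀ Q : ℕ, Q0 ≤ Q → ∀ B : ℤ[X], Lin A B →
    ∀ (H0 : ℕ) (Ω : Type) (S : Finset Ω) (φ : Ω → Fin k → ℤ → ℤ), FamW C c Q H0 B S φ →
    ∀ (r : ℕ) [NeZero r] (ψ : DirichletCharacter ℂ r) (β η : ℝ), r ^ 100 ≤ Q →
    ψ.IsPrimitive → ψ ≠ 1 → ψ ^ 2 = 1 → β < 1 → ψ.LFunction (β : ℂ) = 0 → 1 - β ≤ 2 * η → η ≤ 1 →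
    (((r : ℝ) ≤ (Q : ℝ) ^ c6 → ∀ ω ∈ S, NoFix (sy B (φ ω)) → ∀ th' : Fin (k + 1) → ℝ,
        (∀ i, 0 ≤ th' i) → (∀ i, th' i ≤ 1 - η) →
        (Q : ℝ) ^ (-((k + 1) * c6 + ε)) ≤ PMf Q ⟨r, ψ⟩ th' (sy B (φ ω))) ∧
      ((Q : ℝ) ^ c6 < r → ∃ Bad : Finset Ω, Bad ⊆ S ∧
        (Bad.card : ℝ) ≤ S.card * (Q : ℝ) ^ (-(c2 * c6 / 2)) ∧
        ∀ ω ∈ S, ω ∉ Bad → NoFix (sy B (φ ω)) → ∀ th' : Fin (k + 1) → ℝ, (∀ i, 0 ≤ th' i) →
          (∀ i, th' i ≤ 1 - η) → (Q : ℝ) ^ (-ε) ≤ PMf Q ⟨r, ψ⟩ th' (sy B (φ ω)))) := by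
  classical
  obtain ⟨C2, c2', hC2, hc2', hlin⟩ := R8_lin k A hA C c hC hc
  obtain ⟨C', c', hC', hc', hlow⟩ := C1_low (k + 1) C hC
  obtain ⟨m, hm⟩ : ∃ m : ℕ, m = k + 1 := ⟨_, rfl⟩
  have hmR : (m : ℝ) = (k : ℝ) + 1 := by rw [hm]; push_cast; rfl
  obtain ⟨c2, hc2⟩ : ∃ c2 : ℝ, c2 = min c c2' := ⟨_, rfl⟩
  have hc20 : 0 < c2 := by rw [hc2]; exact lt_min hc hc2'
  have hc2a : c2 ≤ c := by rw [hc2]; exact min_le_left _ _
  have hc2b : c2 ≤ c2' := by rw [hc2]; exact min_le_right _ _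
  refine ⟨c2, hc20, fun c6 ε hc6 hε => ?_⟩
  rw [← hmR]
  have h2c : 0 < (2 : ℝ) ^ c := Real.rpow_pos_of_pos (by norm_num) _
  obtain ⟨c0, hc0, hzero⟩ := zero_lower
  have hKpos : 0 < (c0 / 2) ^ m * c' := by positivity
  obtain ⟨Q1, hQ12, hs1⟩ := c1_small ((c0 / 2) ^ m * c') (2 * m + C') ε hε hKpos
  obtain ⟨Q2, hQ22, hs2⟩ := c1_small (1 / 2 * c') C' ε hε (by positivity)
  obtain ⟨Q3, hQ31, hs3⟩ := G1_rlog (2 ^ m * (4 * C * 2 ^ c + C2) * (2 ^ (m + 1) / c') ^ 2)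
    ((C + 2 + C2) + 2 * C') (c2 * c6 / 2)
    (by positivity)
  refine ⟨max Q1 (max Q2 Q3), ?_⟩
  intro Q hQ B hB H0 Ω S φ hF r _ ψ β η hr100 hprim hψ1 hψ2 hβ hL hη hη1
  have hQQ1 : Q1 ≤ Q := (le_max_left _ _).trans hQ
  have hQQ2 : Q2 ≤ Q := (le_max_left _ _).trans ((le_max_right _ _).trans hQ)
  have hQQ3 : Q3 ≤ Q := (le_max_right _ _).trans ((le_max_right _ _).trans hQ)
  have hQ2 : 2 ≤ Q := hQ12.trans hQQ1
  have hQR : (2 : ℝ) ≤ Q := by exact_mod_cast hQ2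
  have hQ0 : (0 : ℝ) < Q := by linarith
  have hlog : 0 ≤ Real.log Q := Real.log_natCast_nonneg Q
  have hr0 : 0 < r := Nat.pos_of_ne_zero (NeZero.ne r)
  have hrQ : r ≤ Q := (Nat.le_self_pow (by norm_num) r).trans hr100
  have hr2 : 2 ≤ r := by
    by_contra h
    have : r = 1 := by omega
    subst this
    exact hψ1 (DirichletCharacter.level_one ψ)
  have hrR : (2 : ℝ) ≤ r := by exact_mod_cast hr2
  have hrR0 : (0 : ℝ) < r := by linarith
  have hη0 : 0 < η := by linarith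
  have hpx : (⟨r, ψ⟩ : Ch) ∈ PC Q := mem_PC.2 ⟨hr0, hrQ, hprim⟩
  have hLpos : 0 < 1 + Real.log Q := by linarith
  constructor
  · intro hrc ω hω hN th' h0 h1
    have hcp := R1_cp B (φ ω) (hF.cp ω hω)
    have h2 := P5_eta (sy B (φ ω)) hcp Q ⟨r, ψ⟩ hψ2 η hη0.le th' h0 h1
    refine le_trans ?_ h2
    have h3 := hlow (sy B (φ ω)) hcp (hF.tp ω hω) hN Q hQ2 (pr Q) (Finset.Subset.refl _)
    have h4 : c0 / (r * (1 + Real.log r) ^ 2) ≤ 1 - β := hzero r ψ hψ1 hψ2 β hβ hL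
    have hlogr : Real.log r ≤ Real.log Q := Real.log_le_log hrR0 (by exact_mod_cast hrQ)
    have hlogr0 : 0 ≤ Real.log r := Real.log_natCast_nonneg r
    have h5 : (c0 / 2) * ((Q : ℝ) ^ (-c6) * (1 + Real.log Q) ^ (-(2 : ℝ))) ≤ η := by
      have h6 : (r : ℝ) * (1 + Real.log r) ^ 2 ≤ (Q : ℝ) ^ c6 * (1 + Real.log Q) ^ 2 := by
        refine mul_le_mul hrc ?_ (by positivity) (by positivity)
        exact pow_le_pow_left₀ (by linarith) (by linarith) 2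
      have h7 : c0 / ((Q : ℝ) ^ c6 * (1 + Real.log Q) ^ 2) ≤ c0 / (r * (1 + Real.log r) ^ 2) :=
        div_le_div_of_nonneg_left hc0.le (by positivity) h6
      have h8 : (c0 / 2) * ((Q : ℝ) ^ (-c6) * (1 + Real.log Q) ^ (-(2 : ℝ))) =
          c0 / ((Q : ℝ) ^ c6 * (1 + Real.log Q) ^ 2) / 2 := by
        rw [Real.rpow_neg hQ0.le, Real.rpow_neg hLpos.le, Real.rpow_two]
        have : (Q : ℝ) ^ c6 ≠ 0 := (Real.rpow_pos_of_pos hQ0 _).ne'
        field_simp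
      rw [h8]
      linarith
    have h9 : ((c0 / 2) * ((Q : ℝ) ^ (-c6) * (1 + Real.log Q) ^ (-(2 : ℝ)))) ^ m *
        (c' * (1 + Real.log Q) ^ (-C')) ≤ η ^ m * SSf (pr Q) (sy B (φ ω)) := by
      refine mul_le_mul (pow_le_pow_left₀ (by positivity) h5 m) h3 (by positivity) (by positivity)
    have hpow : η ^ m = η ^ (k + 1) := by rw [hm]
    rw [hpow] at h9
    refine le_trans ?_ h9
    have h10 := hs1 Q hQQ1
    have h11 : (Q : ℝ) ^ (-(m * c6 + ε)) = (Q : ℝ) ^ (-(m * c6 : ℝ)) * (Q : ℝ) ^ (-ε) := by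
      rw [← Real.rpow_add hQ0]
      congr 1
      ring
    rw [h11]
    have h12 : ((c0 / 2) * ((Q : ℝ) ^ (-c6) * (1 + Real.log Q) ^ (-(2 : ℝ)))) ^ m *
        (c' * (1 + Real.log Q) ^ (-C')) = (Q : ℝ) ^ (-(m * c6 : ℝ)) *
          ((c0 / 2) ^ m * c' * (1 + Real.log Q) ^ (-(2 * m + C' : ℝ))) := by
      have e1 : ((Q : ℝ) ^ (-c6)) ^ m = (Q : ℝ) ^ (-(m * c6 : ℝ)) := by
        rw [← Real.rpow_natCast, ← Real.rpow_mul hQ0.le]
        congr 1
        ring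
      have e2 : ((1 + Real.log Q) ^ (-(2 : ℝ))) ^ m = (1 + Real.log Q) ^ (-(2 * m : ℝ)) := by
        rw [← Real.rpow_natCast, ← Real.rpow_mul hLpos.le]
        congr 1
        ring
      have e3 : (1 + Real.log Q) ^ (-(2 * m + C' : ℝ)) =
          (1 + Real.log Q) ^ (-(2 * m : ℝ)) * (1 + Real.log Q) ^ (-C') := by
        rw [← Real.rpow_add hLpos]
        congr 1
        ring
      rw [mul_pow, mul_pow, e1, e2, e3]
      ring
    rw [h12]
    exact mul_le_mul_of_nonneg_left h10 (by positivity)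
  · intro hrc
    set t : ℝ := c' * (1 + Real.log Q) ^ (-C') with ht
    have ht0 : 0 < t := by positivity
    set Bad : Finset Ω := S.filter (fun ω => ∃ Bs : Finset (Fin (k + 1)), Bs.Nonempty ∧
      t < 2 ^ (m + 1) * ‖MRf (pB ⟨r, ψ⟩ Bs) r (sy B (φ ω))‖) with hBad
    refine ⟨Bad, Finset.filter_subset _ _, ?_, ?_⟩
    · -- the number of the exceptions
      have hrR1 : (1 : ℝ) ≤ r := by linarith
      have hL1 : 1 ≤ 1 + Real.log Q := by linarith
      have hms : ∀ Bs : Finset (Fin (k + 1)), Bs.Nonempty → ∑ ω ∈ S, ‖MRf (pB ⟨r, ψ⟩ Bs) r (sy B (φ ω))‖ ^ 2 ≤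
          (4 * C * 2 ^ c + C2) * (1 + Real.log Q) ^ (C + 2 + C2) * S.card * (r : ℝ) ^ (-c2) := by
        intro Bs hBs
        have g1 : 0 ≤ (1 + Real.log Q) ^ (C + 2 + C2) * S.card * (r : ℝ) ^ (-c2) := by positivity
        by_cases hex : ∃ i : Fin k, i.succ ∈ Bs
        · refine (R8_tw hC hc hB hF.fw1 hF.cp ⟨r, ψ⟩ hpx hr2 Bs hex).trans ?_
          have g2 : (1 + Real.log Q) ^ (C + 2) ≤ (1 + Real.log Q) ^ (C + 2 + C2) :=
            Real.rpow_le_rpow_of_exponent_le hL1 (by linarith)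
          have g3 : (r : ℝ) ^ (-c) ≤ (r : ℝ) ^ (-c2) := Real.rpow_le_rpow_of_exponent_le hrR1 (by linarith)
          calc 4 * C * 2 ^ c * (1 + Real.log Q) ^ (C + 2) * S.card * (r : ℝ) ^ (-c)
              ≤ 4 * C * 2 ^ c * (1 + Real.log Q) ^ (C + 2 + C2) * S.card * (r : ℝ) ^ (-c2) := by gcongr
            _ = 4 * C * 2 ^ c * ((1 + Real.log Q) ^ (C + 2 + C2) * S.card * (r : ℝ) ^ (-c2)) := by ring
            _ ≤ (4 * C * 2 ^ c + C2) * ((1 + Real.log Q) ^ (C + 2 + C2) * S.card * (r : ℝ) ^ (-c2)) :=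
                mul_le_mul_of_nonneg_right (by linarith) g1
            _ = _ := by ring
        · have hBs0 : Bs = {0} := by
            ext i
            rw [Finset.mem_singleton]
            constructor
            · intro hi
              refine Fin.cases (fun _ => rfl) (fun j hj => absurd ⟨j, hj⟩ hex) i hi
            · rintro rfl
              obtain ⟨i, hi⟩ := hBs
              have h5 : i = 0 := Fin.cases (motive := fun i => i ∈ Bs → i = 0) (fun _ => rfl)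
                (fun j hj => absurd ⟨j, hj⟩ hex) i hi
              rwa [h5] at hi
          rw [hBs0]
          refine (hlin Q H0 B (by omega) hB Ω S φ hF.fw1 hF.cp ⟨r, ψ⟩ hpx hr2).trans ?_
          have g2 : (1 + Real.log Q) ^ C2 ≤ (1 + Real.log Q) ^ (C + 2 + C2) :=
            Real.rpow_le_rpow_of_exponent_le hL1 (by linarith)
          have g3 : (r : ℝ) ^ (-c2') ≤ (r : ℝ) ^ (-c2) := Real.rpow_le_rpow_of_exponent_le hrR1 (by linarith)
          have g4 : 0 ≤ 4 * C * 2 ^ c := by positivity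
          calc C2 * (1 + Real.log Q) ^ C2 * S.card * (r : ℝ) ^ (-c2')
              ≤ C2 * (1 + Real.log Q) ^ (C + 2 + C2) * S.card * (r : ℝ) ^ (-c2) := by gcongr
            _ = C2 * ((1 + Real.log Q) ^ (C + 2 + C2) * S.card * (r : ℝ) ^ (-c2)) := by ring
            _ ≤ (4 * C * 2 ^ c + C2) * ((1 + Real.log Q) ^ (C + 2 + C2) * S.card * (r : ℝ) ^ (-c2)) :=
                mul_le_mul_of_nonneg_right (by linarith) g1
            _ = _ := by ring
      set X : ℝ := (4 * C * 2 ^ c + C2) * (1 + Real.log Q) ^ (C + 2 + C2) * S.card * (r : ℝ) ^ (-c2) with hX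
      have hX0 : 0 ≤ X := by positivity
      have hpt : ∀ ω ∈ Bad, (t / 2 ^ (m + 1)) ^ 2 ≤ ∑ Bs ∈ (univ : Finset (Finset (Fin (k + 1)))).filter
          (fun Bs => Bs.Nonempty), ‖MRf (pB ⟨r, ψ⟩ Bs) r (sy B (φ ω))‖ ^ 2 := by
        intro ω hω
        rw [hBad, Finset.mem_filter] at hω
        obtain ⟨-, Bs, hBs, hlt⟩ := hω
        have h1 : t / 2 ^ (m + 1) ≤ ‖MRf (pB ⟨r, ψ⟩ Bs) r (sy B (φ ω))‖ := by
          rw [div_le_iff₀ (by positivity)]
          linarith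
        refine (pow_le_pow_left₀ (by positivity) h1 2).trans ?_
        exact Finset.single_le_sum (f := fun Bs => ‖MRf (pB ⟨r, ψ⟩ Bs) r (sy B (φ ω))‖ ^ 2)
          (fun _ _ => sq_nonneg _) (Finset.mem_filter.2 ⟨Finset.mem_univ Bs, hBs⟩)
      have h1 : (Bad.card : ℝ) * (t / 2 ^ (m + 1)) ^ 2 ≤ 2 ^ m * X := by
        calc (Bad.card : ℝ) * (t / 2 ^ (m + 1)) ^ 2 = ∑ _ω ∈ Bad, (t / 2 ^ (m + 1)) ^ 2 := by
              rw [Finset.sum_const, nsmul_eq_mul]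
          _ ≤ ∑ ω ∈ Bad, ∑ Bs ∈ (univ : Finset (Finset (Fin (k + 1)))).filter
              (fun Bs => Bs.Nonempty), ‖MRf (pB ⟨r, ψ⟩ Bs) r (sy B (φ ω))‖ ^ 2 := Finset.sum_le_sum hpt
          _ ≤ ∑ ω ∈ S, ∑ Bs ∈ (univ : Finset (Finset (Fin (k + 1)))).filter
              (fun Bs => Bs.Nonempty), ‖MRf (pB ⟨r, ψ⟩ Bs) r (sy B (φ ω))‖ ^ 2 :=
              Finset.sum_le_sum_of_subset_of_nonneg (Finset.filter_subset _ _)
                fun _ _ _ => Finset.sum_nonneg fun _ _ => sq_nonneg _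
          _ = ∑ Bs ∈ (univ : Finset (Finset (Fin (k + 1)))).filter
              (fun Bs => Bs.Nonempty), ∑ ω ∈ S, ‖MRf (pB ⟨r, ψ⟩ Bs) r (sy B (φ ω))‖ ^ 2 := Finset.sum_comm
          _ ≤ ∑ Bs ∈ (univ : Finset (Finset (Fin (k + 1)))).filter (fun Bs => Bs.Nonempty), X :=
              Finset.sum_le_sum fun Bs hBs => hms Bs (Finset.mem_filter.1 hBs).2
          _ ≤ 2 ^ m * X := by
              rw [Finset.sum_const, nsmul_eq_mul]
              refine mul_le_mul_of_nonneg_right ?_ hX0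
              have h2 := Finset.card_filter_le (univ : Finset (Finset (Fin (k + 1)))) (fun Bs => Bs.Nonempty)
              rw [Finset.card_univ, Fintype.card_finset, Fintype.card_fin] at h2
              have h2m : (2 : ℝ) ^ m = ((2 ^ (k + 1) : ℕ) : ℝ) := by
                rw [hm]
                push_cast
                rfl
              rw [h2m]
              exact_mod_cast h2
      have h2 : (Bad.card : ℝ) ≤ 2 ^ m * X * (2 ^ (m + 1) / t) ^ 2 := by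
        have e : (t / 2 ^ (m + 1)) ^ 2 * (2 ^ (m + 1) / t) ^ 2 = 1 := by
          rw [← mul_pow]
          have : t / 2 ^ (m + 1) * (2 ^ (m + 1) / t) = 1 := by
            field_simp
          rw [this, one_pow]
        calc (Bad.card : ℝ) = (Bad.card : ℝ) * (t / 2 ^ (m + 1)) ^ 2 * (2 ^ (m + 1) / t) ^ 2 := by
              rw [mul_assoc, e, mul_one]
          _ ≤ _ := mul_le_mul_of_nonneg_right h1 (sq_nonneg _)
      refine h2.trans ?_
      have h3 : (r : ℝ) ^ (-c2) ≤ (Q : ℝ) ^ (-(c2 * c6)) := by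
        have e : (Q : ℝ) ^ (-(c2 * c6)) = ((Q : ℝ) ^ c6) ^ (-c2) := by
          rw [← Real.rpow_mul hQ0.le]
          congr 1
          ring
        rw [e]
        exact Real.rpow_le_rpow_of_nonpos (Real.rpow_pos_of_pos hQ0 _) hrc.le (by linarith)
      have h4 : 2 ^ m * X * (2 ^ (m + 1) / t) ^ 2 = (2 ^ m * (4 * C * 2 ^ c + C2) * (2 ^ (m + 1) / c') ^ 2 *
          (1 + Real.log Q) ^ ((C + 2 + C2) + 2 * C')) * (S.card * (r : ℝ) ^ (-c2)) := by
        have e1 : (1 + Real.log Q) ^ ((C + 2 + C2) + 2 * C') = (1 + Real.log Q) ^ (C + 2 + C2) * ((1 + Real.log Q) ^ C') ^ 2 := by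
          rw [Real.rpow_add hLpos, ← Real.rpow_natCast ((1 + Real.log Q) ^ C') 2, ← Real.rpow_mul hLpos.le]
          congr 2
          push_cast
          ring
        have hne : (1 + Real.log Q) ^ C' ≠ 0 := (Real.rpow_pos_of_pos hLpos _).ne'
        rw [e1, hX, ht, Real.rpow_neg hLpos.le]
        field_simp
      rw [h4]
      have h5 := hs3 Q hQQ3
      calc (2 ^ m * (4 * C * 2 ^ c + C2) * (2 ^ (m + 1) / c') ^ 2 * (1 + Real.log Q) ^ ((C + 2 + C2) + 2 * C')) *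
            (S.card * (r : ℝ) ^ (-c2))
          ≤ (Q : ℝ) ^ (c2 * c6 / 2) * (S.card * (Q : ℝ) ^ (-(c2 * c6))) := by
            refine mul_le_mul h5 (mul_le_mul_of_nonneg_left h3 (Nat.cast_nonneg _)) (by positivity)
              (by positivity)
        _ = S.card * ((Q : ℝ) ^ (c2 * c6 / 2) * (Q : ℝ) ^ (-(c2 * c6))) := by ring
        _ = S.card * (Q : ℝ) ^ (-(c2 * c6 / 2)) := by
            rw [← Real.rpow_add hQ0]
            congr 2
            ring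
    · intro ω hω hωB hN th' h0 h1
      have hcp := R1_cp B (φ ω) (hF.cp ω hω)
      have hsub : r.primeFactors ⊆ pr Q := by
        intro l hl
        rw [p5_mem_pr]
        exact ⟨Nat.prime_of_mem_primeFactors hl, (Nat.le_of_mem_primeFactors hl).trans hrQ⟩
      have h2 := hlow (sy B (φ ω)) hcp (hF.tp ω hω) hN Q hQ2 r.primeFactors hsub
      have h3 := P5_X2 (sy B (φ ω)) hcp Q ⟨r, ψ⟩ hpx hψ2 th' h0 (fun i => (h1 i).trans (by linarith)) (by
        intro Bs hBs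
        by_contra hcon
        apply hωB
        rw [hBad, Finset.mem_filter]
        refine ⟨hω, Bs, hBs, ?_⟩
        push Not at hcon
        have hp1 : (2 : ℝ) ^ (m + 1) = 2 ^ (k + 1 + 1) := by rw [hm]
        rw [hp1]
        exact lt_of_le_of_lt h2 hcon)
      refine le_trans ?_ h3
      have h4 := hlow (sy B (φ ω)) hcp (hF.tp ω hω) hN Q hQ2 (pr Q) (Finset.Subset.refl _)
      have h5 := hs2 Q hQQ2
      linarith


end Pool.Agent.Lib.H24Q
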