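import Pool.Agent.Lib.H24Q.M1
import Pool.Agent.Lib.H24Q.C1
import Pool.Agent.Lib.H24Q.R9

/-!
# Project H24Q, chunk M6 (S/M): no fixed divisor for the three-fold count, lower bounds for the main term
-/

open Finset Polynomial

namespace Pool.Agent.Lib.H24Q

open Pool.Agent.Lib.H68T Pool.Agent.Lib.H18Q Pool.Agent.Lib.H59P Pool.Agent.Lib.H24P

theorem m6_e0 (ω : Fin 1 → ℕ) (n : ℤ) : sy B23 (L2.map ω) 0 n = 2 * n - 3 := d0_lin n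

theorem m6_e1 (ω : Fin 1 → ℕ) (n : ℤ) : sy B23 (L2.map ω) 1 n = ω 0 + n := by
  have h : sy B23 (L2.map ω) 1 n = 1 * (ω 0 : ℤ) + 1 * n + 0 := rfl
  rw [h]
  ring

theorem m6_e2 (ω : Fin 1 → ℕ) (n : ℤ) : sy B23 (L2.map ω) 2 n = ω 0 - n := by
  have h : sy B23 (L2.map ω) 2 n = 1 * (ω 0 : ℤ) + (-1) * n + 0 := rfl
  rw [h]
  ring

theorem m6_all (ω : Fin 1 → ℕ) (l : ℕ) (n : ℤ) (h0 : ¬ (l : ℤ) ∣ 2 * n - 3) (h1 : ¬ (l : ℤ) ∣ ω 0 + n)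
    (h2 : ¬ (l : ℤ) ∣ ω 0 - n) : ∀ i, ¬ (l : ℤ) ∣ sy B23 (L2.map ω) i n := by
  intro i
  fin_cases i
  · exact fun h => h0 (m6_e0 ω n ▸ h)
  · exact fun h => h1 (m6_e1 ω n ▸ h)
  · exact fun h => h2 (m6_e2 ω n ▸ h)

theorem m6_diff (ω : Fin 1 → ℕ) (i : Fin 3) (a b : ℤ) :
    sy B23 (L2.map ω) i a - sy B23 (L2.map ω) i b = 2 * (a - b) ∨
    sy B23 (L2.map ω) i a - sy B23 (L2.map ω) i b = a - b ∨
    sy B23 (L2.map ω) i a - sy B23 (L2.map ω) i b = -(a - b) := by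
  fin_cases i
  · refine Or.inl ?_
    have h1 := m6_e0 ω a
    have h2 := m6_e0 ω b
    show sy B23 (L2.map ω) 0 a - sy B23 (L2.map ω) 0 b = _
    rw [h1, h2]
    ring
  · refine Or.inr (Or.inl ?_)
    have h1 := m6_e1 ω a
    have h2 := m6_e1 ω b
    show sy B23 (L2.map ω) 1 a - sy B23 (L2.map ω) 1 b = _
    rw [h1, h2]
    ring
  · refine Or.inr (Or.inr ?_)
    have h1 := m6_e2 ω a
    have h2 := m6_e2 ω b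
    show sy B23 (L2.map ω) 2 a - sy B23 (L2.map ω) 2 b = _
    rw [h1, h2]
    ring

theorem m6_card (X : ℕ) : ((bx X).card : ℝ) = X := by
  unfold bx cub
  rw [Fintype.card_piFinset]
  simp only [Nat.card_Ico]
  rw [Fin.prod_univ_one]
  congr 1
  omega

/-- Proof. Let `l` be a prime; choose `n` modulo `l`. `l = 2`: `n = x + 1` (`2n - 3` is odd). `l = 3`: `n = 1`
(`x ± 1`, `-1`, as `3 ∣ x`). `l ≥ 5`: the at most three classes `x`, `-x`, `3/2` do not cover all. -/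
theorem M6_fix (ω : Fin 1 → ℕ) (h3 : 3 ∣ ω 0) : NoFix (sy B23 (L2.map ω)) := by
  intro l hl
  have hl2 := hl.two_le
  rcases Nat.lt_or_ge l 5 with h5 | h5
  · interval_cases l
    · refine ⟨ω 0 + 1, m6_all ω _ _ ?_ ?_ ?_⟩
      · omega
      · omega
      · omega
    · obtain ⟨c, hc⟩ := h3
      refine ⟨1, m6_all ω _ _ ?_ ?_ ?_⟩
      · omega
      · rw [hc]
        push_cast
        omega
      · rw [hc]
        push_cast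
        omega
    · exact absurd hl (by norm_num)
  · by_contra hno
    push Not at hno
    choose f hf using fun n : Fin 4 => hno ((n : ℕ) : ℤ)
    obtain ⟨a, b, hab, hfab⟩ := Fintype.exists_ne_map_eq_of_card_lt f (by simp)
    have h1 := hf a
    have h2 := hf b
    rw [← hfab] at h2
    have h4 := dvd_sub h1 h2
    have hlp : Prime (l : ℤ) := Nat.prime_iff_prime_int.1 hl
    have ha := a.2
    have hb := b.2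
    have hab' : (a : ℕ) ≠ b := fun h => hab (Fin.ext h)
    have h5' : (5 : ℤ) ≤ l := by exact_mod_cast h5
    have h6 : ¬ (l : ℤ) ∣ ((a : ℕ) : ℤ) - ((b : ℕ) : ℤ) := by
      intro h
      have h7 := Int.eq_zero_of_abs_lt_dvd h (by
        rw [abs_lt]
        omega)
      omega
    have h8 : ¬ (l : ℤ) ∣ 2 := by
      intro h
      have h9 := Int.le_of_dvd (by norm_num) h
      omega
    rcases m6_diff ω (f a) ((a : ℕ) : ℤ) ((b : ℕ) : ℤ) with h7 | h7 | h7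
    · rw [h7] at h4
      rcases hlp.dvd_or_dvd h4 with h9 | h9
      · exact h8 h9
      · exact h6 h9
    · rw [h7] at h4
      exact h6 h4
    · rw [h7] at h4
      exact h6 ((dvd_neg).1 h4)

/-- First case. Proof. `C1_good` with `m = 3` (good levels; `Cp` by `R1_cp`, the bounds of `tpf` from `FamW.tp`, `FamW` from `hW`
for `S = bx X`, `Q^b0 ≤ X`), `R9_exc` first part (exceptional levels; `k = A = 2`); `Q^(-ε) ≥ Q^(-(3 c6 + ε))`. `M6_fix`. -/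
theorem M6_A (b0 : ℕ) (C c : ℝ) (hC : 1 ≤ C) (hc : 0 < c) (hW : HW C c b0 B23 L2) (c6 ε : ℝ)
    (hc6 : 0 < c6) (hε : 0 < ε) : ∃ Q0 : ℕ, ∀ (Q X : ℕ), Q0 ≤ Q → Q ^ b0 ≤ X →
    (∀ ω ∈ bx X, 3 ∣ ω 0 → ∀ th' : Fin 3 → ℝ, (∀ i, 0 ≤ th' i) → (∀ i, th' i ≤ 1 - 1) →
      (Q : ℝ) ^ (-(3 * c6 + ε)) ≤ PMf Q p0 th' (sy B23 (L2.map ω))) ∧
    ∀ (r : ℕ) [NeZero r] (ψ : DirichletCharacter ℂ r) (β η : ℝ), r ^ 100 ≤ Q →
    ψ.IsPrimitive → ψ ≠ 1 → ψ ^ 2 = 1 → β < 1 → ψ.LFunction (β : ℂ) = 0 → 1 - β ≤ 2 * η → η ≤ 1 →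
    (r : ℝ) ≤ (Q : ℝ) ^ c6 → ∀ ω ∈ bx X, 3 ∣ ω 0 → ∀ th' : Fin 3 → ℝ, (∀ i, 0 ≤ th' i) →
      (∀ i, th' i ≤ 1 - η) → (Q : ℝ) ^ (-(3 * c6 + ε)) ≤ PMf Q ⟨r, ψ⟩ th' (sy B23 (L2.map ω)) := by
  obtain ⟨Q1, h1⟩ := C1_good 3 C (3 * c6 + ε) hC (by positivity)
  obtain ⟨c2, hc2, h2⟩ := R9_exc 2 2 (by norm_num) C c hC hc
  obtain ⟨Q2, h2'⟩ := h2 c6 ε hc6 hε
  refine ⟨max 2 (max Q1 Q2), fun Q X hQ hQX => ?_⟩
  have hQ2 : 2 ≤ Q := (le_max_left _ _).trans hQ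
  have hQ1' : Q1 ≤ Q := (le_max_left _ _).trans ((le_max_right _ _).trans hQ)
  have hQ2' : Q2 ≤ Q := (le_max_right _ _).trans ((le_max_right _ _).trans hQ)
  have hfam : FamW C c Q (Q ^ b0) B23 (bx X) L2.map := hW Q hQ2 (fun _ => 2 * X) (fun _ => X) (fun _ => hQX)
  refine ⟨fun ω hω h3 th' ht0 ht1 => ?_, ?_⟩
  · exact h1 Q hQ1' (sy B23 (L2.map ω)) (R1_cp _ _ (hfam.cp ω hω)) (hfam.tp ω hω) (M6_fix ω h3) th' ht0 ht1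
  · intro r _ ψ β η hr hψ1 hψ2 hψ3 hβ hL h1β hη hrc ω hω h3 th' ht0 ht1
    have h4 := (h2' Q hQ2' B23 D0_lin.1 (Q ^ b0) (Fin 1 → ℕ) (bx X) L2.map hfam r ψ β η hr hψ1 hψ2 hψ3 hβ hL h1β
      hη).1 hrc ω hω (M6_fix ω h3) th' ht0 ht1
    have e : -((((2 : ℕ) : ℝ) + 1) * c6 + ε) = -(3 * c6 + ε) := by
      norm_num
    rw [e] at h4
    exact h4

/-- Second case. Proof. `R9_exc`, second part, for `S = bx X` (`card = X`), `M6_fix`. -/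
theorem M6_B (b0 : ℕ) (C c : ℝ) (hC : 1 ≤ C) (hc : 0 < c) (hW : HW C c b0 B23 L2) :
    ∃ c2 : ℝ, 0 < c2 ∧ ∀ c6 ε : ℝ, 0 < c6 → 0 < ε → ∃ Q0 : ℕ, ∀ (Q X : ℕ), Q0 ≤ Q → Q ^ b0 ≤ X →
    ∀ (r : ℕ) [NeZero r] (ψ : DirichletCharacter ℂ r) (β η : ℝ), r ^ 100 ≤ Q →
    ψ.IsPrimitive → ψ ≠ 1 → ψ ^ 2 = 1 → β < 1 → ψ.LFunction (β : ℂ) = 0 → 1 - β ≤ 2 * η → η ≤ 1 →
    (Q : ℝ) ^ c6 < r → ∃ Bad : Finset (Fin 1 → ℕ), Bad ⊆ bx X ∧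
      (Bad.card : ℝ) ≤ X * (Q : ℝ) ^ (-(c2 * c6 / 2)) ∧
      ∀ ω ∈ bx X, ω ∉ Bad → 3 ∣ ω 0 → ∀ th' : Fin 3 → ℝ, (∀ i, 0 ≤ th' i) →
        (∀ i, th' i ≤ 1 - η) → (Q : ℝ) ^ (-ε) ≤ PMf Q ⟨r, ψ⟩ th' (sy B23 (L2.map ω)) := by
  obtain ⟨c2, hc2, h2⟩ := R9_exc 2 2 (by norm_num) C c hC hc
  refine ⟨c2, hc2, fun c6 ε hc6 hε => ?_⟩
  obtain ⟨Q2, h2'⟩ := h2 c6 ε hc6 hε
  refine ⟨max 2 Q2, fun Q X hQ hQX => ?_⟩
  have hQ2 : 2 ≤ Q := (le_max_left _ _).trans hQ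
  have hQ2' : Q2 ≤ Q := (le_max_right _ _).trans hQ
  have hfam : FamW C c Q (Q ^ b0) B23 (bx X) L2.map := hW Q hQ2 (fun _ => 2 * X) (fun _ => X) (fun _ => hQX)
  intro r _ ψ β η hr hψ1 hψ2 hψ3 hβ hL h1β hη hrc
  obtain ⟨Bad, hB1, hB2, hB3⟩ := (h2' Q hQ2' B23 D0_lin.1 (Q ^ b0) (Fin 1 → ℕ) (bx X) L2.map hfam r ψ β η hr hψ1
    hψ2 hψ3 hβ hL h1β hη).2 hrc
  rw [m6_card] at hB2
  exact ⟨Bad, hB1, hB2, fun ω hω hωB h3 th' ht0 ht1 => hB3 ω hω hωB (M6_fix ω h3) th' ht0 ht1⟩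

end Pool.Agent.Lib.H24Q
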