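import Pool.Agent.Lib.H24Q.M5
import Pool.Agent.Lib.H24Q.M6

/-!
# Project H24Q, chunk M7 (M): the three-fold lower bounds
-/

open Finset Polynomial

namespace Pool.Agent.Lib.H24Q

open Pool.Agent.Lib.H68T Pool.Agent.Lib.H18Q Pool.Agent.Lib.H59P Pool.Agent.Lib.H24P

/-- the numerical inequality -/
theorem m7_fin (Q : ℕ) (a ε c1 : ℝ) (hQ : 1 ≤ Q) (h4 : 4 * (1 + Real.log Q) ^ (0 : ℝ) ≤ (Q : ℝ) ^ ε)
    (h : a + ε < c1) : (Q : ℝ) ^ (-(a + ε)) ≤ (Q : ℝ) ^ (-a) / 2 - (Q : ℝ) ^ (-c1) := by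
  have hQr1 : (1 : ℝ) ≤ Q := by exact_mod_cast hQ
  have hQr0 : (0 : ℝ) < Q := by linarith
  rw [Real.rpow_zero, mul_one] at h4
  have h1 : (Q : ℝ) ^ (-c1) ≤ (Q : ℝ) ^ (-(a + ε)) :=
    Real.rpow_le_rpow_of_exponent_le hQr1 (by linarith)
  have h2 : (Q : ℝ) ^ (-a) = (Q : ℝ) ^ ε * (Q : ℝ) ^ (-(a + ε)) := by
    rw [← Real.rpow_add hQr0]
    congr 1
    ring
  have h3 : 0 ≤ (Q : ℝ) ^ (-(a + ε)) := Real.rpow_nonneg hQr0.le _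
  have h5 := mul_le_mul_of_nonneg_right h4 h3
  rw [h2]
  linarith

/-- `N ≥ Q^(2 b0 + 1)` gives `9 ≤ N` and `Q^b0 ≤ Z` -/
theorem m7_geo {K : ℝ} {b0 Q N : ℕ} (hQ : 9 ≤ Q)
    (hK : max K (2 * (b0 : ℝ) + 1) * Real.log Q ≤ Real.log N) :
    K * Real.log Q ≤ Real.log N ∧ 9 ≤ N ∧ ∀ Z : ℕ, N ≤ Z ^ 2 → Q ^ b0 ≤ Z := by
  have hlQ : 0 ≤ Real.log Q := Real.log_natCast_nonneg Q
  have h1 : K * Real.log Q ≤ Real.log N :=
    (mul_le_mul_of_nonneg_right (le_max_left _ _) hlQ).trans hK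
  have h2 : (2 * (b0 : ℝ) + 1) * Real.log Q ≤ Real.log N :=
    (mul_le_mul_of_nonneg_right (le_max_right _ _) hlQ).trans hK
  have hQr : (9 : ℝ) ≤ Q := by exact_mod_cast hQ
  have hlQ1 : 0 < Real.log Q := Real.log_pos (by linarith)
  have hb : (0 : ℝ) ≤ b0 := Nat.cast_nonneg _
  have hN0 : 0 < N := by
    rcases Nat.eq_zero_or_pos N with h | h
    · rw [h, Nat.cast_zero, Real.log_zero] at h2
      nlinarith
    · exact h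
  have hNr : (0 : ℝ) < N := by exact_mod_cast hN0
  have h3 : Real.log ((Q : ℝ) ^ (2 * b0 + 1)) ≤ Real.log N := by
    rw [Real.log_pow]
    push_cast
    exact h2
  have h4 : (Q : ℝ) ^ (2 * b0 + 1) ≤ N := (Real.log_le_log_iff (by positivity) hNr).1 h3
  have h5 : Q ^ (2 * b0 + 1) ≤ N := by exact_mod_cast h4
  refine ⟨h1, ?_, ?_⟩
  · calc 9 ≤ Q := hQ
      _ ≤ Q ^ (2 * b0 + 1) := Nat.le_self_pow (by omega) Q
      _ ≤ N := h5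
  · intro Z hZ
    have h6 : (Q ^ b0) ^ 2 ≤ Z ^ 2 := by
      rw [← pow_mul, mul_comm b0 2]
      exact ((Nat.pow_le_pow_right (by omega) (by omega)).trans h5).trans hZ
    exact (Nat.pow_le_pow_iff_left (by norm_num)).1 h6

/-- from a bad set of `ω` to a bad set of `x` -/
theorem m7_bad {Q X Z : ℕ} {c b : ℝ} (Bad : Finset (Fin 1 → ℕ)) (hB : Bad ⊆ bx X)
    (hc : (Bad.card : ℝ) ≤ X * (Q : ℝ) ^ (-c))
    (h : ∀ ω ∈ bx X, ω ∉ Bad → 3 ∣ ω 0 →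
      Z * (Q : ℝ) ^ (-b) ≤ ∑ y ∈ Ico Z (2 * Z), KL Q X (ω 0) y * lp (2 * (y : ℤ) - 3)) :
    ∃ Bad : Finset ℕ, Bad ⊆ Ico (2 * X) (3 * X) ∧ (Bad.card : ℝ) ≤ X * (Q : ℝ) ^ (-c) ∧
      ∀ x ∈ Ico (2 * X) (3 * X), x ∉ Bad → 3 ∣ x →
        Z * (Q : ℝ) ^ (-b) ≤ ∑ y ∈ Ico Z (2 * Z), KL Q X x y * lp (2 * (y : ℤ) - 3) := by
  classical
  refine ⟨Bad.image (fun ω => ω 0), ?_, ?_, ?_⟩
  · intro x hx
    obtain ⟨ω, hω, rfl⟩ := mem_image.1 hx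
    have h1 := hB hω
    unfold bx cub at h1
    have h2 : 2 * X ≤ ω 0 ∧ ω 0 < 2 * X + X := mem_Ico.1 ((Fintype.mem_piFinset.1 h1) 0)
    rw [mem_Ico]
    show 2 * X ≤ ω 0 ∧ ω 0 < 3 * X
    omega
  · have h1 : ((Bad.image (fun ω => ω 0)).card : ℝ) ≤ (Bad.card : ℝ) := by
      exact_mod_cast card_image_le
    exact h1.trans hc
  · intro x hx hxB h3
    refine h (fun _ => x) ?_ ?_ h3
    · unfold bx cub
      rw [Fintype.mem_piFinset]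
      intro _
      have h2 := mem_Ico.1 hx
      rw [mem_Ico]
      show 2 * X ≤ x ∧ x < 2 * X + X
      omega
    · intro h4
      exact hxB (mem_image.2 ⟨fun _ => x, h4, rfl⟩)

/-- **M7A.** Proof. Compare `D4_A`. `M5_main` (`c1 = c'`, `K` enlarged such that `Q^b0 ≤ X`) with `E0 = 1/16`; the scales `X` and
`2Z - 3` are between `N^(1/2)` and `N²` (`M1_GeoB`), so `LvA` gives `Mdl` at the levels `Q`, `Q^100`; `M6_A`: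
`m0 = Q^(-(3 c6 + ε))`, so the sum is `≥ Z (Q^(-(3 c6 + ε))/2 - Q^(-c1)) ≥ Z Q^(-(3 c6 + 2 ε))` for `Q` large. The bad set of
`x` is the image of `Bad` under `ω ↦ ω 0` (a bijection from `bx X` to `Ico (2X) (3X)`). `G3`: `9 ≤ N` as `N ≥ Q^K`.
(`η ≤ 1` from `Mdl`.) -/
theorem M7_A (b0 : ℕ) (C c : ℝ) (hC : 1 ≤ C) (hc : 0 < c) (hW : HW C c b0 B23 L2) : Thm3A := by
  classical
  obtain ⟨c1, K, hc1, hK1, hM⟩ := M5_main b0 C c hC hc hW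
  refine ⟨c1, max K (2 * (b0 : ℝ) + 1), hc1, hK1.trans (le_max_left _ _), ?_⟩
  intro c6 ε hc6 hε hlt Cr
  obtain ⟨Q1, hM1⟩ := hM Cr
  obtain ⟨Q2, hA⟩ := M6_A b0 C c hC hc hW c6 ε hc6 hε
  obtain ⟨Q3, hQ3, h4⟩ := G1_rlog 4 0 ε hε
  refine ⟨max (max Q1 Q2) (max Q3 9), ?_⟩
  intro Q N hQ hKQ hCr hLv Z X hdZ hdX hZlo hZX hXhi
  have hQ1' : Q1 ≤ Q := (le_max_left _ _).trans ((le_max_left _ _).trans hQ)
  have hQ2' : Q2 ≤ Q := (le_max_right _ _).trans ((le_max_left _ _).trans hQ)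
  have hQ3' : Q3 ≤ Q := (le_max_left _ _).trans ((le_max_right _ _).trans hQ)
  have hQ9 : 9 ≤ Q := (le_max_right _ _).trans ((le_max_right _ _).trans hQ)
  obtain ⟨hKN, hN9, hZb⟩ := m7_geo hQ9 hKQ
  have hG : G3 Q N Z X := ⟨hdZ, hdX, hN9, hZlo, hZX, hXhi⟩
  obtain ⟨-, g1, g2, g3, g4⟩ := M1_GeoB hG
  have hXb : Q ^ b0 ≤ X := (hZb Z hZlo).trans (by omega)
  obtain ⟨hA1, hA2⟩ := hA Q X hQ2' hXb
  have hfin := m7_fin Q (3 * c6 + ε) ε c1 (by omega) (h4 Q hQ3') (by linarith)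
  have hZ0 : (0 : ℝ) ≤ Z := Nat.cast_nonneg _
  have hexp : 3 * c6 + ε + ε = 3 * c6 + 2 * ε := by ring
  rw [hexp] at hfin
  rcases hLv with hgood | hexc
  · obtain ⟨hm1, -⟩ := hgood X g3 g4
    obtain ⟨-, hm2⟩ := hgood (2 * Z - 3) g1 g2
    obtain ⟨Bad, hB1, hB2, hB3⟩ := hM1 Q N Z X 1 (1 / 16) p0 (fun _ => 0) hQ1' hKN hCr hG hm1.mem
      hm1.cond hm2 hm1 (by norm_num) (by norm_num)
    refine m7_bad Bad hB1 hB2 ?_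
    intro ω hω hωB h3
    refine le_trans ?_ (hB3 ω hω hωB ((Q : ℝ) ^ (-(3 * c6 + ε))) ?_)
    · exact mul_le_mul_of_nonneg_left hfin hZ0
    · intro th' h0 h1 _
      exact hA1 ω hω h3 th' h0 h1
  · obtain ⟨r, hr, ψ, β, η, hR, hr100, hprim, hne1, hsq, hβ, hLf, hη, hY⟩ := hexc
    obtain ⟨hm1, -⟩ := hY X g3 g4
    obtain ⟨-, hm2⟩ := hY (2 * Z - 3) g1 g2
    obtain ⟨Bad, hB1, hB2, hB3⟩ := hM1 Q N Z X η (1 / 16) ⟨r, ψ⟩ _ hQ1' hKN hCr hG hm1.mem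
      hm1.cond hm2 hm1 (by norm_num) (by norm_num)
    refine m7_bad Bad hB1 hB2 ?_
    intro ω hω hωB h3
    refine le_trans ?_ (hB3 ω hω hωB ((Q : ℝ) ^ (-(3 * c6 + ε))) ?_)
    · exact mul_le_mul_of_nonneg_left hfin hZ0
    · intro th' h0 h1 _
      exact hA2 r ψ β η hr100 hprim hne1 hsq hβ hLf hη hm1.eta_le hR ω hω h3 th' h0 h1

/-- **M7B.** Proof. Compare `D4_B`. `M5_main` and `M6_B` (constant `c = c2`): the union of the two bad sets has at most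
`X (Q^(-c1) + Q^(-c2 c6/2)) ≤ X Q^(-min(c1, c2 c6/2)/2)` elements, `m0 = Q^(-ε)`. -/
theorem M7_B (b0 : ℕ) (C c : ℝ) (hC : 1 ≤ C) (hc : 0 < c) (hW : HW C c b0 B23 L2) : Thm3B := by
  classical
  obtain ⟨c1, K, hc1, hK1, hM⟩ := M5_main b0 C c hC hc hW
  obtain ⟨c2, hc2, hB⟩ := M6_B b0 C c hC hc hW
  refine ⟨c1, c2, max K (2 * (b0 : ℝ) + 1), hc1, hc2, hK1.trans (le_max_left _ _), ?_⟩
  intro c6 ε hc6 hε hlt Cr
  obtain ⟨Q1, hM1⟩ := hM Cr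
  obtain ⟨Q2, hB⟩ := hB c6 ε hc6 hε
  obtain ⟨Q3, hQ3, h4⟩ := G1_rlog 4 0 ε hε
  have hmin : 0 < min c1 (c2 * c6 / 2) := lt_min hc1 (by positivity)
  obtain ⟨Q4, hQ4, h5⟩ := G1_rlog 2 0 (min c1 (c2 * c6 / 2) / 2) (by positivity)
  refine ⟨max (max Q1 Q2) (max (max Q3 Q4) 9), ?_⟩
  intro Q N hQ hKQ hCr hLv Z X hdZ hdX hZlo hZX hXhi
  have hQ1' : Q1 ≤ Q := (le_max_left _ _).trans ((le_max_left _ _).trans hQ)
  have hQ2' : Q2 ≤ Q := (le_max_right _ _).trans ((le_max_left _ _).trans hQ)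
  have hQ3' : Q3 ≤ Q :=
    (le_max_left _ _).trans ((le_max_left _ _).trans ((le_max_right _ _).trans hQ))
  have hQ4' : Q4 ≤ Q :=
    (le_max_right _ _).trans ((le_max_left _ _).trans ((le_max_right _ _).trans hQ))
  have hQ9 : 9 ≤ Q := (le_max_right _ _).trans ((le_max_right _ _).trans hQ)
  have hQr1 : (1 : ℝ) ≤ Q := by exact_mod_cast (by omega : 1 ≤ Q)
  have hQr0 : (0 : ℝ) < Q := by linarith
  obtain ⟨hKN, hN9, hZb⟩ := m7_geo hQ9 hKQ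
  have hG : G3 Q N Z X := ⟨hdZ, hdX, hN9, hZlo, hZX, hXhi⟩
  obtain ⟨-, g1, g2, g3, g4⟩ := M1_GeoB hG
  have hXb : Q ^ b0 ≤ X := (hZb Z hZlo).trans (by omega)
  have hfin := m7_fin Q ε ε c1 (by omega) (h4 Q hQ3') (by linarith)
  have hZ0 : (0 : ℝ) ≤ Z := Nat.cast_nonneg _
  have hX0 : (0 : ℝ) ≤ X := Nat.cast_nonneg _
  have hexp : ε + ε = 2 * ε := by ring
  rw [hexp] at hfin
  obtain ⟨r, hr, ψ, β, η, hR, hr100, hprim, hne1, hsq, hβ, hLf, hη, hY⟩ := hLv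
  obtain ⟨hm1, -⟩ := hY X g3 g4
  obtain ⟨-, hm2⟩ := hY (2 * Z - 3) g1 g2
  obtain ⟨Bad, hB1, hB2, hB3⟩ := hM1 Q N Z X η (1 / 16) ⟨r, ψ⟩ _ hQ1' hKN hCr hG hm1.mem
    hm1.cond hm2 hm1 (by norm_num) (by norm_num)
  obtain ⟨Bad', hD1, hD2, hD3⟩ := hB Q X hQ2' hXb r ψ β η hr100 hprim hne1 hsq hβ hLf hη
    hm1.eta_le hR
  refine m7_bad (Bad ∪ Bad') (union_subset hB1 hD1) ?_ ?_
  · have h6 : ((Bad ∪ Bad').card : ℝ) ≤ (Bad.card : ℝ) + Bad'.card := by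
      exact_mod_cast card_union_le _ _
    have h7 : (Q : ℝ) ^ (-c1) ≤ (Q : ℝ) ^ (-(min c1 (c2 * c6 / 2))) :=
      Real.rpow_le_rpow_of_exponent_le hQr1 (by linarith [min_le_left c1 (c2 * c6 / 2)])
    have h8 : (Q : ℝ) ^ (-(c2 * c6 / 2)) ≤ (Q : ℝ) ^ (-(min c1 (c2 * c6 / 2))) :=
      Real.rpow_le_rpow_of_exponent_le hQr1 (by linarith [min_le_right c1 (c2 * c6 / 2)])
    have h9 := h5 Q hQ4'
    rw [Real.rpow_zero, mul_one] at h9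
    have h10 : (Q : ℝ) ^ (-(min c1 (c2 * c6 / 2) / 2)) =
        (Q : ℝ) ^ (min c1 (c2 * c6 / 2) / 2) * (Q : ℝ) ^ (-(min c1 (c2 * c6 / 2))) := by
      rw [← Real.rpow_add hQr0]
      congr 1
      ring
    have h11 : 0 ≤ (Q : ℝ) ^ (-(min c1 (c2 * c6 / 2))) := Real.rpow_nonneg hQr0.le _
    have h12 : 2 * (Q : ℝ) ^ (-(min c1 (c2 * c6 / 2))) ≤
        (Q : ℝ) ^ (-(min c1 (c2 * c6 / 2) / 2)) := by
      rw [h10]
      exact mul_le_mul_of_nonneg_right h9 h11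
    calc ((Bad ∪ Bad').card : ℝ) ≤ X * (Q : ℝ) ^ (-c1) + X * (Q : ℝ) ^ (-(c2 * c6 / 2)) := by
          linarith
      _ ≤ X * (Q : ℝ) ^ (-(min c1 (c2 * c6 / 2))) + X * (Q : ℝ) ^ (-(min c1 (c2 * c6 / 2))) :=
          add_le_add (mul_le_mul_of_nonneg_left h7 hX0) (mul_le_mul_of_nonneg_left h8 hX0)
      _ = X * (2 * (Q : ℝ) ^ (-(min c1 (c2 * c6 / 2)))) := by ring
      _ ≤ X * (Q : ℝ) ^ (-(min c1 (c2 * c6 / 2) / 2)) := mul_le_mul_of_nonneg_left h12 hX0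
  · intro ω hω hωB h3
    rw [mem_union, not_or] at hωB
    refine le_trans ?_ (hB3 ω hω hωB.1 ((Q : ℝ) ^ (-ε)) ?_)
    · exact mul_le_mul_of_nonneg_left hfin hZ0
    · intro th' h0 h1 _
      exact hD3 ω hω hωB.2 h3 th' h0 h1

end Pool.Agent.Lib.H24Q
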