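import Pool.Agent.Lib.H24Q.M7

/-!
# Project H24Q, chunk M8: module F from the two properties proved in `H59T`
-/

open Finset Polynomial

namespace Pool.Agent.Lib.H24Q

open Pool.Agent.Lib.H68T Pool.Agent.Lib.H18Q Pool.Agent.Lib.H59P Pool.Agent.Lib.H24P

theorem M8_FG {C c : ℝ} {Q H0 m : ℕ} {Ω : Type} {S : Finset Ω} {φ : Ω → Fin m → ℤ → ℤ}
    (h : FW C c Q H0 S φ) : FG C c Q H0 S φ := by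
  intro p hp T hT D hD hT' a H hH
  have h1 := h p hp T hT D hD hT' (fun _ => 1) a H hH
  simp only [one_mul, norm_one, one_pow, sum_const, Nat.card_Ico, add_tsub_cancel_left,
    nsmul_eq_mul, mul_one] at h1
  rw [sq (H : ℝ)]
  exact h1

/-- **Module F.** -/
theorem module_F (C4 c4 C2 c2 : ℝ) (B : ℕ) (hC4 : 1 ≤ C4) (hc4 : 0 < c4) (hC2 : 1 ≤ C2)
    (hc2 : 0 < c2)
    (hFG : ∀ Q : ℕ, 2 ≤ Q → ∀ b s : Fin 2 → ℕ, (∀ j, Q ^ B ≤ s j) →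
      FG C4 c4 Q (Q ^ B) (cub b s) L4.map)
    (hFW : ∀ Q : ℕ, 2 ≤ Q → ∀ b s : Fin 1 → ℕ, (∀ j, Q ^ B ≤ s j) →
      FW C2 c2 Q (Q ^ B) (cub b s) L2.map)
    (K0 : ℝ) (hK0 : 1 ≤ K0) : ∃ Cr : ℝ, 1 ≤ Cr ∧ ∀ ρ cb : ℝ, 0 < ρ → 0 < cb →
    ∃ c0 : ℝ, 0 < c0 ∧ ∃ N0 : ℕ, ∀ N : ℕ, N0 ≤ N → ∃ Q : ℕ, K0 * Real.log Q ≤ Real.log N ∧
      Real.log N ≤ Cr * Real.log Q ∧
      (∀ Y : ℕ, N ≤ Y ^ 2 → Y ≤ N ^ 2 → RegP K0 Q Y ∧ RegP K0 (Q ^ 100) Y) ∧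
      (∀ Y : ℕ, N ≤ Y ^ 2 → Y ≤ N ^ 2 → ∃ (η : ℝ) (px : Ch) (th : ℤ → ℝ), Mdl Q Y η (1 / 16) px th) ∧
      ∃ c : ℝ, c0 ≤ c ∧ c ≤ cb ∧ MT Q N c (ρ * c) := by
  obtain ⟨Ca, hCa, hfb4⟩ := D0_fb4
  obtain ⟨Cb, hCb, hfb2⟩ := D0_fb2
  obtain ⟨Cc, hCc, hfw2⟩ := D0_fw2
  have h4 := D0_HF L4 C4 c4 Ca B hC4 hCa hfb4 hFG
  have h2 := D0_HF L2 C2 c2 Cb B hC2 hCb hfb2 (fun Q hQ b s hs => M8_FG (hFW Q hQ b s hs))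
  have h3 := D0_HW L2 B23 C2 c2 Cc B hC2 hCc hfw2 hFW
  exact main_terms (max C4 Ca) c4 (max C2 Cb) c2 (2 * B) (le_max_of_le_left hC4) hc4
    (le_max_of_le_left hC2) hc2 h4 h2
    (M7_A (2 * B) (max C2 Cc) c2 (le_max_of_le_left hC2) hc2 h3)
    (M7_B (2 * B) (max C2 Cc) c2 (le_max_of_le_left hC2) hc2 h3) K0 hK0

end Pool.Agent.Lib.H24Q
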