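import Pool.Agent.Lib.H24Q.M8
import Pool.Agent.Lib.H59T.F6

/-!
# Project H24Q, chunk M9: module F without hypotheses
-/

open Finset Polynomial

namespace Pool.Agent.Lib.H24Q

open Pool.Agent.Lib.H68T Pool.Agent.Lib.H18Q Pool.Agent.Lib.H59P Pool.Agent.Lib.H24P

/-- **Module F**, the main terms of candidate T of MP_443e5f. -/
theorem F_all (K0 : ℝ) (hK0 : 1 ≤ K0) : ∃ Cr : ℝ, 1 ≤ Cr ∧ ∀ ρ cb : ℝ, 0 < ρ → 0 < cb →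
    ∃ c0 : ℝ, 0 < c0 ∧ ∃ N0 : ℕ, ∀ N : ℕ, N0 ≤ N → ∃ Q : ℕ, K0 * Real.log Q ≤ Real.log N ∧
      Real.log N ≤ Cr * Real.log Q ∧
      (∀ Y : ℕ, N ≤ Y ^ 2 → Y ≤ N ^ 2 → RegP K0 Q Y ∧ RegP K0 (Q ^ 100) Y) ∧
      (∀ Y : ℕ, N ≤ Y ^ 2 → Y ≤ N ^ 2 → ∃ (η : ℝ) (px : Ch) (th : ℤ → ℝ), Mdl Q Y η (1 / 16) px th) ∧
      ∃ c : ℝ, c0 ≤ c ∧ c ≤ cb ∧ MT Q N c (ρ * c) := by
  obtain ⟨Ca, hCa, hFG⟩ := H59T.F6_FG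
  obtain ⟨Cb, hCb, hFW⟩ := H59T.F6_FW
  exact module_F Ca (1 / 36) Cb (1 / 72) 40 hCa (by norm_num) hCb (by norm_num) hFG hFW K0 hK0

end Pool.Agent.Lib.H24Q
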