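import Pool.Agent.Lib.H24Q.D7
import Pool.Agent.Lib.H24P.V2

/-!
# Project H24Q: definitions for the three-fold count (modules M)

`x = ω 0 ∈ [2X, 3X)`, forms `x + n`, `x - n` (`L2`), linear coordinate `2n - 3` (`B23`), `n ∈ [Z, 2Z)`.
-/

open Finset Polynomial

namespace Pool.Agent.Lib.H24Q

open Pool.Agent.Lib.H68T Pool.Agent.Lib.H18Q Pool.Agent.Lib.H59P Pool.Agent.Lib.H24P

noncomputable section

/-- The box of the parameters: `ω 0 ∈ [2X, 3X)`. -/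
def bx (X : ℕ) : Finset (Fin 1 → ℕ) := cub (fun _ => 2 * X) (fun _ => X)

/-- The base point of the cell of `ω`, cells of length `X/Q^8`. -/
def bw8 (Q X : ℕ) (ω : Fin 1 → ℕ) : Fin 1 → ℕ := fun j => bs (X / Q ^ 8) (ω j)

/-- The point where the coefficients of the forms `x + n`, `x - n` are frozen. -/
def fp8 (Q Z X : ℕ) (ω : Fin 1 → ℕ) (n : ℕ) (i : Fin 2) : ℤ :=
  L2.map (bw8 Q X ω) i ((bs (Z / Q ^ 8) n : ℕ) : ℤ)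

/-- The sum with the projections in the two random coordinates and the weight `w`. -/
def T3w (Q Z X : ℕ) (w : ℕ → ℂ) (ω : Fin 1 → ℕ) : ℂ :=
  ∑ n ∈ Ico Z (2 * Z), w n * ∏ i, ((Lk Q (X / Q ^ 2) (L2.map ω i (n : ℤ)) : ℝ) : ℂ)

/-- The same with frozen coefficients. -/
def T3z (Q Z X : ℕ) (Cc : ℤ → Ch → ℂ) (w : ℕ → ℂ) (ω : Fin 1 → ℕ) : ℂ :=
  ∑ n ∈ Ico Z (2 * Z), w n * ∏ i, SG Q (Cc (fp8 Q Z X ω n i)) (L2.map ω i (n : ℤ))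

/-- The main term. -/
def M3z (Q Z X r : ℕ) (C0 Cc : ℤ → Ch → ℂ) (ω : Fin 1 → ℕ) : ℂ :=
  ∑ n ∈ Ico Z (2 * Z), MDf Q (B23.leadingCoeff.natAbs * r)
    (Fin.cons (C0 (B23.eval ((bs (Z / Q ^ 800) n : ℕ) : ℤ)))
      (fun i : Fin 2 => Cc (fp8 Q Z X ω n i)) : Fin 3 → Ch → ℂ) (sy B23 (L2.map ω))

/-- The geometry. -/
structure G3 (Q N Z X : ℕ) : Prop where
  dvdZ : Q ^ 800 ∣ Z
  dvdX : Q ^ 40 ∣ X
  nine : 9 ≤ N
  Zlo : N ≤ Z ^ 2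
  ZX : 2 * Z ≤ X
  Xhi : X ≤ N

end

end Pool.Agent.Lib.H24Q
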