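import Pool.Agent.Lib.H24Q.R0
import Pool.Agent.Lib.H24P.B2

/-!
# Project H24Q, chunk R1 (S/M): the linear coordinate, mean values (port of `H24P/B1`, `H24P/B2`)
-/

open Finset Polynomial

namespace Pool.Agent.Lib.H24Q

open Pool.Agent.Lib.H68T Pool.Agent.Lib.H18Q Pool.Agent.Lib.H59P Pool.Agent.Lib.H24P

/-- Proof. `Fin.cases`, `Polynomial.sub_dvd_eval_sub` (compare `P2_sys`). -/
theorem R1_cp {k : ℕ} (B : ℤ[X]) (φ : Fin k → ℤ → ℤ) (hφ : Cp φ) : Cp (sy B φ) := by
  intro i q n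
  refine Fin.cases ?_ (fun j => ?_) i
  · have h1 := Polynomial.sub_dvd_eval_sub (n + q) n B
    have h2 : n + q - n = q := by ring
    rw [h2] at h1
    exact h1
  · exact hφ j q n

/-- Proof. Copy the proof of `B1_mean` (`H24P/B1.lean`) with `ran P h` replaced by `φ` and `sys B P h` by `sy B φ` (`hφ`
instead of `P2_ran`). -/
theorem R1_mean {k : ℕ} (B : ℤ[X]) (hB : B.natDegree = 1) (φ : Fin k → ℤ → ℤ) (hφ : Cp φ) (d : ℕ)
    (hd : Squarefree d) (hc : Nat.Coprime d B.leadingCoeff.natAbs) :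
    ∑ n ∈ range d, uu d.primeFactors (B.eval (n : ℤ)) * Wdf d (at' φ n) = d * tdf d (sy B φ) := by
  classical
  have hBe : ∀ x : ℤ, B.eval x = B.coeff 0 + B.leadingCoeff * x := by
    intro x
    rw [eval_eq_sum_range, hB, Finset.sum_range_succ, Finset.sum_range_one, leadingCoeff, hB]
    ring
  have hperF : ∀ (l : ℕ) (n : ℤ), (1 + gl l (B.eval (n + l))) * Wf l (at' φ (n + l)) =
      (1 + gl l (B.eval n)) * Wf l (at' φ n) := by
    intro l n
    have h1 : gl l (B.eval (n + l)) = gl l (B.eval n) :=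
      P2_gl (sy B φ) (R1_cp B φ hφ) l l dvd_rfl 0 n
    have h2 : ∀ i, gl l (φ i (n + l)) = gl l (φ i n) := fun i =>
      P2_gl φ hφ l l dvd_rfl i n
    rw [h1]
    unfold Wf at'
    simp only [h2]
  have h1 := b1_set (fun l n => (1 + gl l (B.eval n)) * Wf l (at' φ n)) hperF d.primeFactors
    (fun l hl => Nat.prime_of_mem_primeFactors hl)
  rw [Nat.prod_primeFactors_of_squarefree hd] at h1
  have h2 : ∑ n ∈ range d, uu d.primeFactors (B.eval (n : ℤ)) * Wdf d (at' φ n) =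
      ∑ n ∈ range d, ∏ l ∈ d.primeFactors, (1 + gl l (B.eval (n : ℤ))) * Wf l (at' φ n) := by
    refine Finset.sum_congr rfl fun n _ => ?_
    unfold uu Wdf
    rw [← Finset.prod_mul_distrib]
  rw [h2]
  refine h1.trans ?_
  have h3 : ∀ l ∈ d.primeFactors, ∑ n ∈ range l, (1 + gl l (B.eval (n : ℤ))) * Wf l (at' φ n) =
      l * tpf l (sy B φ) := by
    intro l hl
    have hlp := Nat.prime_of_mem_primeFactors hl
    have hl0 : (l : ℝ) ≠ 0 := by exact_mod_cast hlp.pos.ne'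
    have hna : ¬ (l : ℤ) ∣ B.leadingCoeff := by
      intro hdv
      have h4 : l ∣ B.leadingCoeff.natAbs := Int.natCast_dvd.1 hdv
      have h5 := Nat.dvd_gcd (Nat.dvd_of_mem_primeFactors hl) h4
      rw [hc] at h5
      exact hlp.one_lt.ne' (Nat.dvd_one.1 h5)
    have h6 := b1_lin l hlp B.leadingCoeff (B.coeff 0) hna
    simp only [← hBe] at h6
    have h7 : ∀ n ∈ range l, (1 + gl l (B.eval (n : ℤ))) * Wf l (at' φ n) =
        ∏ i, (1 + gl l (sy B φ i (n : ℤ))) - (1 + gl l (B.eval (n : ℤ))) := by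
      intro n _
      rw [Fin.prod_univ_succ]
      unfold Wf at' sy
      simp only [Fin.cons_zero, Fin.cons_succ]
      ring
    rw [Finset.sum_congr rfl h7, Finset.sum_sub_distrib, h6]
    unfold tpf
    field_simp
  rw [Finset.prod_congr rfl h3, Finset.prod_mul_distrib]
  unfold tdf
  congr 1
  have h8 := Nat.prod_primeFactors_of_squarefree hd
  rw [← Nat.cast_prod, h8]

/-- Proof. Copy the proof of `B2_fac` (`H24P/B2.lean`), with the same replacements, `R1_cp`, `R1_mean`. -/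
theorem R1_fac {k : ℕ} (B : ℤ[X]) (hB : B.natDegree = 1) (φ : Fin k → ℤ → ℤ) (hφ : Cp φ)
    (p : Fin (k + 1) → Ch) (R d : ℕ) (hR : 0 < R) (ha : B.leadingCoeff.natAbs ∣ R)
    (hp : ∀ i, (p i).1 ∣ R) (hd : Squarefree d) (hc : Nat.Coprime d R) :
    (∑ n ∈ range (R * d), cj (p 0) (B.eval (n : ℤ)) * ((uu (R * d).primeFactors (B.eval (n : ℤ)) : ℝ) : ℂ) *
      (Phf (fun i : Fin k => p i.succ) R.primeFactors (at' φ n) *
        ((Wdf d (at' φ n) : ℝ) : ℂ))) / ((R * d : ℕ) : ℂ) =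
    MRf p R (sy B φ) * ((tdf d (sy B φ) : ℝ) : ℂ) := by
  classical
  have hd0 : 0 < d := Nat.pos_of_ne_zero hd.ne_zero
  have hRd : (R * d).primeFactors = R.primeFactors ∪ d.primeFactors := Nat.primeFactors_mul hR.ne' hd0.ne'
  have hdis : Disjoint R.primeFactors d.primeFactors := hc.symm.disjoint_primeFactors
  have huu : ∀ m : ℤ, uu (R * d).primeFactors m = uu R.primeFactors m * uu d.primeFactors m := by
    intro m
    unfold uu
    rw [hRd, Finset.prod_union hdis]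
  have hPh : ∀ n : ℤ, cj (p 0) (B.eval n) * ((uu R.primeFactors (B.eval n) : ℝ) : ℂ) *
      Phf (fun i : Fin k => p i.succ) R.primeFactors (at' φ n) =
      Phf p R.primeFactors (at' (sy B φ) n) := by
    intro n
    unfold Phf
    rw [Fin.prod_univ_succ]
    unfold at' sy
    simp only [Fin.cons_zero, Fin.cons_succ]
  have e1 : ∀ n ∈ range (R * d), cj (p 0) (B.eval (n : ℤ)) * ((uu (R * d).primeFactors (B.eval (n : ℤ)) : ℝ) : ℂ) *
      (Phf (fun i : Fin k => p i.succ) R.primeFactors (at' φ n) *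
        ((Wdf d (at' φ n) : ℝ) : ℂ)) =
      Phf p R.primeFactors (at' (sy B φ) n) *
        ((uu d.primeFactors (B.eval (n : ℤ)) * Wdf d (at' φ n) : ℝ) : ℂ) := by
    intro n _
    rw [huu, ← hPh]
    push_cast
    ring
  have hper1 : ∀ m : ℤ, Phf p R.primeFactors (at' (sy B φ) (m + R)) =
      Phf p R.primeFactors (at' (sy B φ) m) := fun m =>
    P2_Ph (sy B φ) (R1_cp B φ hφ) p R R dvd_rfl hp m
  have hper2 : ∀ m : ℤ, ((uu d.primeFactors (B.eval (m + d)) * Wdf d (at' φ (m + d)) : ℝ) : ℂ) =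
      ((uu d.primeFactors (B.eval m) * Wdf d (at' φ m) : ℝ) : ℂ) := by
    intro m
    congr 1
    rw [P2_Wd φ hφ d d dvd_rfl m]
    congr 1
    unfold uu
    refine Finset.prod_congr rfl fun l hl => ?_
    have h1 : gl l (B.eval (m + d)) = gl l (B.eval m) :=
      P2_gl (sy B φ) (R1_cp B φ hφ) l d (Nat.dvd_of_mem_primeFactors hl) 0 m
    rw [h1]
  have key := M3d (fun n => Phf p R.primeFactors (at' (sy B φ) n))
    (fun n => ((uu d.primeFactors (B.eval n) * Wdf d (at' φ n) : ℝ) : ℂ)) R d hR hd0 hc.symm hper1 hper2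
  have h2 := R1_mean B hB φ hφ d hd (hc.coprime_dvd_right ha)
  have h3 : ∑ n ∈ range d, ((uu d.primeFactors (B.eval (n : ℤ)) * Wdf d (at' φ n) : ℝ) : ℂ) =
      (d : ℂ) * ((tdf d (sy B φ) : ℝ) : ℂ) := by
    rw [← Complex.ofReal_sum, h2]
    push_cast
    rfl
  rw [Finset.sum_congr rfl e1]
  refine (congrArg (fun z => z / ((R * d : ℕ) : ℂ)) key).trans ?_
  rw [h3]
  unfold MRf
  have hR' : (R : ℂ) ≠ 0 := by exact_mod_cast hR.ne'
  have hd' : (d : ℂ) ≠ 0 := by exact_mod_cast hd0.ne'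
  push_cast
  field_simp

end Pool.Agent.Lib.H24Q
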