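import Pool.Agent.Lib.H24Q.R1
import Pool.Agent.Lib.H24P.T3

/-!
# Project H24Q, chunk R2 (M): the sums over moduli of the singular series in mean square (port of `H24P/T2`, `H24P/T3`)
-/

open Finset Polynomial

namespace Pool.Agent.Lib.H24Q

open Pool.Agent.Lib.H68T Pool.Agent.Lib.H18Q Pool.Agent.Lib.H59P Pool.Agent.Lib.H24P

/-- Proof. As `T2_mean` (`H24P/T2.lean`), with `ran P h` replaced by `φ` and `sys B P h` by `sy B φ`; `R1_mean`. -/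
theorem R2_mean {k : ℕ} (B : ℤ[X]) (hB : B.natDegree = 1) (φ : Fin k → ℤ → ℤ) (hφ : Cp φ)
    (S D : Finset ℕ) (hS : ∀ l ∈ S, l.Prime ∧ ¬ l ∣ B.leadingCoeff.natAbs) (hD : D ⊆ S) :
    ∑ n ∈ range (∏ l ∈ S, l), uu S (B.eval (n : ℤ)) * Wdf (∏ l ∈ D, l) (at' φ n) =
      ((∏ l ∈ S, l : ℕ) : ℝ) * tdf (∏ l ∈ D, l) (sy B φ) := by
  classical
  have hDp : (∏ l ∈ D, l).primeFactors = D := Nat.primeFactors_prod fun l hl => (hS l (hD hl)).1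
  have hper : ∀ l : ℕ, ∀ n : ℤ, gl l (B.eval (n + l)) = gl l (B.eval n) := by
    intro l n
    rw [t2_eval B hB, t2_eval B hB]
    have h1 : B.coeff 0 + B.leadingCoeff * (n + l) =
        (B.coeff 0 + B.leadingCoeff * n) + B.leadingCoeff * l := by ring
    rw [h1, gl_per]
  have hperW : ∀ l : ℕ, ∀ n : ℤ, Wf l (at' φ (n + l)) = Wf l (at' φ n) := by
    intro l n
    unfold Wf
    congr 1
    refine Finset.prod_congr rfl fun i _ => ?_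
    congr 1
    exact P2_gl φ hφ l l dvd_rfl i n
  -- one prime
  have hone : ∀ l ∈ S, ∑ n ∈ range l, (1 + gl l (B.eval (n : ℤ))) * Wf l (at' φ n) =
      l * tpf l (sy B φ) := by
    intro l hl
    obtain ⟨hlp, hlB⟩ := hS l hl
    have h1 := R1_mean B hB φ hφ l hlp.prime.squarefree ((Nat.Prime.coprime_iff_not_dvd hlp).2 hlB)
    have h2 : l.primeFactors = {l} := hlp.primeFactors
    unfold Wdf tdf uu at h1
    rw [h2] at h1
    simp only [Finset.prod_singleton] at h1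
    exact h1
  set F : ℕ → ℤ → ℝ := fun l n =>
    (1 + gl l (B.eval n)) * (if l ∈ D then Wf l (at' φ n) else 1) with hF
  have h1 := b1_set F (fun l n => by
    rw [hF]
    simp only
    rw [hper, hperW]) S (fun l hl => (hS l hl).1)
  have h2 : ∀ n ∈ range (∏ l ∈ S, l), uu S (B.eval (n : ℤ)) * Wdf (∏ l ∈ D, l) (at' φ n) =
      ∏ l ∈ S, F l n := by
    intro n _
    unfold uu Wdf
    rw [hDp, hF]
    simp only
    rw [Finset.prod_mul_distrib]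
    congr 1
    rw [Finset.prod_ite_mem, Finset.inter_eq_right.2 hD]
  rw [Finset.sum_congr rfl h2, h1]
  have h3 : ∀ l ∈ S, ∑ n ∈ range l, F l n = (l : ℝ) * (if l ∈ D then tpf l (sy B φ) else 1) := by
    intro l hl
    rw [hF]
    simp only
    split_ifs
    · exact hone l hl
    · simp only [mul_one]
      exact t2_one B hB l (hS l hl).1 (hS l hl).2
  rw [Finset.prod_congr rfl h3, Finset.prod_mul_distrib, Nat.cast_prod]
  congr 1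
  unfold tdf
  rw [hDp, Finset.prod_ite_mem, Finset.inter_eq_right.2 hD]

/-- Proof. As `T2_iden` (`H24P/T2.lean`). -/
theorem R2_iden {k : ℕ} (B : ℤ[X]) (hB : B.natDegree = 1) (φ : Fin k → ℤ → ℤ) (hφ : Cp φ)
    (S : Finset ℕ) (hS : ∀ l ∈ S, l.Prime ∧ ¬ l ∣ B.leadingCoeff.natAbs) (Z j : ℕ) (hj : 1 ≤ j)
    (Δ : Finset ℕ) (hΔ : ∀ d ∈ Δ, Squarefree d ∧ d ≤ Z ∧ d.primeFactors ⊆ S) :
    ∑ n ∈ Ico 0 (0 + (∏ l ∈ S, l) * j), ((uu S (B.eval (n : ℤ)) : ℝ) : ℂ) *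
        ∑ κ ∈ (Fintype.piFinset fun _ : Fin k => KS Z 1).filter (fun κ => univ.lcm κ ∈ Δ),
          ∏ i, gk p0 (κ i) (φ i (n : ℤ)) =
      (((∏ l ∈ S, l) * j : ℕ) : ℂ) * ((∑ d ∈ Δ, tdf d (sy B φ) : ℝ) : ℂ) := by
  classical
  set N : ℕ := ∏ l ∈ S, l with hN
  have hdvd : ∀ l ∈ S, l ∣ N := fun l hl => Finset.dvd_prod_of_mem (fun l => l) hl
  have hprod : ∀ d ∈ Δ, ∏ l ∈ d.primeFactors, l = d := fun d hd =>
    Nat.prod_primeFactors_of_squarefree (hΔ d hd).1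
  have hdN : ∀ d ∈ Δ, d ∣ N := by
    intro d hd
    rw [← hprod d hd, hN]
    exact Finset.prod_dvd_prod_of_subset _ _ _ (hΔ d hd).2.2
  set f : ℤ → ℂ := fun n => ((uu S (B.eval n) * ∑ d ∈ Δ, Wdf d (at' φ n) : ℝ) : ℂ) with hf
  have hper : ∀ n : ℤ, f (n + N) = f n := by
    intro n
    rw [hf]
    simp only
    congr 2
    · unfold uu
      refine Finset.prod_congr rfl fun l hl => ?_
      congr 1
      rw [t2_eval B hB, t2_eval B hB]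
      obtain ⟨c, hc⟩ := hdvd l hl
      have h1 : B.coeff 0 + B.leadingCoeff * (n + (N : ℤ)) =
          (B.coeff 0 + B.leadingCoeff * n) + (B.leadingCoeff * c) * l := by
        rw [hc]
        push_cast
        ring
      rw [h1, gl_per]
    · refine Finset.sum_congr rfl fun d hd => ?_
      exact P2_Wd φ hφ d N (hdN d hd) n
  have h1 : ∀ n ∈ Ico 0 (0 + N * j), ((uu S (B.eval (n : ℤ)) : ℝ) : ℂ) *
        ∑ κ ∈ (Fintype.piFinset fun _ : Fin k => KS Z 1).filter (fun κ => univ.lcm κ ∈ Δ),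
          ∏ i, gk p0 (κ i) (φ i (n : ℤ)) = f ((n : ℕ) : ℤ) := by
    intro n _
    have h2 := t2_comp Z Δ (fun d hd => ⟨(hΔ d hd).1, (hΔ d hd).2.1⟩) (at' φ (n : ℤ))
    have h3 : ∑ κ ∈ (Fintype.piFinset fun _ : Fin k => KS Z 1).filter (fun κ => univ.lcm κ ∈ Δ),
          ∏ i, gk p0 (κ i) (φ i (n : ℤ)) =
        ((∑ d ∈ Δ, Wdf d (at' φ (n : ℤ)) : ℝ) : ℂ) := h2
    rw [h3, hf]
    simp only
    rw [Complex.ofReal_mul]
  rw [Finset.sum_congr rfl h1, t2_per f N hper j]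
  have h4 : ∑ n ∈ range N, f n = ((N * ∑ d ∈ Δ, tdf d (sy B φ) : ℝ) : ℂ) := by
    rw [hf]
    simp only
    rw [← Complex.ofReal_sum]
    congr 1
    simp only [Finset.mul_sum]
    rw [Finset.sum_comm]
    refine Finset.sum_congr rfl fun d hd => ?_
    have h5 := R2_mean B hB φ hφ S d.primeFactors hS (hΔ d hd).2.2
    rw [hprod d hd] at h5
    exact h5
  rw [h4]
  push_cast
  ring

/-- Proof. As `T3_main` (`H24P/T3.lean`): `S` = the primes `l ≤ Q` not dividing `lc B`, `Z = Q²`, `R2_iden` with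
`j = H0 + 1`, `N = (∏ S) (H0 + 1) ≥ H0`; `FW` at the level `Q²` (`fw2`) with `p = p0`, `D = E`, `a = 0`, `H = N`, the weight
`w n = uu S (B n)`, whose mean square is at most `500 log Q` (`t3_sq`); divide by `N²`. `1 + log Q² ≤ 2 (1 + log Q)`. -/
theorem R2_ms {C c : ℝ} (hC : 1 ≤ C) {A Q H0 : ℕ} (hQ : 2 ≤ Q) {B : ℤ[X]} (hB : Lin A B) {k : ℕ}
    {Ω : Type} {S : Finset Ω} {φ : Ω → Fin k → ℤ → ℤ} (hF : FamW C c Q H0 B S φ) (Δ : Finset ℕ)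
    (E : ℕ) (hE : 1 ≤ E) (hΔ : ∀ d ∈ Δ, Squarefree d ∧ E < d ∧ d ≤ Q ^ 2 ∧
      ∀ l ∈ d.primeFactors, l ≤ Q ∧ ¬ l ∣ B.leadingCoeff.natAbs) :
    ∑ ω ∈ S, (∑ d ∈ Δ, tdf d (sy B (φ ω))) ^ 2 ≤
      500 * C * 2 ^ C * (1 + Real.log Q) ^ (C + 1) * S.card * (E : ℝ) ^ (-c) := by
  classical
  have hQr : (2 : ℝ) ≤ Q := by exact_mod_cast hQ
  have hlQ : 0 ≤ Real.log Q := Real.log_natCast_nonneg Q
  have hvs : (0 : ℝ) ≤ S.card := Nat.cast_nonneg _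
  obtain ⟨S', hSdef⟩ : ∃ S' : Finset ℕ, S' = (pr Q).filter (fun l => ¬ l ∣ B.leadingCoeff.natAbs) :=
    ⟨_, rfl⟩
  have hS : ∀ l ∈ S', l.Prime ∧ l ≤ Q ∧ ¬ l ∣ B.leadingCoeff.natAbs := by
    intro l hl
    rw [hSdef, mem_filter] at hl
    unfold pr at hl
    rw [mem_filter, mem_Icc] at hl
    exact ⟨hl.1.2, hl.1.1.2, hl.2⟩
  have hΔ' : ∀ d ∈ Δ, Squarefree d ∧ d ≤ Q ^ 2 ∧ d.primeFactors ⊆ S' := by
    intro d hd
    obtain ⟨h1, h2, h3, h4⟩ := hΔ d hd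
    refine ⟨h1, h3, fun l hl => ?_⟩
    rw [hSdef, mem_filter]
    unfold pr
    rw [mem_filter, mem_Icc]
    have h5 := (Nat.mem_primeFactors.mp hl).1
    exact ⟨⟨⟨h5.one_lt.le, (h4 l hl).1⟩, h5⟩, (h4 l hl).2⟩
  have hpS : 0 < ∏ l ∈ S', l := prod_pos fun l hl => (hS l hl).1.pos
  have hQ2 : 1 ≤ Q ^ 2 := Nat.one_le_pow _ _ (by omega)
  obtain ⟨N, hN⟩ : ∃ N : ℕ, N = (∏ l ∈ S', l) * (H0 + 1) := ⟨_, rfl⟩
  have hN0 : 0 < N := by
    rw [hN]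
    exact Nat.mul_pos hpS (Nat.succ_pos _)
  have hNH : H0 ≤ N := by
    rw [hN]
    exact (Nat.le_succ H0).trans (Nat.le_mul_of_pos_left _ hpS)
  have hNr : (0 : ℝ) < N := by exact_mod_cast hN0
  obtain ⟨T, hT⟩ : ∃ T : Finset (Fin k → ℕ), T = (Fintype.piFinset fun _ : Fin k => KS (Q ^ 2) 1).filter
    (fun κ => univ.lcm κ ∈ Δ) := ⟨_, rfl⟩
  have hFg := hF.fw2 (fun _ => p0) (fun _ => p0_mem hQ2) T (by rw [hT]; exact filter_subset _ _) E hE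
    (by
      intro κ hκ
      rw [hT] at hκ
      have h1 := (mem_filter.mp hκ).2
      have h2 : (fun i => (p0).1 * κ i) = κ := by
        funext i
        exact one_mul _
      rw [h2]
      exact (hΔ _ h1).2.1)
    (fun n => ((uu S' (B.eval (n : ℤ)) : ℝ) : ℂ)) 0 N hNH
  have hsq := t3_sq B hB.deg Q hQ (H0 + 1) S' hS
  rw [← hN] at hsq
  have hL : ∀ ω ∈ S, ‖∑ n ∈ Ico 0 (0 + N), ((uu S' (B.eval (n : ℤ)) : ℝ) : ℂ) *
      ∑ κ ∈ T, ∏ i, gk p0 (κ i) (φ ω i (n : ℤ))‖ ^ 2 =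
      (N : ℝ) ^ 2 * (∑ d ∈ Δ, tdf d (sy B (φ ω))) ^ 2 := by
    intro ω hω
    have h1 := R2_iden B hB.deg (φ ω) (hF.cp ω hω) S' (fun l hl => ⟨(hS l hl).1, (hS l hl).2.2⟩)
      (Q ^ 2) (H0 + 1) (by omega) Δ hΔ'
    rw [← hN, ← hT] at h1
    rw [h1, norm_mul, Complex.norm_natCast, Complex.norm_real, mul_pow, Real.norm_eq_abs, sq_abs]
  have hFg' : (N : ℝ) ^ 2 * ∑ ω ∈ S, (∑ d ∈ Δ, tdf d (sy B (φ ω))) ^ 2 ≤
      C * (1 + Real.log ((Q ^ 2 : ℕ) : ℝ)) ^ C * S.card *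
        (N * ∑ n ∈ Ico 0 (0 + N), ‖((uu S' (B.eval (n : ℤ)) : ℝ) : ℂ)‖ ^ 2) * (E : ℝ) ^ (-c) := by
    rw [mul_sum, ← sum_congr rfl hL]
    exact hFg
  have hlog2 : Real.log ((Q ^ 2 : ℕ) : ℝ) = 2 * Real.log Q := by
    rw [Nat.cast_pow, Real.log_pow]
    norm_num
  have hE0 : (0 : ℝ) ≤ (E : ℝ) ^ (-c) := Real.rpow_nonneg (Nat.cast_nonneg E) _
  have hpw : (1 + Real.log ((Q ^ 2 : ℕ) : ℝ)) ^ C ≤ 2 ^ C * (1 + Real.log Q) ^ C := by
    rw [hlog2, ← Real.mul_rpow (by norm_num) (by linarith)]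
    exact Real.rpow_le_rpow (by linarith) (by linarith) (by linarith)
  have hb1 : (N : ℝ) ^ 2 * ∑ ω ∈ S, (∑ d ∈ Δ, tdf d (sy B (φ ω))) ^ 2 ≤
      (N : ℝ) ^ 2 * (C * (2 ^ C * (1 + Real.log Q) ^ C) * S.card * (500 * (1 + Real.log Q)) *
        (E : ℝ) ^ (-c)) := by
    refine hFg'.trans ?_
    have h1 : (N : ℝ) * ∑ n ∈ Ico 0 (0 + N), ‖((uu S' (B.eval (n : ℤ)) : ℝ) : ℂ)‖ ^ 2 ≤
        N * (N * (500 * (1 + Real.log Q))) := by
      refine mul_le_mul_of_nonneg_left (hsq.trans ?_) hNr.le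
      refine mul_le_mul_of_nonneg_left ?_ hNr.le
      linarith
    calc C * (1 + Real.log ((Q ^ 2 : ℕ) : ℝ)) ^ C * S.card *
          (N * ∑ n ∈ Ico 0 (0 + N), ‖((uu S' (B.eval (n : ℤ)) : ℝ) : ℂ)‖ ^ 2) * (E : ℝ) ^ (-c)
        ≤ C * (2 ^ C * (1 + Real.log Q) ^ C) * S.card * (N * (N * (500 * (1 + Real.log Q)))) *
          (E : ℝ) ^ (-c) := by
          gcongr
      _ = _ := by ring
  have hb2 := le_of_mul_le_mul_left hb1 (by positivity)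
  refine hb2.trans (le_of_eq ?_)
  have h3 : (1 + Real.log Q) ^ C * (1 + Real.log Q) = (1 + Real.log Q) ^ (C + 1) := by
    rw [← Real.rpow_add_one (by linarith)]
  rw [← h3]
  ring

end Pool.Agent.Lib.H24Q
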