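import Pool.Agent.Lib.H24Q.R2
import Pool.Agent.Lib.H24P.T5

/-!
# Project H24Q, chunk R3 (M): truncation of the singular series (port of `H24P/T5`)
-/

open Finset Polynomial

namespace Pool.Agent.Lib.H24Q

open Pool.Agent.Lib.H68T Pool.Agent.Lib.H18Q Pool.Agent.Lib.H59P Pool.Agent.Lib.H24P

/-- **R3.** Proof. As `T5_main` (`H24P/T5.lean`): `t5_point` (with `C1 = C`, from `FamW.tp`), `t5_mink`, `t5_harm`, `t5_mv`
(with `a = |lc B| ∣ R`), `R2_ms`, `G1_size`, `G1_rlog`. (`A2_TM` in `H24Q/A2.lean` is the same without the linear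
coordinate.) -/
theorem R3_TM (k A : ℕ) (C c : ℝ) (hC : 1 ≤ C) (hc : 0 < c) : ∃ c' : ℝ, 0 < c' ∧ ∃ Q0 : ℕ, ∀ Q : ℕ,
    Q0 ≤ Q → ∀ B : ℤ[X], Lin A B → ∀ (H0 : ℕ) (Ω : Type) (S : Finset Ω) (φ : Ω → Fin k → ℤ → ℤ),
    FamW C c Q H0 B S φ → ∀ R : ℕ, 1 ≤ R → R ≤ fl Q (1 / 16) → B.leadingCoeff.natAbs ∣ R →
    ∑ ω ∈ S, (∑ d ∈ SF (fl Q (1 / 2) / R) R, tdf d (sy B (φ ω)) -
      SSf ((pr Q).filter (fun l => ¬ l ∣ R)) (sy B (φ ω))) ^ 2 ≤ S.card * (Q : ℝ) ^ (-c') := by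
  obtain ⟨Q1, hQ1, hlog⟩ := G1_rlog ((1 + C * 500 ^ (k + 1)) ^ 2 * (500 * C * 2 ^ C))
    (2 * ((k : ℝ) + 2) + (C + 1)) (c / 8) (by linarith)
  obtain ⟨Q2, hQ2, hsize⟩ := G1_size 1
  refine ⟨c / 8, by linarith, max 3 (max Q1 Q2), fun Q hQ B hB H0 Ω S φ hF R hR1 hR hBR => ?_⟩
  have hQ3 : 3 ≤ Q := (le_max_left _ _).trans hQ
  have hQQ1 : Q1 ≤ Q := (le_max_left _ _).trans ((le_max_right _ _).trans hQ)
  have hQQ2 : Q2 ≤ Q := (le_max_right _ _).trans ((le_max_right _ _).trans hQ)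
  have hQr : (1 : ℝ) ≤ Q := by exact_mod_cast (show 1 ≤ Q by omega)
  have hQ0 : (0 : ℝ) < Q := by linarith
  have hL : 0 ≤ Real.log Q := Real.log_nonneg hQr
  obtain ⟨-, -, -, hEE, hEbig⟩ := hsize Q hQQ2 1 1 le_rfl le_rfl (by rw [one_pow]; omega)
  have hEb := hEbig R hR1 hR
  have hone : (1 : ℝ) ≤ (Q : ℝ) ^ (1 / 4 : ℝ) := Real.one_le_rpow hQr (by norm_num)
  have hE1 : 1 ≤ fl Q (1 / 2) / R := by exact_mod_cast hone.trans hEb
  have hEQ : fl Q (1 / 2) / R ≤ Q := by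
    refine (Nat.div_le_self _ _).trans ?_
    exact G1_le (by omega) (by norm_num) (by norm_num)
  set E := fl Q (1 / 2) / R with hE
  set P' := (pr Q).filter (fun l => ¬ l ∣ R) with hP'
  have hsub : P' ⊆ pr Q := Finset.filter_subset _ _
  have hS0 : (0 : ℝ) ≤ S.card := Nat.cast_nonneg _
  have hE0 : (0 : ℝ) < E := by exact_mod_cast hE1
  have hmvs : ∀ j, j ≤ Q → ∑ ω ∈ S, (∑ d ∈ mv P' j E, tdf d (sy B (φ ω))) ^ 2 ≤
      500 * C * 2 ^ C * (1 + Real.log Q) ^ (C + 1) * S.card * (E : ℝ) ^ (-c) := fun j hj =>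
    R2_ms hC (by omega) hB hF (mv P' j E) E hE1 (t5_mv hEQ hBR hj)
  have hW : 0 ≤ 500 * C * 2 ^ C * (1 + Real.log Q) ^ (C + 1) * S.card * (E : ℝ) ^ (-c) := by
    have : 0 ≤ (1 + Real.log Q) ^ (C + 1) := Real.rpow_nonneg (by linarith) _
    have : 0 ≤ (E : ℝ) ^ (-c) := Real.rpow_nonneg hE0.le _
    positivity
  have hkey := t5_mink S P' (fun q => C / q * (500 * Real.log Q) ^ (k + 1))
    (fun q _ => by positivity)
    (fun ω => ∑ n ∈ mv P' Q E, tdf n (sy B (φ ω)))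
    (fun q ω => ∑ n ∈ mv P' (q - 1) E, tdf n (sy B (φ ω)))
    (fun ω => ∑ d ∈ SF E R, tdf d (sy B (φ ω)) - SSf P' (sy B (φ ω)))
    ((1 + C * 500 ^ (k + 1)) * (1 + Real.log Q) ^ (k + 2)) _ hW ?_ (hmvs Q le_rfl)
    (fun q hq => hmvs (q - 1) ?_) (fun ω hω => t5_point (sy B (φ ω)) C (fun l hl => hF.tp ω hω l hl)
      (by omega) hE1 hEQ hR1)
  · refine hkey.trans ?_
    have e1 : (E : ℝ) ^ (-c) ≤ (Q : ℝ) ^ (-(c / 4)) := by
      calc (E : ℝ) ^ (-c) ≤ ((Q : ℝ) ^ (1 / 4 : ℝ)) ^ (-c) :=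
            Real.rpow_le_rpow_of_nonpos (by linarith) hEb (by linarith)
        _ = (Q : ℝ) ^ (-(c / 4)) := by
            rw [← Real.rpow_mul hQ0.le]
            congr 1
            ring
    have e2 := hlog Q hQQ1
    have e3 : ((1 + C * 500 ^ (k + 1)) * (1 + Real.log Q) ^ (k + 2)) ^ 2 *
        (500 * C * 2 ^ C * (1 + Real.log Q) ^ (C + 1)) =
        (1 + C * 500 ^ (k + 1)) ^ 2 * (500 * C * 2 ^ C) *
          (1 + Real.log Q) ^ (2 * ((k : ℝ) + 2) + (C + 1)) := by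
      have hp : 0 < 1 + Real.log Q := by linarith
      have e4 : (1 + Real.log Q) ^ (2 * ((k : ℝ) + 2) + (C + 1)) =
          ((1 + Real.log Q) ^ (k + 2)) ^ 2 * (1 + Real.log Q) ^ (C + 1) := by
        rw [Real.rpow_add hp (2 * ((k : ℝ) + 2))]
        congr 1
        rw [← pow_mul, ← Real.rpow_natCast]
        congr 1
        push_cast
        ring
      rw [e4]
      ring
    calc ((1 + C * 500 ^ (k + 1)) * (1 + Real.log Q) ^ (k + 2)) ^ 2 *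
          (500 * C * 2 ^ C * (1 + Real.log Q) ^ (C + 1) * S.card * (E : ℝ) ^ (-c))
        = (((1 + C * 500 ^ (k + 1)) * (1 + Real.log Q) ^ (k + 2)) ^ 2 *
          (500 * C * 2 ^ C * (1 + Real.log Q) ^ (C + 1))) * S.card * (E : ℝ) ^ (-c) := by ring
      _ ≤ (Q : ℝ) ^ (c / 8) * S.card * (Q : ℝ) ^ (-(c / 4)) := by
          rw [e3]
          refine mul_le_mul (mul_le_mul_of_nonneg_right e2 hS0) e1 (Real.rpow_nonneg hE0.le _) ?_
          exact mul_nonneg (Real.rpow_nonneg hQ0.le _) hS0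
      _ = S.card * ((Q : ℝ) ^ (c / 8) * (Q : ℝ) ^ (-(c / 4))) := by ring
      _ = S.card * (Q : ℝ) ^ (-(c / 8)) := by
          rw [← Real.rpow_add hQ0]
          congr 2
          ring
  · have f1 := t5_harm Q P' hsub
    have f2 : ∑ q ∈ P', C / (q : ℝ) * (500 * Real.log Q) ^ (k + 1) =
        (C * (500 * Real.log Q) ^ (k + 1)) * ∑ q ∈ P', 1 / (q : ℝ) := by
      rw [Finset.mul_sum]
      refine Finset.sum_congr rfl fun q _ => ?_
      ring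
    rw [f2]
    have f3 : (500 * Real.log Q) ^ (k + 1) ≤ 500 ^ (k + 1) * (1 + Real.log Q) ^ (k + 1) := by
      rw [mul_pow]
      refine mul_le_mul_of_nonneg_left ?_ (by positivity)
      exact pow_le_pow_left₀ hL (by linarith) _
    have f4 : (1 : ℝ) ≤ (1 + Real.log Q) ^ (k + 2) := one_le_pow₀ (by linarith)
    have f6 : C * (500 * Real.log Q) ^ (k + 1) * ∑ q ∈ P', 1 / (q : ℝ) ≤
        C * (500 ^ (k + 1) * (1 + Real.log Q) ^ (k + 1)) * (1 + Real.log Q) := by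
      refine mul_le_mul (mul_le_mul_of_nonneg_left f3 (by linarith)) f1 ?_ ?_
      · exact Finset.sum_nonneg fun q _ => by positivity
      · have : 0 ≤ 1 + Real.log Q := by linarith
        positivity
    calc 1 + C * (500 * Real.log Q) ^ (k + 1) * ∑ q ∈ P', 1 / (q : ℝ)
        ≤ (1 + Real.log Q) ^ (k + 2) +
          C * (500 ^ (k + 1) * (1 + Real.log Q) ^ (k + 1)) * (1 + Real.log Q) := add_le_add f4 f6
      _ = (1 + C * 500 ^ (k + 1)) * (1 + Real.log Q) ^ (k + 2) := by ring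
  · have h7 := (Finset.mem_Icc.1 (Finset.mem_filter.1 (hsub hq)).1).2
    omega

end Pool.Agent.Lib.H24Q
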