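import Pool.Agent.Lib.H24Q.R1
import Pool.Agent.Lib.H24P.Z1S

/-!
# Project H24Q, chunk R4 (M): small moduli (port of `H24P/Z1S`)
-/

open Finset Polynomial

namespace Pool.Agent.Lib.H24Q

open Pool.Agent.Lib.H68T Pool.Agent.Lib.H18Q Pool.Agent.Lib.H59P Pool.Agent.Lib.H24P

/-- one modulus `d` -/
theorem r4_one {k : ℕ} (Q A : ℕ) (hQ : 1 ≤ Q) (hbd : (2 * (1 + Real.log Q)) ^ (2 * k) ≤ (Q : ℝ))
    (B : ℤ[X]) (hB : Lin A B) (R D : ℕ) (hR : 1 ≤ R)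
    (ha : B.leadingCoeff.natAbs ∣ R) (hDQ : D * D ≤ Q) (p : Fin (k + 1) → Ch) (hp : ∀ i, p i ∈ PC Q)
    (hd : ∀ i, (p i).1 ∣ R) (a H : ℕ) (φ : Fin k → ℤ → ℤ) (hφ : Cp φ) (d : ℕ) (hdS : d ∈ SF (D / R) R) :
    ‖∑ n ∈ Ico a (a + H), Fc (Q ^ 100) (p 0) (B.eval (n : ℤ)) *
        (Phf (fun i : Fin k => p i.succ) R.primeFactors (at' φ n) *
          ((Wdf d (at' φ n) : ℝ) : ℂ)) -
      H * (MRf p R (sy B φ) * ((tdf d (sy B φ) : ℝ) : ℂ))‖ ≤ 4 * (Q : ℝ) ^ 401 := by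
  obtain ⟨⟨hd1, hd2⟩, hsq, hcop⟩ := z1s_mem_SF.1 hdS
  have hQ1 : (1 : ℝ) ≤ Q := by exact_mod_cast hQ
  have hRd : R * d ≤ D := by
    have := (Nat.le_div_iff_mul_le (by omega)).1 hd2
    rw [mul_comm]
    exact this
  have hRd0 : 0 < R * d := Nat.mul_pos (by omega) (by omega)
  have hD1 : 1 ≤ D := by omega
  have hDQ1 : D ≤ Q := (Nat.le_mul_of_pos_left D (by omega)).trans hDQ
  have hRQ : R ≤ Q := (Nat.le_mul_of_pos_right R (by omega)).trans (hRd.trans hDQ1)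
  have hdQ : d ≤ Q := (Nat.le_mul_of_pos_left d (by omega)).trans (hRd.trans hDQ1)
  have hNQ : (R * d) * (R * d) ≤ Q ^ 100 := by
    calc (R * d) * (R * d) ≤ D * D := Nat.mul_le_mul hRd hRd
      _ ≤ Q := hDQ
      _ = Q ^ 1 := (pow_one Q).symm
      _ ≤ Q ^ 100 := Nat.pow_le_pow_right hQ (by norm_num)
  obtain ⟨ψ, hψ⟩ : ∃ ψ : ℤ → ℂ, ψ = fun n => Phf (fun i : Fin k => p i.succ) R.primeFactors (at' φ n) *
      ((Wdf d (at' φ n) : ℝ) : ℂ) := ⟨_, rfl⟩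
  have hper : ∀ n, ψ (n + (R * d : ℕ)) = ψ n := by
    intro n
    rw [hψ]
    beta_reduce
    rw [P2_Ph φ hφ (fun i : Fin k => p i.succ) R (R * d) (dvd_mul_right _ _)
      (fun i => hd i.succ) n, P2_Wd φ hφ d (R * d) (dvd_mul_left _ _) n]
  have hlog : ∀ x : ℕ, 1 ≤ x → x ≤ Q → (x : ℝ) / (Nat.totient x : ℝ) ≤ 2 * (1 + Real.log Q) := by
    intro x hx hxQ
    refine (M3b x hx).trans ?_
    have hx0 : (0 : ℝ) < x := by exact_mod_cast (by omega : 0 < x)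
    have : Real.log x ≤ Real.log Q := Real.log_le_log hx0 (by exact_mod_cast hxQ)
    linarith
  have hbd' : ∀ n, ‖ψ n‖ ≤ (Q : ℝ) := by
    intro n
    rw [hψ]
    beta_reduce
    rw [norm_mul, Complex.norm_real, Real.norm_eq_abs]
    have h1 := P0_PhR (fun i : Fin k => p i.succ) R (by omega) (at' φ n)
    have h2 := P0_W d hsq (at' φ n)
    have h3 : ((R : ℝ) / (Nat.totient R : ℝ)) ^ k ≤ (2 * (1 + Real.log Q)) ^ k :=
      pow_le_pow_left₀ (by positivity) (hlog R (by omega) hRQ) k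
    have h4 : ((d : ℝ) / (Nat.totient d : ℝ)) ^ k ≤ (2 * (1 + Real.log Q)) ^ k :=
      pow_le_pow_left₀ (by positivity) (hlog d hd1 hdQ) k
    have hl : 0 ≤ Real.log Q := Real.log_nonneg hQ1
    calc _ ≤ (2 * (1 + Real.log Q)) ^ k * (2 * (1 + Real.log Q)) ^ k :=
          mul_le_mul (h1.trans h3) (h2.trans h4) (abs_nonneg _) (by positivity)
      _ = (2 * (1 + Real.log Q)) ^ (2 * k) := by
          rw [← pow_add]
          congr 1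
          ring
      _ ≤ Q := hbd
  have h1 := B4_small (Q ^ 100) (R * d) (p 0) (z1s_PC hQ (hp 0)) ((hd 0).trans (dvd_mul_right _ _))
    B hB.deg (ha.trans (dvd_mul_right _ _)) hRd0 hNQ ψ hper Q hbd' a H
  have h2 := R1_fac B hB.deg φ hφ p R d (by omega) ha hd hsq hcop
  rw [hψ] at h1
  beta_reduce at h1
  rw [h2] at h1
  refine h1.trans (le_of_eq ?_)
  push_cast
  ring

/-- Proof. As `Z1S_main` (`H24P/Z1S.lean`) with `ran P h` replaced by `φ`, `sys B P h` by `sy B φ`. -/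
theorem R4_main (k A : ℕ) : ∃ Q0 : ℕ, ∀ Q : ℕ, Q0 ≤ Q → ∀ B : ℤ[X], Lin A B →
    ∀ R D : ℕ, 1 ≤ R → B.leadingCoeff.natAbs ∣ R → D * D ≤ Q → ∀ p : Fin (k + 1) → Ch,
    (∀ i, p i ∈ PC Q) → (∀ i, (p i).1 ∣ R) → ∀ (a H : ℕ) (φ : Fin k → ℤ → ℤ), Cp φ →
    ‖∑ n ∈ Ico a (a + H), Fc (Q ^ 100) (p 0) (B.eval (n : ℤ)) *
        ∑ κ ∈ (Fintype.piFinset fun i : Fin k => KS Q (p i.succ).1).filter
          (fun κ => R.lcm (univ.lcm κ) ≤ D), ∏ i, gk (p i.succ) (κ i) (φ i (n : ℤ)) -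
      H * (MRf p R (sy B φ) * ((∑ d ∈ SF (D / R) R, tdf d (sy B φ) : ℝ) : ℂ))‖ ≤
      (Q : ℝ) ^ 410 := by

  obtain ⟨Q1, hQ1, hlog⟩ := G1_rlog (2 ^ (2 * k)) ((2 * k : ℕ) : ℝ) 1 one_pos
  refine ⟨max 2 Q1, ?_⟩
  intro Q hQ B hB R D hR ha hDQ p hp hd a H φ hφ
  have hQ2 : 2 ≤ Q := (le_max_left _ _).trans hQ
  have hbd : (2 * (1 + Real.log Q)) ^ (2 * k) ≤ (Q : ℝ) := by
    have h1 := hlog Q ((le_max_right _ _).trans hQ)
    rw [Real.rpow_natCast, Real.rpow_one, ← mul_pow] at h1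
    exact h1
  have hDQ1 : D ≤ Q := by
    rcases Nat.eq_zero_or_pos D with h0 | h0
    · omega
    · exact (Nat.le_mul_of_pos_left D h0).trans hDQ
  have hin : ∀ n : ℤ, ∑ κ ∈ (Fintype.piFinset fun i : Fin k => KS Q (p i.succ).1).filter
          (fun κ => R.lcm (univ.lcm κ) ≤ D), ∏ i, gk (p i.succ) (κ i) (φ i (n : ℤ)) =
      Phf (fun i : Fin k => p i.succ) R.primeFactors (at' φ n) *
        ∑ d ∈ SF (D / R) R, ((Wdf d (at' φ n) : ℝ) : ℂ) := fun n =>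
    P1_M2 Q D R hDQ1 (by omega) (fun i : Fin k => p i.succ) (fun i => hp i.succ)
      (fun i => hd i.succ) (at' φ n)
  have e1 : ∑ n ∈ Ico a (a + H), Fc (Q ^ 100) (p 0) (B.eval (n : ℤ)) *
        ∑ κ ∈ (Fintype.piFinset fun i : Fin k => KS Q (p i.succ).1).filter
          (fun κ => R.lcm (univ.lcm κ) ≤ D), ∏ i, gk (p i.succ) (κ i) (φ i (n : ℤ)) -
      H * (MRf p R (sy B φ) * ((∑ d ∈ SF (D / R) R, tdf d (sy B φ) : ℝ) : ℂ)) =
      ∑ d ∈ SF (D / R) R, (∑ n ∈ Ico a (a + H), Fc (Q ^ 100) (p 0) (B.eval (n : ℤ)) *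
        (Phf (fun i : Fin k => p i.succ) R.primeFactors (at' φ n) *
          ((Wdf d (at' φ n) : ℝ) : ℂ)) -
      H * (MRf p R (sy B φ) * ((tdf d (sy B φ) : ℝ) : ℂ))) := by
    rw [Finset.sum_sub_distrib, Finset.sum_comm]
    congr 1
    · refine Finset.sum_congr rfl fun n _ => ?_
      rw [hin, Finset.mul_sum, Finset.mul_sum]
    · rw [← Finset.mul_sum, ← Finset.mul_sum, Complex.ofReal_sum]
  rw [e1]
  have hcard : ((SF (D / R) R).card : ℝ) ≤ Q := by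
    have h1 : SF (D / R) R ⊆ Icc 1 Q := by
      intro d hd'
      obtain ⟨⟨a1, a2⟩, -⟩ := z1s_mem_SF.1 hd'
      rw [Finset.mem_Icc]
      exact ⟨a1, (a2.trans (Nat.div_le_self _ _)).trans hDQ1⟩
    have h2 := Finset.card_le_card h1
    rw [Nat.card_Icc, Nat.add_sub_cancel] at h2
    exact_mod_cast h2
  have hQr : (2 : ℝ) ≤ Q := by exact_mod_cast hQ2
  calc _ ≤ ∑ _d ∈ SF (D / R) R, 4 * (Q : ℝ) ^ 401 :=
        norm_sum_le_of_le _ fun d hd' => r4_one Q A (by omega) hbd B hB R D hR ha hDQ p hp hd a H φ hφ d hd'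
    _ = (SF (D / R) R).card * (4 * (Q : ℝ) ^ 401) := by rw [Finset.sum_const, nsmul_eq_mul]
    _ ≤ Q * (4 * (Q : ℝ) ^ 401) := mul_le_mul_of_nonneg_right hcard (by positivity)
    _ ≤ Q * (Q ^ 2 * (Q : ℝ) ^ 401) := by
        have : (4 : ℝ) ≤ Q ^ 2 := by nlinarith
        gcongr
    _ = (Q : ℝ) ^ 404 := by ring
    _ ≤ (Q : ℝ) ^ 410 := pow_le_pow_right₀ (by linarith) (by norm_num)

theorem r4_sq (x y : ℂ) : ‖x + y‖ ^ 2 ≤ 2 * ‖x‖ ^ 2 + 2 * ‖y‖ ^ 2 := by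
  have h1 : ‖x + y‖ ≤ ‖x‖ + ‖y‖ := norm_add_le x y
  have h2 : 0 ≤ ‖x + y‖ := norm_nonneg _
  nlinarith [sq_nonneg (‖x‖ - ‖y‖)]

/-- **R4.** Proof. As `Z1_small` (`H24P/Z1S.lean`): `R4_main`, and `FW` (level `Q`, `H0 ≤ H`) instead of `Fgen`. -/
theorem R4_small (k A : ℕ) (hA : 1 ≤ A) (C c : ℝ) (hC : 1 ≤ C) (hc : 0 < c) : ∃ c' : ℝ, 0 < c' ∧
    ∃ Q0 : ℕ, ∀ Q : ℕ, Q0 ≤ Q → ∀ B : ℤ[X], Lin A B → ∀ (H0 : ℕ) (Ω : Type) (S : Finset Ω)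
    (φ : Ω → Fin k → ℤ → ℤ), FamW C c Q H0 B S φ → ∀ m0 : ℕ, 1 ≤ m0 →
    B.leadingCoeff.natAbs ∣ m0 → ∀ p ∈ TSf (k + 1) Q (fl Q (1 / 16)) m0,
    ∀ a H : ℕ, H0 ≤ H → Q ^ 600 ≤ H →
    ∑ ω ∈ S, ‖∑ n ∈ Ico a (a + H), Fc (Q ^ 100) (p 0) (B.eval (n : ℤ)) *
        ∏ i : Fin k, Fc Q (p i.succ) (φ ω i (n : ℤ)) -
      H * (MRf p (Rf m0 p) (sy B (φ ω)) *
        ((∑ d ∈ SF (fl Q (1 / 2) / Rf m0 p) (Rf m0 p), tdf d (sy B (φ ω)) : ℝ) : ℂ))‖ ^ 2 ≤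
      S.card * (H : ℝ) ^ 2 * (Q : ℝ) ^ (-c') := by

  classical
  obtain ⟨Cc, hCcd⟩ : ∃ Cc : ℝ, Cc = C := ⟨_, rfl⟩
  obtain ⟨cc, hccd⟩ : ∃ cc : ℝ, cc = min c 1 := ⟨_, rfl⟩
  have hcc0 : 0 < cc := by rw [hccd]; exact lt_min hc one_pos
  have hcc1 : cc ≤ 1 := by rw [hccd]; exact min_le_right _ _
  have hccc : cc ≤ c := by rw [hccd]; exact min_le_left _ _
  have hCc : 1 ≤ Cc := by rw [hCcd]; exact hC
  obtain ⟨Q1, hmain⟩ := R4_main k A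
  obtain ⟨Q2, hQ21, hsize⟩ := G1_size A
  obtain ⟨Q3, hQ31, hlog⟩ := G1_rlog (4 * (Cc * 20000 * 100 ^ 9)) (Cc + 9) (cc / 8) (by positivity)
  refine ⟨cc / 8, by positivity, max 2 (max Q1 (max Q2 Q3)), ?_⟩
  intro Q hQ B hB H0 Ω S φ hFam m0 hm0 ham0 p hp a H hH0 hH
  have hQ2 : 2 ≤ Q := (le_max_left _ _).trans hQ
  have hQ1' : Q1 ≤ Q := ((le_max_left _ _).trans (le_max_right _ _)).trans hQ
  have hQ2' : Q2 ≤ Q :=
    ((le_max_left _ _).trans ((le_max_right _ _).trans (le_max_right _ _))).trans hQ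
  have hQ3' : Q3 ≤ Q :=
    ((le_max_right _ _).trans ((le_max_right _ _).trans (le_max_right _ _))).trans hQ
  have hQr : (2 : ℝ) ≤ Q := by exact_mod_cast hQ2
  have hQ0 : (0 : ℝ) < Q := by linarith
  have hQr1 : (1 : ℝ) ≤ Q := by linarith
  have hlQ : 0 ≤ Real.log Q := Real.log_nonneg hQr1
  have hp' : (∀ i, p i ∈ PC Q) ∧ Rf m0 p ≤ fl Q (1 / 16) := by
    unfold TSf at hp
    rw [mem_filter, Fintype.mem_piFinset] at hp
    exact hp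
  obtain ⟨hpPC, hRle⟩ := hp'
  obtain ⟨R, hRdef⟩ : ∃ R, R = Rf m0 p := ⟨_, rfl⟩
  rw [← hRdef] at hRle ⊢
  have hm0R : m0 ∣ R := by
    rw [hRdef]
    exact Nat.dvd_lcm_left _ _
  have hpR : ∀ i, (p i).1 ∣ R := by
    intro i
    rw [hRdef]
    exact (Finset.dvd_lcm (f := fun i => (p i).1) (mem_univ i)).trans (Nat.dvd_lcm_right _ _)
  have hR1 : 1 ≤ R := by
    rw [hRdef]
    refine Nat.pos_of_ne_zero (Nat.lcm_ne_zero (by omega) ?_)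
    rw [Finset.lcm_ne_zero_iff]
    intro i _
    have := (mem_PC.1 (hpPC i)).1
    omega
  obtain ⟨-, -, -, hDD, hDR⟩ := hsize Q hQ2' 1 1 (le_refl _) hA (by rw [one_pow]; omega)
  have hDR' := hDR R hR1 hRle
  obtain ⟨D, hD⟩ : ∃ D, D = fl Q (1 / 2) := ⟨_, rfl⟩
  rw [← hD] at hDD hDR' ⊢
  -- splitting of the tuples `κ`
  set K : Finset (Fin k → ℕ) := Fintype.piFinset fun i : Fin k => KS Q (p i.succ).1 with hK
  set T : Finset (Fin k → ℕ) := K.filter (fun κ => ¬ R.lcm (univ.lcm κ) ≤ D) with hT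
  set w : ℕ → ℂ := fun n => Fc (Q ^ 100) (p 0) (B.eval (n : ℤ)) with hw
  have hprod : ∀ (h : Ω) (n : ℕ), ∏ i : Fin k, Fc Q (p i.succ) (φ h i (n : ℤ)) =
      ∑ κ ∈ K.filter (fun κ => R.lcm (univ.lcm κ) ≤ D),
        ∏ i, gk (p i.succ) (κ i) (φ h i (n : ℤ)) +
      ∑ κ ∈ T, ∏ i, gk (p i.succ) (κ i) (φ h i (n : ℤ)) := by
    intro h n
    rw [hT, Finset.sum_filter_add_sum_filter_not]
    unfold Fc
    rw [Finset.prod_univ_sum]
  have hF' := hFam.fw1 (fun i => p i.succ) (fun i => hpPC i.succ) T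
    (Finset.filter_subset _ _) (D / R) (by
      have h1 : (0 : ℝ) < (Q : ℝ) ^ (1 / 4 : ℝ) := Real.rpow_pos_of_pos hQ0 _
      have h2 : (0 : ℝ) < ((D / R : ℕ) : ℝ) := lt_of_lt_of_le h1 hDR'
      exact_mod_cast h2) (by
      intro κ hκ
      rw [hT, mem_filter] at hκ
      have hκK := Fintype.mem_piFinset.1 (by rw [hK] at hκ; exact hκ.1)
      have h1 : D < R.lcm (univ.lcm κ) := not_le.1 hκ.2
      have h2 : univ.lcm κ ∣ univ.lcm (fun i => (p i.succ).1 * κ i) :=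
        Finset.lcm_dvd fun i _ => (dvd_mul_left (κ i) _).trans
          (Finset.dvd_lcm (f := fun i => (p i.succ).1 * κ i) (mem_univ i))
      have h3 : 0 < univ.lcm (fun i => (p i.succ).1 * κ i) := by
        refine Nat.pos_of_ne_zero ?_
        rw [Finset.lcm_ne_zero_iff]
        intro i _
        have e1 := (mem_PC.1 (hpPC i.succ)).1
        have e2 := (CA_mem_KS.1 (hκK i)).1.1
        have := Nat.mul_pos e1 e2
        omega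
      have h4 := Nat.le_of_dvd h3 h2
      have h5 : R.lcm (univ.lcm κ) ≤ R * univ.lcm κ :=
        Nat.le_of_dvd (Nat.mul_pos (by omega) (Nat.pos_of_dvd_of_pos h2 h3)) (Nat.lcm_dvd_mul _ _)
      refine lt_of_lt_of_le ?_ h4
      rw [Nat.div_lt_iff_lt_mul (by omega), mul_comm]
      omega) w a H hH0
  have hB5 := B5_sq (Q ^ 100) A (Nat.one_le_pow _ _ (by omega)) (p 0) (z1s_PC (by omega) (hpPC 0)) B hB a H
    (by
      rw [← pow_mul]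
      exact (Nat.pow_le_pow_right (by omega) (by norm_num)).trans hH)
  have hv : (0 : ℝ) ≤ S.card := Nat.cast_nonneg _
  have hH1 : (1 : ℝ) ≤ H := by
    have : 1 ≤ H := (Nat.one_le_pow 600 Q (by omega)).trans hH
    exact_mod_cast this
  have hlog100 : (1 + Real.log ((Q ^ 100 : ℕ) : ℝ)) ^ 9 ≤ 100 ^ 9 * (1 + Real.log Q) ^ 9 := by
    rw [← mul_pow]
    apply pow_le_pow_left₀
    · have : 0 ≤ Real.log ((Q ^ 100 : ℕ) : ℝ) := Real.log_natCast_nonneg _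
      linarith
    · push_cast
      rw [Real.log_pow]
      push_cast
      linarith
  have hw2 : ∑ n ∈ Ico a (a + H), ‖w n‖ ^ 2 ≤ 20000 * (100 ^ 9 * (1 + Real.log Q) ^ 9) * H := by
    refine hB5.trans ?_
    apply mul_le_mul_of_nonneg_right _ (by linarith)
    exact mul_le_mul_of_nonneg_left hlog100 (by norm_num)
  have hDneg : ((D / R : ℕ) : ℝ) ^ (-cc) ≤ (Q : ℝ) ^ (-(cc / 4)) := by
    calc ((D / R : ℕ) : ℝ) ^ (-cc) ≤ ((Q : ℝ) ^ (1 / 4 : ℝ)) ^ (-cc) :=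
          Real.rpow_le_rpow_of_nonpos (Real.rpow_pos_of_pos hQ0 _) hDR' (by linarith)
      _ = (Q : ℝ) ^ (-(cc / 4)) := by
          rw [← Real.rpow_mul hQ0.le]
          congr 1
          ring
  have hlogv := hlog Q hQ3'
  have hL0 : 0 < 1 + Real.log Q := by linarith
  have hlarge : ∑ h ∈ S, ‖∑ n ∈ Ico a (a + H), w n *
        ∑ κ ∈ T, ∏ i, gk (p i.succ) (κ i) (φ h i (n : ℤ))‖ ^ 2 ≤
      1 / 4 * (S.card * H ^ 2 * (Q : ℝ) ^ (-(cc / 8))) := by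
    have hCcp : 0 ≤ Cc * (1 + Real.log Q) ^ Cc * S.card := by positivity
    have hDR1 : (1 : ℝ) ≤ ((D / R : ℕ) : ℝ) := (Real.one_le_rpow hQr1 (by norm_num)).trans hDR'
    have hF2 := hF'
    rw [← hCcd] at hF2
    refine hF2.trans ?_
    refine (mul_le_mul_of_nonneg_left (Real.rpow_le_rpow_of_exponent_le hDR1 (neg_le_neg hccc))
      (by positivity)).trans ?_
    calc Cc * (1 + Real.log Q) ^ Cc * S.card * (H * ∑ n ∈ Ico a (a + H), ‖w n‖ ^ 2) *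
          ((D / R : ℕ) : ℝ) ^ (-cc)
        ≤ Cc * (1 + Real.log Q) ^ Cc * S.card *
          (H * (20000 * (100 ^ 9 * (1 + Real.log Q) ^ 9) * H)) * (Q : ℝ) ^ (-(cc / 4)) := by
          apply mul_le_mul _ hDneg (by positivity) (by positivity)
          apply mul_le_mul_of_nonneg_left _ hCcp
          exact mul_le_mul_of_nonneg_left hw2 (by linarith)
      _ = 1 / 4 * (S.card * H ^ 2 * ((4 * (Cc * 20000 * 100 ^ 9) * (1 + Real.log Q) ^ (Cc + 9)) *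
          (Q : ℝ) ^ (-(cc / 4)))) := by
          rw [Real.rpow_add hL0]
          have : (1 + Real.log Q) ^ (9 : ℝ) = (1 + Real.log Q) ^ 9 := by
            exact_mod_cast Real.rpow_natCast (1 + Real.log Q) 9
          rw [this]
          ring
      _ ≤ 1 / 4 * (S.card * H ^ 2 * ((Q : ℝ) ^ (cc / 8) * (Q : ℝ) ^ (-(cc / 4)))) := by
          gcongr
      _ = 1 / 4 * (S.card * H ^ 2 * (Q : ℝ) ^ (-(cc / 8))) := by
          rw [← Real.rpow_add hQ0]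
          congr 3
          ring
  -- the main part
  have hsmall : ∀ h ∈ S, ‖∑ n ∈ Ico a (a + H), w n *
        ∑ κ ∈ K.filter (fun κ => R.lcm (univ.lcm κ) ≤ D),
          ∏ i, gk (p i.succ) (κ i) (φ h i (n : ℤ)) -
      H * (MRf p R (sy B (φ h)) * ((∑ d ∈ SF (D / R) R, tdf d (sy B (φ h)) : ℝ) : ℂ))‖ ^ 2 ≤
      1 / 4 * (H ^ 2 * (Q : ℝ) ^ (-(cc / 8))) := by
    intro h hh
    have h1 := hmain Q hQ1' B hB R D hR1 (ham0.trans hm0R) hDD p hpPC hpR a H (φ h) (hFam.cp h hh)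
    refine (pow_le_pow_left₀ (norm_nonneg _) h1 2).trans ?_
    have h2 : (Q : ℝ) ^ (-(1 : ℝ)) ≤ (Q : ℝ) ^ (-(cc / 8)) :=
      Real.rpow_le_rpow_of_exponent_le hQr1 (by linarith)
    have h3 : (Q : ℝ) ^ (-(1 : ℝ)) = (Q : ℝ)⁻¹ := Real.rpow_neg_one _
    have hHr : (Q : ℝ) ^ 600 ≤ H := by exact_mod_cast hH
    calc ((Q : ℝ) ^ 410) ^ 2 = 1 / 4 * (4 * (Q : ℝ) ^ 820) := by ring
      _ ≤ 1 / 4 * ((Q : ℝ) ^ 2 * (Q : ℝ) ^ 820) := by
          have : (4 : ℝ) ≤ Q ^ 2 := by nlinarith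
          gcongr
      _ ≤ 1 / 4 * (((Q : ℝ) ^ 600) ^ 2 * (Q : ℝ)⁻¹) := by
          rw [← pow_mul, ← pow_add]
          have : (Q : ℝ) ^ (600 * 2) * (Q : ℝ)⁻¹ = (Q : ℝ) ^ 1199 := by
            field_simp
          rw [this]
          have : (Q : ℝ) ^ (2 + 820) ≤ (Q : ℝ) ^ 1199 := pow_le_pow_right₀ hQr1 (by norm_num)
          exact mul_le_mul_of_nonneg_left this (by norm_num)
      _ ≤ 1 / 4 * (H ^ 2 * (Q : ℝ) ^ (-(cc / 8))) := by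
          rw [← h3]
          have h5 : 0 ≤ (Q : ℝ) ^ (-(1 : ℝ)) := Real.rpow_nonneg hQ0.le _
          have h4 : ((Q : ℝ) ^ 600) ^ 2 ≤ (H : ℝ) ^ 2 := pow_le_pow_left₀ (by positivity) hHr 2
          have := mul_le_mul h4 h2 h5 (by positivity)
          linarith
  have hsplit : ∀ h ∈ S, ‖∑ n ∈ Ico a (a + H), Fc (Q ^ 100) (p 0) (B.eval (n : ℤ)) *
        ∏ i : Fin k, Fc Q (p i.succ) (φ h i (n : ℤ)) -
      H * (MRf p R (sy B (φ h)) * ((∑ d ∈ SF (D / R) R, tdf d (sy B (φ h)) : ℝ) : ℂ))‖ ^ 2 ≤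
      2 * (1 / 4 * (H ^ 2 * (Q : ℝ) ^ (-(cc / 8)))) + 2 * ‖∑ n ∈ Ico a (a + H), w n *
        ∑ κ ∈ T, ∏ i, gk (p i.succ) (κ i) (φ h i (n : ℤ))‖ ^ 2 := by
    intro h hh
    have e1 : ∑ n ∈ Ico a (a + H), Fc (Q ^ 100) (p 0) (B.eval (n : ℤ)) *
        ∏ i : Fin k, Fc Q (p i.succ) (φ h i (n : ℤ)) -
      H * (MRf p R (sy B (φ h)) * ((∑ d ∈ SF (D / R) R, tdf d (sy B (φ h)) : ℝ) : ℂ)) =
      (∑ n ∈ Ico a (a + H), w n *
        ∑ κ ∈ K.filter (fun κ => R.lcm (univ.lcm κ) ≤ D),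
          ∏ i, gk (p i.succ) (κ i) (φ h i (n : ℤ)) -
      H * (MRf p R (sy B (φ h)) * ((∑ d ∈ SF (D / R) R, tdf d (sy B (φ h)) : ℝ) : ℂ))) +
      ∑ n ∈ Ico a (a + H), w n *
        ∑ κ ∈ T, ∏ i, gk (p i.succ) (κ i) (φ h i (n : ℤ)) := by
      have e2 : ∑ n ∈ Ico a (a + H), Fc (Q ^ 100) (p 0) (B.eval (n : ℤ)) *
          ∏ i : Fin k, Fc Q (p i.succ) (φ h i (n : ℤ)) =
          ∑ n ∈ Ico a (a + H), w n *
            ∑ κ ∈ K.filter (fun κ => R.lcm (univ.lcm κ) ≤ D),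
              ∏ i, gk (p i.succ) (κ i) (φ h i (n : ℤ)) +
          ∑ n ∈ Ico a (a + H), w n *
            ∑ κ ∈ T, ∏ i, gk (p i.succ) (κ i) (φ h i (n : ℤ)) := by
        rw [← Finset.sum_add_distrib]
        refine Finset.sum_congr rfl fun n _ => ?_
        rw [hprod h n, mul_add]
      rw [e2]
      ring
    rw [e1]
    refine (r4_sq _ _).trans ?_
    have := hsmall h hh
    linarith
  refine (Finset.sum_le_sum hsplit).trans ?_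
  rw [Finset.sum_add_distrib, Finset.sum_const, nsmul_eq_mul, ← Finset.mul_sum]
  have e3 : S.card * (2 * (1 / 4 * ((H : ℝ) ^ 2 * (Q : ℝ) ^ (-(cc / 8))))) =
      1 / 2 * (S.card * H ^ 2 * (Q : ℝ) ^ (-(cc / 8))) := by ring
  rw [e3]
  linarith

end Pool.Agent.Lib.H24Q
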