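import Pool.Agent.Lib.H24Q.R1
import Pool.Agent.Lib.H24Q.C1
import Pool.Agent.Lib.H24P.X1B

/-!
# Project H24Q, chunk R8 (M): the exceptional character, means (port of `H24P/X1A`, `H24P/X1B`)
-/

open Finset Polynomial

namespace Pool.Agent.Lib.H24Q

open Pool.Agent.Lib.H68T Pool.Agent.Lib.H18Q Pool.Agent.Lib.H59P Pool.Agent.Lib.H24P

/-- the mean as a sum over a longer interval -/
theorem r8_mean {k : ℕ} {Q : ℕ} (B : ℤ[X]) (φ : Fin k → ℤ → ℤ) (hφ : Cp φ) (px : Ch) (hpx : px ∈ PC Q)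
    (Bs : Finset (Fin (k + 1))) (Bs' : Finset (Fin k)) (hmem : ∀ i : Fin k, i ∈ Bs' ↔ i.succ ∈ Bs)
    (q : ℕ) (hq : 0 < q) :
    MRf (pB px Bs) px.1 (sy B φ) = (∑ n ∈ Ico 0 (0 + px.1 * q), (cj (pB px Bs 0) (B.eval (n : ℤ)) *
      ((uu px.1.primeFactors (B.eval (n : ℤ)) : ℝ) : ℂ)) * ∑ κ ∈ KT px Bs',
      ∏ i, gk (pB px Bs' i) (κ i) (φ i (n : ℤ))) / ((px.1 * q : ℕ) : ℂ) := by
  classical
  obtain ⟨hr1, -, -⟩ := mem_PC.1 hpx
  have hpB : ∀ i : Fin k, pB px Bs i.succ = pB px Bs' i := by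
    intro i
    unfold pB
    by_cases hi : i.succ ∈ Bs
    · rw [if_pos hi, if_pos ((hmem i).2 hi)]
    · rw [if_neg hi, if_neg (fun h => hi ((hmem i).1 h))]
  have h1 : ∀ n : ℕ, (cj (pB px Bs 0) (B.eval (n : ℤ)) * ((uu px.1.primeFactors (B.eval (n : ℤ)) : ℝ) : ℂ)) *
      ∑ κ ∈ KT px Bs', ∏ i, gk (pB px Bs' i) (κ i) (φ i (n : ℤ)) =
      Phf (pB px Bs) px.1.primeFactors (at' (sy B φ) (n : ℤ)) := by
    intro n
    rw [← X1A_expand Q px hpx Bs' (fun i => φ i (n : ℤ))]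
    unfold Phf at'
    rw [Fin.prod_univ_succ]
    have e0 : sy B φ 0 (n : ℤ) = B.eval (n : ℤ) := rfl
    have e1 : ∀ i : Fin k, sy B φ i.succ (n : ℤ) = φ i (n : ℤ) := fun i => rfl
    rw [e0]
    congr 1
    refine Finset.prod_congr rfl fun i _ => ?_
    rw [e1, hpB i]
  have hd : ∀ i, (pB px Bs i).1 ∣ px.1 := by
    intro i
    unfold pB
    split_ifs
    · exact dvd_rfl
    · exact one_dvd _
  rw [zero_add, Nat.Ico_zero_eq_range, Finset.sum_congr rfl fun n _ => h1 n,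
    x1_sum_mul px.1 q (fun n => Phf (pB px Bs) px.1.primeFactors (at' (sy B φ) (n : ℤ))) (fun s => by
      have := P2_Ph (sy B φ) (R1_cp B φ hφ) (pB px Bs) px.1 px.1 dvd_rfl hd (s : ℤ)
      push_cast
      exact this)]
  unfold MRf
  have hq0 : (q : ℂ) ≠ 0 := by exact_mod_cast hq.ne'
  have hr0 : (px.1 : ℂ) ≠ 0 := by
    have : px.1 ≠ 0 := by omega
    exact_mod_cast this
  push_cast
  field_simp

theorem r8_w {Q r : ℕ} (hr : 1 ≤ r) (hrQ : r ≤ Q) (p : Ch) (m : ℤ) :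
    ‖cj p m * ((uu r.primeFactors m : ℝ) : ℂ)‖ ≤ 2 * (1 + Real.log Q) := by
  rw [norm_mul, Complex.norm_real, Real.norm_eq_abs, abs_of_nonneg (M3a_uu r hr _).1]
  have h1 : Real.log r ≤ Real.log Q := Real.log_le_log (by exact_mod_cast hr) (by exact_mod_cast hrQ)
  calc _ ≤ 1 * ((r : ℝ) / (Nat.totient r : ℝ)) :=
        mul_le_mul (x1_cj_norm _ _) (M3a_uu r hr _).2 (M3a_uu r hr _).1 zero_le_one
    _ = (r : ℝ) / (Nat.totient r : ℝ) := one_mul _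
    _ ≤ 2 * (1 + Real.log r) := M3b r hr
    _ ≤ _ := by linarith

theorem r8_W (w : ℕ → ℂ) (H : ℕ) (b : ℝ) (hw : ∀ n, ‖w n‖ ≤ b) :
    ∑ n ∈ Ico 0 (0 + H), ‖w n‖ ^ 2 ≤ H * b ^ 2 := by
  calc ∑ n ∈ Ico 0 (0 + H), ‖w n‖ ^ 2 ≤ ∑ _n ∈ Ico 0 (0 + H), b ^ 2 :=
        Finset.sum_le_sum fun n _ => pow_le_pow_left₀ (norm_nonneg _) (hw n) 2
    _ = _ := by
        rw [Finset.sum_const, Nat.card_Ico, nsmul_eq_mul, zero_add, Nat.sub_zero]

theorem r8_KS {k Q : ℕ} (px : Ch) (hpx : px ∈ PC Q) (Bs : Finset (Fin k)) :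
    (∀ i, pB px Bs i ∈ PC Q) ∧ KT px Bs ⊆ Fintype.piFinset (fun i => KS Q (pB px Bs i).1) := by
  obtain ⟨hr1, hrQ, hprim⟩ := mem_PC.1 hpx
  have hsub := X1A_sub Q px hpx Bs
  refine ⟨?_, ?_⟩
  · intro i
    obtain ⟨e1, e2, e3⟩ := mem_PC.1 (hsub.2 i)
    exact mem_PC.2 ⟨e1, e2.trans hrQ, e3⟩
  · refine hsub.1.trans (Fintype.piFinset_subset _ _ fun i => ?_)
    intro κ hκ
    rw [KS, Finset.mem_filter, Finset.mem_Icc] at hκ ⊢
    exact ⟨⟨hκ.1.1, hκ.1.2.trans (Nat.div_le_div_right hrQ)⟩, hκ.2⟩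

/-- `FW` divided by the square of the length -/
theorem r8_FW {C c : ℝ} (hC : 1 ≤ C) {Q H0 : ℕ} (hQ : 1 ≤ Q) {k : ℕ}
    {Ω : Type} {S : Finset Ω} {φ : Ω → Fin k → ℤ → ℤ} (hF : FW C c Q H0 S φ)
    (p : Fin k → Ch) (hp : ∀ i, p i ∈ PC Q) (T : Finset (Fin k → ℕ))
    (hT : T ⊆ Fintype.piFinset (fun i => KS Q (p i).1)) (D : ℕ) (hD : 1 ≤ D)
    (hTD : ∀ κ ∈ T, D < univ.lcm (fun i => (p i).1 * κ i)) (w : ℕ → ℂ)
    (hw : ∀ n, ‖w n‖ ≤ 2 * (1 + Real.log Q)) (H : ℕ) (hH : H0 ≤ H) (hH0 : 0 < H) :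
    (1 / (H : ℝ) ^ 2) * ∑ ω ∈ S, ‖∑ n ∈ Ico 0 (0 + H), w n * ∑ κ ∈ T, ∏ i, gk (p i) (κ i) (φ ω i (n : ℤ))‖ ^ 2 ≤
      4 * C * (1 + Real.log Q) ^ (C + 2) * S.card * (D : ℝ) ^ (-c) := by
  have hlog : 0 ≤ Real.log Q := Real.log_natCast_nonneg Q
  have hHpos : (0 : ℝ) < H := by exact_mod_cast hH0
  have h1 := hF p hp T hT D hD hTD w 0 H hH
  have h2 := r8_W w H _ hw
  have hP0 : 0 ≤ (1 + Real.log Q) ^ C := Real.rpow_nonneg (by linarith) _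
  have hD0 : 0 ≤ (D : ℝ) ^ (-c) := Real.rpow_nonneg (Nat.cast_nonneg _) _
  calc (1 / (H : ℝ) ^ 2) * ∑ ω ∈ S, ‖∑ n ∈ Ico 0 (0 + H), w n * ∑ κ ∈ T, ∏ i, gk (p i) (κ i) (φ ω i (n : ℤ))‖ ^ 2
      ≤ (1 / (H : ℝ) ^ 2) * (C * (1 + Real.log Q) ^ C * S.card * (H * (H * (2 * (1 + Real.log Q)) ^ 2)) *
        (D : ℝ) ^ (-c)) := by
        refine mul_le_mul_of_nonneg_left (h1.trans ?_) (by positivity)
        refine mul_le_mul_of_nonneg_right ?_ hD0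
        refine mul_le_mul_of_nonneg_left ?_ (by positivity)
        exact mul_le_mul_of_nonneg_left h2 hHpos.le
    _ = 4 * C * ((1 + Real.log Q) ^ C * (1 + Real.log Q) ^ 2) * S.card * (D : ℝ) ^ (-c) := by
        field_simp
        ring
    _ = _ := by
        rw [← Real.rpow_natCast (1 + Real.log Q) 2, ← Real.rpow_add (by linarith)]
        norm_num

/-- A twisted random coordinate. Proof. Compare `C1_MR` (`H24Q/C1.lean`) and `X1A_main` (`H24P/X1A.lean`). Let `r = px.1`.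
`MRf (pB px Bs) r (sy B (φ ω))` is the mean over `n < r`, hence (`P2_Ph`, `R1_cp`: period `r`) over `n < H`,
`H = r (H0 + 1)`, of `w(n) ∏_i (…)(φ ω i n)` with `w(n) = cj (pB px Bs 0) (B n) uu r.primeFactors (B n)`,
`‖w‖ ≤ r/φ(r) ≤ 2 (1 + log Q)` (`M3a_uu`, `M3b`, `x1_cj_norm`), and the product over the random coordinates is
`∑_{κ ∈ KT px Bs'} ∏ gk` with `Bs'` = the `i` with `i.succ ∈ Bs` (`X1A_expand`, `Fin.prod_univ_succ`). `FW` with
`T = KT px Bs' ⊆ piFinset (KS Q _)`, `D = r - 1 ≥ 1` (`c1_lcm`), `c1_rc`. -/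
theorem R8_tw {C c : ℝ} (hC : 1 ≤ C) (hc : 0 < c) {Q H0 A : ℕ} {B : ℤ[X]} (hB : Lin A B) {k : ℕ}
    {Ω : Type} {S : Finset Ω} {φ : Ω → Fin k → ℤ → ℤ} (hF : FW C c Q H0 S φ)
    (hcp : ∀ ω ∈ S, Cp (φ ω)) (px : Ch) (hpx : px ∈ PC Q) (hr : 2 ≤ px.1)
    (Bs : Finset (Fin (k + 1))) (hBs : ∃ i : Fin k, i.succ ∈ Bs) :
    ∑ ω ∈ S, ‖MRf (pB px Bs) px.1 (sy B (φ ω))‖ ^ 2 ≤
      4 * C * 2 ^ c * (1 + Real.log Q) ^ (C + 2) * S.card * (px.1 : ℝ) ^ (-c) := by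
  classical
  obtain ⟨hr1, hrQ, hprim⟩ := mem_PC.1 hpx
  obtain ⟨i0, hi0⟩ := hBs
  have hQ1 : 1 ≤ Q := by omega
  have hlog : 0 ≤ Real.log Q := Real.log_natCast_nonneg Q
  set Bs' : Finset (Fin k) := univ.filter (fun i : Fin k => i.succ ∈ Bs) with hBs'
  have hmem : ∀ i : Fin k, i ∈ Bs' ↔ i.succ ∈ Bs := by
    intro i
    rw [hBs', Finset.mem_filter]
    exact ⟨fun h => h.2, fun h => ⟨Finset.mem_univ _, h⟩⟩
  have hne : Bs'.Nonempty := ⟨i0, (hmem i0).2 hi0⟩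
  obtain ⟨hPC, hKS⟩ := r8_KS px hpx Bs'
  have hHpos : 0 < px.1 * (H0 + 1) := Nat.mul_pos (by omega) (Nat.succ_pos _)
  have hmain := r8_FW hC hQ1 hF (pB px Bs') hPC (KT px Bs') hKS (px.1 - 1) (by omega)
    (fun κ hκ => c1_lcm px hpx Bs' hne κ hκ)
    (fun n => cj (pB px Bs 0) (B.eval (n : ℤ)) * ((uu px.1.primeFactors (B.eval (n : ℤ)) : ℝ) : ℂ))
    (fun n => r8_w hr1 hrQ _ _) (px.1 * (H0 + 1)) (by nlinarith) hHpos
  have hnorm : ∀ ω ∈ S, ‖MRf (pB px Bs) px.1 (sy B (φ ω))‖ ^ 2 = (1 / ((px.1 * (H0 + 1) : ℕ) : ℝ) ^ 2) *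
      ‖∑ n ∈ Ico 0 (0 + px.1 * (H0 + 1)), (cj (pB px Bs 0) (B.eval (n : ℤ)) *
        ((uu px.1.primeFactors (B.eval (n : ℤ)) : ℝ) : ℂ)) * ∑ κ ∈ KT px Bs',
        ∏ i, gk (pB px Bs' i) (κ i) (φ ω i (n : ℤ))‖ ^ 2 := by
    intro ω hω
    rw [r8_mean B (φ ω) (hcp ω hω) px hpx Bs Bs' hmem (H0 + 1) (Nat.succ_pos _), norm_div,
      Complex.norm_natCast, div_pow]
    ring
  rw [Finset.sum_congr rfl hnorm, ← Finset.mul_sum]
  refine hmain.trans ?_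
  have hC0 : 0 ≤ 4 * C * (1 + Real.log Q) ^ (C + 2) * S.card := by
    have : 0 ≤ (1 + Real.log Q) ^ (C + 2) := Real.rpow_nonneg (by linarith) _
    positivity
  refine (mul_le_mul_of_nonneg_left (c1_rc hr hc) hC0).trans (le_of_eq ?_)
  ring

theorem r8_gk (κ : ℕ) (hs : Squarefree κ) (m : ℤ) : ‖gk p0 κ m‖ ≤ 1 := by
  have hp : p0 ∈ PC 1 := p0_mem le_rfl
  rw [CA_norm, CA_F_abs m κ hs]
  have h0 : (p0 : Ch).1 = 1 := rfl
  have h1 : ∏ l ∈ κ.primeFactors, (if (l : ℤ) ∣ m then 1 else 1 / ((l : ℝ) - 1)) ≤ 1 := by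
    refine Finset.prod_le_one (fun l hl => ?_) (fun l hl => ?_)
    · have hl' := Nat.mem_primeFactors.1 hl
      have h3 : (2 : ℝ) ≤ l := by exact_mod_cast hl'.1.two_le
      split_ifs
      · exact zero_le_one
      · exact div_nonneg zero_le_one (by linarith)
    · have hl' := Nat.mem_primeFactors.1 hl
      have h3 : (2 : ℝ) ≤ l := by exact_mod_cast hl'.1.two_le
      split_ifs
      · exact le_rfl
      · rw [div_le_one (by linarith)]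
        linarith
  have h2 : 0 ≤ ∏ l ∈ κ.primeFactors, (if (l : ℤ) ∣ m then 1 else 1 / ((l : ℝ) - 1)) := by
    refine Finset.prod_nonneg fun l hl => ?_
    have hl' := Nat.mem_primeFactors.1 hl
    have h3 : (2 : ℝ) ≤ l := by exact_mod_cast hl'.1.two_le
    split_ifs
    · exact zero_le_one
    · exact div_nonneg zero_le_one (by linarith)
  have h4 : ((p0 : Ch).1 : ℝ) / (Nat.totient (p0 : Ch).1 : ℝ) = 1 := by
    rw [h0]
    norm_num
  rw [h4, one_mul]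
  exact mul_le_one₀ (DirichletCharacter.norm_le_one _ _) h2 h1

/-- The `κ` with a small least common multiple. -/
theorem r8_small {k A : ℕ} {B : ℤ[X]} (hB : Lin A B) {Q : ℕ} (φ : Fin k → ℤ → ℤ) (hφ : Cp φ) (px : Ch)
    (hpx : px ∈ PC Q) (D : ℕ) (hD : A * D < px.1) (T : Finset (Fin k → ℕ))
    (hT : ∀ κ ∈ T, (∀ i, 1 ≤ κ i ∧ Squarefree (κ i)) ∧ univ.lcm κ ≤ D) (H : ℕ) :
    ‖∑ n ∈ Ico 0 (0 + H), gk px 1 (B.eval (n : ℤ)) * ∑ κ ∈ T, ∏ i, gk p0 (κ i) (φ i (n : ℤ))‖ ≤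
      (D : ℝ) ^ k * (2 * ((px.1 : ℝ) * D) * px.1) := by
  classical
  obtain ⟨hr1, hrQ, hprim⟩ := mem_PC.1 hpx
  have hr0 : (0 : ℝ) < px.1 := by exact_mod_cast hr1
  have hlc : B.leadingCoeff ≠ 0 := by
    intro h
    rw [leadingCoeff_eq_zero] at h
    have h1 := hB.deg
    rw [h, natDegree_zero] at h1
    exact zero_ne_one h1
  have hlcm : ∀ κ ∈ T, 0 < univ.lcm κ := by
    intro κ hκ
    refine Nat.pos_of_ne_zero ?_
    rw [Ne, Finset.lcm_eq_zero_iff]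
    rintro ⟨i, _, hi⟩
    have := ((hT κ hκ).1 i).1
    omega
  have hcard : (T.card : ℝ) ≤ (D : ℝ) ^ k := by
    have h1 : T ⊆ Fintype.piFinset (fun _ : Fin k => Icc 1 D) := by
      intro κ hκ
      rw [Fintype.mem_piFinset]
      intro i
      rw [Finset.mem_Icc]
      refine ⟨((hT κ hκ).1 i).1, le_trans ?_ (hT κ hκ).2⟩
      exact Nat.le_of_dvd (hlcm κ hκ) (Finset.dvd_lcm (Finset.mem_univ i))
    have h2 := Finset.card_le_card h1
    rw [Fintype.card_piFinset, Finset.prod_const, Finset.card_univ, Fintype.card_fin, Nat.card_Icc,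
      Nat.add_sub_cancel] at h2
    exact_mod_cast h2
  have hone : ∀ κ ∈ T, ‖∑ n ∈ Ico 0 (0 + H), gk px 1 (B.eval (n : ℤ)) * ∏ i, gk p0 (κ i) (φ i (n : ℤ))‖ ≤
      2 * ((px.1 : ℝ) * D) * px.1 := by
    intro κ hκ
    have hN := hlcm κ hκ
    have hND := (hT κ hκ).2
    have hκ1 : 1 ∈ KS px.1 px.1 := by
      rw [KS, Finset.mem_filter, Finset.mem_Icc, Nat.div_self hr1]
      exact ⟨⟨le_rfl, le_rfl⟩, squarefree_one, Nat.coprime_one_left _⟩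
    have hψ : ∀ n : ℤ, (fun n : ℤ => ∏ i, gk p0 (κ i) (φ i n)) (n + (univ.lcm κ : ℕ)) =
        (fun n : ℤ => ∏ i, gk p0 (κ i) (φ i n)) n := by
      intro n
      refine Finset.prod_congr rfl fun i _ => ?_
      obtain ⟨a, ha⟩ := hφ i (univ.lcm κ : ℕ) n
      obtain ⟨b, hb⟩ := Finset.dvd_lcm (f := κ) (Finset.mem_univ i)
      have h1 : φ i (n + (univ.lcm κ : ℕ)) = φ i n + ((p0 : Ch).1 * κ i : ℕ) * (b * a) := by
        have h2 : (p0 : Ch).1 * κ i = κ i := one_mul _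
        have h3 : ((univ.lcm κ : ℕ) : ℤ) = (κ i : ℤ) * b := by exact_mod_cast hb
        rw [h2]
        have h4 : (κ i : ℤ) * (b * a) = ((univ.lcm κ : ℕ) : ℤ) * a := by
          rw [h3]
          ring
        rw [h4, ← ha]
        ring
      rw [h1, gk_period]
    have hΦ : ∀ n : ℤ, ‖(fun n : ℤ => ∏ i, gk p0 (κ i) (φ i n)) n‖ ≤ 1 := by
      intro n
      simp only
      rw [norm_prod]
      exact Finset.prod_le_one (fun _ _ => norm_nonneg _) fun i _ => r8_gk _ ((hT κ hκ).1 i).2 _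
    have hn : ¬ ((px.1 * 1 : ℕ) : ℤ) ∣ B.leadingCoeff * (univ.lcm κ : ℕ) := by
      intro hdv
      have h1 : (px.1 * 1 : ℕ) ∣ (B.leadingCoeff * (univ.lcm κ : ℕ)).natAbs := Int.natCast_dvd.1 hdv
      rw [Int.natAbs_mul, Int.natAbs_natCast, mul_one] at h1
      have h2 : 0 < B.leadingCoeff.natAbs * univ.lcm κ := Nat.mul_pos (Int.natAbs_pos.2 hlc) hN
      have h3 := Nat.le_of_dvd h2 h1
      have h4 := Nat.mul_le_mul hB.lc hND
      omega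
    have h5 := B3_int px.1 px (mem_PC.2 ⟨hr1, le_rfl, hprim⟩) 1 hκ1 B hB.deg (univ.lcm κ) hN
      (fun n : ℤ => ∏ i, gk p0 (κ i) (φ i n)) hψ 1 hΦ hn 0 H
    refine h5.trans ?_
    have h6 : ((univ.lcm κ : ℕ) : ℝ) ≤ D := by exact_mod_cast hND
    rw [mul_one]
    gcongr
  have hsw : ∑ n ∈ Ico 0 (0 + H), gk px 1 (B.eval (n : ℤ)) * ∑ κ ∈ T, ∏ i, gk p0 (κ i) (φ i (n : ℤ)) =
      ∑ κ ∈ T, ∑ n ∈ Ico 0 (0 + H), gk px 1 (B.eval (n : ℤ)) * ∏ i, gk p0 (κ i) (φ i (n : ℤ)) := by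
    rw [Finset.sum_comm]
    exact Finset.sum_congr rfl fun n _ => Finset.mul_sum _ _ _
  rw [hsw]
  refine (norm_sum_le _ _).trans ((Finset.sum_le_sum hone).trans ?_)
  rw [Finset.sum_const, nsmul_eq_mul]
  exact mul_le_mul_of_nonneg_right hcard (by positivity)

theorem r8_sq (x y : ℂ) : ‖x + y‖ ^ 2 ≤ 2 * ‖x‖ ^ 2 + 2 * ‖y‖ ^ 2 := by
  have h1 := norm_add_le x y
  have h2 := pow_le_pow_left₀ (norm_nonneg _) h1 2
  nlinarith [sq_nonneg (‖x‖ - ‖y‖)]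

/-- Only the linear coordinate is twisted. Proof. As `X1B_main` (`H24P/X1B.lean`), with `H = r^5 (H0 + 1)`, the part with
`lcm κ > D = fl r (1/(2k+2))` by `FW` at the level `Q` (`κ ∈ KT px ∅ ⊆ piFinset (KS Q 1)`), `log r ≤ log Q`. -/
theorem R8_lin (k A : ℕ) (hA : 1 ≤ A) (C c : ℝ) (hC : 1 ≤ C) (hc : 0 < c) : ∃ C' c' : ℝ, 1 ≤ C' ∧
    0 < c' ∧ ∀ (Q H0 : ℕ) (B : ℤ[X]), 1 ≤ Q → Lin A B → ∀ (Ω : Type) (S : Finset Ω)
    (φ : Ω → Fin k → ℤ → ℤ), FW C c Q H0 S φ → (∀ ω ∈ S, Cp (φ ω)) → ∀ px : Ch, px ∈ PC Q →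
    2 ≤ px.1 →
    ∑ ω ∈ S, ‖MRf (pB px ({0} : Finset (Fin (k + 1)))) px.1 (sy B (φ ω))‖ ^ 2 ≤
      C' * (1 + Real.log Q) ^ C' * S.card * (px.1 : ℝ) ^ (-c') := by
  classical
  set a : ℝ := 1 / (2 * k + 2) with ha
  have hk0 : (0 : ℝ) ≤ k := Nat.cast_nonneg _
  have ha0 : 0 < a := by positivity
  have ha1 : a * (k + 1) = 1 / 2 := by
    rw [ha]
    field_simp
  have haH : a ≤ 1 / 2 := by
    have : a * 1 ≤ a * (k + 1) := mul_le_mul_of_nonneg_left (by linarith) ha0.le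
    linarith
  set c' : ℝ := min (c * a) 1 with hc'
  have hc'0 : 0 < c' := lt_min (mul_pos hc ha0) one_pos
  have hc'1 : c' ≤ 1 := min_le_right _ _
  have hc'a : c' ≤ c * a := min_le_left _ _
  have hA1 : (1 : ℝ) ≤ A := by exact_mod_cast hA
  have h2c : 0 < (2 : ℝ) ^ c := Real.rpow_pos_of_pos (by norm_num) _
  set M : ℝ := C + 2 + (8 * C * 2 ^ c + 8 + (A : ℝ) ^ (4 * k + 6)) with hM
  have hM1 : 1 ≤ M := by
    have h1 : 0 ≤ 8 * C * 2 ^ c := by positivity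
    have h2 : 0 ≤ (A : ℝ) ^ (4 * k + 6) := by positivity
    linarith
  refine ⟨M, c', hM1, hc'0, ?_⟩
  intro Q H0 B hQ1 hB Ω S φ hF hcp px hpx hr2
  obtain ⟨hr1, hrQ, hprim⟩ := mem_PC.1 hpx
  set r : ℕ := px.1 with hr
  have hlog : 0 ≤ Real.log Q := Real.log_natCast_nonneg Q
  have hrR : (2 : ℝ) ≤ r := by exact_mod_cast hr2
  have hr0 : (0 : ℝ) < r := by linarith
  have hr1R : (1 : ℝ) ≤ r := by linarith
  have hrc : 0 < (r : ℝ) ^ (-c') := Real.rpow_pos_of_pos hr0 _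
  have hL1 : 1 ≤ 1 + Real.log Q := by linarith
  have hLM : (1 + Real.log Q) ^ (C + 2) ≤ (1 + Real.log Q) ^ M := by
    refine Real.rpow_le_rpow_of_exponent_le hL1 ?_
    have h1 : 0 ≤ 8 * C * 2 ^ c := by positivity
    have h2 : 0 ≤ (A : ℝ) ^ (4 * k + 6) := by positivity
    linarith
  have hLM1 : 1 ≤ (1 + Real.log Q) ^ M := Real.one_le_rpow hL1 (by linarith)
  by_cases hbig : r ≤ A ^ 2
  · -- bounded moduli
    have hbR : (r : ℝ) ≤ (A : ℝ) ^ 2 := by exact_mod_cast hbig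
    have h1 : ∀ ω ∈ S, ‖MRf (pB px ({0} : Finset (Fin (k + 1)))) r (sy B (φ ω))‖ ^ 2 ≤
        M * (r : ℝ) ^ (-c') := by
      intro ω _
      have h2 := P0_MR (pB px ({0} : Finset (Fin (k + 1)))) r hr1 (sy B (φ ω))
      have h3 : (r : ℝ) / (Nat.totient r : ℝ) ≤ (A : ℝ) ^ 2 := by
        refine le_trans (div_le_self hr0.le ?_) hbR
        exact_mod_cast Nat.totient_pos.2 (by omega)
      have h4 : ‖MRf (pB px ({0} : Finset (Fin (k + 1)))) r (sy B (φ ω))‖ ≤ ((A : ℝ) ^ 2) ^ (k + 1) :=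
        h2.trans (pow_le_pow_left₀ (by positivity) h3 _)
      have h5 := pow_le_pow_left₀ (norm_nonneg _) h4 2
      refine h5.trans ?_
      have h6 : (((A : ℝ) ^ 2) ^ (k + 1)) ^ 2 = (A : ℝ) ^ (4 * k + 4) := by
        rw [← pow_mul, ← pow_mul]
        congr 1
        ring
      rw [h6]
      have h7 : 1 ≤ (A : ℝ) ^ 2 * (r : ℝ) ^ (-c') := by
        have h8 : (r : ℝ) ^ (-(1 : ℝ)) ≤ (r : ℝ) ^ (-c') :=
          Real.rpow_le_rpow_of_exponent_le hr1R (by linarith)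
        have h9 : (r : ℝ) * (r : ℝ) ^ (-(1 : ℝ)) = 1 := by
          rw [Real.rpow_neg_one, mul_inv_cancel₀ hr0.ne']
        calc (1 : ℝ) = (r : ℝ) * (r : ℝ) ^ (-(1 : ℝ)) := h9.symm
          _ ≤ (A : ℝ) ^ 2 * (r : ℝ) ^ (-c') := mul_le_mul hbR h8 (Real.rpow_nonneg hr0.le _) (by positivity)
      calc (A : ℝ) ^ (4 * k + 4) = (A : ℝ) ^ (4 * k + 4) * 1 := (mul_one _).symm
        _ ≤ (A : ℝ) ^ (4 * k + 4) * ((A : ℝ) ^ 2 * (r : ℝ) ^ (-c')) :=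
            mul_le_mul_of_nonneg_left h7 (by positivity)
        _ = (A : ℝ) ^ (4 * k + 6) * (r : ℝ) ^ (-c') := by
            rw [← mul_assoc, ← pow_add]
        _ ≤ M * (r : ℝ) ^ (-c') := by
            refine mul_le_mul_of_nonneg_right ?_ hrc.le
            have h10 : 0 ≤ 8 * C * 2 ^ c := by positivity
            linarith
    calc ∑ ω ∈ S, ‖MRf (pB px ({0} : Finset (Fin (k + 1)))) r (sy B (φ ω))‖ ^ 2
        ≤ ∑ _ω ∈ S, M * (r : ℝ) ^ (-c') := Finset.sum_le_sum h1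
      _ = M * 1 * S.card * (r : ℝ) ^ (-c') := by
          rw [Finset.sum_const, nsmul_eq_mul]
          ring
      _ ≤ M * (1 + Real.log Q) ^ M * S.card * (r : ℝ) ^ (-c') := by
          refine mul_le_mul_of_nonneg_right ?_ hrc.le
          refine mul_le_mul_of_nonneg_right ?_ (Nat.cast_nonneg _)
          exact mul_le_mul_of_nonneg_left hLM1 (by linarith)
  · push Not at hbig
    set D : ℕ := fl r a with hD
    have hDle : (D : ℝ) ≤ (r : ℝ) ^ a := Nat.floor_le (Real.rpow_nonneg hr0.le _)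
    have hra1 : 1 ≤ (r : ℝ) ^ a := Real.one_le_rpow hr1R ha0.le
    have hD1 : 1 ≤ D := Nat.le_floor (by rw [Nat.cast_one]; exact hra1)
    have hD1R : (1 : ℝ) ≤ D := by exact_mod_cast hD1
    have hDge : (r : ℝ) ^ a / 2 ≤ D := by
      have h1 : (r : ℝ) ^ a < D + 1 := Nat.lt_floor_add_one _
      linarith
    have hDc : (D : ℝ) ^ (-c) ≤ 2 ^ c * (r : ℝ) ^ (-c') := by
      have h1 : (D : ℝ) ^ (-c) ≤ ((r : ℝ) ^ a / 2) ^ (-c) :=
        Real.rpow_le_rpow_of_nonpos (by positivity) hDge (by linarith)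
      refine h1.trans ?_
      rw [Real.div_rpow (by positivity) (by norm_num), ← Real.rpow_mul hr0.le, div_eq_mul_inv, mul_comm,
        ← Real.rpow_neg (by norm_num), neg_neg]
      refine mul_le_mul_of_nonneg_left ?_ h2c.le
      refine Real.rpow_le_rpow_of_exponent_le hr1R ?_
      have : a * -c = -(c * a) := by ring
      rw [this]
      linarith
    have hsq : (r : ℝ) ^ (1 / 2 : ℝ) * (r : ℝ) ^ (1 / 2 : ℝ) = r := by
      rw [← Real.rpow_add hr0]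
      norm_num
    have hs0 : 0 < (r : ℝ) ^ (1 / 2 : ℝ) := Real.rpow_pos_of_pos hr0 _
    have hAD : A * D < r := by
      have h1 : (A : ℝ) < (r : ℝ) ^ (1 / 2 : ℝ) := by
        have h2 : (A : ℝ) ^ 2 < r := by exact_mod_cast hbig
        by_contra hcon
        push Not at hcon
        nlinarith
      have h3 : (D : ℝ) ≤ (r : ℝ) ^ (1 / 2 : ℝ) :=
        hDle.trans (Real.rpow_le_rpow_of_exponent_le hr1R haH)
      have h4 : (A : ℝ) * D < r := by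
        calc (A : ℝ) * D ≤ A * (r : ℝ) ^ (1 / 2 : ℝ) := mul_le_mul_of_nonneg_left h3 (by linarith)
          _ < (r : ℝ) ^ (1 / 2 : ℝ) * (r : ℝ) ^ (1 / 2 : ℝ) := mul_lt_mul_of_pos_right h1 hs0
          _ = r := hsq
      exact_mod_cast h4
    have hDk : (D : ℝ) ^ k * D ≤ r := by
      have h1 : (D : ℝ) ^ (k + 1) ≤ ((r : ℝ) ^ a) ^ (k + 1) := pow_le_pow_left₀ (Nat.cast_nonneg _) hDle _
      rw [← Real.rpow_natCast ((r : ℝ) ^ a), ← Real.rpow_mul hr0.le] at h1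
      have h2 : a * ((k + 1 : ℕ) : ℝ) = 1 / 2 := by
        push_cast
        exact ha1
      rw [h2, pow_succ] at h1
      refine h1.trans ?_
      have h3 := Real.rpow_le_rpow_of_exponent_le hr1R (show (1 / 2 : ℝ) ≤ 1 by norm_num)
      rwa [Real.rpow_one] at h3
    -- the two parts
    have hp0 : ∀ i : Fin k, pB px (∅ : Finset (Fin k)) i = p0 := by
      intro i
      unfold pB
      rw [if_neg (Finset.notMem_empty i)]
    have hpx0 : pB px ({0} : Finset (Fin (k + 1))) 0 = px := by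
      unfold pB
      rw [if_pos (Finset.mem_singleton_self _)]
    obtain ⟨hPC, hKS⟩ := r8_KS px hpx (∅ : Finset (Fin k))
    set T := KT px (∅ : Finset (Fin k)) with hTdef
    set T1 := T.filter (fun κ => D < univ.lcm (fun i => (pB px (∅ : Finset (Fin k)) i).1 * κ i)) with hT1
    set T2 := T.filter (fun κ => ¬ D < univ.lcm (fun i => (pB px (∅ : Finset (Fin k)) i).1 * κ i)) with hT2
    have hmem : ∀ i : Fin k, i ∈ (∅ : Finset (Fin k)) ↔ i.succ ∈ ({0} : Finset (Fin (k + 1))) := by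
      intro i
      rw [Finset.mem_singleton]
      exact ⟨fun h => absurd h (Finset.notMem_empty i), fun h => absurd h (Fin.succ_ne_zero i)⟩
    set H : ℕ := r * (r ^ 4 * (H0 + 1)) with hH
    have hq0 : 0 < r ^ 4 * (H0 + 1) := Nat.mul_pos (pow_pos hr1 4) (Nat.succ_pos _)
    have hH0 : 0 < H := Nat.mul_pos hr1 hq0
    have hHR : (0 : ℝ) < H := by exact_mod_cast hH0
    have hHH : H0 ≤ H := by
      have h1 : 1 ≤ r * r ^ 4 := Nat.mul_pos hr1 (pow_pos hr1 4)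
      calc H0 ≤ 1 * (H0 + 1) := by omega
        _ ≤ (r * r ^ 4) * (H0 + 1) := Nat.mul_le_mul_right _ h1
        _ = H := by rw [hH]; ring
    have hH5 : (r : ℝ) ^ 5 ≤ H := by
      have h1 : r ^ 5 ≤ H := by
        calc r ^ 5 = r * r ^ 4 * 1 := by ring
          _ ≤ r * r ^ 4 * (H0 + 1) := Nat.mul_le_mul_left _ (by omega)
          _ = H := by rw [hH]; ring
      exact_mod_cast h1
    set w : ℕ → ℂ := fun n => cj px (B.eval (n : ℤ)) * ((uu r.primeFactors (B.eval (n : ℤ)) : ℝ) : ℂ) with hw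
    have hwg : ∀ n : ℕ, w n = gk px 1 (B.eval (n : ℤ)) := by
      intro n
      rw [hw]
      simp only
      rw [← B1_SD r hr1 px dvd_rfl (B.eval (n : ℤ))]
      have h1 : SD r px.1 = {1} := x1a_SD1 r hr1
      rw [h1, Finset.sum_singleton]
    have hmain := r8_FW hC hQ1 hF (pB px (∅ : Finset (Fin k))) hPC T1 ((Finset.filter_subset _ _).trans hKS)
      D hD1 (fun κ hκ => (Finset.mem_filter.1 hκ).2) w (fun n => r8_w hr1 hrQ _ _) H hHH hH0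
    have hT2' : ∀ κ ∈ T2, (∀ i, 1 ≤ κ i ∧ Squarefree (κ i)) ∧ univ.lcm κ ≤ D := by
      intro κ hκ
      obtain ⟨h1, h2⟩ := Finset.mem_filter.1 hκ
      refine ⟨fun i => ?_, ?_⟩
      · have h3 := Fintype.mem_piFinset.1 (hKS h1) i
        rw [KS, Finset.mem_filter, Finset.mem_Icc] at h3
        exact ⟨h3.1.1, h3.2.1⟩
      · push Not at h2
        have h3 : (fun i => (pB px (∅ : Finset (Fin k)) i).1 * κ i) = κ := by
          funext i
          rw [hp0 i]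
          exact one_mul _
        rw [h3] at h2
        exact h2
    have hpt : ∀ ω ∈ S, ‖MRf (pB px ({0} : Finset (Fin (k + 1)))) r (sy B (φ ω))‖ ^ 2 ≤
        2 * ((1 / (H : ℝ) ^ 2) * ‖∑ n ∈ Ico 0 (0 + H), w n * ∑ κ ∈ T1,
          ∏ i, gk (pB px (∅ : Finset (Fin k)) i) (κ i) (φ ω i (n : ℤ))‖ ^ 2) + 8 * (r : ℝ) ^ (-c') := by
      intro ω hω
      have h1 := r8_mean B (φ ω) (hcp ω hω) px hpx ({0} : Finset (Fin (k + 1))) ∅ hmem (r ^ 4 * (H0 + 1)) hq0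
      rw [← hr, ← hH, hpx0, ← hTdef] at h1
      have h2 : ∑ n ∈ Ico 0 (0 + H), (cj px (B.eval (n : ℤ)) * ((uu r.primeFactors (B.eval (n : ℤ)) : ℝ) : ℂ)) *
          ∑ κ ∈ T, ∏ i, gk (pB px (∅ : Finset (Fin k)) i) (κ i) (φ ω i (n : ℤ)) =
          ∑ n ∈ Ico 0 (0 + H), w n * ∑ κ ∈ T1, ∏ i, gk (pB px (∅ : Finset (Fin k)) i) (κ i) (φ ω i (n : ℤ)) +
          ∑ n ∈ Ico 0 (0 + H), w n * ∑ κ ∈ T2, ∏ i, gk (pB px (∅ : Finset (Fin k)) i) (κ i) (φ ω i (n : ℤ)) := by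
        rw [← Finset.sum_add_distrib]
        refine Finset.sum_congr rfl fun n _ => ?_
        rw [← mul_add, hT1, hT2, Finset.sum_filter_add_sum_filter_not]
      rw [h2] at h1
      have h3 := r8_small hB (φ ω) (hcp ω hω) px hpx D hAD T2 hT2' H
      have h4 : ∑ n ∈ Ico 0 (0 + H), w n * ∑ κ ∈ T2, ∏ i, gk (pB px (∅ : Finset (Fin k)) i) (κ i) (φ ω i (n : ℤ)) =
          ∑ n ∈ Ico 0 (0 + H), gk px 1 (B.eval (n : ℤ)) * ∑ κ ∈ T2, ∏ i, gk p0 (κ i) (φ ω i (n : ℤ)) := by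
        refine Finset.sum_congr rfl fun n _ => ?_
        rw [hwg n]
        congr 1
      rw [← h4, ← hr] at h3
      generalize ∑ n ∈ Ico 0 (0 + H), w n * ∑ κ ∈ T1,
        ∏ i, gk (pB px (∅ : Finset (Fin k)) i) (κ i) (φ ω i (n : ℤ)) = X at h1 ⊢
      generalize ∑ n ∈ Ico 0 (0 + H), w n * ∑ κ ∈ T2,
        ∏ i, gk (pB px (∅ : Finset (Fin k)) i) (κ i) (φ ω i (n : ℤ)) = Y at h1 h3
      have h5 : ‖Y‖ ≤ 2 * (r : ℝ) ^ 3 := by
        refine h3.trans ?_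
        calc (D : ℝ) ^ k * (2 * ((r : ℝ) * D) * r) = 2 * (r : ℝ) ^ 2 * ((D : ℝ) ^ k * D) := by ring
          _ ≤ 2 * (r : ℝ) ^ 2 * r := mul_le_mul_of_nonneg_left hDk (by positivity)
          _ = 2 * (r : ℝ) ^ 3 := by ring
      rw [h1, norm_div, Complex.norm_natCast, div_pow]
      have h6 := r8_sq X Y
      have h7 : ‖Y‖ ^ 2 / (H : ℝ) ^ 2 ≤ 4 * (r : ℝ) ^ (-c') := by
        have h8 : ‖Y‖ ^ 2 ≤ 4 * (r : ℝ) ^ 6 := by
          have := pow_le_pow_left₀ (norm_nonneg _) h5 2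
          calc ‖Y‖ ^ 2 ≤ (2 * (r : ℝ) ^ 3) ^ 2 := this
            _ = _ := by ring
        have h9 : (r : ℝ) ^ 10 ≤ (H : ℝ) ^ 2 := by
          have := pow_le_pow_left₀ (by positivity) hH5 2
          calc (r : ℝ) ^ 10 = ((r : ℝ) ^ 5) ^ 2 := by ring
            _ ≤ _ := this
        rw [div_le_iff₀ (by positivity)]
        have h10 : 1 ≤ (r : ℝ) ^ (-c') * r := by
          have h11 : (r : ℝ) ^ (-(1 : ℝ)) ≤ (r : ℝ) ^ (-c') :=
            Real.rpow_le_rpow_of_exponent_le hr1R (by linarith)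
          have h12 : (r : ℝ) ^ (-(1 : ℝ)) * r = 1 := by
            rw [Real.rpow_neg_one, inv_mul_cancel₀ hr0.ne']
          calc (1 : ℝ) = (r : ℝ) ^ (-(1 : ℝ)) * r := h12.symm
            _ ≤ _ := mul_le_mul_of_nonneg_right h11 hr0.le
        calc ‖Y‖ ^ 2 ≤ 4 * (r : ℝ) ^ 6 := h8
          _ = 4 * 1 * (r : ℝ) ^ 6 * 1 := by ring
          _ ≤ 4 * ((r : ℝ) ^ (-c') * r) * (r : ℝ) ^ 6 * (r : ℝ) ^ 3 := by
              gcongr
              exact one_le_pow₀ hr1R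
          _ = 4 * (r : ℝ) ^ (-c') * (r : ℝ) ^ 10 := by ring
          _ ≤ 4 * (r : ℝ) ^ (-c') * (H : ℝ) ^ 2 := mul_le_mul_of_nonneg_left h9 (by positivity)
      calc ‖X + Y‖ ^ 2 / (H : ℝ) ^ 2 ≤ (2 * ‖X‖ ^ 2 + 2 * ‖Y‖ ^ 2) / (H : ℝ) ^ 2 :=
            div_le_div_of_nonneg_right h6 (by positivity)
        _ = 2 * (1 / (H : ℝ) ^ 2 * ‖X‖ ^ 2) + 2 * (‖Y‖ ^ 2 / (H : ℝ) ^ 2) := by ring
        _ ≤ _ := by linarith
    have hsum := Finset.sum_le_sum hpt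
    rw [Finset.sum_add_distrib, ← Finset.mul_sum, ← Finset.mul_sum, Finset.sum_const, nsmul_eq_mul] at hsum
    refine hsum.trans ?_
    have hX0 : 0 ≤ 4 * C * (1 + Real.log Q) ^ (C + 2) * S.card := by
      have : 0 ≤ (1 + Real.log Q) ^ (C + 2) := Real.rpow_nonneg (by linarith) _
      positivity
    have h1 := hmain.trans (mul_le_mul_of_nonneg_left hDc hX0)
    have h2 : 2 * (4 * C * (1 + Real.log Q) ^ (C + 2) * S.card * (2 ^ c * (r : ℝ) ^ (-c'))) ≤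
        (8 * C * 2 ^ c) * (1 + Real.log Q) ^ M * S.card * (r : ℝ) ^ (-c') := by
      calc 2 * (4 * C * (1 + Real.log Q) ^ (C + 2) * S.card * (2 ^ c * (r : ℝ) ^ (-c')))
          = (8 * C * 2 ^ c) * (1 + Real.log Q) ^ (C + 2) * S.card * (r : ℝ) ^ (-c') := by ring
        _ ≤ _ := by
            refine mul_le_mul_of_nonneg_right ?_ hrc.le
            refine mul_le_mul_of_nonneg_right ?_ (Nat.cast_nonneg _)
            exact mul_le_mul_of_nonneg_left hLM (by positivity)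
    have h3 : (S.card : ℝ) * (8 * (r : ℝ) ^ (-c')) ≤ 8 * (1 + Real.log Q) ^ M * S.card * (r : ℝ) ^ (-c') := by
      calc (S.card : ℝ) * (8 * (r : ℝ) ^ (-c')) = 8 * 1 * S.card * (r : ℝ) ^ (-c') := by ring
        _ ≤ _ := by
            refine mul_le_mul_of_nonneg_right ?_ hrc.le
            refine mul_le_mul_of_nonneg_right ?_ (Nat.cast_nonneg _)
            exact mul_le_mul_of_nonneg_left hLM1 (by norm_num)
    have h4 : (8 * C * 2 ^ c) * (1 + Real.log Q) ^ M * S.card * (r : ℝ) ^ (-c') +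
        8 * (1 + Real.log Q) ^ M * S.card * (r : ℝ) ^ (-c') ≤
        M * (1 + Real.log Q) ^ M * S.card * (r : ℝ) ^ (-c') := by
      have h5 : (8 * C * 2 ^ c) * (1 + Real.log Q) ^ M * S.card * (r : ℝ) ^ (-c') +
          8 * (1 + Real.log Q) ^ M * S.card * (r : ℝ) ^ (-c') =
          (8 * C * 2 ^ c + 8) * ((1 + Real.log Q) ^ M * S.card * (r : ℝ) ^ (-c')) := by ring
      have h6 : M * (1 + Real.log Q) ^ M * S.card * (r : ℝ) ^ (-c') =
          M * ((1 + Real.log Q) ^ M * S.card * (r : ℝ) ^ (-c')) := by ring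
      rw [h5, h6]
      refine mul_le_mul_of_nonneg_right ?_ (by positivity)
      have h7 : 0 ≤ (A : ℝ) ^ (4 * k + 6) := by positivity
      linarith
    linarith

end Pool.Agent.Lib.H24Q
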